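import Mathlib

/-! The limit of the bottleneck method for resolution. -/

set_option autoImplicit false

namespace Pool.Agent.P.MP_0f6e60_lc.Barrier

open Finset Classical

abbrev Cl (n : ℕ) := Finset (Fin n × Bool)

variable {n : ℕ}

/-- `Out F H C`: the clause `C` has a derivation from `F`, by the resolution rule with weakening,
in which no derived line (including `C`) belongs to `H`. -/
inductive Out (F H : Finset (Finset (Fin n × Bool))) : Finset (Fin n × Bool) → Prop
  | ax {C : Finset (Fin n × Bool)} : C ∈ F → Out F H C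
  | res {C₁ C₂ D : Finset (Fin n × Bool)} {x : Fin n} : Out F H C₁ → Out F H C₂ →
      C₁ ⊆ insert (x, true) D → C₂ ⊆ insert (x, false) D → D ∉ H → Out F H D

/-- `First F H D`: the clause `D` is the first member of `H` in some derivation from `F`. -/
def First (F H : Finset (Finset (Fin n × Bool))) (D : Finset (Fin n × Bool)) : Prop :=
  D ∈ H ∧ ∃ (C₁ C₂ : Finset (Fin n × Bool)) (x : Fin n), Out F H C₁ ∧ Out F H C₂ ∧
    C₁ ⊆ insert (x, true) D ∧ C₂ ⊆ insert (x, false) D

/-- Soundness of the method: every resolution refutation contains a clause that is first for `H`. -/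
theorem exists_first {F H : Finset (Cl n)} (h0 : ∅ ∈ H) (hF : ∀ C ∈ F, C ∉ H) {s : ℕ}
    {P : Fin s → Cl n} (h1 : ∃ i, P i = ∅) (h2 : ∀ i, P i ∈ F ∨ ∃ j l : Fin s, j < i ∧ l < i ∧
      ∃ v : Fin n, (v, true) ∈ P j ∧ (v, false) ∈ P l ∧
        P i = (P j).erase (v, true) ∪ (P l).erase (v, false)) : ∃ i, First F H (P i) := by
  by_contra hn
  have key : ∀ i, Out F H (P i) ∧ P i ∉ H := by
    intro i
    induction i using WellFoundedLT.induction with
    | ind i ih =>
      rcases h2 i with h | ⟨j, l, hj, hl, v, -, -, h⟩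
      · exact ⟨.ax h, hF _ h⟩
      · have a : P j ⊆ insert (v, true) (P i) :=
          h ▸ (insert_erase_subset _ _).trans (insert_subset_insert _ subset_union_left)
        have b : P l ⊆ insert (v, false) (P i) :=
          h ▸ (insert_erase_subset _ _).trans (insert_subset_insert _ subset_union_right)
        have c : P i ∉ H := fun c => hn ⟨i, c, _, _, v, (ih j hj).1, (ih l hl).1, a, b⟩
        exact ⟨.res (ih j hj).1 (ih l hl).1 a b c, c⟩
  obtain ⟨i, hi⟩ := h1
  exact (key i).2 (hi ▸ h0)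

def cut (D : Cl n) (i : ℕ) : Cl n := D.filter fun l => (l.1 : ℕ) < i

def Bd (G : Cl n → Prop) (D : Cl n) : Prop := G D ∧ ∃ x, ∀ b, ¬G (insert (x, b) D)

def Scan (G : Cl n → Prop) (γ : Fin n → Bool) (D : Cl n) : Prop :=
  (∀ l ∈ D, l.2 = γ l.1) ∧ G D ∧ ∀ j : Fin n, (j, γ j) ∈ D ↔ G (insert (j, γ j) (cut D j))

theorem exists_scan {G : Cl n → Prop} (h0 : G ∅) (γ : Fin n → Bool) : ∃ D, Scan G γ D := by
  have : ∀ i : ℕ, ∃ D : Cl n, (∀ l ∈ D, l.2 = γ l.1 ∧ (l.1 : ℕ) < i) ∧ G D ∧
      ∀ j : Fin n, (j : ℕ) < i → ((j, γ j) ∈ D ↔ G (insert (j, γ j) (cut D j))) := by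
    intro i
    induction i with
    | zero => exact ⟨∅, by simp, h0, by simp⟩
    | succ i ih =>
      obtain ⟨D, h1, h2, h3⟩ := ih
      have hc : cut D i = D := filter_true_of_mem fun l hl => (h1 l hl).2
      by_cases h : ∃ j : Fin n, (j : ℕ) = i ∧ G (insert (j, γ j) D)
      · obtain ⟨x, rfl, hx⟩ := h
        refine ⟨_, ?_, hx, fun j hj => ?_⟩
        · intro l hl
          rcases mem_insert.1 hl with rfl | hl
          · simp
          · exact ⟨(h1 l hl).1, (h1 l hl).2.trans (by omega)⟩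
        · rw [show cut (insert (x, γ x) D) j = cut D j by
            rw [cut, filter_insert, if_neg (by simp only; omega)]; rfl]
          rcases eq_or_ne j x with rfl | hne
          · simp [hc, hx]
          · rw [← h3 j (by omega)]; simp [hne]
      · refine ⟨D, fun l hl => ⟨(h1 l hl).1, (h1 l hl).2.trans (by omega)⟩, h2, fun j hj => ?_⟩
        rcases eq_or_ne (j : ℕ) i with rfl | hne
        · rw [hc]
          exact ⟨fun h4 => absurd (h1 _ h4).2 (lt_irrefl _), fun h4 => absurd ⟨j, rfl, h4⟩ h⟩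
        · exact h3 j (by omega)
  obtain ⟨D, h1, h2, h3⟩ := this n
  exact ⟨D, fun l hl => (h1 l hl).1, h2, fun j => h3 j j.2⟩

theorem scan_det {G : Cl n → Prop} {γ γ' : Fin n → Bool} {D D' : Cl n} (h : Scan G γ D)
    (h' : Scan G γ' D') {j : Fin n} (e : cut D (j + 1) = cut D' (j + 1))
    (hb : ¬∀ b, ¬G (insert (j, b) (cut D j))) : γ j = γ' j := by
  have e1 : ∀ l : Fin n × Bool, (l.1 : ℕ) < j + 1 → (l ∈ D ↔ l ∈ D') := fun l hl => by
    simpa only [cut, mem_filter, hl, and_true] using Finset.ext_iff.1 e l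
  have e2 : cut D j = cut D' j := by
    ext l
    simp only [cut, mem_filter]
    exact and_congr_left fun hl => e1 l (by omega)
  by_contra hne
  have a : ¬G (insert (j, γ j) (cut D j)) := fun a =>
    hne (h'.1 _ ((e1 _ (by simp)).1 ((h.2.2 j).2 a)))
  have a' : ¬G (insert (j, γ' j) (cut D j)) := fun a =>
    hne (h.1 _ ((e1 _ (by simp)).2 ((h'.2.2 j).2 (e2 ▸ a)))).symm
  refine hb fun b => ?_
  rcases eq_or_ne b (γ j) with rfl | hb
  · exact a
  · rwa [show b = γ' j by revert hb hne; cases b <;> cases γ j <;> cases γ' j <;> simp]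

/-- Clauses without complementary literals. -/
noncomputable def NT (n : ℕ) : Finset (Cl n) := {E | ∃ τ : Fin n → Bool, ∀ l ∈ E, l.2 = τ l.1}

theorem card_NT : #(NT n) ≤ 3 ^ n := by
  have : NT n ⊆ univ.image fun e : Fin n → Option Bool =>
      ({l | e l.1 = some l.2} : Finset (Fin n × Bool)) := by
    intro E hE
    obtain ⟨τ, h⟩ := (mem_filter.1 hE).2
    refine mem_image.2 ⟨fun j => if (j, τ j) ∈ E then some (τ j) else none, mem_univ _, ?_⟩
    ext ⟨j, b⟩
    simp only [mem_filter, mem_univ, true_and]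
    refine ⟨fun h1 => ?_, fun h1 => ?_⟩
    · split_ifs at h1 with h2
      exact Option.some.inj h1 ▸ h2
    · obtain rfl : b = τ j := h _ h1
      rw [if_pos h1]
  exact (card_le_card this).trans (card_image_le.trans (by simp))

theorem card_small (k : ℕ) : #{S : Finset (Fin n) | #S < k} ≤ ∑ j ∈ range k, n.choose j := by
  have : ({S : Finset (Fin n) | #S < k} : Finset _) ⊆
      (range k).biUnion fun j => powersetCard j univ := by
    intro S hS
    simpa using hS
  exact (card_le_card this).trans (card_biUnion_le.trans (by simp))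

theorem count {k : ℕ} {F : Finset (Cl n)} (hk : ∀ C ∈ F, #C ≤ k)
    (hu : ∀ a : Fin n → Bool, ∃ C ∈ F, ∀ l ∈ C, a l.1 ≠ l.2) {G : Cl n → Prop} (h0 : G ∅)
    (hd : ∀ D D', D' ⊆ D → G D → G D') (hF : ∀ C ∈ F, ¬G C) :
    2 ^ n ≤ #{x ∈ (univ : Finset (Fin n)) ×ˢ NT n | Bd G (cut x.2 x.1)} +
      #{x ∈ ({S : Finset (Fin n) | #S < k} : Finset _) ×ˢ NT n | Bd G x.2} := by
  choose D hD using exists_scan h0
  let B : (Fin n → Bool) → Fin n → Prop := fun γ j => ∀ b, ¬G (insert (j, b) (cut (D γ) j))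
  rw [show 2 ^ n = #(univ : Finset (Fin n → Bool)) by simp,
    ← card_filter_add_card_filter_not fun γ => ∃ j, B γ j]
  refine add_le_add ?_ ?_
  · have hB : ∀ γ, (∃ j, B γ j) → ∃ i, B γ i ∧ ∀ j < i, ¬B γ j := fun γ h => by
      obtain ⟨i, h1, h2⟩ := exists_min_image {j | B γ j} id (by simpa [Finset.Nonempty] using h)
      exact ⟨i, (mem_filter.1 h1).2, fun j hj h3 => (h2 j (by simpa using h3)).not_gt hj⟩
    rcases Nat.eq_zero_or_pos n with rfl | hn
    · simp
    have : Nonempty (Fin n) := ⟨⟨0, hn⟩⟩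
    choose! i h1 h2 using hB
    let E : (Fin n → Bool) → Cl n := fun γ =>
      univ.filter fun l => l.2 = γ l.1 ∧ (l ∈ D γ ∨ i γ ≤ l.1)
    have hE : ∀ γ (j : ℕ), j ≤ i γ → cut (E γ) j = cut (D γ) j := fun γ j hj => by
      ext l
      simp only [cut, E, mem_filter, mem_univ, true_and]
      exact and_congr_left fun hl => ⟨fun h => h.2.resolve_right (by omega),
        fun h => ⟨(hD γ).1 l h, .inl h⟩⟩
    refine card_le_card_of_injOn (fun γ => (i γ, E γ)) (fun γ hγ => ?_) fun γ hγ γ' hγ' e => ?_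
    · refine mem_filter.2 ⟨mem_product.2 ⟨mem_univ _, mem_filter.2 ⟨mem_univ _, γ, fun l hl =>
        (mem_filter.1 hl).2.1⟩⟩, ?_⟩
      rw [hE γ _ le_rfl]
      exact ⟨hd _ _ (filter_subset _ _) (hD γ).2.1, _, h1 γ (mem_filter.1 hγ).2⟩
    · obtain ⟨e1, e2⟩ := Prod.mk.inj e
      funext j
      rcases lt_or_ge j (i γ) with h | h
      · refine scan_det (hD γ) (hD γ') ?_ (h2 γ (mem_filter.1 hγ).2 j h)
        rw [← hE γ _ h, ← hE γ' _ (e1 ▸ h), e2]
      · have : (j, γ j) ∈ E γ := mem_filter.2 ⟨mem_univ _, rfl, .inr h⟩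
        rw [e2] at this
        exact (mem_filter.1 this).2.1
  · have : ∀ γ, ∃ x : Finset (Fin n) × Cl n, #x.1 < k ∧ x.2 ∈ NT n ∧ Bd G x.2 ∧
        D γ = {l ∈ x.2 | l.1 ∉ x.1} := fun γ => by
      let τ : Fin n → Bool := fun j => if (j, γ j) ∈ D γ then γ j else !γ j
      obtain ⟨C, hC, hτ⟩ := hu fun j => !τ j
      replace hτ : ∀ l ∈ C, l.2 = τ l.1 := fun l hl => by simpa [eq_comm] using hτ l hl
      have hτ' : ∀ l ∈ D γ, l.2 = τ l.1 := fun l hl => by
        have := (hD γ).1 l hl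
        simp only [τ, ← this, if_pos hl]
      obtain ⟨R, hR, hm⟩ := exists_max_image {R ∈ C.powerset | G (D γ ∪ R)} card
        ⟨∅, by simpa using (hD γ).2.1⟩
      obtain ⟨hR, hG⟩ := mem_filter.1 hR
      have hs : R ⊂ C := (mem_powerset.1 hR).ssubset_of_ne fun e =>
        hF C hC (hd _ _ subset_union_right (e ▸ hG))
      obtain ⟨l, hl, hl'⟩ := exists_of_ssubset hs
      have hn : ¬G (insert l (D γ ∪ R)) := fun h => by
        have := hm (insert l R) (mem_filter.2 ⟨mem_powerset.2 (insert_subset hl hs.1), by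
          rwa [union_insert]⟩)
        rw [card_insert_of_notMem hl'] at this
        omega
      have hτ2 : ∀ l ∈ D γ ∪ R, l.2 = τ l.1 := fun l hl =>
        (mem_union.1 hl).elim (hτ' l) fun h => hτ l (hs.1 h)
      refine ⟨((R \ D γ).image Prod.fst, D γ ∪ R), (card_image_le.trans
        (card_le_card sdiff_subset)).trans_lt ((card_lt_card hs).trans_le (hk C hC)),
        mem_filter.2 ⟨mem_univ _, τ, hτ2⟩, ⟨hG, l.1, fun b => ?_⟩, ?_⟩
      · rcases eq_or_ne b l.2 with rfl | hb
        · exact hn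
        have h1 : (l.1, γ l.1) ∉ D γ := fun h => hn (by
          have := hτ l hl
          simp only [τ, if_pos h] at this
          rwa [insert_eq_of_mem (mem_union_left _ (by rwa [← this] at h))])
        have h2 : b = γ l.1 := by
          have := hτ l hl
          simp only [τ, if_neg h1] at this
          revert hb this; cases b <;> cases l.2 <;> cases γ l.1 <;> simp
        exact fun h => h1 (((hD γ).2.2 _).2 (hd _ _ (h2 ▸ insert_subset_insert _
          ((filter_subset _ _).trans subset_union_left)) h))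
      · ext m
        simp only [mem_filter, mem_image, mem_sdiff]
        refine ⟨fun h => ⟨mem_union_left _ h, ?_⟩, fun h => (mem_union.1 h.1).elim id fun h1 =>
          by_contra fun h2 => h.2 ⟨m, ⟨h1, h2⟩, rfl⟩⟩
        rintro ⟨m', ⟨h1, h2⟩, h3⟩
        refine h2 (by rwa [show m' = m from Prod.ext h3 (by rw [hτ _ (hs.1 h1), hτ' _ h, h3])])
    choose x h1 h2 h3 h4 using this
    refine card_le_card_of_injOn x (fun γ _ => mem_filter.2 ⟨mem_product.2
      ⟨mem_filter.2 ⟨mem_univ _, h1 γ⟩, h2 γ⟩, h3 γ⟩) fun γ hγ γ' _ e => funext fun j => ?_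
    exact scan_det (hD γ) (hD γ') (by rw [h4, h4, e]) fun h => (mem_filter.1 hγ).2 ⟨j, h⟩

theorem count_first {k : ℕ} {F H : Finset (Cl n)} (hk : ∀ C ∈ F, #C ≤ k)
    (hu : ∀ a : Fin n → Bool, ∃ C ∈ F, ∀ l ∈ C, a l.1 ≠ l.2) (h0 : ∅ ∈ H) (hF : ∀ C ∈ F, C ∉ H) :
    2 ^ n ≤ #{x ∈ (univ : Finset (Fin n)) ×ˢ NT n | First F H (cut x.2 x.1)} +
      #{x ∈ ({S : Finset (Fin n) | #S < k} : Finset _) ×ˢ NT n | First F H x.2} := by
  have key : ∀ D, Bd (fun D => ∀ C ⊆ D, ¬Out F H C) D → First F H D := by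
    rintro D ⟨h1, x, h2⟩
    push Not at h2
    obtain ⟨C₁, a, b⟩ := h2 true
    obtain ⟨C₂, c, d⟩ := h2 false
    exact ⟨by_contra fun h => h1 D Subset.rfl (.res b d a c h), C₁, C₂, x, b, d, a, c⟩
  refine (count hk hu (G := fun D => ∀ C ⊆ D, ¬Out F H C) (fun C hC h => ?_)
    (fun D D' h1 h2 C h3 => h2 C (h3.trans h1)) fun C hC h => h C Subset.rfl (.ax hC)).trans
    (add_le_add (card_le_card (monotone_filter_right _ fun _ _ => key _))
      (card_le_card (monotone_filter_right _ fun _ _ => key _)))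
  obtain rfl := subset_empty.1 hC
  cases h with
  | ax h => exact hF _ h h0
  | res _ _ _ _ h => exact h h0

end Pool.Agent.P.MP_0f6e60_lc.Barrier
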