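import Mathlib

set_option autoImplicit false

namespace Pool.Agent.P.MP_0f6e60_lc

open Finset

variable {n : ℕ} {ι : Type} [Fintype ι] [DecidableEq ι]

/-- Variables occurring in the clauses with index in `K`. -/
def vars (c : ι → Finset (Fin n × Bool)) (K : Finset ι) : Finset (Fin n) :=
  K.biUnion fun i => (c i).image Prod.fst

/-- Clause `i` is not satisfied by `z` restricted to `T`. -/
def Uns (c : ι → Finset (Fin n × Bool)) (z : Fin n → Bool) (T : Finset (Fin n)) (i : ι) : Prop :=
  ∀ l ∈ c i, l.1 ∈ T → z l.1 ≠ l.2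

/-- Small sets of unsatisfied clauses have many free variables. -/
def Expands (c : ι → Finset (Fin n × Bool)) (s r : ℕ) (z : Fin n → Bool) (T : Finset (Fin n)) :
    Prop :=
  ∀ K : Finset ι, K.card ≤ s → (∀ i ∈ K, Uns c z T i) → r * K.card ≤ (vars c K \ T).card

/-- Few clauses lie inside a set of at most `a` literals. -/
def Sparse (c : ι → Finset (Fin n × Bool)) (s a : ℕ) : Prop :=
  ∀ A : Finset (Fin n × Bool), A.card ≤ a → ∀ K : Finset ι, (∀ i ∈ K, c i ⊆ A) → K.card < s

omit [Fintype ι] [DecidableEq ι] in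
lemma mem_vars {c : ι → Finset (Fin n × Bool)} {K : Finset ι} {v : Fin n} :
    v ∈ vars c K ↔ ∃ i ∈ K, ∃ l ∈ c i, l.1 = v := by
  simp only [vars, mem_biUnion, mem_image]

omit [Fintype ι] in
lemma vars_union (c : ι → Finset (Fin n × Bool)) (K L : Finset ι) :
    vars c (K ∪ L) = vars c K ∪ vars c L := by
  ext v
  simp only [mem_vars, mem_union]
  constructor
  · rintro ⟨i, hi | hi, h⟩
    · exact Or.inl ⟨i, hi, h⟩
    · exact Or.inr ⟨i, hi, h⟩
  · rintro (⟨i, hi, h⟩ | ⟨i, hi, h⟩)
    · exact ⟨i, Or.inl hi, h⟩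
    · exact ⟨i, Or.inr hi, h⟩

omit [Fintype ι] in
lemma hall_sat {c : ι → Finset (Fin n × Bool)} {s : ℕ} {z : Fin n → Bool} {T : Finset (Fin n)}
    (h : Expands c s 1 z T) {N : Finset ι} (hN : N.card ≤ s) :
    ∃ z' : Fin n → Bool, (∀ v, v ∈ T ∨ v ∉ vars c N → z' v = z v) ∧
      ∀ i ∈ N, ∃ l ∈ c i, z' l.1 = l.2 := by
  classical
  let M := N.filter fun i => Uns c z T i
  let t : {i // i ∈ M} → Finset (Fin n) := fun i => (c i.1).image Prod.fst \ T
  have hh : ∀ S : Finset {i // i ∈ M}, S.card ≤ (S.biUnion t).card := by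
    intro S
    have h1 := h (S.map (Function.Embedding.subtype _)) (by
      rw [card_map]
      calc S.card ≤ Fintype.card {i // i ∈ M} := card_le_univ S
        _ = M.card := Fintype.card_coe M
        _ ≤ N.card := card_filter_le _ _
        _ ≤ s := hN) (by
      intro i hi
      obtain ⟨j, -, rfl⟩ := mem_map.1 hi
      exact (mem_filter.1 j.2).2)
    rw [card_map, one_mul] at h1
    refine h1.trans (card_le_card ?_)
    intro v hv
    obtain ⟨hv1, hv2⟩ := mem_sdiff.1 hv
    obtain ⟨i, hi, l, hl, rfl⟩ := mem_vars.1 hv1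
    obtain ⟨j, hj, rfl⟩ := mem_map.1 hi
    exact mem_biUnion.2 ⟨j, hj, mem_sdiff.2 ⟨mem_image_of_mem _ hl, hv2⟩⟩
  obtain ⟨f, hf, hft⟩ := (all_card_le_biUnion_card_iff_exists_injective t).1 hh
  have hl : ∀ x : {i // i ∈ M}, ∃ l ∈ c x.1, l.1 = f x := fun x => by
    obtain ⟨l, hl, e⟩ := mem_image.1 (mem_sdiff.1 (hft x)).1
    exact ⟨l, hl, e⟩
  choose lit hlit hlf using hl
  refine ⟨fun v => if h : ∃ x, f x = v then (lit h.choose).2 else z v, ?_, ?_⟩
  · intro v hv
    have : ¬ ∃ x, f x = v := by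
      rintro ⟨x, rfl⟩
      rcases hv with hv | hv
      · exact (mem_sdiff.1 (hft x)).2 hv
      · exact hv (mem_vars.2 ⟨x.1, (mem_filter.1 x.2).1, lit x, hlit x, hlf x⟩)
    simp only [dif_neg this]
  · intro i hi
    by_cases hu : Uns c z T i
    · let x : {i // i ∈ M} := ⟨i, mem_filter.2 ⟨hi, hu⟩⟩
      refine ⟨lit x, hlit x, ?_⟩
      have he : ∃ y, f y = (lit x).1 := ⟨x, (hlf x).symm⟩
      have : he.choose = x := hf (he.choose_spec.trans (hlf x))
      simp only [dif_pos he, this]
    · unfold Uns at hu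
      push Not at hu
      obtain ⟨l, hl, hT, e⟩ := hu
      refine ⟨l, hl, ?_⟩
      have : ¬ ∃ x, f x = l.1 := by
        rintro ⟨x, hx⟩
        exact (mem_sdiff.1 (hft x)).2 (hx ▸ hT)
      simp only [dif_neg this, e]

/-- Bookkeeping of one phase. -/
structure St (c : ι → Finset (Fin n × Bool)) (s : ℕ) (z : Fin n → Bool) (B U : Finset (Fin n))
    (K : Finset ι) : Prop where
  hU : U.card ≤ 2 * K.card
  hK : ∀ i ∈ K, ∀ l ∈ c i, l.1 ∈ U ∨ (l.1 ∈ B ∧ z l.1 ≠ l.2)
  hsat : ∀ i ∈ K, ∃ l ∈ c i, l.1 ∈ B ∪ U ∧ z l.1 = l.2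
  hs : K.card < s

lemma closure {c : ι → Finset (Fin n × Bool)} {s a : ℕ} (hS : Sparse c s a)
    {z : Fin n → Bool} {B U T : Finset (Fin n)} {K : Finset ι} (h : St c s z B U K)
    (hT : B ∪ U ⊆ T) (hE : Expands c s 1 z T) (hB : B.card + 8 * s ≤ a) :
    ∃ z' U' K', St c s z' B U' K' ∧ U ⊆ U' ∧ (∀ v, v ∈ T ∨ v ∉ U' → z' v = z v) ∧
      Expands c s 2 z' (B ∪ U') := by
  classical
  have small : ∀ N : Finset ι, Disjoint K N → (∀ i ∈ N, Uns c z (B ∪ U) i) →
      (vars c N \ (B ∪ U)).card ≤ 2 * N.card → K.card + N.card ≤ 2 * s →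
      K.card + N.card < s := by
    intro N hd hu hv hc
    let W := U ∪ (vars c N \ (B ∪ U))
    have hW : W.card ≤ 4 * s := by
      have := card_union_le U (vars c N \ (B ∪ U))
      have := h.hU
      simp only [W]; omega
    let A : Finset (Fin n × Bool) := B.image (fun v => (v, !z v)) ∪ W ×ˢ univ
    have hA : A.card ≤ a := by
      have h1 := card_union_le (B.image (fun v => (v, !z v))) (W ×ˢ (univ : Finset Bool))
      have h2 : (B.image (fun v => (v, !z v))).card ≤ B.card := card_image_le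
      have h3 : (W ×ˢ (univ : Finset Bool)).card = W.card * 2 := by simp
      simp only [A]; omega
    have hfalse : ∀ l : Fin n × Bool, l.1 ∈ B → z l.1 ≠ l.2 → l ∈ A := by
      rintro ⟨v, b⟩ h1 h2
      refine mem_union_left _ (mem_image.2 ⟨v, h1, ?_⟩)
      simp only at h2
      cases b <;> cases hz : z v <;> simp_all
    have hin : ∀ l : Fin n × Bool, l.1 ∈ W → l ∈ A := fun l h1 =>
      mem_union_right _ (mem_product.2 ⟨h1, mem_univ _⟩)
    have := hS A hA (K ∪ N) (by
      intro i hi l hl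
      rcases mem_union.1 hi with hi | hi
      · rcases h.hK i hi l hl with h1 | h1
        · exact hin l (mem_union_left _ h1)
        · exact hfalse l h1.1 h1.2
      · by_cases h1 : l.1 ∈ U
        · exact hin l (mem_union_left _ h1)
        · by_cases h2 : l.1 ∈ B
          · exact hfalse l h2 (hu i hi l hl (mem_union_left _ h2))
          · exact hin l (mem_union_right _ (mem_sdiff.2 ⟨mem_vars.2 ⟨i, hi, l, hl, rfl⟩, by
              simp [h1, h2]⟩)))
    rwa [card_union_of_disjoint hd] at this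
  obtain ⟨N, hN, hmax⟩ := exists_max_image (univ.filter fun N : Finset ι => Disjoint K N ∧
    (∀ i ∈ N, Uns c z (B ∪ U) i) ∧ (vars c N \ (B ∪ U)).card ≤ 2 * N.card ∧
      K.card + N.card < s) card ⟨∅, by simpa [vars] using h.hs⟩
  obtain ⟨hd, hu, hv, hc⟩ := (mem_filter.1 hN).2
  obtain ⟨z', hz, hsat⟩ := hall_sat hE (N := N) (by omega)
  have hzT : ∀ v ∈ B ∪ U, z' v = z v := fun v hv => hz v (Or.inl (hT hv))
  have hst : St c s z' B (U ∪ (vars c N \ (B ∪ U))) (K ∪ N) := by
    refine ⟨?_, ?_, ?_, ?_⟩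
    · have := card_union_le U (vars c N \ (B ∪ U))
      have := h.hU
      rw [card_union_of_disjoint hd]; omega
    · intro i hi l hl
      rcases mem_union.1 hi with hi | hi
      · rcases h.hK i hi l hl with h1 | h1
        · exact Or.inl (mem_union_left _ h1)
        · exact Or.inr ⟨h1.1, by rw [hzT _ (mem_union_left _ h1.1)]; exact h1.2⟩
      · by_cases h1 : l.1 ∈ U
        · exact Or.inl (mem_union_left _ h1)
        · by_cases h2 : l.1 ∈ B
          · exact Or.inr ⟨h2, by
              rw [hzT _ (mem_union_left _ h2)]; exact hu i hi l hl (mem_union_left _ h2)⟩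
          · exact Or.inl (mem_union_right _ (mem_sdiff.2 ⟨mem_vars.2 ⟨i, hi, l, hl, rfl⟩, by
              simp [h1, h2]⟩))
    · intro i hi
      rcases mem_union.1 hi with hi | hi
      · obtain ⟨l, hl, h1, h2⟩ := h.hsat i hi
        refine ⟨l, hl, ?_, by rw [hzT _ h1]; exact h2⟩
        rcases mem_union.1 h1 with h1 | h1
        · exact mem_union_left _ h1
        · exact mem_union_right _ (mem_union_left _ h1)
      · obtain ⟨l, hl, h1⟩ := hsat i hi
        refine ⟨l, hl, ?_, h1⟩
        have : l.1 ∈ vars c N := mem_vars.2 ⟨i, hi, l, hl, rfl⟩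
        simp only [mem_union, mem_sdiff]
        tauto
    · rw [card_union_of_disjoint hd]; exact hc
  refine ⟨z', _, _, hst, subset_union_left, ?_, ?_⟩
  · intro v hv
    rcases hv with hv | hv
    · exact hz v (Or.inl hv)
    · by_cases h1 : v ∈ vars c N
      · refine hz v (Or.inl (hT ?_))
        by_contra h2
        exact hv (mem_union_right _ (mem_sdiff.2 ⟨h1, h2⟩))
      · exact hz v (Or.inr h1)
  · intro L hL hLu
    by_contra hlt
    push Not at hlt
    have hdL : Disjoint (K ∪ N) L := by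
      rw [disjoint_left]
      intro i hi hiL
      obtain ⟨l, hl, h1, h2⟩ := hst.hsat i hi
      exact hLu i hiL l hl h1 h2
    have hd1 : Disjoint K L := hdL.mono_left subset_union_left
    have hd2 : Disjoint N L := hdL.mono_left subset_union_right
    have hcard : (N ∪ L).card = N.card + L.card := card_union_of_disjoint hd2
    have h1 : Disjoint K (N ∪ L) := disjoint_union_right.2 ⟨hd, hd1⟩
    have h2 : ∀ i ∈ N ∪ L, Uns c z (B ∪ U) i := by
      intro i hi
      rcases mem_union.1 hi with hi | hi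
      · exact hu i hi
      · intro l hl hl1
        rw [← hzT _ hl1]
        refine hLu i hi l hl ?_
        rcases mem_union.1 hl1 with h1 | h1
        · exact mem_union_left _ h1
        · exact mem_union_right _ (mem_union_left _ h1)
    have h3 : (vars c (N ∪ L) \ (B ∪ U)).card ≤ 2 * (N ∪ L).card := by
      have : vars c (N ∪ L) \ (B ∪ U) ⊆ (vars c N \ (B ∪ U)) ∪
          (vars c L \ (B ∪ (U ∪ (vars c N \ (B ∪ U))))) := by
        intro v hv
        rw [vars_union] at hv
        simp only [mem_union, mem_sdiff] at hv ⊢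
        tauto
      have h4 := (card_le_card this).trans (card_union_le _ _)
      omega
    have h4 := small (N ∪ L) h1 h2 h3 (by omega)
    have h5 := hmax (N ∪ L) (mem_filter.2 ⟨mem_univ _, h1, h2, h3, h4⟩)
    omega

end Pool.Agent.P.MP_0f6e60_lc
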