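import Pool.Agent.P.MP_0f6e60_lc.Game

set_option autoImplicit false

namespace Pool.Agent.P.MP_0f6e60_lc

open Finset

variable {n k m : ℕ}

lemma card_inside (I : Finset (Fin m)) (A : Finset (Fin n × Bool)) (hn : 0 < n) :
    ((univ.filter fun ω : Fin m → Fin k → Fin n × Bool => ∀ i ∈ I, ∀ j, ω i j ∈ A).card : ℝ) =
      ((2 * n : ℝ) ^ k) ^ m * (((A.card : ℝ) / (2 * n)) ^ k) ^ I.card := by
  classical
  have e : (univ.filter fun ω : Fin m → Fin k → Fin n × Bool => ∀ i ∈ I, ∀ j, ω i j ∈ A) =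
      Fintype.piFinset fun i => if i ∈ I then Fintype.piFinset fun _ => A else univ := by
    ext ω
    simp only [mem_filter, mem_univ, true_and, Fintype.mem_piFinset]
    refine forall_congr' fun i => ?_
    by_cases hi : i ∈ I <;> simp [hi]
  rw [e, Fintype.card_piFinset]
  push_cast
  have hn' : (2 * n : ℝ) ≠ 0 := by positivity
  have : ∀ i : Fin m, ((if i ∈ I then Fintype.piFinset fun _ : Fin k => A else univ).card : ℝ) =
      (2 * n : ℝ) ^ k * if i ∈ I then ((A.card : ℝ) / (2 * n)) ^ k else 1 := by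
    intro i
    by_cases hi : i ∈ I
    · simp only [if_pos hi, Fintype.card_piFinset, prod_const, card_univ, Fintype.card_fin]
      rw [← mul_pow, mul_div_cancel₀ _ hn']; push_cast; rfl
    · simp only [if_neg hi, card_univ, Fintype.card_fun, Fintype.card_prod, Fintype.card_fin,
        Fintype.card_bool]
      push_cast; ring
  simp only [this, prod_mul_distrib, prod_const, card_univ, Fintype.card_fin]
  rw [prod_ite_mem, univ_inter, prod_const]

lemma card_sat (x : Fin n → Bool) (hn : 0 < n) :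
    ((univ.filter fun ω : Fin m → Fin k → Fin n × Bool =>
      ∀ i, ¬ ∀ j, x (ω i j).1 ≠ (ω i j).2).card : ℝ) =
      ((2 * n : ℝ) ^ k) ^ m * (1 - (1 / 2 : ℝ) ^ k) ^ m := by
  classical
  let A : Finset (Fin n × Bool) := univ.image fun v => (v, !x v)
  have hA : A.card = n := by
    rw [card_image_of_injective _ (fun a b h => (Prod.ext_iff.1 h).1)]; simp
  have hmem : ∀ l : Fin n × Bool, l ∈ A ↔ x l.1 ≠ l.2 := by
    rintro ⟨v, b⟩
    simp only [A, mem_image, mem_univ, true_and, Prod.mk.injEq]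
    constructor
    · rintro ⟨u, rfl, rfl⟩; cases x u <;> simp
    · intro h; exact ⟨v, rfl, by cases b <;> cases hx : x v <;> simp_all⟩
  have e : (univ.filter fun ω : Fin m → Fin k → Fin n × Bool =>
      ∀ i, ¬ ∀ j, x (ω i j).1 ≠ (ω i j).2) =
      Fintype.piFinset fun _ => (Fintype.piFinset fun _ : Fin k => A)ᶜ := by
    ext ω
    simp only [mem_filter, mem_univ, true_and, Fintype.mem_piFinset, mem_compl, hmem]
  rw [e, Fintype.card_piFinset, prod_const, card_univ, Fintype.card_fin, card_compl,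
    Fintype.card_piFinset, prod_const, card_univ, Fintype.card_fin, hA]
  simp only [Fintype.card_fun, Fintype.card_prod, Fintype.card_fin, Fintype.card_bool]
  rw [Nat.cast_pow, Nat.cast_sub (Nat.pow_le_pow_left (by omega) _), ← mul_pow]
  congr 1
  push_cast
  rw [mul_sub, ← mul_pow]
  congr 2 <;> ring

theorem exists_formula {s a : ℕ} (hn : 0 < n) (hsn : s ≤ n)
    (h : (2 : ℝ) ^ n * (1 - (1 / 2 : ℝ) ^ k) ^ m +
      4 ^ n * (m.choose s * (((a : ℝ) / (2 * n)) ^ k) ^ s) +
      ∑ j ∈ Icc 1 s, (n.choose j : ℝ) * (m.choose j * (((j : ℝ) / n) ^ k) ^ j) < 1) :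
    ∃ c : Fin m → Finset (Fin n × Bool), (∀ i, (c i).card ≤ k) ∧
      (∀ x : Fin n → Bool, ∃ i, ∀ l ∈ c i, x l.1 ≠ l.2) ∧ Sparse c s a ∧
      ∀ K : Finset (Fin m), K.card ≤ s → K.card ≤ (vars c K).card := by
  classical
  set Tot : ℝ := ((2 * n : ℝ) ^ k) ^ m with hTot
  have hT : 0 < Tot := by positivity
  let Ω := Fin m → Fin k → Fin n × Bool
  let ins : Finset (Fin m) → Finset (Fin n × Bool) → Finset Ω := fun I A =>
    univ.filter fun ω => ∀ i ∈ I, ∀ j, ω i j ∈ A
  let B1 : Finset Ω := univ.biUnion fun x : Fin n → Bool =>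
    univ.filter fun ω => ∀ i, ¬ ∀ j, x (ω i j).1 ≠ (ω i j).2
  let B2 : Finset Ω := (univ.filter fun A : Finset (Fin n × Bool) => A.card ≤ a).biUnion fun A =>
    (powersetCard s univ).biUnion fun I => ins I A
  let B3 : Finset Ω := (Icc 1 s).biUnion fun j => (powersetCard j univ).biUnion
    fun U : Finset (Fin n) => (powersetCard j univ).biUnion fun I => ins I (U ×ˢ univ)
  have c1 : (B1.card : ℝ) ≤ Tot * ((2 : ℝ) ^ n * (1 - (1 / 2 : ℝ) ^ k) ^ m) := by
    refine (Nat.cast_le.2 card_biUnion_le).trans (le_of_eq ?_)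
    push_cast
    rw [sum_congr rfl fun x _ => card_sat x hn]
    simp only [sum_const, card_univ, Fintype.card_fun, Fintype.card_fin, Fintype.card_bool,
      nsmul_eq_mul]
    push_cast; ring
  have c2 : (B2.card : ℝ) ≤ Tot * (4 ^ n * (m.choose s * (((a : ℝ) / (2 * n)) ^ k) ^ s)) := by
    refine (Nat.cast_le.2 card_biUnion_le).trans ?_
    push_cast
    refine (sum_le_card_nsmul _ _ (Tot * (m.choose s * (((a : ℝ) / (2 * n)) ^ k) ^ s)) ?_).trans ?_
    · intro A hA
      refine (Nat.cast_le.2 card_biUnion_le).trans ?_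
      push_cast
      refine (sum_le_card_nsmul _ _ (Tot * (((a : ℝ) / (2 * n)) ^ k) ^ s) ?_).trans (le_of_eq ?_)
      · intro I hI
        rw [card_inside I A hn, (mem_powersetCard.1 hI).2]
        have : (A.card : ℝ) ≤ a := Nat.cast_le.2 (mem_filter.1 hA).2
        gcongr
      · rw [card_powersetCard, card_univ, Fintype.card_fin, nsmul_eq_mul]; ring
    · have : ((univ.filter fun A : Finset (Fin n × Bool) => A.card ≤ a).card : ℝ) ≤ 4 ^ n := by
        have h1 := card_le_univ (univ.filter fun A : Finset (Fin n × Bool) => A.card ≤ a)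
        rw [Fintype.card_finset, Fintype.card_prod, Fintype.card_fin, Fintype.card_bool,
          mul_comm, pow_mul] at h1
        exact_mod_cast h1
      rw [nsmul_eq_mul]
      calc _ ≤ 4 ^ n * (Tot * (m.choose s * (((a : ℝ) / (2 * n)) ^ k) ^ s)) := by gcongr
        _ = _ := by ring
  have c3 : (B3.card : ℝ) ≤
      Tot * ∑ j ∈ Icc 1 s, (n.choose j : ℝ) * (m.choose j * (((j : ℝ) / n) ^ k) ^ j) := by
    refine (Nat.cast_le.2 card_biUnion_le).trans ?_
    push_cast
    rw [mul_sum]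
    refine sum_le_sum fun j _ => ?_
    refine (Nat.cast_le.2 card_biUnion_le).trans ?_
    push_cast
    refine (sum_le_card_nsmul _ _ (Tot * (m.choose j * (((j : ℝ) / n) ^ k) ^ j)) ?_).trans
      (le_of_eq ?_)
    · intro U hU
      refine (Nat.cast_le.2 card_biUnion_le).trans ?_
      push_cast
      refine (sum_le_card_nsmul _ _ (Tot * (((j : ℝ) / n) ^ k) ^ j) ?_).trans (le_of_eq ?_)
      · intro I hI
        rw [card_inside I _ hn, (mem_powersetCard.1 hI).2, card_product,
          (mem_powersetCard.1 hU).2]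
        have : ((j * (univ : Finset Bool).card : ℕ) : ℝ) / (2 * n) = j / n := by
          simp only [card_univ, Fintype.card_bool]; push_cast; field_simp
        rw [this]
      · rw [card_powersetCard, card_univ, Fintype.card_fin, nsmul_eq_mul]; ring
    · rw [card_powersetCard, card_univ, Fintype.card_fin, nsmul_eq_mul]; ring
  have hlt : (B1 ∪ B2 ∪ B3).card < (univ : Finset Ω).card := by
    have e : ((univ : Finset Ω).card : ℝ) = Tot := by
      simp only [Ω, card_univ, Fintype.card_fun, Fintype.card_prod, Fintype.card_fin,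
        Fintype.card_bool, hTot]
      push_cast; ring
    have u1 : ((B1 ∪ B2 ∪ B3).card : ℝ) ≤ B1.card + B2.card + B3.card := by
      exact_mod_cast (card_union_le _ _).trans (Nat.add_le_add_right (card_union_le _ _) _)
    have : ((B1 ∪ B2 ∪ B3).card : ℝ) < (univ : Finset Ω).card := by
      rw [e]; nlinarith
    exact_mod_cast this
  obtain ⟨ω, -, hω⟩ := exists_mem_notMem_of_card_lt_card hlt
  rw [mem_union, mem_union, not_or, not_or] at hω
  obtain ⟨⟨h1, h2⟩, h3⟩ := hω
  refine ⟨fun i => univ.image (ω i), fun i => card_image_le.trans (by simp), ?_, ?_, ?_⟩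
  · intro x
    by_contra hx
    refine h1 (mem_biUnion.2 ⟨x, mem_univ _, mem_filter.2 ⟨mem_univ _, fun i hi => hx ⟨i, ?_⟩⟩⟩)
    intro l hl
    obtain ⟨j, -, rfl⟩ := mem_image.1 hl
    exact hi j
  · intro A hA K hK
    by_contra hs
    obtain ⟨I, hI, hIs⟩ := exists_subset_card_eq (not_lt.1 hs)
    exact h2 (mem_biUnion.2 ⟨A, mem_filter.2 ⟨mem_univ _, hA⟩, mem_biUnion.2 ⟨I,
      mem_powersetCard.2 ⟨subset_univ _, hIs⟩, mem_filter.2 ⟨mem_univ _, fun i hi j =>
        hK i (hI hi) (mem_image_of_mem _ (mem_univ _))⟩⟩⟩)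
  · intro K hK
    by_contra hlt'
    push Not at hlt'
    obtain ⟨U, hU, hUc⟩ := exists_superset_card_eq hlt'.le (by simp; omega)
    exact h3 (mem_biUnion.2 ⟨K.card, mem_Icc.2 ⟨by omega, hK⟩, mem_biUnion.2 ⟨U,
      mem_powersetCard.2 ⟨subset_univ _, hUc⟩, mem_biUnion.2 ⟨K,
      mem_powersetCard.2 ⟨subset_univ _, rfl⟩, mem_filter.2 ⟨mem_univ _, fun i hi j =>
        mem_product.2 ⟨hU (mem_vars.2 ⟨i, hi, ω i j, mem_image_of_mem _ (mem_univ _), rfl⟩),
          mem_univ _⟩⟩⟩⟩⟩)

end Pool.Agent.P.MP_0f6e60_lc
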