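import Pool.Agent.P.MP_0f6e60_lc.Walk
import Pool.Agent.P.MP_0f6e60_lc.Random

set_option autoImplicit false

namespace Pool.Agent.P.MP_0f6e60_lc

open Finset Real

lemma choose_le (N j : ℕ) (hj : 0 < j) : (N.choose j : ℝ) ≤ (exp 1 * N / j) ^ j := by
  have h1 : (N.choose j : ℝ) ≤ (N : ℝ) ^ j / j.factorial := Nat.choose_le_pow_div j N
  have h2 : (j : ℝ) ^ j / j.factorial ≤ exp j := pow_div_factorial_le_exp _ (by positivity) j
  have hj' : (0 : ℝ) < j := by exact_mod_cast hj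
  have hf : (0 : ℝ) < j.factorial := by exact_mod_cast j.factorial_pos
  calc (N.choose j : ℝ) ≤ (N : ℝ) ^ j / j.factorial := h1
    _ = (j : ℝ) ^ j / j.factorial * ((N : ℝ) / j) ^ j := by rw [div_pow]; field_simp
    _ ≤ exp j * ((N : ℝ) / j) ^ j := by gcongr
    _ = _ := by rw [mul_div_assoc, mul_pow, ← exp_nat_mul, mul_one]

lemma small_sets (n f : ℕ) {θ : ℝ} (h0 : 0 < θ) (h1 : θ ≤ 1) :
    ((univ.filter fun Fl : Finset (Fin n) => Fl.card ≤ f).card : ℝ) * θ ^ f ≤ exp (θ * n) := by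
  have e : ∏ _i : Fin n, (1 + θ) = ∑ t ∈ (univ : Finset (Fin n)).powerset, ∏ _i ∈ t, θ :=
    prod_one_add _
  rw [prod_const, card_univ, Fintype.card_fin] at e
  calc _ = ∑ _t ∈ univ.filter fun Fl : Finset (Fin n) => Fl.card ≤ f, θ ^ f := by
        rw [sum_const, nsmul_eq_mul]
    _ ≤ ∑ t ∈ univ.filter fun Fl : Finset (Fin n) => Fl.card ≤ f, ∏ _i ∈ t, θ := by
        refine sum_le_sum fun t ht => ?_
        rw [prod_const]
        exact pow_le_pow_of_le_one h0.le h1 (mem_filter.1 ht).2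
    _ ≤ ∑ t ∈ (univ : Finset (Fin n)).powerset, ∏ _i ∈ t, θ :=
        sum_le_sum_of_subset_of_nonneg (fun t _ => mem_powerset.2 (subset_univ _))
          fun t _ _ => by positivity
    _ = (1 + θ) ^ n := e.symm
    _ ≤ exp θ ^ n := by gcongr; linarith [add_one_le_exp θ]
    _ = _ := by rw [← exp_nat_mul, mul_comm]

lemma term1 {k n : ℕ} (hn : 8 ≤ n) :
    (2 : ℝ) ^ n * (1 - (1 / 2 : ℝ) ^ k) ^ (2 ^ k * n) ≤ 1 / 4 := by
  have h0 : (0 : ℝ) ≤ 1 - (1 / 2 : ℝ) ^ k := by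
    have : (1 / 2 : ℝ) ^ k ≤ 1 := pow_le_one₀ (by norm_num) (by norm_num)
    linarith
  have h1 : (1 - (1 / 2 : ℝ) ^ k) ^ (2 ^ k) ≤ exp (-1) := by
    calc _ ≤ exp (-(1 / 2 : ℝ) ^ k) ^ (2 ^ k) := by
          gcongr; linarith [add_one_le_exp (-(1 / 2 : ℝ) ^ k)]
      _ = _ := by
          rw [← exp_nat_mul]; congr 1; push_cast
          rw [mul_neg, ← mul_pow]; norm_num
  have h2 : exp (-1) ≤ 3 / 8 := by
    rw [exp_neg, inv_le_comm₀ (exp_pos 1) (by norm_num)]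
    linarith [exp_one_gt_d9]
  rw [pow_mul, ← mul_pow]
  calc _ ≤ (3 / 4 : ℝ) ^ n := by gcongr; linarith
    _ ≤ (3 / 4 : ℝ) ^ 8 := pow_le_pow_of_le_one (by norm_num) (by norm_num) hn
    _ ≤ _ := by norm_num

lemma term2 {k n s a : ℕ} {θ : ℝ} (hn : 0 < n) (h0 : 0 < θ) (hk : 0 < k)
    (hs : 32 * n / (θ * k) ≤ s) (ha : (a : ℝ) ≤ (1 - θ / 4) * n) :
    (4 : ℝ) ^ n * ((2 ^ k * n).choose s * (((a : ℝ) / (2 * n)) ^ k) ^ s) ≤ 1 / 4 := by
  have hn' : (0 : ℝ) < n := by exact_mod_cast hn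
  have hk' : (0 : ℝ) < k := by exact_mod_cast hk
  set y := θ * k with hy
  have hy0 : 0 < y := by positivity
  have hs0 : (0 : ℝ) < s := lt_of_lt_of_le (by positivity) hs
  have hs1 : 0 < s := by exact_mod_cast hs0
  have e1 : (a : ℝ) / (2 * n) ≤ exp (-(θ / 4)) / 2 := by
    rw [div_le_iff₀ (by positivity)]
    nlinarith [add_one_le_exp (-(θ / 4))]
  have e2 : ((a : ℝ) / (2 * n)) ^ k ≤ exp (-(y / 4)) / 2 ^ k := by
    calc _ ≤ (exp (-(θ / 4)) / 2) ^ k := by gcongr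
      _ = _ := by rw [div_pow, ← exp_nat_mul]; congr 2; rw [hy]; ring
  have e3 : (n : ℝ) / s ≤ y / 32 := by
    rw [div_le_iff₀ hy0] at hs
    rw [div_le_div_iff₀ hs0 (by norm_num)]; linarith
  have e4 : exp 1 * (y / 32) ≤ exp (y / 8) := by
    have : exp (y / 8) = exp 1 * exp (y / 8 - 1) := by rw [← exp_add]; congr 1; ring
    rw [this]
    gcongr
    linarith [add_one_le_exp (y / 8 - 1)]
  have e5 : exp 1 * ((2 ^ k * n : ℕ) : ℝ) / s * ((a : ℝ) / (2 * n)) ^ k ≤ exp (-(y / 8)) := by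
    calc _ ≤ exp 1 * ((2 ^ k * n : ℕ) : ℝ) / s * (exp (-(y / 4)) / 2 ^ k) := by gcongr
      _ = exp 1 * ((n : ℝ) / s) * exp (-(y / 4)) := by push_cast; field_simp
      _ ≤ exp 1 * (y / 32) * exp (-(y / 4)) := by gcongr
      _ ≤ exp (y / 8) * exp (-(y / 4)) := by gcongr
      _ = _ := by rw [← exp_add]; congr 1; ring
  have e6 : exp (-(y / 8)) ^ s ≤ exp (-4) ^ n := by
    rw [← exp_nat_mul, ← exp_nat_mul, exp_le_exp]
    rw [div_le_iff₀ hy0] at hs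
    linarith
  have e7 : exp (-4) ≤ 1 / 16 := by
    have : exp (-4) = exp (-1) ^ 4 := by rw [← exp_nat_mul]; norm_num
    have h2 : exp (-1) ≤ 1 / 2 := by
      rw [exp_neg, inv_le_comm₀ (exp_pos 1) (by norm_num)]
      linarith [exp_one_gt_d9]
    rw [this]
    calc _ ≤ (1 / 2 : ℝ) ^ 4 := by gcongr
      _ = _ := by norm_num
  calc _ ≤ (4 : ℝ) ^ n * ((exp 1 * ((2 ^ k * n : ℕ) : ℝ) / s) ^ s *
        (((a : ℝ) / (2 * n)) ^ k) ^ s) := by gcongr; exact choose_le _ _ hs1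
    _ = 4 ^ n * (exp 1 * ((2 ^ k * n : ℕ) : ℝ) / s * ((a : ℝ) / (2 * n)) ^ k) ^ s := by
        rw [mul_pow]
    _ ≤ 4 ^ n * exp (-(y / 8)) ^ s := by gcongr
    _ ≤ 4 ^ n * (1 / 16 : ℝ) ^ n := by gcongr; exact e6.trans (by gcongr)
    _ = (1 / 4 : ℝ) ^ n := by rw [← mul_pow]; norm_num
    _ ≤ (1 / 4 : ℝ) ^ 1 := pow_le_pow_of_le_one (by norm_num) (by norm_num) hn
    _ = _ := by norm_num

lemma term3 {k n s : ℕ} (hn : 0 < n) (hk : 4 ≤ k) (hs : (s : ℝ) ≤ n / 32) :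
    ∑ j ∈ Icc 1 s, (n.choose j : ℝ) * ((2 ^ k * n).choose j * (((j : ℝ) / n) ^ k) ^ j) ≤ 1 / 3 := by
  have hn' : (0 : ℝ) < n := by exact_mod_cast hn
  have h1 : ∀ j ∈ Icc 1 s, (n.choose j : ℝ) * ((2 ^ k * n).choose j * (((j : ℝ) / n) ^ k) ^ j) ≤
      (1 / 4 : ℝ) ^ j := by
    intro j hj
    obtain ⟨j1, j2⟩ := mem_Icc.1 hj
    have j0 : (0 : ℝ) < j := by exact_mod_cast j1
    have j3 : (j : ℝ) / n ≤ 1 / 32 := by
      have : (j : ℝ) ≤ s := by exact_mod_cast j2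
      rw [div_le_iff₀ hn']; linarith
    obtain ⟨u, rfl⟩ : ∃ u, k = u + 4 := ⟨k - 4, by omega⟩
    have he : exp 1 ≤ 3 := by linarith [exp_one_lt_d9]
    have e : exp 1 * n / j * (exp 1 * ((2 ^ (u + 4) * n : ℕ) : ℝ) / j * ((j : ℝ) / n) ^ (u + 4))
        ≤ 1 / 4 := by
      calc _ = exp 1 * exp 1 * (16 * ((j : ℝ) / n) ^ 2) * (2 * ((j : ℝ) / n)) ^ u := by
            push_cast; rw [mul_pow, pow_add ((j : ℝ) / n)]; generalize ((j : ℝ) / n) ^ u = y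
            field_simp; ring
        _ ≤ 3 * 3 * (16 * (1 / 32 : ℝ) ^ 2) * 1 := by
            gcongr
            exact pow_le_one₀ (by positivity) (by linarith)
        _ ≤ _ := by norm_num
    calc _ ≤ (exp 1 * n / j) ^ j * ((exp 1 * ((2 ^ (u + 4) * n : ℕ) : ℝ) / j) ^ j *
          (((j : ℝ) / n) ^ (u + 4)) ^ j) := by
          gcongr <;> exact choose_le _ _ j1
      _ = (exp 1 * n / j * (exp 1 * ((2 ^ (u + 4) * n : ℕ) : ℝ) / j *
          ((j : ℝ) / n) ^ (u + 4))) ^ j := by rw [mul_pow, mul_pow]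
      _ ≤ _ := by gcongr
  have h2 : ∀ s : ℕ, ∑ j ∈ Icc 1 s, (1 / 4 : ℝ) ^ j = 1 / 3 - 1 / 3 * (1 / 4) ^ s := by
    intro s
    induction s with
    | zero => simp
    | succ s ih => rw [sum_Icc_succ_top (by omega), ih]; ring
  refine (sum_le_sum h1).trans ?_
  rw [h2]
  have : (0 : ℝ) ≤ (1 / 4) ^ s := by positivity
  linarith

theorem main_fixed {k n : ℕ} {θ r q : ℝ} (h0 : 0 < θ) (h1 : θ ≤ 1)
    (hk : 2048 + 256 * |r| ≤ θ ^ 2 * k) (hq : 4 * |q| ≤ θ) (hn1 : 72 ≤ θ * n) (hn2 : k ≤ n) :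
    ∃ F : Finset (Finset (Fin n × Bool)), (∀ C ∈ F, C.card ≤ k) ∧
      (∀ x : Fin n → Bool, ∃ C ∈ F, ∀ l ∈ C, x l.1 ≠ l.2) ∧
      ∀ (S : ℕ) (P : Fin S → Finset (Fin n × Bool)) (J : Fin S → Option (Fin S × Fin S × Fin n)),
        (∃ i, P i = ∅) → (∀ i, J i = none → P i ∈ F) →
        (∀ i j l x, J i = some (j, l, x) → j < i ∧ l < i ∧
          P i = (P j).erase (x, true) ∪ (P l).erase (x, false)) →
        (∀ t p v, IsPath J t p v → ∃ g : ℕ → ℕ, Monotone g ∧ (g t : ℝ) ≤ r ∧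
          ∀ j, ((((range t).filter fun u => g u = j).image v).card : ℝ) ≤ q * n) →
        (2 : ℝ) ^ ((1 - (2 * θ + (θ - θ * log θ) / log 2)) * n) ≤ S := by
  classical
  have hr0 := abs_nonneg r
  have hq0 := abs_nonneg q
  have hθ2 : θ ^ 2 ≤ θ := by nlinarith
  have hk0 : (0 : ℝ) ≤ k := by positivity
  have hy : 2048 ≤ θ * k := by nlinarith
  have hk1 : (2048 : ℝ) ≤ k := by nlinarith
  have hn0 : (0 : ℝ) ≤ n := by positivity
  have hn3 : (72 : ℝ) ≤ n := by nlinarith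
  have hkn : (k : ℝ) ≤ n := by exact_mod_cast hn2
  have hnpos : 0 < n := by exact_mod_cast (show (0 : ℝ) < n by linarith)
  set s := ⌈32 * n / (θ * k)⌉₊ with hs
  set w := ⌈(1 - θ) * n⌉₊ with hw
  set ql := ⌊θ * n / 2⌋₊ with hql
  have hyp : 0 < θ * k := by linarith
  have s1 : 32 * n / (θ * k) ≤ s := Nat.le_ceil _
  have s0 : 1 ≤ 32 * n / (θ * k) := by rw [le_div_iff₀ hyp]; nlinarith
  have s2 : (s : ℝ) ≤ 32 * n / (θ * k) + 1 := (Nat.ceil_lt_add_one (by positivity)).le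
  have s3 : 32 * n / (θ * k) ≤ θ * n / 64 := by
    rw [div_le_div_iff₀ hyp (by norm_num)]; nlinarith
  have w1 : (1 - θ) * n ≤ w := Nat.le_ceil _
  have w2 : (w : ℝ) ≤ (1 - θ) * n + 1 := (Nat.ceil_lt_add_one (by nlinarith)).le
  have q1 : (ql : ℝ) ≤ θ * n / 2 := Nat.floor_le (by positivity)
  have q2 : θ * n / 2 < ql + 1 := Nat.lt_floor_add_one _
  have hθn : θ * n ≤ n := by nlinarith
  have hs32 : (s : ℝ) ≤ n / 32 := by linarith
  obtain ⟨c, c1, c2, c3, c4⟩ := exists_formula (n := n) (k := k) (m := 2 ^ k * n) (s := s)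
    (a := w + ql + 8 * s) hnpos (by exact_mod_cast (show (s : ℝ) ≤ n by linarith)) (by
      have t1 := term1 (k := k) (n := n) (by exact_mod_cast (show (8 : ℝ) ≤ n by linarith))
      have t2 := term2 (k := k) (a := w + ql + 8 * s) hnpos h0
        (by exact_mod_cast (show (0 : ℝ) < k by linarith)) s1 (by push_cast; linarith)
      have t3 := term3 (k := k) hnpos (by exact_mod_cast (show (4 : ℝ) ≤ k by linarith)) hs32
      linarith)
  refine ⟨univ.image c, fun C hC => ?_, fun x => ?_, fun S P J hroot hax hres hpath => ?_⟩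
  · obtain ⟨i, -, rfl⟩ := mem_image.1 hC
    exact c1 i
  · obtain ⟨i, hi⟩ := c2 x
    exact ⟨c i, mem_image_of_mem _ (mem_univ _), hi⟩
  set f := 2 * s * (⌊|r|⌋₊ + 1) with hf
  have f1 : (f : ℝ) ≤ θ * n := by
    have e1 : ((⌊|r|⌋₊ : ℕ) : ℝ) ≤ |r| := Nat.floor_le hr0
    have e2 : (s : ℝ) ≤ 64 * n / (θ * k) := by
      have : 64 * n / (θ * k) = 2 * (32 * n / (θ * k)) := by ring
      linarith
    calc (f : ℝ) = 2 * s * ((⌊|r|⌋₊ : ℕ) + 1) := by rw [hf]; push_cast; ring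
      _ ≤ 2 * (64 * n / (θ * k)) * (|r| + 1) := by gcongr
      _ = 128 * (|r| + 1) * n / (θ * k) := by ring
      _ ≤ θ * n := by
        rw [div_le_iff₀ hyp]
        nlinarith
  have hqn : |q| * n ≤ θ * n / 4 := by nlinarith
  have hcount := count (P := P) (J := J) (w := w) (q := ql) (d := ⌊|q| * n⌋₊) (R := ⌊|r|⌋₊)
    (f := f) c3 le_rfl (by exact_mod_cast (show (1 : ℝ) ≤ s by linarith)) (by
      have : ((⌊|q| * n⌋₊ : ℕ) : ℝ) ≤ |q| * n := Nat.floor_le (by positivity)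
      exact_mod_cast (show ((⌊|q| * n⌋₊ : ℕ) : ℝ) < ql by linarith)) ⟨0, hnpos⟩ c4 hroot
    (fun i hi => by
      obtain ⟨u, -, hu⟩ := mem_image.1 (hax i hi)
      exact ⟨u, hu.symm⟩) hres (fun t p v hp => by
      obtain ⟨g, g1, g2, g3⟩ := hpath t p v hp
      exact ⟨g, g1, Nat.le_floor (g2.trans (le_abs_self r)), fun j =>
        Nat.le_floor ((g3 j).trans (by gcongr; exact le_abs_self q))⟩) le_rfl
  set Nf := (univ.filter fun Fl : Finset (Fin n) => Fl.card ≤ f).card with hNf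
  have hwn : w ≤ n := Nat.ceil_le.2 (by linarith)
  have h2 : 2 ^ (w - f) ≤ S * Nf := by
    have e : 2 ^ n = 2 ^ (w - f) * 2 ^ (n - (w - f)) := by rw [← pow_add]; congr 1; omega
    rw [e, ← mul_assoc] at hcount
    exact Nat.le_of_mul_le_mul_right hcount (by positivity)
  have h3 : (2 : ℝ) ^ (w - f) ≤ S * Nf := by exact_mod_cast h2
  have h4 := small_sets n f h0 h1
  rw [← hNf] at h4
  have hl2 : 0 < log 2 := log_pos (by norm_num)
  have hlθ : log θ ≤ 0 := log_nonpos h0.le h1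
  have h5 : (1 - 2 * θ) * n ≤ ((w - f : ℕ) : ℝ) := by
    have : (w : ℝ) ≤ ((w - f : ℕ) : ℝ) + f := by exact_mod_cast (show w ≤ w - f + f by omega)
    linarith
  have h6 : (2 : ℝ) ^ (w - f) * θ ^ f ≤ S * exp (θ * n) := by
    calc _ ≤ S * Nf * θ ^ f := by gcongr
      _ = S * (Nf * θ ^ f) := by ring
      _ ≤ _ := by gcongr
  have h7 : (2 : ℝ) ^ (w - f) * θ ^ f = exp (((w - f : ℕ) : ℝ) * log 2 + f * log θ) := by
    rw [exp_add, exp_nat_mul, exp_nat_mul, exp_log (by norm_num), exp_log h0]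
  rw [rpow_def_of_pos (by norm_num)]
  refine le_of_mul_le_mul_right (le_trans ?_ (h7 ▸ h6)) (exp_pos (θ * n))
  rw [← exp_add, exp_le_exp]
  have e : log 2 * ((1 - (2 * θ + (θ - θ * log θ) / log 2)) * n) + θ * n =
      (1 - 2 * θ) * n * log 2 + θ * n * log θ := by field_simp; ring
  rw [e]
  nlinarith

end Pool.Agent.P.MP_0f6e60_lc
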