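import Mathlib

namespace Pool.Agent.P.MP_0f6e60_lc.Pairs

variable {n : ℕ}

abbrev Cl (n : ℕ) := Finset (Fin n × Bool)

/-- Lists of clauses (newest first) that are resolution derivations from `F`. -/
inductive Der (F : Finset (Cl n)) : List (Cl n) → Prop
  | nil : Der F []
  | ax (L : List (Cl n)) (C : Cl n) : Der F L → C ∈ F → Der F (C :: L)
  | res (L : List (Cl n)) (A B : Cl n) (v : Fin n) : Der F L → A ∈ L → B ∈ L → (v, true) ∈ A →
      (v, false) ∈ B → Der F ((A.erase (v, true) ∪ B.erase (v, false)) :: L)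

theorem der_seq {F : Finset (Cl n)} {L : List (Cl n)} (h : Der F L) :
    ∃ P : ℕ → Cl n, (∀ C ∈ L, ∃ i < L.length, P i = C) ∧
      ∀ i < L.length, P i ∈ F ∨ ∃ j < i, ∃ l < i, ∃ v : Fin n, (v, true) ∈ P j ∧
        (v, false) ∈ P l ∧ P i = (P j).erase (v, true) ∪ (P l).erase (v, false) := by
  have key : ∀ (L : List (Cl n)) (C : Cl n) (P : ℕ → Cl n),
      (∀ C ∈ L, ∃ i < L.length, P i = C) →
      (∀ i < L.length, P i ∈ F ∨ ∃ j < i, ∃ l < i, ∃ v : Fin n, (v, true) ∈ P j ∧
        (v, false) ∈ P l ∧ P i = (P j).erase (v, true) ∪ (P l).erase (v, false)) →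
      (C ∈ F ∨ ∃ j < L.length, ∃ l < L.length, ∃ v : Fin n, (v, true) ∈ P j ∧
        (v, false) ∈ P l ∧ C = (P j).erase (v, true) ∪ (P l).erase (v, false)) →
      ∃ P : ℕ → Cl n, (∀ D ∈ C :: L, ∃ i < (C :: L).length, P i = D) ∧
      ∀ i < (C :: L).length, P i ∈ F ∨ ∃ j < i, ∃ l < i, ∃ v : Fin n, (v, true) ∈ P j ∧
        (v, false) ∈ P l ∧ P i = (P j).erase (v, true) ∪ (P l).erase (v, false) := by
    intro L C P h1 h2 h3
    have hP : ∀ i < L.length, Function.update P L.length C i = P i := fun i hi =>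
      Function.update_of_ne hi.ne _ _
    refine ⟨Function.update P L.length C, fun D hD => ?_, fun i hi => ?_⟩
    · rcases List.mem_cons.1 hD with rfl | hD
      · exact ⟨L.length, by simp, by simp⟩
      · obtain ⟨i, hi, rfl⟩ := h1 D hD
        exact ⟨i, by simp; omega, hP i hi⟩
    · rcases Nat.lt_succ_iff_lt_or_eq.1 (by simpa using hi : i < L.length + 1) with hi | rfl
      · rw [hP i hi]
        rcases h2 i hi with h | ⟨j, hj, l, hl, v, h⟩
        · exact Or.inl h
        · refine Or.inr ⟨j, hj, l, hl, v, ?_⟩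
          rwa [hP j (by omega), hP l (by omega)]
      · rw [Function.update_self]
        rcases h3 with h | ⟨j, hj, l, hl, v, h⟩
        · exact Or.inl h
        · refine Or.inr ⟨j, hj, l, hl, v, ?_⟩
          rwa [hP j hj, hP l hl]
  induction h with
  | nil => exact ⟨fun _ => ∅, by simp, by simp⟩
  | ax L C _ hC ih =>
    obtain ⟨P, h1, h2⟩ := ih
    exact key L C P h1 h2 (Or.inl hC)
  | res L A B v _ hA hB ha hb ih =>
    obtain ⟨P, h1, h2⟩ := ih
    obtain ⟨j, hj, rfl⟩ := h1 A hA
    obtain ⟨l, hl, rfl⟩ := h1 B hB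
    exact key L _ P h1 h2 (Or.inr ⟨j, hj, l, hl, v, ha, hb, rfl⟩)

def Cov (L : List (Cl n)) (D : Cl n) : Prop := ∃ C ∈ L, C ⊆ D

theorem Cov.mono {L L' : List (Cl n)} {D D' : Cl n} (h : Cov L D) (h1 : L ⊆ L') (h2 : D ⊆ D') :
    Cov L' D' := by
  obtain ⟨C, hC, hD⟩ := h
  exact ⟨C, h1 hC, hD.trans h2⟩

/-- Every derivation extending `L` can be prolonged by fewer than `c` lines so as to contain a
subclause of `D`. -/
def Can (F : Finset (Cl n)) (L : List (Cl n)) (D : Cl n) (c : ℕ) : Prop :=
  ∀ L', Der F L' → L ⊆ L' → ∃ L'', Der F L'' ∧ L' ⊆ L'' ∧ L''.length < L'.length + c ∧ Cov L'' D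

theorem Can.mono {F : Finset (Cl n)} {L : List (Cl n)} {D D' : Cl n} {c c' : ℕ}
    (h : Can F L D c) (h2 : D ⊆ D') (h3 : c ≤ c') : Can F L D' c' := by
  intro L' a b
  obtain ⟨L'', h4, h5, h6, h7⟩ := h L' a b
  exact ⟨L'', h4, h5, by omega, h7.mono (List.Subset.refl _) h2⟩

theorem can_ax {F : Finset (Cl n)} {L : List (Cl n)} {C D : Cl n} (h : C ∈ F) (h2 : C ⊆ D) :
    Can F L D 2 := fun L' a _ =>
  ⟨C :: L', Der.ax _ _ a h, List.subset_cons_self _ _, by simp, C, by simp, h2⟩

theorem can_cov {F : Finset (Cl n)} {L : List (Cl n)} {D : Cl n} (h : Cov L D) :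
    Can F L D 2 := fun L' a b =>
  ⟨L', a, List.Subset.refl _, by simp, h.mono b (Finset.Subset.refl _)⟩

theorem can_res {F : Finset (Cl n)} {L : List (Cl n)} {D : Cl n} {v : Fin n} {c : ℕ}
    (h1 : Can F L (insert (v, true) D) c) (h2 : Can F L (insert (v, false) D) c) :
    Can F L D (2 * c) := by
  intro L' a b
  obtain ⟨L1, a1, b1, c1, A, hA, hAD⟩ := h1 L' a b
  obtain ⟨L2, a2, b2, c2, B, hB, hBD⟩ := h2 L1 a1 (List.Subset.trans b b1)
  by_cases hvA : (v, true) ∈ A
  · by_cases hvB : (v, false) ∈ B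
    · refine ⟨_, Der.res L2 A B v a2 (b2 hA) hB hvA hvB,
        List.Subset.trans (List.Subset.trans b1 b2) (List.subset_cons_self _ _), by simp; omega, _, List.mem_cons_self, ?_⟩
      exact Finset.union_subset (Finset.subset_insert_iff.1 hAD) (Finset.subset_insert_iff.1 hBD)
    · exact ⟨L2, a2, List.Subset.trans b1 b2, by omega, B, hB, (Finset.subset_insert_iff_of_notMem hvB).1 hBD⟩
  · exact ⟨L2, a2, List.Subset.trans b1 b2, by omega, A, b2 hA, (Finset.subset_insert_iff_of_notMem hvA).1 hAD⟩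

theorem can_three {F : Finset (Cl n)} {L : List (Cl n)} {D D1 D2 : Cl n} {c : ℕ}
    (h1 : Can F L D1 c) (h2 : Can F L D2 c)
    (h3 : ∀ L', L ⊆ L' → Cov L' D1 → Cov L' D2 → Can F L' D c) : Can F L D (3 * c) := by
  intro L' a b
  obtain ⟨L1, a1, b1, c1, d1⟩ := h1 L' a b
  obtain ⟨L2, a2, b2, c2, d2⟩ := h2 L1 a1 (List.Subset.trans b b1)
  obtain ⟨L3, a3, b3, c3, d3⟩ := h3 L2 (List.Subset.trans (List.Subset.trans b b1) b2)
    (d1.mono b2 (Finset.Subset.refl _)) d2 L2 a2 (List.Subset.refl _)
  exact ⟨L3, a3, List.Subset.trans (List.Subset.trans b1 b2) b3, by omega, d3⟩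

theorem can_tree {F : Finset (Cl n)} {L : List (Cl n)} {c : ℕ} (vs : List (Fin n)) :
    ∀ D : Cl n, (∀ (z : Fin n → Bool) (E : Cl n), D ⊆ E → (∀ v ∈ vs, (v, !z v) ∈ E) →
      Can F L E c) → Can F L D (2 ^ vs.length * c) := by
  induction vs with
  | nil => intro D h; simpa using h (fun _ => true) D (Finset.Subset.refl _) (by simp)
  | cons v vs ih =>
    intro D h
    have key : ∀ b : Bool, Can F L (insert (v, b) D) (2 ^ vs.length * c) := by
      intro b
      refine ih _ fun z E hE hz => h (Function.update z v (!b)) E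
        ((Finset.subset_insert _ _).trans hE) fun u hu => ?_
      by_cases huv : u = v
      · subst huv
        simpa using hE (Finset.mem_insert_self _ _)
      · rw [Function.update_of_ne huv]
        exact hz u ((List.mem_cons.1 hu).resolve_left huv)
    have := can_res (key true) (key false)
    rwa [List.length_cons, pow_succ, mul_comm _ 2, mul_assoc]

section
variable {F : Finset (Cl n)} {τ : Fin n → Fin n} (hτ : Function.Involutive τ)
  (hF : ∀ v, ∀ C ∈ F, C.image (fun l => (Equiv.swap v (τ v) l.1, l.2)) ∈ F)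
include hτ hF

theorem swap_set (W : Fin n → Prop) (hW : ∀ v, W v → W (τ v)) (x : Fin n → Bool) {C : Cl n}
    (hC : C ∈ F) (hx : ∀ l ∈ C, x l.1 ≠ l.2) (hCW : ∀ l ∈ C, W l.1) (S : Finset (Fin n)) :
    (∀ v ∈ S, τ v ∉ S) → ∃ C' ∈ F,
      (∀ l ∈ C', (if l.1 ∈ S ∨ τ l.1 ∈ S then x (τ l.1) else x l.1) ≠ l.2) ∧ ∀ l ∈ C', W l.1 := by
  induction S using Finset.induction_on with
  | empty => intro _; exact ⟨C, hC, by simpa using hx, hCW⟩
  | insert v S hv ih =>
    intro hS
    obtain ⟨C1, h1, h2, h3⟩ := ih fun u hu h =>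
      hS u (Finset.mem_insert_of_mem hu) (Finset.mem_insert_of_mem h)
    have hv2 : τ v ∉ insert v S := hS v (Finset.mem_insert_self _ _)
    rw [Finset.mem_insert, not_or] at hv2
    refine ⟨_, hF v C1 h1, fun l hl => ?_, fun l hl => ?_⟩
    · obtain ⟨m, hm, rfl⟩ := Finset.mem_image.1 hl
      have := h2 m hm
      by_cases e1 : m.1 = v
      · simp only [e1, Equiv.swap_apply_left, hτ v] at this ⊢
        simpa [hv, hv2.2] using this
      · by_cases e2 : m.1 = τ v
        · simp only [e2, Equiv.swap_apply_right, hτ v] at this ⊢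
          simpa [hv, hv2.2] using this
        · have e3 : τ m.1 ≠ v := fun h => e2 (by rw [← h, hτ])
          simp only [Equiv.swap_apply_of_ne_of_ne e1 e2, Finset.mem_insert, e1, e3, false_or]
          exact this
    · obtain ⟨m, hm, rfl⟩ := Finset.mem_image.1 hl
      have := h3 m hm
      by_cases e1 : m.1 = v
      · simp only [e1, Equiv.swap_apply_left] at this ⊢
        exact hW _ this
      · by_cases e2 : m.1 = τ v
        · simp only [e2, Equiv.swap_apply_right] at this ⊢
          simpa [hτ v] using hW _ this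
        · simpa only [Equiv.swap_apply_of_ne_of_ne e1 e2] using this

theorem leaf {k : ℕ} (hk : ∀ C ∈ F, C.card ≤ k)
    (hu : ∀ a : Fin n → Bool, ∃ C ∈ F, ∀ l ∈ C, a l.1 ≠ l.2)
    {L : List (Cl n)} {D : Cl n} {O : Finset (Fin n)} {y : Fin n → Bool}
    (hy : ∀ l ∈ D, y l.1 ≠ l.2) (hO : ∀ v ∈ O, τ v ∉ O)
    (hc : ∀ v ∈ O, ∀ b : Bool, Cov L (insert (v, b) (insert (τ v, b) D)))
    (hall : ∀ v, (∃ b, (v, b) ∈ D) ∨ v ∈ O ∨ τ v ∈ O) : Can F L D (2 * 4 ^ k) := by
  obtain ⟨C, hC, hx⟩ := hu fun v => if v ∈ O then false else if τ v ∈ O then true else y v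
  let vs : List (Fin n) := C.toList.map Prod.fst ++ C.toList.map fun l => τ l.1
  have hW : ∀ v, v ∈ vs → τ v ∈ vs := by
    intro v hv
    simp only [vs, List.mem_append, List.mem_map, Finset.mem_toList] at hv ⊢
    rcases hv with ⟨l, hl, rfl⟩ | ⟨l, hl, rfl⟩
    · exact Or.inr ⟨l, hl, rfl⟩
    · exact Or.inl ⟨l, hl, (hτ _).symm⟩
  refine (can_tree (c := 2) vs D fun z E hE hz => ?_).mono (Finset.Subset.refl _) ?_
  · by_cases h : ∃ v ∈ O, v ∈ vs ∧ z (τ v) = z v
    · obtain ⟨v, h1, h2, h3⟩ := h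
      refine can_cov ((hc v h1 (!z v)).mono (List.Subset.refl _) ?_)
      refine Finset.insert_subset (hz v h2) (Finset.insert_subset ?_ hE)
      rw [← h3]; exact hz _ (hW v h2)
    · push Not at h
      obtain ⟨C', h1, h2, h3⟩ := swap_set hτ hF (· ∈ vs) hW
        (fun v => if v ∈ O then false else if τ v ∈ O then true else y v) hC hx
        (fun l hl => List.mem_append_left _ (List.mem_map.2 ⟨l, Finset.mem_toList.2 hl, rfl⟩))
        (O.filter fun v => z v = true)
        (fun v hv h' => hO v (Finset.mem_filter.1 hv).1 (Finset.mem_filter.1 h').1)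
      refine can_ax h1 fun l hl => ?_
      obtain ⟨v, b⟩ := l
      have a2 := h2 _ hl
      have a3 : v ∈ vs := h3 _ hl
      have a4 := hz v a3
      simp only [Finset.mem_filter, hτ v] at a2
      by_cases e1 : v ∈ O
      · have e2 := hO v e1
        have : b = !z v := by
          cases hzv : z v <;> cases b <;> simp_all
        rwa [this]
      · by_cases e2 : τ v ∈ O
        · have e3 := h _ e2 (hW v a3)
          rw [hτ v] at e3
          have : b = !z v := by
            cases hzv : z v <;> cases hzw : z (τ v) <;> cases b <;> simp_all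
          rwa [this]
        · obtain ⟨b', hb'⟩ := ((hall v).resolve_right (by simp [e1, e2]))
          have e3 := hy _ hb'
          have : b = b' := by
            cases hzv : y v <;> cases b' <;> cases b <;> simp_all
          exact hE (this ▸ hb')
  · have := hk C hC
    simp only [vs, List.length_append, List.length_map, Finset.length_toList]
    rw [mul_comm, ← two_mul, pow_mul]
    exact Nat.mul_le_mul_left _ (Nat.pow_le_pow_right (by norm_num) this)

theorem main {k : ℕ} (hk : ∀ C ∈ F, C.card ≤ k)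
    (hu : ∀ a : Fin n → Bool, ∃ C ∈ F, ∀ l ∈ C, a l.1 ≠ l.2) (ps : List (Fin n)) :
    ∀ {L : List (Cl n)} {D : Cl n} {O : Finset (Fin n)} {y : Fin n → Bool},
    (∀ l ∈ D, y l.1 ≠ l.2) → (∀ v ∈ O, τ v ∉ O) →
    (∀ v ∈ O, ∀ b : Bool, Cov L (insert (v, b) (insert (τ v, b) D))) →
    (∀ v, (∃ b, (v, b) ∈ D) ∨ v ∈ O ∨ τ v ∈ O ∨ v ∈ ps ∨ τ v ∈ ps) →
    ps.Pairwise (fun u v => u ≠ v ∧ u ≠ τ v) →
    (∀ v ∈ ps, τ v ∉ O ∧ ∀ l ∈ D, l.1 ≠ v ∧ l.1 ≠ τ v) →
    Can F L D (2 * 4 ^ k * (ps.map fun v => if τ v = v then 2 else 3).prod) := by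
  induction ps with
  | nil =>
    intro L D O y hy hO hc hall _ _
    simpa using leaf hτ hF hk hu hy hO hc fun v => by simpa using hall v
  | cons v ps ih =>
    intro L D O y hy hO hc hall hp hd
    obtain ⟨hp1, hp2⟩ := List.pairwise_cons.1 hp
    have hv := hd v List.mem_cons_self
    have even : ∀ b : Bool, Can F L (insert (v, b) (insert (τ v, b) D))
        (2 * 4 ^ k * (ps.map fun v => if τ v = v then 2 else 3).prod) := by
      intro b
      refine ih (O := O) (y := fun u => if u = v ∨ u = τ v then !b else y u) (fun l hl => ?_) hO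
        (fun u hu b' => (hc u hu b').mono (List.Subset.refl _) ?_) (fun u => ?_) hp2
        fun u hu => ⟨(hd u (List.mem_cons_of_mem _ hu)).1, fun l hl => ?_⟩
      · simp only [Finset.mem_insert] at hl
        rcases hl with rfl | rfl | hl
        · simp
        · simp
        · simpa [(hv.2 l hl).1, (hv.2 l hl).2] using hy l hl
      · intro l hl
        simp only [Finset.mem_insert] at hl ⊢
        tauto
      · rcases hall u with ⟨b', h⟩ | h | h | h | h
        · exact Or.inl ⟨b', by simp [h]⟩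
        · tauto
        · tauto
        · rcases List.mem_cons.1 h with rfl | h
          · exact Or.inl ⟨b, by simp⟩
          · tauto
        · rcases List.mem_cons.1 h with h | h
          · exact Or.inl ⟨b, by rw [← h, hτ u]; simp⟩
          · tauto
      · simp only [Finset.mem_insert] at hl
        rcases hl with rfl | rfl | hl
        · exact hp1 u hu
        · exact ⟨fun h => (hp1 u hu).2 (by rw [← h, hτ v]),
            fun h => (hp1 u hu).1 (hτ.injective h)⟩
        · exact (hd u (List.mem_cons_of_mem _ hu)).2 l hl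
    rw [List.map_cons, List.prod_cons, mul_left_comm]
    split_ifs with e
    · rw [e] at even
      simp only [Finset.insert_idem] at even
      exact can_res (even true) (even false)
    · refine can_three (even true) (even false) fun L' hL c1 c2 => ?_
      refine ih (O := insert v O) hy (fun u hu h => ?_) (fun u hu b => ?_) (fun u => ?_) hp2
        fun u hu => ⟨fun h => ?_, (hd u (List.mem_cons_of_mem _ hu)).2⟩
      · rcases Finset.mem_insert.1 hu with rfl | hu
        · exact (Finset.mem_insert.1 h).elim e hv.1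
        · rcases Finset.mem_insert.1 h with h | h
          · exact hv.1 (by rw [← h, hτ u]; exact hu)
          · exact hO u hu h
      · rcases Finset.mem_insert.1 hu with rfl | hu
        · cases b
          · exact c2
          · exact c1
        · exact (hc u hu b).mono hL (Finset.Subset.refl _)
      · have := hall u
        simp only [List.mem_cons, Finset.mem_insert] at this ⊢
        tauto
      · rcases Finset.mem_insert.1 h with h | h
        · exact (hp1 u hu).2 h.symm
        · exact (hd u (List.mem_cons_of_mem _ hu)).1 h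

end

end Pool.Agent.P.MP_0f6e60_lc.Pairs
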