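import Pool.Agent.P.MP_0f6e60_lc.Walk

set_option autoImplicit false

namespace Pool.Agent.P.MP_0f6e60_lc

open Finset

variable {n : ℕ} {ι : Type} [Fintype ι] [DecidableEq ι]

/-- Fewer than `s` clauses have all literals false under `z` on `B` or on a variable of `X`. -/
def LSp (c : ι → Finset (Fin n × Bool)) (s b x : ℕ) (z : Fin n → Bool) : Prop :=
  ∀ B : Finset (Fin n), B.card ≤ b → ∀ X : Finset (Fin n), X.card ≤ x → ∀ K : Finset ι,
    (∀ i ∈ K, ∀ l ∈ c i, (l.1 ∈ B ∧ z l.1 ≠ l.2) ∨ l.1 ∈ X) → K.card < s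

omit [Fintype ι] [DecidableEq ι] in
lemma LSp.move {c : ι → Finset (Fin n × Bool)} {s b x y : ℕ} {z0 z : Fin n → Bool}
    (h : LSp c s b x z0) {D : Finset (Fin n)} (hD : D.card + y ≤ x) {B : Finset (Fin n)}
    (hB : B.card ≤ b) (hz : ∀ v ∈ B, v ∉ D → z v = z0 v) :
    ∀ W : Finset (Fin n), W.card ≤ y → ∀ K : Finset ι,
      (∀ i ∈ K, ∀ l ∈ c i, (l.1 ∈ B ∧ z l.1 ≠ l.2) ∨ l.1 ∈ W) → K.card < s := by
  intro W hW K hK
  refine h B hB (D ∪ W) ((card_union_le _ _).trans (by omega)) K fun i hi l hl => ?_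
  rcases hK i hi l hl with e | e
  · by_cases hd : l.1 ∈ D
    · exact Or.inr (mem_union_left _ hd)
    · exact Or.inl ⟨e.1, by rw [← hz _ e.1 hd]; exact e.2⟩
  · exact Or.inr (mem_union_right _ e)

omit [Fintype ι] in
lemma St.congr {c : ι → Finset (Fin n × Bool)} {s : ℕ} {z z' : Fin n → Bool}
    {B U : Finset (Fin n)} {K : Finset ι} (h : St c s z B U K) (hz : ∀ v ∈ B ∪ U, z' v = z v) :
    St c s z' B U K := by
  refine ⟨h.hU, fun i hi l hl => ?_, fun i hi => ?_, h.hs⟩
  · rcases h.hK i hi l hl with e | e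
    · exact Or.inl e
    · exact Or.inr ⟨e.1, by rw [hz _ (mem_union_left _ e.1)]; exact e.2⟩
  · obtain ⟨l, hl, e1, e2⟩ := h.hsat i hi
    exact ⟨l, hl, e1, by rw [hz _ e1]; exact e2⟩

omit [Fintype ι] [DecidableEq ι] in
lemma Expands.congr {c : ι → Finset (Fin n × Bool)} {s r : ℕ} {z z' : Fin n → Bool}
    {T : Finset (Fin n)} (h : Expands c s r z T) (hz : ∀ v ∈ T, z' v = z v) :
    Expands c s r z' T :=
  fun K hK hu => h K hK fun i hi l hl hT => by rw [← hz _ hT]; exact hu i hi l hl hT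

omit [Fintype ι] in
lemma St.insert {c : ι → Finset (Fin n × Bool)} {s : ℕ} {z : Fin n → Bool}
    {B U : Finset (Fin n)} {K : Finset ι} (h1 : St c s z B U K) (x : Fin n) :
    St c s z (insert x B) U K := by
  refine ⟨h1.hU, fun i hi l hl => ?_, fun i hi => ?_, h1.hs⟩
  · rcases h1.hK i hi l hl with e | e
    · exact Or.inl e
    · exact Or.inr ⟨mem_insert_of_mem e.1, e.2⟩
  · obtain ⟨l, hl, e1, e2⟩ := h1.hsat i hi
    refine ⟨l, hl, ?_, e2⟩
    rw [insert_union]; exact mem_insert_of_mem e1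

lemma lclosure {c : ι → Finset (Fin n × Bool)} {s : ℕ}
    {z : Fin n → Bool} {B U T : Finset (Fin n)} {K : Finset ι}
    (hS : ∀ W : Finset (Fin n), W.card ≤ 4 * s → ∀ K : Finset ι,
      (∀ i ∈ K, ∀ l ∈ c i, (l.1 ∈ B ∧ z l.1 ≠ l.2) ∨ l.1 ∈ W) → K.card < s)
    (h : St c s z B U K) (hT : B ∪ U ⊆ T) (hE : Expands c s 1 z T) :
    ∃ z' U' K', St c s z' B U' K' ∧ U ⊆ U' ∧ (∀ v, v ∈ T ∨ v ∉ U' → z' v = z v) ∧
      Expands c s 2 z' (B ∪ U') := by
  classical
  have small : ∀ N : Finset ι, Disjoint K N → (∀ i ∈ N, Uns c z (B ∪ U) i) →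
      (vars c N \ (B ∪ U)).card ≤ 2 * N.card → K.card + N.card ≤ 2 * s →
      K.card + N.card < s := by
    intro N hd hu hv hc
    let W := U ∪ (vars c N \ (B ∪ U))
    have hW : W.card ≤ 4 * s := by
      have := card_union_le U (vars c N \ (B ∪ U))
      have := h.hU
      simp only [W]; omega
    have := hS W hW (K ∪ N) (by
      intro i hi l hl
      rcases mem_union.1 hi with hi | hi
      · rcases h.hK i hi l hl with h1 | h1
        · exact Or.inr (mem_union_left _ h1)
        · exact Or.inl h1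
      · by_cases h1 : l.1 ∈ U
        · exact Or.inr (mem_union_left _ h1)
        · by_cases h2 : l.1 ∈ B
          · exact Or.inl ⟨h2, hu i hi l hl (mem_union_left _ h2)⟩
          · exact Or.inr (mem_union_right _ (mem_sdiff.2 ⟨mem_vars.2 ⟨i, hi, l, hl, rfl⟩, by
              simp [h1, h2]⟩)))
    rwa [card_union_of_disjoint hd] at this
  obtain ⟨N, hN, hmax⟩ := exists_max_image (univ.filter fun N : Finset ι => Disjoint K N ∧
    (∀ i ∈ N, Uns c z (B ∪ U) i) ∧ (vars c N \ (B ∪ U)).card ≤ 2 * N.card ∧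
      K.card + N.card < s) card ⟨∅, by simpa [vars] using h.hs⟩
  obtain ⟨hd, hu, hv, hc⟩ := (mem_filter.1 hN).2
  obtain ⟨z', hz, hsat⟩ := hall_sat hE (N := N) (by omega)
  have hzT : ∀ v ∈ B ∪ U, z' v = z v := fun v hv => hz v (Or.inl (hT hv))
  have hst : St c s z' B (U ∪ (vars c N \ (B ∪ U))) (K ∪ N) := by
    refine ⟨?_, ?_, ?_, ?_⟩
    · have := card_union_le U (vars c N \ (B ∪ U))
      have := h.hU
      rw [card_union_of_disjoint hd]; omega
    · intro i hi l hl
      rcases mem_union.1 hi with hi | hi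
      · rcases h.hK i hi l hl with h1 | h1
        · exact Or.inl (mem_union_left _ h1)
        · exact Or.inr ⟨h1.1, by rw [hzT _ (mem_union_left _ h1.1)]; exact h1.2⟩
      · by_cases h1 : l.1 ∈ U
        · exact Or.inl (mem_union_left _ h1)
        · by_cases h2 : l.1 ∈ B
          · exact Or.inr ⟨h2, by
              rw [hzT _ (mem_union_left _ h2)]; exact hu i hi l hl (mem_union_left _ h2)⟩
          · exact Or.inl (mem_union_right _ (mem_sdiff.2 ⟨mem_vars.2 ⟨i, hi, l, hl, rfl⟩, by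
              simp [h1, h2]⟩))
    · intro i hi
      rcases mem_union.1 hi with hi | hi
      · obtain ⟨l, hl, h1, h2⟩ := h.hsat i hi
        refine ⟨l, hl, ?_, by rw [hzT _ h1]; exact h2⟩
        rcases mem_union.1 h1 with h1 | h1
        · exact mem_union_left _ h1
        · exact mem_union_right _ (mem_union_left _ h1)
      · obtain ⟨l, hl, h1⟩ := hsat i hi
        refine ⟨l, hl, ?_, h1⟩
        have : l.1 ∈ vars c N := mem_vars.2 ⟨i, hi, l, hl, rfl⟩
        simp only [mem_union, mem_sdiff]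
        tauto
    · rw [card_union_of_disjoint hd]; exact hc
  refine ⟨z', _, _, hst, subset_union_left, ?_, ?_⟩
  · intro v hv
    rcases hv with hv | hv
    · exact hz v (Or.inl hv)
    · by_cases h1 : v ∈ vars c N
      · refine hz v (Or.inl (hT ?_))
        by_contra h2
        exact hv (mem_union_right _ (mem_sdiff.2 ⟨h1, h2⟩))
      · exact hz v (Or.inr h1)
  · intro L hL hLu
    by_contra hlt
    push Not at hlt
    have hdL : Disjoint (K ∪ N) L := by
      rw [disjoint_left]
      intro i hi hiL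
      obtain ⟨l, hl, h1, h2⟩ := hst.hsat i hi
      exact hLu i hiL l hl h1 h2
    have hd1 : Disjoint K L := hdL.mono_left subset_union_left
    have hd2 : Disjoint N L := hdL.mono_left subset_union_right
    have hcard : (N ∪ L).card = N.card + L.card := card_union_of_disjoint hd2
    have h1 : Disjoint K (N ∪ L) := disjoint_union_right.2 ⟨hd, hd1⟩
    have h2 : ∀ i ∈ N ∪ L, Uns c z (B ∪ U) i := by
      intro i hi
      rcases mem_union.1 hi with hi | hi
      · exact hu i hi
      · intro l hl hl1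
        rw [← hzT _ hl1]
        refine hLu i hi l hl ?_
        rcases mem_union.1 hl1 with h1 | h1
        · exact mem_union_left _ h1
        · exact mem_union_right _ (mem_union_left _ h1)
    have h3 : (vars c (N ∪ L) \ (B ∪ U)).card ≤ 2 * (N ∪ L).card := by
      have : vars c (N ∪ L) \ (B ∪ U) ⊆ (vars c N \ (B ∪ U)) ∪
          (vars c L \ (B ∪ (U ∪ (vars c N \ (B ∪ U))))) := by
        intro v hv
        rw [vars_union] at hv
        simp only [mem_union, mem_sdiff] at hv ⊢
        tauto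
      have h4 := (card_le_card this).trans (card_union_le _ _)
      omega
    have h4 := small (N ∪ L) h1 h2 h3 (by omega)
    have h5 := hmax (N ∪ L) (mem_filter.2 ⟨mem_univ _, h1, h2, h3, h4⟩)
    omega

end Pool.Agent.P.MP_0f6e60_lc
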