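import Pool.Agent.P.MP_0f6e60_lc.RWalk

set_option autoImplicit false

namespace Pool.Agent.P.MP_0f6e60_lc

open Finset

variable {n S : ℕ} {ι : Type} [Fintype ι] [DecidableEq ι]
  {c : ι → Finset (Fin n × Bool)} {P : Fin S → Finset (Fin n × Bool)}
  {J : Fin S → Option (Fin S × Fin S × Fin n)} {s b x e w d R : ℕ}

theorem rcount (G : Finset (Fin n → Bool)) (hG : ∀ z ∈ G, LSp c s b (2 * s + x) z)
    (hx : 2 * s * (R + 1) + 4 * s ≤ x) (hs : 1 ≤ s) (v0 : Fin n)
    (h0 : ∀ K : Finset ι, K.card ≤ s → K.card ≤ (vars c K).card)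
    (hroot : ∃ i, P i = ∅) (hax : ∀ i, J i = none → ∃ k, P i = c k)
    (hres : ∀ i j l x, J i = some (j, l, x) → j < i ∧ l < i ∧
      P i = (P j).erase (x, true) ∪ (P l).erase (x, false))
    (hpath : ∀ t p v, IsPath J t p v → ∃ g : ℕ → ℕ, Monotone g ∧ g t ≤ R ∧
      ∀ j, (Rep t v g j).card ≤ e) (hb : n ≤ b + d) (hw : w + d + e ≤ b) (hb1 : 1 ≤ b) :
    G.card ≤ S * ((univ.filter fun Fl : Finset (Fin n) => Fl.card ≤ 2 * s * R).card *
      (2 ^ (n - (w - 2 * s * R)) * 2 ^ (2 * s))) := by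
  classical
  obtain ⟨i0, hi0⟩ := hroot
  set f := 2 * s * R with hf
  let Z : Fin S → Finset (Fin n) → Finset (Fin n → Bool) := fun i Fl =>
    univ.filter fun z => w ≤ ((P i).image Prod.fst).card ∧ ∀ l ∈ P i, l.1 ∉ Fl → z l.1 ≠ l.2
  let Y : (Fin n → Bool) → Finset (Fin n → Bool) := fun y =>
    univ.filter fun z => (run c s b J i0 y S).2.U.card ≤ 2 * s ∧
      ∀ v, v ∉ (run c s b J i0 y S).2.U → z v = y v
  have hcov : G ⊆ univ.biUnion fun i =>
      (univ.filter fun Fl : Finset (Fin n) => Fl.card ≤ f).biUnion fun Fl =>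
        (Z i Fl).biUnion Y := by
    intro z0 hz0
    have hS := hG z0 hz0
    obtain ⟨⟨h1, h2, h3, h4, -, t, p, v, h6, h7, h8⟩, hB⟩ :=
      run_end (P := P) (J := J) hS (by omega) hs v0 h0 hax hres hi0
    have hloc := fun y => run_local (c := c) (s := s) (b := b) (J := J) (z0 := z0) i0 y S
    generalize run c s b J i0 z0 S = σ at *
    let z1 : Fin n → Bool := fun u => if u ∈ σ.2.B ∪ σ.2.U then σ.2.z u else z0 u
    have a1 : ∀ u ∈ σ.2.B ∪ σ.2.U, z1 u = σ.2.z u := fun u hu => if_pos hu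
    have aB : ∀ u ∈ σ.2.B, z1 u = z0 u := fun u hu => by
      rw [a1 u (mem_union_left _ hu), h4 u hu]
    have a2 : ∀ u, u ∉ σ.2.U → z1 u = z0 u := by
      intro u hu
      by_cases e1 : u ∈ σ.2.B
      · exact aB u e1
      · exact if_neg (by simp [e1, hu])
    have hU : σ.2.U.card ≤ 2 * s := by
      have := h1.hU
      have := h1.hs
      omega
    have hS1 : LSp c s b x z1 := fun B hB' =>
      hS.move (D := σ.2.U) (y := x) (by omega) hB' fun u _ hu => a2 u hu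
    obtain ⟨i, ⟨z, T, Fl, ph, t', p', v', -, g2, g3, g4, g5, -, -, g8⟩, hwi⟩ :=
      rwalk (Q := σ.2.B) (d := d) hS1 hx hs hpath (by omega) hw hb1 hax hres σ.1
        (Or.inr ⟨z1, σ.2.B ∪ σ.2.U, ∅, 0, t, p, v, (h2.congr a1).one,
          fun l hl => ⟨(h3 l hl).1, by rw [a1 _ (h3 l hl).1]; exact (h3 l hl).2⟩, by simp,
          fun _ _ => rfl, h6, h7, h8, fun _ _ _ => Nat.zero_le _⟩)
    obtain ⟨g, hg, hR, hbd⟩ := hpath t' p' v' g5
    have e1 : 2 * s * ph ≤ f := Nat.mul_le_mul_left _ ((g8 g hg hbd).trans hR)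
    let y : Fin n → Bool := fun u => if u ∉ Fl then z u else z0 u
    have b1 : ∀ u, z1 u = z0 u → y u = z0 u := by
      intro u hu
      by_cases e2 : u ∉ Fl
      · show (if u ∉ Fl then z u else z0 u) = z0 u
        rw [if_pos e2, g4 u e2, hu]
      · exact if_neg e2
    have b2 := hloc y fun u hu => b1 u (aB u hu)
    refine mem_biUnion.2 ⟨i, mem_univ _, mem_biUnion.2 ⟨Fl, mem_filter.2 ⟨mem_univ _, by omega⟩,
      mem_biUnion.2 ⟨y, mem_filter.2 ⟨mem_univ _, hwi, fun l hl hl' => ?_⟩,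
        mem_filter.2 ⟨mem_univ _, ?_⟩⟩⟩⟩
    · show (if l.1 ∉ Fl then z l.1 else z0 l.1) ≠ l.2
      rw [if_pos hl']; exact (g2 l hl).2
    · rw [b2]
      exact ⟨hU, fun u hu => (b1 u (a2 u hu)).symm⟩
  have hY : ∀ y, (Y y).card ≤ 2 ^ (2 * s) := by
    intro y
    rcases (Y y).eq_empty_or_nonempty with e | ⟨z1, hz1⟩
    · simp [e]
    have hU := (mem_filter.1 hz1).2.1
    refine (card_agree ((run c s b J i0 y S).2.U)ᶜ _ ?_).trans (Nat.pow_le_pow_right two_pos ?_)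
    · intro a ha a' ha' u hu
      rw [(mem_filter.1 ha).2.2 u (mem_compl.1 hu), (mem_filter.1 ha').2.2 u (mem_compl.1 hu)]
    · rw [card_compl, Fintype.card_fin]; omega
  have hZ : ∀ i, ∀ Fl ∈ univ.filter fun Fl : Finset (Fin n) => Fl.card ≤ f,
      (Z i Fl).card ≤ 2 ^ (n - (w - f)) := by
    intro i Fl hFl
    rcases (Z i Fl).eq_empty_or_nonempty with e | ⟨z1, hz1⟩
    · simp [e]
    have hw := (mem_filter.1 hz1).2.1
    refine (card_agree ((P i).image Prod.fst \ Fl) _ ?_).trans (Nat.pow_le_pow_right two_pos ?_)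
    · intro y hy z hz x hx
      obtain ⟨hx1, hx2⟩ := mem_sdiff.1 hx
      obtain ⟨l, hl, rfl⟩ := mem_image.1 hx1
      have a1 := (mem_filter.1 hy).2.2 l hl hx2
      have a2 := (mem_filter.1 hz).2.2 l hl hx2
      cases e1 : y l.1 <;> cases e2 : z l.1 <;> cases e3 : l.2 <;> simp_all
    · have := le_card_sdiff Fl ((P i).image Prod.fst)
      have := (mem_filter.1 hFl).2
      omega
  refine (card_le_card hcov).trans ((card_biUnion_le_card_mul _ _ _ fun i _ =>
    card_biUnion_le_card_mul _ _ _ fun Fl hFl => (card_biUnion_le_card_mul _ _ _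
      fun y _ => hY y).trans (Nat.mul_le_mul_right _ (hZ i Fl hFl))).trans ?_)
  simp

end Pool.Agent.P.MP_0f6e60_lc
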