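import Pool.Agent.P.MP_0f6e60_lc.RClos
import Pool.Agent.P.MP_0f6e60_lc.Random

set_option autoImplicit false

namespace Pool.Agent.P.MP_0f6e60_lc

open Finset

variable {n k m : ℕ}

lemma markov {α β : Type} [Fintype α] [Fintype β] [DecidableEq α] (bad : β → Finset α) {M : ℝ}
    (hβ : 0 < Fintype.card β) (h : ∀ z, ((bad z).card : ℝ) ≤ M) :
    ((univ.filter fun ω : α => Fintype.card β <
      2 * (univ.filter fun z => ω ∈ bad z).card).card : ℝ) ≤ 2 * M := by
  have e : ∑ ω : α, (univ.filter fun z => ω ∈ bad z).card = ∑ z : β, (bad z).card := by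
    simp only [card_filter]
    rw [sum_comm]
    refine sum_congr rfl fun z _ => ?_
    rw [← card_filter]; simp
  set A := univ.filter fun ω : α => Fintype.card β < 2 * (univ.filter fun z => ω ∈ bad z).card
  have h1 : A.card * Fintype.card β ≤ 2 * ∑ z : β, (bad z).card := by
    rw [← e, mul_sum]
    calc _ = ∑ _ω ∈ A, Fintype.card β := by rw [sum_const, smul_eq_mul]
      _ ≤ ∑ ω ∈ A, 2 * (univ.filter fun z => ω ∈ bad z).card :=
          sum_le_sum fun ω hω => (mem_filter.1 hω).2.le
      _ ≤ _ := sum_le_sum_of_subset (subset_univ _)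
  have h2 : (A.card : ℝ) * Fintype.card β ≤ 2 * ∑ z : β, ((bad z).card : ℝ) := by
    exact_mod_cast h1
  have h3 : ∑ z : β, ((bad z).card : ℝ) ≤ Fintype.card β * M := by
    have := sum_le_card_nsmul univ _ M fun z _ => h z
    rwa [card_univ, nsmul_eq_mul] at this
  have h4 : (0 : ℝ) < Fintype.card β := by exact_mod_cast hβ
  refine le_of_mul_le_mul_right ?_ h4
  linarith

theorem exists_formula2 {s b x : ℕ} (hn : 0 < n) (hsn : s ≤ n) (hbn : b ≤ n) (hxn : x ≤ n)
    (h : (2 : ℝ) ^ n * (1 - (1 / 2 : ℝ) ^ k) ^ m +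
      2 * (n.choose b * (n.choose x * (m.choose s * ((((b : ℝ) + 2 * x) / (2 * n)) ^ k) ^ s))) +
      ∑ j ∈ Icc 1 s, (n.choose j : ℝ) * (m.choose j * (((j : ℝ) / n) ^ k) ^ j) < 1) :
    ∃ c : Fin m → Finset (Fin n × Bool), (∀ i, (c i).card ≤ k) ∧
      (∀ x : Fin n → Bool, ∃ i, ∀ l ∈ c i, x l.1 ≠ l.2) ∧
      (∃ G : Finset (Fin n → Bool), 2 ^ n ≤ 2 * G.card ∧ ∀ z ∈ G, LSp c s b x z) ∧
      ∀ K : Finset (Fin m), K.card ≤ s → K.card ≤ (vars c K).card := by
  classical
  set Tot : ℝ := ((2 * n : ℝ) ^ k) ^ m with hTot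
  have hT : 0 < Tot := by positivity
  let Ω := Fin m → Fin k → Fin n × Bool
  let ins : Finset (Fin m) → Finset (Fin n × Bool) → Finset Ω := fun I A =>
    univ.filter fun ω => ∀ i ∈ I, ∀ j, ω i j ∈ A
  let B1 : Finset Ω := univ.biUnion fun x : Fin n → Bool =>
    univ.filter fun ω => ∀ i, ¬ ∀ j, x (ω i j).1 ≠ (ω i j).2
  let bad : (Fin n → Bool) → Finset Ω := fun z => (powersetCard b univ).biUnion
    fun B : Finset (Fin n) => (powersetCard x univ).biUnion fun X : Finset (Fin n) =>
      (powersetCard s univ).biUnion fun I => ins I (B.image (fun v => (v, !z v)) ∪ X ×ˢ univ)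
  let B2 : Finset Ω := univ.filter fun ω => Fintype.card (Fin n → Bool) <
    2 * (univ.filter fun z => ω ∈ bad z).card
  let B3 : Finset Ω := (Icc 1 s).biUnion fun j => (powersetCard j univ).biUnion
    fun U : Finset (Fin n) => (powersetCard j univ).biUnion fun I => ins I (U ×ˢ univ)
  have c1 : (B1.card : ℝ) ≤ Tot * ((2 : ℝ) ^ n * (1 - (1 / 2 : ℝ) ^ k) ^ m) := by
    refine (Nat.cast_le.2 card_biUnion_le).trans (le_of_eq ?_)
    push_cast
    rw [sum_congr rfl fun x _ => card_sat x hn]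
    simp only [sum_const, card_univ, Fintype.card_fun, Fintype.card_fin, Fintype.card_bool,
      nsmul_eq_mul]
    push_cast; ring
  have c2 : (B2.card : ℝ) ≤ Tot * (2 * (n.choose b * (n.choose x *
      (m.choose s * ((((b : ℝ) + 2 * x) / (2 * n)) ^ k) ^ s)))) := by
    refine (markov bad (M := Tot * (n.choose b * (n.choose x *
      (m.choose s * ((((b : ℝ) + 2 * x) / (2 * n)) ^ k) ^ s)))) Fintype.card_pos
      fun z => ?_).trans (le_of_eq (by ring))
    refine (Nat.cast_le.2 card_biUnion_le).trans ?_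
    push_cast
    refine (sum_le_card_nsmul _ _ (Tot * (n.choose x *
      (m.choose s * ((((b : ℝ) + 2 * x) / (2 * n)) ^ k) ^ s))) ?_).trans (le_of_eq ?_)
    · intro B hB
      refine (Nat.cast_le.2 card_biUnion_le).trans ?_
      push_cast
      refine (sum_le_card_nsmul _ _ (Tot *
        (m.choose s * ((((b : ℝ) + 2 * x) / (2 * n)) ^ k) ^ s)) ?_).trans (le_of_eq ?_)
      · intro X hX
        refine (Nat.cast_le.2 card_biUnion_le).trans ?_
        push_cast
        refine (sum_le_card_nsmul _ _ (Tot * ((((b : ℝ) + 2 * x) / (2 * n)) ^ k) ^ s) ?_).trans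
          (le_of_eq ?_)
        · intro I hI
          rw [card_inside I _ hn, (mem_powersetCard.1 hI).2]
          have h1 := card_union_le (B.image (fun v => (v, !z v))) (X ×ˢ (univ : Finset Bool))
          have h2 : (B.image (fun v => (v, !z v))).card ≤ B.card := card_image_le
          have h3 : (X ×ˢ (univ : Finset Bool)).card = X.card * 2 := by simp
          rw [(mem_powersetCard.1 hB).2] at h2
          rw [(mem_powersetCard.1 hX).2] at h3
          have : ((B.image (fun v => (v, !z v)) ∪ X ×ˢ (univ : Finset Bool)).card : ℝ) ≤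
              b + 2 * x := by exact_mod_cast (show _ ≤ b + 2 * x by omega)
          gcongr
        · rw [card_powersetCard, card_univ, Fintype.card_fin, nsmul_eq_mul]; ring
      · rw [card_powersetCard, card_univ, Fintype.card_fin, nsmul_eq_mul]; ring
    · rw [card_powersetCard, card_univ, Fintype.card_fin, nsmul_eq_mul]; ring
  have c3 : (B3.card : ℝ) ≤
      Tot * ∑ j ∈ Icc 1 s, (n.choose j : ℝ) * (m.choose j * (((j : ℝ) / n) ^ k) ^ j) := by
    refine (Nat.cast_le.2 card_biUnion_le).trans ?_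
    push_cast
    rw [mul_sum]
    refine sum_le_sum fun j _ => ?_
    refine (Nat.cast_le.2 card_biUnion_le).trans ?_
    push_cast
    refine (sum_le_card_nsmul _ _ (Tot * (m.choose j * (((j : ℝ) / n) ^ k) ^ j)) ?_).trans
      (le_of_eq ?_)
    · intro U hU
      refine (Nat.cast_le.2 card_biUnion_le).trans ?_
      push_cast
      refine (sum_le_card_nsmul _ _ (Tot * (((j : ℝ) / n) ^ k) ^ j) ?_).trans (le_of_eq ?_)
      · intro I hI
        rw [card_inside I _ hn, (mem_powersetCard.1 hI).2, card_product,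
          (mem_powersetCard.1 hU).2]
        have : ((j * (univ : Finset Bool).card : ℕ) : ℝ) / (2 * n) = j / n := by
          simp only [card_univ, Fintype.card_bool]; push_cast; field_simp
        rw [this]
      · rw [card_powersetCard, card_univ, Fintype.card_fin, nsmul_eq_mul]; ring
    · rw [card_powersetCard, card_univ, Fintype.card_fin, nsmul_eq_mul]; ring
  have hlt : (B1 ∪ B2 ∪ B3).card < (univ : Finset Ω).card := by
    have e : ((univ : Finset Ω).card : ℝ) = Tot := by
      simp only [Ω, card_univ, Fintype.card_fun, Fintype.card_prod, Fintype.card_fin,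
        Fintype.card_bool, hTot]
      push_cast; ring
    have u1 : ((B1 ∪ B2 ∪ B3).card : ℝ) ≤ B1.card + B2.card + B3.card := by
      exact_mod_cast (card_union_le _ _).trans (Nat.add_le_add_right (card_union_le _ _) _)
    have : ((B1 ∪ B2 ∪ B3).card : ℝ) < (univ : Finset Ω).card := by
      rw [e]; nlinarith
    exact_mod_cast this
  obtain ⟨ω, -, hω⟩ := exists_mem_notMem_of_card_lt_card hlt
  rw [mem_union, mem_union, not_or, not_or] at hω
  obtain ⟨⟨h1, h2⟩, h3⟩ := hω
  refine ⟨fun i => univ.image (ω i), fun i => card_image_le.trans (by simp), ?_, ?_, ?_⟩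
  · intro x
    by_contra hx
    refine h1 (mem_biUnion.2 ⟨x, mem_univ _, mem_filter.2 ⟨mem_univ _, fun i hi => hx ⟨i, ?_⟩⟩⟩)
    intro l hl
    obtain ⟨j, -, rfl⟩ := mem_image.1 hl
    exact hi j
  · have e1 : ¬ Fintype.card (Fin n → Bool) < 2 * (univ.filter fun z => ω ∈ bad z).card :=
      fun e => h2 (mem_filter.2 ⟨mem_univ _, e⟩)
    have e2 := card_filter_add_card_filter_not (s := (univ : Finset (Fin n → Bool)))
      fun z => ω ∈ bad z
    have e3 : Fintype.card (Fin n → Bool) = 2 ^ n := by simp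
    rw [card_univ] at e2
    refine ⟨univ.filter fun z => ¬ ω ∈ bad z, by omega, fun z hz B hB X hX K hK => ?_⟩
    by_contra hs
    obtain ⟨I, hI, hIs⟩ := exists_subset_card_eq (not_lt.1 hs)
    obtain ⟨B', hB', hBc⟩ := exists_superset_card_eq hB (by simpa using hbn)
    obtain ⟨X', hX', hXc⟩ := exists_superset_card_eq hX (by simpa using hxn)
    refine (mem_filter.1 hz).2 (mem_biUnion.2 ⟨B', mem_powersetCard.2 ⟨subset_univ _, hBc⟩,
      mem_biUnion.2 ⟨X', mem_powersetCard.2 ⟨subset_univ _, hXc⟩, mem_biUnion.2 ⟨I,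
      mem_powersetCard.2 ⟨subset_univ _, hIs⟩, mem_filter.2 ⟨mem_univ _, fun i hi j => ?_⟩⟩⟩⟩)
    rcases hK i (hI hi) (ω i j) (mem_image_of_mem _ (mem_univ _)) with e | e
    · refine mem_union_left _ (mem_image.2 ⟨(ω i j).1, hB' e.1, ?_⟩)
      have e4 := e.2
      generalize ω i j = l at e4
      obtain ⟨v, a⟩ := l
      simp only at e4 ⊢
      cases a <;> cases hz : z v <;> simp_all
    · exact mem_union_right _ (mem_product.2 ⟨hX' e, mem_univ _⟩)
  · intro K hK
    by_contra hlt'
    push Not at hlt'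
    obtain ⟨U, hU, hUc⟩ := exists_superset_card_eq hlt'.le (by simp; omega)
    exact h3 (mem_biUnion.2 ⟨K.card, mem_Icc.2 ⟨by omega, hK⟩, mem_biUnion.2 ⟨U,
      mem_powersetCard.2 ⟨subset_univ _, hUc⟩, mem_biUnion.2 ⟨K,
      mem_powersetCard.2 ⟨subset_univ _, rfl⟩, mem_filter.2 ⟨mem_univ _, fun i hi j =>
        mem_product.2 ⟨hU (mem_vars.2 ⟨i, hi, ω i j, mem_image_of_mem _ (mem_univ _), rfl⟩),
          mem_univ _⟩⟩⟩⟩⟩)

end Pool.Agent.P.MP_0f6e60_lc
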