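import Pool.Agent.P.MP_0f6e60_lc.Main
import Pool.Agent.P.MP_0f6e60_lc.RCount
import Pool.Agent.P.MP_0f6e60_lc.RRandom

set_option autoImplicit false

namespace Pool.Agent.P.MP_0f6e60_lc

open Finset Real

lemma term4 {k n s a : ℕ} {L : ℝ} (hn : 0 < n) (hs : 0 < s) (ha : 8 ≤ a) (hL : 1 ≤ L)
    (h1 : 7 * L * n ≤ s * k) (h2 : (n : ℝ) ≤ exp L * (a * s)) (hd : 4 * (a * s) ≤ n) :
    (n.choose (n - 4 * (a * s)) : ℝ) * (n.choose (a * s) * ((2 ^ k * n).choose s *
      (((((n - 4 * (a * s) : ℕ) : ℝ) + 2 * ((a * s : ℕ) : ℝ)) / (2 * n)) ^ k) ^ s)) ≤ 1 / 8 := by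
  have hn' : (0 : ℝ) < n := by exact_mod_cast hn
  have hs' : (1 : ℝ) ≤ s := by exact_mod_cast hs
  have ha' : (8 : ℝ) ≤ a := by exact_mod_cast ha
  have hx : 0 < a * s := Nat.mul_pos (by omega) hs
  have hx' : (0 : ℝ) < a * s := by positivity
  have hd' : 4 * ((a : ℝ) * s) ≤ n := by exact_mod_cast hd
  have eL := exp_pos L
  have e0 := exp_pos 1
  have q1 : (n.choose (n - 4 * (a * s)) : ℝ) ≤ exp (1 + L) ^ (4 * (a * s)) := by
    rw [Nat.choose_symm hd]
    refine (choose_le _ _ (by omega)).trans ?_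
    gcongr
    rw [exp_add, div_le_iff₀ (by positivity)]
    push_cast
    nlinarith
  have q2 : (n.choose (a * s) : ℝ) ≤ exp (1 + L) ^ (a * s) := by
    refine (choose_le _ _ hx).trans ?_
    gcongr
    rw [exp_add, div_le_iff₀ (by positivity)]
    push_cast
    nlinarith
  have q3 : ((2 ^ k * n).choose s : ℝ) ≤ (2 ^ k * exp (1 + L + a)) ^ s := by
    refine (choose_le _ _ hs).trans ?_
    gcongr
    rw [exp_add, exp_add, div_le_iff₀ (by positivity)]
    push_cast
    have : (a : ℝ) ≤ exp a := by linarith [add_one_le_exp (a : ℝ)]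
    have h3 : (n : ℝ) ≤ exp L * (exp a * s) := h2.trans (by gcongr)
    calc exp 1 * (2 ^ k * (n : ℝ)) ≤ exp 1 * (2 ^ k * (exp L * (exp a * s))) := by gcongr
      _ = _ := by ring
  have q4 : (((((n - 4 * (a * s) : ℕ) : ℝ) + 2 * ((a * s : ℕ) : ℝ)) / (2 * n)) ^ k) ≤
      exp (-(14 * a * L)) / 2 ^ k := by
    have e1 : ((((n - 4 * (a * s) : ℕ) : ℝ) + 2 * ((a * s : ℕ) : ℝ)) / (2 * n)) ≤
        exp (-(2 * (a * s) / n)) / 2 := by
      rw [Nat.cast_sub hd, div_le_div_iff₀ (by positivity) (by norm_num)]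
      push_cast
      have e2 := add_one_le_exp (-(2 * ((a : ℝ) * s) / n))
      have e3 : (-(2 * ((a : ℝ) * s) / n) + 1) * n = n - 2 * (a * s) := by field_simp; ring
      nlinarith
    calc _ ≤ (exp (-(2 * (a * s) / n)) / 2) ^ k := by gcongr
      _ = exp (k * -(2 * (a * s) / n)) / 2 ^ k := by rw [div_pow, ← exp_nat_mul]
      _ ≤ _ := by
          gcongr
          rw [mul_neg, neg_le_neg_iff, ← mul_div_assoc, le_div_iff₀ hn']
          nlinarith
  calc _ ≤ exp (1 + L) ^ (4 * (a * s)) * (exp (1 + L) ^ (a * s) * ((2 ^ k * exp (1 + L + a)) ^ s *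
        (exp (-(14 * a * L)) / 2 ^ k) ^ s)) := by gcongr
    _ = exp (s * (5 * a * (1 + L) + (1 + L + a) - 14 * a * L)) := by
        rw [← mul_pow, show 2 ^ k * exp (1 + L + a) * (exp (-(14 * a * L)) / 2 ^ k) =
          exp (1 + L + a + -(14 * a * L)) by rw [exp_add (1 + L + a)]; field_simp,
          ← exp_nat_mul, ← exp_nat_mul, ← exp_nat_mul, ← exp_add, ← exp_add]
        congr 1; push_cast; ring
    _ ≤ exp (-3) := by
        rw [exp_le_exp]
        have : 5 * a * (1 + L) + (1 + L + a) - 14 * a * L ≤ -3 := by nlinarith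
        nlinarith
    _ ≤ 1 / 8 := by
        have : exp (-3) = exp (-1) ^ 3 := by rw [← exp_nat_mul]; norm_num
        have h2 : exp (-1) ≤ 1 / 2 := by
          rw [exp_neg, inv_le_comm₀ (exp_pos 1) (by norm_num)]
          linarith [exp_one_gt_d9]
        rw [this]
        calc _ ≤ (1 / 2 : ℝ) ^ 3 := by gcongr
          _ = _ := by norm_num

lemma log_small {y : ℝ} (hy : 1048576 ≤ y) : 1 ≤ log y ∧ 512 * log y ≤ y := by
  have h0 : 0 < y := by linarith
  refine ⟨?_, ?_⟩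
  · rw [le_log_iff_exp_le h0]; linarith [exp_one_lt_d9]
  · have h1 : 1024 ≤ √y := by
      rw [le_sqrt (by norm_num) h0.le]; linarith
    have h2 := log_le_sub_one_of_pos (show 0 < √y by linarith)
    rw [log_sqrt h0.le] at h2
    have h3 := mul_self_sqrt h0.le
    nlinarith

lemma final_num {S Nf L A E n : ℝ} {W f t : ℕ} (h3 : (2 : ℝ) ^ W ≤ S * Nf * 2 ^ t)
    (h4 : Nf * exp (-L) ^ f ≤ exp (exp (-L) * n)) (f2 : f * L ≤ 16 * A) (f4 : exp (-L) * n ≤ A)
    (hS : 0 ≤ S ∧ 0 ≤ A) (h9 : E + t + 25 * A ≤ W) : (2 : ℝ) ^ E ≤ S := by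
  have hl2 : 0.69 ≤ log 2 := by linarith [log_two_gt_d9]
  have hS0 := hS.1
  have h6 : (2 : ℝ) ^ W * exp (-L) ^ f ≤ S * (exp (exp (-L) * n) * 2 ^ t) := by
    calc _ ≤ S * Nf * 2 ^ t * exp (-L) ^ f := by gcongr
      _ = S * (Nf * exp (-L) ^ f * 2 ^ t) := by ring
      _ ≤ _ := by gcongr
  have h7 : (2 : ℝ) ^ W * exp (-L) ^ f = exp ((W : ℝ) * log 2 + f * -L) := by
    rw [exp_add, exp_nat_mul, exp_nat_mul, exp_log (by norm_num)]
  have h8 : exp (exp (-L) * n) * 2 ^ t = exp (exp (-L) * n + (t : ℝ) * log 2) := by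
    rw [exp_add, exp_nat_mul, exp_log (by norm_num)]
  rw [h7, h8] at h6
  rw [rpow_def_of_pos (by norm_num)]
  refine le_of_mul_le_mul_right (le_trans ?_ h6) (exp_pos _)
  rw [← exp_add, exp_le_exp]
  have h10 := mul_le_mul_of_nonneg_left h9 (show 0 ≤ log 2 by linarith)
  have h11 := mul_le_mul_of_nonneg_right hl2 hS.2
  linarith

theorem rate_main {k r n : ℕ} (hk : 1048576 * (r + 1) ≤ k) (hn : k ≤ n) :
    ∃ F : Finset (Finset (Fin n × Bool)), (∀ C ∈ F, C.card ≤ k) ∧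
      (∀ x : Fin n → Bool, ∃ C ∈ F, ∀ l ∈ C, x l.1 ≠ l.2) ∧
      ∀ (δ : ℝ) (S : ℕ) (P : Fin S → Finset (Fin n × Bool))
        (J : Fin S → Option (Fin S × Fin S × Fin n)),
        (∃ i, P i = ∅) → (∀ i, J i = none → P i ∈ F) →
        (∀ i j l x, J i = some (j, l, x) → j < i ∧ l < i ∧
          P i = (P j).erase (x, true) ∪ (P l).erase (x, false)) →
        (∀ t p v, IsPath J t p v → ∃ g : ℕ → ℕ, Monotone g ∧ g t ≤ r ∧
          ∀ j, ((Rep t v g j).card : ℝ) ≤ δ * n) →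
        (2 : ℝ) ^ ((1 - δ - 600 * ((1 + r * log (k / (r + 1))) * log (k / (r + 1)) / k)) * n)
          ≤ S := by
  classical
  have hr0 : (0 : ℝ) ≤ r := by positivity
  have hk' : 1048576 * ((r : ℝ) + 1) ≤ k := by exact_mod_cast hk
  have hkn : (k : ℝ) ≤ n := by exact_mod_cast hn
  have hk0 : (0 : ℝ) < k := by linarith
  have hn0 : (0 : ℝ) < n := by linarith
  have hnpos : 0 < n := by omega
  have hy : (1048576 : ℝ) ≤ k / (r + 1) := by rw [le_div_iff₀ (by linarith)]; exact hk'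
  obtain ⟨hL, hL2⟩ := log_small hy
  have eL : exp (log ((k : ℝ) / (r + 1))) = k / (r + 1) := exp_log (by linarith)
  generalize log ((k : ℝ) / (r + 1)) = L at *
  rw [le_div_iff₀ (by linarith)] at hL2
  set u : ℝ := n / k with hu
  have hun : u * k = n := by rw [hu]; field_simp
  have hu1 : 1 ≤ u := by rw [hu, le_div_iff₀ hk0]; linarith
  have hLu : 1 ≤ L * u := by nlinarith
  set s := ⌈7 * (L * u)⌉₊ with hs
  have s1 : 7 * (L * u) ≤ s := Nat.le_ceil _
  have s2 : (s : ℝ) ≤ 8 * (L * u) := by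
    have : (s : ℝ) ≤ 7 * (L * u) + 1 := (Nat.ceil_lt_add_one (by linarith)).le
    linarith
  have spos : 0 < s := by exact_mod_cast (show (0 : ℝ) < s by linarith)
  have hB : 512 * ((r + 1) * (L * u)) ≤ n := by rw [← hun]; nlinarith
  set a := 2 * r + 8 with ha
  have ha' : (a : ℝ) = 2 * r + 8 := by rw [ha]; push_cast; ring
  have hd1 : 4 * ((a : ℝ) * s) ≤ 256 * ((r + 1) * (L * u)) := by
    calc 4 * ((a : ℝ) * s) ≤ 4 * ((8 * (r + 1)) * (8 * (L * u))) := by
          gcongr; rw [ha']; linarith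
      _ = _ := by ring
  have hd2 : 2 * (4 * (a * s)) ≤ n := by
    exact_mod_cast (show 2 * (4 * ((a : ℝ) * s)) ≤ n by linarith)
  have hrLu : L * u ≤ (r + 1) * (L * u) := by nlinarith
  have hs32 : (s : ℝ) ≤ n / 32 := by linarith
  obtain ⟨c, c1, c2, ⟨G, hG1, hG2⟩, c4⟩ := exists_formula2 (n := n) (k := k) (m := 2 ^ k * n)
    (s := s) (b := n - 4 * (a * s)) (x := a * s) hnpos
    (by exact_mod_cast (show (s : ℝ) ≤ n by linarith)) (by omega) (by omega) (by
      have t1 := term1 (k := k) (n := n) (by omega)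
      have t2 := term4 (k := k) (n := n) (s := s) (a := a) (L := L) hnpos spos (by omega) hL
        (by rw [← hun]; nlinarith) (by
          rw [eL, div_mul_eq_mul_div, le_div_iff₀ (by linarith), ← hun, ha']
          have h1 : u ≤ s := by nlinarith
          have h2 : u * (r + 1) ≤ (2 * r + 8) * s := by
            rw [mul_comm]
            exact mul_le_mul (by linarith) h1 (by linarith) (by linarith)
          calc u * k * (r + 1) = k * (u * (r + 1)) := by ring
            _ ≤ _ := by gcongr) (by omega)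
      have t3 := term3 (k := k) hnpos (by omega) hs32
      linarith)
  refine ⟨univ.image c, fun C hC => ?_, fun x => ?_, fun δ S P J hroot hax hres hpath => ?_⟩
  · obtain ⟨i, -, rfl⟩ := mem_image.1 hC
    exact c1 i
  · obtain ⟨i, hi⟩ := c2 x
    exact ⟨c i, mem_image_of_mem _ (mem_univ _), hi⟩
  have hS1 : (1 : ℝ) ≤ S := by
    obtain ⟨i, -⟩ := hroot
    exact_mod_cast i.pos
  have hδ : 0 ≤ δ * n := by
    obtain ⟨i, -⟩ := hroot
    obtain ⟨g, -, -, h⟩ := hpath 0 (fun _ => i) (fun _ => ⟨0, hnpos⟩)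
      fun r hr => absurd hr (by omega)
    exact le_trans (by positivity) (h 0)
  set e := ⌊δ * n⌋₊ with he
  have e1 : (e : ℝ) ≤ δ * n := Nat.floor_le hδ
  set A : ℝ := (1 + r * L) * (L * u) with hA
  have eA : (1 - δ - 600 * ((1 + r * L) * L / k)) * n = n - δ * n - 600 * A := by
    rw [hA, hu]; field_simp
  rw [eA]
  have hA1 : (r + 1) * (L * u) ≤ A := by
    have : (r : ℝ) * 1 ≤ r * L := by gcongr
    rw [hA]
    exact mul_le_mul_of_nonneg_right (by linarith) (by linarith)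
  set d := 4 * (a * s) with hd
  have hd3 : (d : ℝ) ≤ 256 * A := by rw [hd]; push_cast; linarith
  by_cases hc : n < 2 * d + e
  · have : (n : ℝ) < 2 * d + e := by exact_mod_cast hc
    exact (rpow_le_one_of_one_le_of_nonpos (by norm_num) (by linarith)).trans hS1
  have hcount := rcount (c := c) (P := P) (J := J) (s := s) (b := n - d)
    (x := 2 * s * (r + 1) + 4 * s) (e := e) (w := n - 2 * d - e) (d := d) (R := r) G
    (fun z hz => by
      rw [show 2 * s + (2 * s * (r + 1) + 4 * s) = a * s by rw [ha]; ring]; exact hG2 z hz)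
    le_rfl spos ⟨0, hnpos⟩ c4 hroot (fun i hi => by
      obtain ⟨u, -, hu⟩ := mem_image.1 (hax i hi)
      exact ⟨u, hu.symm⟩) hres (fun t p v hp => by
      obtain ⟨g, g1, g2, g3⟩ := hpath t p v hp
      exact ⟨g, g1, g2, fun j => Nat.le_floor (g3 j)⟩) (by omega) (by omega) (by omega)
  set f := 2 * s * r with hf
  set w := n - 2 * d - e with hw
  set Nf := (univ.filter fun Fl : Finset (Fin n) => Fl.card ≤ f).card with hNf
  have h2 : 2 ^ (w - f) ≤ S * Nf * 2 ^ (2 * s + 1) := by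
    have e : 2 ^ n = 2 ^ (w - f) * 2 ^ (n - (w - f)) := by rw [← pow_add]; congr 1; omega
    refine Nat.le_of_mul_le_mul_right (c := 2 ^ (n - (w - f))) ?_ (by positivity)
    rw [← e]
    refine hG1.trans ((Nat.mul_le_mul_left 2 hcount).trans (le_of_eq ?_))
    ring
  have h3 : (2 : ℝ) ^ (w - f) ≤ S * Nf * 2 ^ (2 * s + 1) := by exact_mod_cast h2
  have h4 := small_sets n f (exp_pos (-L)) (exp_le_one_iff.2 (by linarith))
  rw [← hNf] at h4
  have hLu0 : 0 ≤ L * u := by linarith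
  have hf0 : (0 : ℝ) ≤ f := by positivity
  have f1 : (f : ℝ) ≤ 16 * (r * (L * u)) := by
    calc (f : ℝ) = 2 * s * r := by rw [hf]; push_cast; ring
      _ ≤ 2 * (8 * (L * u)) * r := by gcongr
      _ = _ := by ring
  have f2 : (f : ℝ) * L ≤ 16 * A := by
    calc (f : ℝ) * L ≤ 16 * (r * (L * u)) * L := by gcongr
      _ = 16 * (A - L * u) := by rw [hA]; ring
      _ ≤ _ := by linarith
  have f3 : (f : ℝ) ≤ 16 * A := (le_mul_of_one_le_right hf0 hL).trans f2
  have f4 : exp (-L) * n ≤ A := by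
    have h1 : u ≤ L * u := le_mul_of_one_le_left (by linarith) hL
    calc exp (-L) * n = (r + 1) * u := by
          rw [exp_neg, eL, inv_div, ← hun]; field_simp
      _ ≤ (r + 1) * (L * u) := by gcongr
      _ ≤ A := hA1
  have h5 : (n : ℝ) - 2 * d - e - f ≤ ((w - f : ℕ) : ℝ) := by
    have : (n : ℝ) ≤ ((w - f : ℕ) : ℝ) + f + e + 2 * d := by
      exact_mod_cast (show n ≤ w - f + f + e + 2 * d by omega)
    linarith
  exact final_num h3 h4 f2 f4 ⟨by linarith, by linarith⟩ (by push_cast; linarith)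

end Pool.Agent.P.MP_0f6e60_lc
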