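import Pool.Agent.P.MP_0f6e60_lc.RClos

set_option autoImplicit false

namespace Pool.Agent.P.MP_0f6e60_lc

open Finset

variable {n S : ℕ} {ι : Type} [Fintype ι] [DecidableEq ι]

/-- Memory of the adversary in the first phase. -/
structure Mem (n : ℕ) (ι : Type) where
  z : Fin n → Bool
  B : Finset (Fin n)
  U : Finset (Fin n)
  K : Finset ι

open Classical in
/-- A fixed choice of the closure. -/
noncomputable def clos (c : ι → Finset (Fin n × Bool)) (s : ℕ) (z : Fin n → Bool)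
    (B U T : Finset (Fin n)) (K : Finset ι) : Mem n ι :=
  if h : ∃ q : (Fin n → Bool) × Finset (Fin n) × Finset ι, St c s q.1 B q.2.1 q.2.2 ∧
      U ⊆ q.2.1 ∧ (∀ v, v ∈ T ∨ v ∉ q.2.1 → q.1 v = z v) ∧ Expands c s 2 q.1 (B ∪ q.2.1) then
    ⟨h.choose.1, B, h.choose.2.1, h.choose.2.2⟩ else ⟨z, B, U, K⟩

lemma clos_B (c : ι → Finset (Fin n × Bool)) (s : ℕ) (z : Fin n → Bool)
    (B U T : Finset (Fin n)) (K : Finset ι) : (clos c s z B U T K).B = B := by
  unfold clos; split_ifs <;> rfl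

lemma clos_spec {c : ι → Finset (Fin n × Bool)} {s : ℕ}
    {z : Fin n → Bool} {B U T : Finset (Fin n)} {K : Finset ι}
    (hS : ∀ W : Finset (Fin n), W.card ≤ 4 * s → ∀ K : Finset ι,
      (∀ i ∈ K, ∀ l ∈ c i, (l.1 ∈ B ∧ z l.1 ≠ l.2) ∨ l.1 ∈ W) → K.card < s)
    (h : St c s z B U K) (hT : B ∪ U ⊆ T) (hE : Expands c s 1 z T) :
    St c s (clos c s z B U T K).z B (clos c s z B U T K).U (clos c s z B U T K).K ∧
      U ⊆ (clos c s z B U T K).U ∧
      (∀ v, v ∈ T ∨ v ∉ (clos c s z B U T K).U → (clos c s z B U T K).z v = z v) ∧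
      Expands c s 2 (clos c s z B U T K).z (B ∪ (clos c s z B U T K).U) := by
  obtain ⟨z', U', K', g⟩ := lclosure hS h hT hE
  have e : ∃ q : (Fin n → Bool) × Finset (Fin n) × Finset ι, St c s q.1 B q.2.1 q.2.2 ∧
      U ⊆ q.2.1 ∧ (∀ v, v ∈ T ∨ v ∉ q.2.1 → q.1 v = z v) ∧ Expands c s 2 q.1 (B ∪ q.2.1) :=
    ⟨(z', U', K'), g⟩
  unfold clos
  rw [dif_pos e]
  exact e.choose_spec

/-- The memory after the query of `x`, answered by `a` if `x` is new. -/
noncomputable def ask (c : ι → Finset (Fin n × Bool)) (s : ℕ) (M : Mem n ι) (x : Fin n)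
    (a : Bool) : Mem n ι :=
  if x ∈ M.B ∪ M.U then M else
    clos c s (Function.update M.z x a) (insert x M.B) M.U (insert x (M.B ∪ M.U)) M.K

/-- One step of the first phase. -/
noncomputable def step (c : ι → Finset (Fin n × Bool)) (s b : ℕ)
    (J : Fin S → Option (Fin S × Fin S × Fin n)) (z0 : Fin n → Bool) (σ : Fin S × Mem n ι) :
    Fin S × Mem n ι :=
  if b ≤ σ.2.B.card then σ else
    match J σ.1 with
    | none => σ
    | some (j, l, x) =>
      (if (ask c s σ.2 x (z0 x)).z x = true then l else j, ask c s σ.2 x (z0 x))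

/-- The first phase. -/
noncomputable def run (c : ι → Finset (Fin n × Bool)) (s b : ℕ)
    (J : Fin S → Option (Fin S × Fin S × Fin n)) (i0 : Fin S) (z0 : Fin n → Bool) :
    ℕ → Fin S × Mem n ι
  | 0 => (i0, clos c s (fun _ => false) ∅ ∅ ∅ ∅)
  | m + 1 => step c s b J z0 (run c s b J i0 z0 m)

variable {c : ι → Finset (Fin n × Bool)} {P : Fin S → Finset (Fin n × Bool)}
  {J : Fin S → Option (Fin S × Fin S × Fin n)} {s b x : ℕ} {z0 : Fin n → Bool}

lemma step_local (y : Fin n → Bool) (σ : Fin S × Mem n ι) :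
    σ.2.B ⊆ (step c s b J z0 σ).2.B ∧
      ((∀ v ∈ (step c s b J z0 σ).2.B, y v = z0 v) → step c s b J y σ = step c s b J z0 σ) := by
  unfold step
  by_cases hb : b ≤ σ.2.B.card
  · simp only [if_pos hb]; exact ⟨subset_rfl, fun _ => trivial⟩
  simp only [if_neg hb]
  rcases J σ.1 with _ | ⟨j, l, v⟩
  · exact ⟨subset_rfl, fun _ => rfl⟩
  by_cases hv : v ∈ σ.2.B ∪ σ.2.U
  · have e : ∀ a, ask c s σ.2 v a = σ.2 := fun a => by unfold ask; rw [if_pos hv]
    simp only [e]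
    exact ⟨subset_rfl, fun _ => trivial⟩
  · have e : (ask c s σ.2 v (z0 v)).B = insert v σ.2.B := by
      unfold ask; rw [if_neg hv, clos_B]
    simp only [e]
    refine ⟨subset_insert _ _, fun h => ?_⟩
    rw [h v (mem_insert_self _ _)]

lemma run_local (i0 : Fin S) (y : Fin n → Bool) (m : ℕ)
    (h : ∀ v ∈ (run c s b J i0 z0 m).2.B, y v = z0 v) :
    run c s b J i0 y m = run c s b J i0 z0 m := by
  induction m with
  | zero => rfl
  | succ m ih =>
    obtain ⟨h1, h2⟩ := step_local (c := c) (s := s) (b := b) (J := J) (z0 := z0) y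
      (run c s b J i0 z0 m)
    have e := ih fun v hv => h v (h1 hv)
    show step c s b J y (run c s b J i0 y m) = step c s b J z0 (run c s b J i0 z0 m)
    rw [e]
    exact h2 h

/-- The invariant of the first phase. -/
def Inv (c : ι → Finset (Fin n × Bool)) (P : Fin S → Finset (Fin n × Bool))
    (J : Fin S → Option (Fin S × Fin S × Fin n)) (s b : ℕ) (z0 : Fin n → Bool)
    (σ : Fin S × Mem n ι) : Prop :=
  St c s σ.2.z σ.2.B σ.2.U σ.2.K ∧ Expands c s 2 σ.2.z (σ.2.B ∪ σ.2.U) ∧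
    (∀ l ∈ P σ.1, l.1 ∈ σ.2.B ∪ σ.2.U ∧ σ.2.z l.1 ≠ l.2) ∧ (∀ v ∈ σ.2.B, σ.2.z v = z0 v) ∧
    σ.2.B.card ≤ b ∧ ∃ (t : ℕ) (p : ℕ → Fin S) (v : ℕ → Fin n), IsPath J t p v ∧ p t = σ.1 ∧
      σ.2.B ⊆ (range t).image v

omit [Fintype ι] [DecidableEq ι] in
lemma not_leaf (hs : 1 ≤ s) {z : Fin n → Bool} {T : Finset (Fin n)} (h2 : Expands c s 2 z T)
    {k : ι} (h3 : ∀ l ∈ c k, l.1 ∈ T ∧ z l.1 ≠ l.2) : False := by
  have e := h2 {k} (by simpa using hs) (by
    intro k' hk' l hl _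
    rw [mem_singleton.1 hk'] at hl
    exact (h3 l hl).2)
  have e2 : vars c {k} \ T = ∅ := by
    rw [sdiff_eq_empty_iff_subset]
    intro y hy
    obtain ⟨k', hk', l, hl, rfl⟩ := mem_vars.1 hy
    rw [mem_singleton.1 hk'] at hl
    exact (h3 l hl).1
  simp [e2] at e

lemma ask_spec (hS : LSp c s b x z0) (hx : 4 * s ≤ x) {M : Mem n ι} (v : Fin n)
    (h1 : St c s M.z M.B M.U M.K) (h2 : Expands c s 2 M.z (M.B ∪ M.U))
    (h4 : ∀ u ∈ M.B, M.z u = z0 u) (hb : M.B.card < b) {M' : Mem n ι}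
    (hM : M' = ask c s M v (z0 v)) :
    St c s M'.z M'.B M'.U M'.K ∧ Expands c s 2 M'.z (M'.B ∪ M'.U) ∧
      M.B ∪ M.U ⊆ M'.B ∪ M'.U ∧ (∀ u ∈ M.B ∪ M.U, M'.z u = M.z u) ∧ v ∈ M'.B ∪ M'.U ∧
      (∀ u ∈ M'.B, M'.z u = z0 u) ∧ M'.B.card ≤ b ∧ M'.B ⊆ insert v M.B := by
  unfold ask at hM
  by_cases hv : v ∈ M.B ∪ M.U
  · rw [if_pos hv] at hM
    subst hM
    exact ⟨h1, h2, subset_rfl, fun _ _ => rfl, hv, h4, hb.le, subset_insert _ _⟩
  rw [if_neg hv] at hM
  have hu : ∀ u ∈ M.B ∪ M.U, Function.update M.z v (z0 v) u = M.z u := fun u hu =>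
    Function.update_of_ne (fun e : u = v => hv (e ▸ hu)) _ _
  have hz : ∀ u ∈ insert v M.B, Function.update M.z v (z0 v) u = z0 u := by
    intro u hu'
    rcases mem_insert.1 hu' with rfl | e
    · exact Function.update_self ..
    · rw [hu u (mem_union_left _ e), h4 u e]
  have hc : (insert v M.B).card ≤ b := (card_insert_le _ _).trans hb
  obtain ⟨g1, g2, g3, g4⟩ := clos_spec (T := insert v (M.B ∪ M.U))
    (hS.move (D := ∅) (y := 4 * s) (by simpa using hx) hc fun u hu' _ => hz u hu')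
    ((h1.congr hu).insert v) (by rw [insert_union]) ((h2.congr hu).insert v)
  have eB : M'.B = insert v M.B := by rw [hM, clos_B]
  rw [← hM] at g1 g2 g3 g4
  rw [eB]
  refine ⟨g1, g4, ?_, fun u hu' => ?_, mem_union_left _ (mem_insert_self _ _), fun u hu' => ?_,
    hc, subset_rfl⟩
  · exact union_subset_union (subset_insert _ _) g2
  · rw [g3 u (Or.inl (mem_insert_of_mem hu')), hu u hu']
  · rw [g3 u (Or.inl ?_), hz u hu']
    rcases mem_insert.1 hu' with rfl | e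
    · exact mem_insert_self _ _
    · exact mem_insert_of_mem (mem_union_left _ e)

lemma step_inv (hS : LSp c s b x z0) (hx : 4 * s ≤ x) (hs : 1 ≤ s)
    (hax : ∀ i, J i = none → ∃ k, P i = c k)
    (hres : ∀ i j l x, J i = some (j, l, x) → j < i ∧ l < i ∧
      P i = (P j).erase (x, true) ∪ (P l).erase (x, false)) {σ : Fin S × Mem n ι}
    (h : Inv c P J s b z0 σ) :
    Inv c P J s b z0 (step c s b J z0 σ) ∧
      (b ≤ σ.2.B.card ∧ step c s b J z0 σ = σ ∨ (step c s b J z0 σ).1 < σ.1) := by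
  by_cases hb : b ≤ σ.2.B.card
  · have e : step c s b J z0 σ = σ := by unfold step; rw [if_pos hb]
    rw [e]; exact ⟨h, Or.inl ⟨hb, rfl⟩⟩
  obtain ⟨h1, h2, h3, h4, -, t, p, v, h6, h7, h8⟩ := h
  rcases hJ : J σ.1 with _ | ⟨j, l, u⟩
  · obtain ⟨k, hk⟩ := hax _ hJ
    exact (not_leaf hs h2 (hk ▸ h3)).elim
  obtain ⟨e1, e2, e3⟩ := hres _ j l u hJ
  have e : step c s b J z0 σ =
      (if (ask c s σ.2 u (z0 u)).z u = true then l else j, ask c s σ.2 u (z0 u)) := by
    unfold step; rw [if_neg hb, hJ]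
  rw [e]
  obtain ⟨g1, g2, g3, g4, g5, g6, g7, g8⟩ := ask_spec hS hx u h1 h2 h4 (by omega) rfl
  generalize ask c s σ.2 u (z0 u) = M at *
  have old : ∀ m ∈ P σ.1, m.1 ∈ M.B ∪ M.U ∧ M.z m.1 ≠ m.2 := fun m hm =>
    ⟨g3 (h3 m hm).1, by rw [g4 _ (h3 m hm).1]; exact (h3 m hm).2⟩
  have fin : ∀ k : Fin S, (k = j ∨ k = l) → (∀ m ∈ P k, m.1 ∈ M.B ∪ M.U ∧ M.z m.1 ≠ m.2) →
      Inv c P J s b z0 (k, M) := by
    intro k hk hm
    refine ⟨g1, g2, hm, g6, g7, t + 1, _, _, path_extend h6 (h7 ▸ hJ) hk, by simp,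
      fun y hy => ?_⟩
    rcases mem_insert.1 (g8 hy) with rfl | hy'
    · exact mem_image.2 ⟨t, mem_range.2 (by omega), by simp⟩
    · obtain ⟨r, hr, rfl⟩ := mem_image.1 (h8 hy')
      have r2 := mem_range.1 hr
      exact mem_image.2 ⟨r, mem_range.2 (by omega), by simp [r2]⟩
  cases hz : M.z u
  · rw [if_neg (by simp)]
    refine ⟨fin j (Or.inl rfl) fun m hm => ?_, Or.inr e1⟩
    by_cases e : m = (u, true)
    · subst e; exact ⟨g5, by simp [hz]⟩
    · exact old m (e3 ▸ mem_union_left _ (mem_erase.2 ⟨e, hm⟩))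
  · rw [if_pos rfl]
    refine ⟨fin l (Or.inr rfl) fun m hm => ?_, Or.inr e2⟩
    by_cases e : m = (u, false)
    · subst e; exact ⟨g5, by simp [hz]⟩
    · exact old m (e3 ▸ mem_union_right _ (mem_erase.2 ⟨e, hm⟩))

lemma run_end (hS : LSp c s b x z0) (hx : 4 * s ≤ x) (hs : 1 ≤ s) (v0 : Fin n)
    (h0 : ∀ K : Finset ι, K.card ≤ s → K.card ≤ (vars c K).card)
    (hax : ∀ i, J i = none → ∃ k, P i = c k)
    (hres : ∀ i j l x, J i = some (j, l, x) → j < i ∧ l < i ∧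
      P i = (P j).erase (x, true) ∪ (P l).erase (x, false)) {i0 : Fin S} (hi : P i0 = ∅) :
    Inv c P J s b z0 (run c s b J i0 z0 S) ∧ b ≤ (run c s b J i0 z0 S).2.B.card := by
  have key : ∀ m, Inv c P J s b z0 (run c s b J i0 z0 m) ∧
      (b ≤ (run c s b J i0 z0 m).2.B.card ∨ (run c s b J i0 z0 m).1.val + m ≤ i0.val) := by
    intro m
    induction m with
    | zero =>
      obtain ⟨g1, -, -, g4⟩ := clos_spec (c := c) (s := s) (z := fun _ => false) (B := ∅)
        (U := ∅) (T := ∅) (K := ∅)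
        (hS.move (D := ∅) (y := 4 * s) (B := ∅) (z := fun _ => false) (by simpa using hx)
          (by simp) (by simp))
        (St.empty hs _ ∅) (by simp) (fun K hK _ => by simpa using h0 K hK)
      refine ⟨?_, Or.inr le_rfl⟩
      unfold run Inv
      simp only [clos_B]
      exact ⟨g1, g4, by simp [hi], by simp, by simp, 0, fun _ => i0, fun _ => v0,
        fun r hr => absurd hr (by omega), rfl, by simp⟩
    | succ m ih =>
      obtain ⟨a1, a2⟩ := step_inv hS hx hs hax hres ih.1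
      refine ⟨a1, ?_⟩
      show b ≤ (step c s b J z0 (run c s b J i0 z0 m)).2.B.card ∨
        (step c s b J z0 (run c s b J i0 z0 m)).1.val + (m + 1) ≤ i0.val
      rcases a2 with ⟨a2, a3⟩ | a2
      · rw [a3]; exact Or.inl a2
      · rcases ih.2 with a4 | a4
        · exact Or.inl (a4.trans (card_le_card (step_local z0 _).1))
        · have : (step c s b J z0 (run c s b J i0 z0 m)).1.val < (run c s b J i0 z0 m).1.val := a2
          exact Or.inr (by omega)
  refine ⟨(key S).1, (key S).2.resolve_right ?_⟩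
  have := i0.isLt
  omega

end Pool.Agent.P.MP_0f6e60_lc
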