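import Pool.Agent.P.MP_0f6e60_lc.RRun

set_option autoImplicit false

namespace Pool.Agent.P.MP_0f6e60_lc

open Finset

variable {n S : ℕ} {ι : Type} [Fintype ι] [DecidableEq ι]

open Classical in
/-- Variables resolved at a step of segment `j` and at an earlier step. -/
noncomputable def Rep (t : ℕ) (v : ℕ → Fin n) (g : ℕ → ℕ) (j : ℕ) : Finset (Fin n) :=
  univ.filter fun x => ∃ a b : ℕ, a < b ∧ b < t ∧ g b = j ∧ v a = x ∧ v b = x

/-- The state at the end of a phase. -/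
def Fin1 (c : ι → Finset (Fin n × Bool)) (P : Fin S → Finset (Fin n × Bool))
    (J : Fin S → Option (Fin S × Fin S × Fin n)) (s e : ℕ) (z1 : Fin n → Bool)
    (Q : Finset (Fin n)) (i : Fin S) : Prop :=
  ∃ (z : Fin n → Bool) (T Fl : Finset (Fin n)) (ph t : ℕ) (p : ℕ → Fin S) (v : ℕ → Fin n),
    Expands c s 1 z T ∧ (∀ l ∈ P i, l.1 ∈ T ∧ z l.1 ≠ l.2) ∧ Fl.card ≤ 2 * s * ph ∧
    (∀ x, x ∉ Fl → z x = z1 x) ∧ IsPath J t p v ∧ p t = i ∧ Q ⊆ (range t).image v ∧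
    ∀ g : ℕ → ℕ, Monotone g → (∀ j, (Rep t v g j).card ≤ e) → ph ≤ g t

/-- The state inside a later phase. -/
def Mid (c : ι → Finset (Fin n × Bool)) (P : Fin S → Finset (Fin n × Bool))
    (J : Fin S → Option (Fin S × Fin S × Fin n)) (s e w : ℕ) (z1 : Fin n → Bool)
    (Q : Finset (Fin n)) (i : Fin S) (lim : ℕ) : Prop :=
  ∃ (z : Fin n → Bool) (B U N Fl : Finset (Fin n)) (K : Finset ι) (ph τ t : ℕ) (p : ℕ → Fin S)
    (v : ℕ → Fin n), St c s z B U K ∧ Expands c s 2 z (B ∪ U) ∧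
    (∀ l ∈ P i, l.1 ∈ B ∪ U ∧ z l.1 ≠ l.2) ∧ N ⊆ B ∧ B.card < w + N.card ∧ B.card ≤ lim ∧
    Fl.card ≤ 2 * s * ph ∧ (∀ x, x ∉ Fl ∪ U → z x = z1 x) ∧ IsPath J t p v ∧ p t = i ∧
    τ ≤ t ∧ N ⊆ (Ico τ t).image v ∧ Q ⊆ (range τ).image v ∧
    ∀ g : ℕ → ℕ, Monotone g → (∀ j, (Rep t v g j).card ≤ e) → ph ≤ g τ

variable {c : ι → Finset (Fin n × Bool)} {P : Fin S → Finset (Fin n × Bool)}
  {J : Fin S → Option (Fin S × Fin S × Fin n)} {s b x e w d R : ℕ} {z1 : Fin n → Bool}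
  {Q : Finset (Fin n)}

lemma fin1_restart (hS : LSp c s b x z1) (hx : 2 * s * (R + 1) + 4 * s ≤ x) (hs : 1 ≤ s)
    (hpath : ∀ t p v, IsPath J t p v → ∃ g : ℕ → ℕ, Monotone g ∧ g t ≤ R ∧
      ∀ j, (Rep t v g j).card ≤ e) (hwb : w ≤ b)
    {i : Fin S} (h : Fin1 c P J s e z1 Q i) (hw : ((P i).image Prod.fst).card < w) :
    Mid c P J s e w z1 Q i (b - 1) := by
  obtain ⟨z, T, Fl, ph, t, p, v, h1, h2, h3, h4, h5, h6, h7, h8⟩ := h
  obtain ⟨g, hg, hR, hb⟩ := hpath t p v h5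
  have e1 : 2 * s * ph ≤ 2 * s * R := Nat.mul_le_mul_left _ ((h8 g hg hb).trans hR)
  rw [Nat.mul_succ] at hx
  have hT : (P i).image Prod.fst ∪ ∅ ⊆ T := by
    intro y hy
    rw [union_empty] at hy
    obtain ⟨l, hl, rfl⟩ := mem_image.1 hy
    exact (h2 l hl).1
  obtain ⟨z', U', K', g1, -, g3, g4⟩ := lclosure (T := T)
    (hS.move (D := Fl) (y := 4 * s) (B := (P i).image Prod.fst) (z := z) (by omega) (by omega)
      fun u _ hu => h4 u hu) (St.empty hs z ((P i).image Prod.fst)) hT h1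
  refine ⟨z', _, U', ∅, Fl, K', ph, t, t, p, v, g1, g4, ?_, by simp, by simpa using hw,
    by omega, h3, ?_, h5, h6, le_rfl, by simp, h7, h8⟩
  · intro l hl
    refine ⟨mem_union_left _ (mem_image_of_mem _ hl), ?_⟩
    rw [g3 _ (Or.inl (h2 l hl).1)]
    exact (h2 l hl).2
  · intro y hy
    rw [mem_union, not_or] at hy
    rw [g3 y (Or.inr hy.2), h4 y hy.1]

lemma mid_cases (hQ : n ≤ Q.card + d) (hw : w + d + e ≤ b) {i : Fin S}
    (h : Mid c P J s e w z1 Q i b) : Mid c P J s e w z1 Q i (b - 1) ∨ Fin1 c P J s e z1 Q i := by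
  classical
  obtain ⟨z, B, U, N, Fl, K, ph, τ, t, p, v, h1, h2, h3, h4, h5, h6, h7, h8, h9, h10, h11, h12,
    h13, h14⟩ := h
  by_cases hB : B.card ≤ b - 1
  · exact Or.inl ⟨z, B, U, N, Fl, K, ph, τ, t, p, v, h1, h2, h3, h4, h5, hB, h7, h8, h9, h10,
      h11, h12, h13, h14⟩
  refine Or.inr ⟨z, B ∪ U, Fl ∪ U, ph + 1, t, p, v, h2.one, h3, ?_, h8, h9, h10,
    h13.trans (image_subset_image (range_subset_range.2 h11)), fun g hg hb => ?_⟩
  · have := card_union_le Fl U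
    have := h1.hU
    have := h1.hs
    rw [Nat.mul_succ]; omega
  · have e1 := h14 g hg hb
    by_contra hlt
    have e2 : N ∩ Q ⊆ Rep t v g (g τ) := by
      intro y hy
      obtain ⟨a, ha, ea⟩ := mem_image.1 (h13 (mem_inter.1 hy).2)
      obtain ⟨r, hr, er⟩ := mem_image.1 (h12 (mem_inter.1 hy).1)
      obtain ⟨r1, r2⟩ := mem_Ico.1 hr
      have a1 := mem_range.1 ha
      have := hg r1
      have := hg r2.le
      unfold Rep
      exact mem_filter.2 ⟨mem_univ _, a, r, by omega, r2, by omega, ea, er⟩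
    have e3 := (card_le_card e2).trans (hb _)
    have e4 := card_union_add_card_inter N Q
    have e5 : (N ∪ Q).card ≤ n := (card_le_univ _).trans (by simp)
    omega

lemma mid_advance (hS : LSp c s b x z1) (hx : 2 * s * (R + 1) + 4 * s ≤ x)
    (hpath : ∀ t p v, IsPath J t p v → ∃ g : ℕ → ℕ, Monotone g ∧ g t ≤ R ∧
      ∀ j, (Rep t v g j).card ≤ e) (hb1 : 1 ≤ b) {i j l : Fin S}
    {u : Fin n} (h : Mid c P J s e w z1 Q i (b - 1)) (hJ : J i = some (j, l, u))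
    (hP : P i = (P j).erase (u, true) ∪ (P l).erase (u, false)) :
    Mid c P J s e w z1 Q j b ∨ Mid c P J s e w z1 Q l b := by
  classical
  obtain ⟨z, B, U, N, Fl, K, ph, τ, t, p, v, h1, h2, h3, h4, h5, h6, h7, h8, h9, h10, h11, h12,
    h13, h14⟩ := h
  obtain ⟨g0, hg0, hR, hb0⟩ := hpath t p v h9
  have e1 : 2 * s * ph ≤ 2 * s * R :=
    Nat.mul_le_mul_left _ ((h14 g0 hg0 hb0).trans ((hg0 h11).trans hR))
  rw [Nat.mul_succ] at hx
  have key : ∃ (z' : Fin n → Bool) (B' U' N' : Finset (Fin n)) (K' : Finset ι),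
      St c s z' B' U' K' ∧ Expands c s 2 z' (B' ∪ U') ∧
      (∀ l ∈ P i, l.1 ∈ B' ∪ U' ∧ z' l.1 ≠ l.2) ∧ u ∈ B' ∪ U' ∧ N' ⊆ B' ∧
      B'.card < w + N'.card ∧ B'.card ≤ b ∧ (∀ y, y ∉ Fl ∪ U' → z' y = z1 y) ∧
      N' ⊆ insert u N := by
    by_cases hu : u ∈ B ∪ U
    · exact ⟨z, B, U, N, K, h1, h2, h3, hu, h4, h5, by omega, h8, subset_insert _ _⟩
    have hxB : u ∉ B := fun h => hu (mem_union_left _ h)
    have hxN : u ∉ N := fun h => hxB (h4 h)
    have hc : (insert u B).card ≤ b := by rw [card_insert_of_notMem hxB]; omega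
    obtain ⟨z', U', K', g1, g2, g3, g4⟩ := lclosure (T := insert u (B ∪ U))
      (hS.move (D := Fl ∪ U) (y := 4 * s) (B := insert u B) (z := z) (by
        have := card_union_le Fl U
        have := h1.hU
        have := h1.hs
        omega) hc fun y _ hy => h8 y hy) (h1.insert u) (by rw [insert_union]) (h2.insert u)
    refine ⟨z', insert u B, U', insert u N, K', g1, g4, ?_, by simp, insert_subset_insert _ h4,
      by rw [card_insert_of_notMem hxB, card_insert_of_notMem hxN]; omega, hc, ?_, subset_rfl⟩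
    · intro l hl
      refine ⟨?_, ?_⟩
      · rcases mem_union.1 (h3 l hl).1 with e | e
        · exact mem_union_left _ (mem_insert_of_mem e)
        · exact mem_union_right _ (g2 e)
      · rw [g3 _ (Or.inl (mem_insert_of_mem (h3 l hl).1))]
        exact (h3 l hl).2
    · intro y hy
      rw [mem_union, not_or] at hy
      rw [g3 y (Or.inr hy.2), h8 y (by
        rw [mem_union, not_or]; exact ⟨hy.1, fun e => hy.2 (g2 e)⟩)]
  obtain ⟨z', B', U', N', K', g1, g2, g3, g4, g5, g6, g7, g8, g9⟩ := key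
  have fin : ∀ k : Fin S, (k = j ∨ k = l) → (∀ m ∈ P k, m.1 ∈ B' ∪ U' ∧ z' m.1 ≠ m.2) →
      Mid c P J s e w z1 Q k b := by
    intro k hk hm
    refine ⟨z', B', U', N', Fl, K', ph, τ, t + 1, _, _, g1, g2, hm, g5, g6, g7, h7, g8,
      path_extend h9 (h10 ▸ hJ) hk, by simp, by omega, fun y hy => ?_, fun y hy => ?_,
      fun g hg hb => ?_⟩
    · rcases mem_insert.1 (g9 hy) with rfl | hy'
      · exact mem_image.2 ⟨t, mem_Ico.2 ⟨h11, by omega⟩, by simp⟩
      · obtain ⟨r, hr, rfl⟩ := mem_image.1 (h12 hy')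
        obtain ⟨r1, r2⟩ := mem_Ico.1 hr
        exact mem_image.2 ⟨r, mem_Ico.2 ⟨r1, by omega⟩, by simp [r2]⟩
    · obtain ⟨r, hr, rfl⟩ := mem_image.1 (h13 hy)
      have r1 := mem_range.1 hr
      exact mem_image.2 ⟨r, hr, by simp [show r < t by omega]⟩
    · refine h14 g hg fun a => (card_le_card fun y hy => ?_).trans (hb a)
      unfold Rep at hy ⊢
      obtain ⟨-, a1, a2, r1, r2, r3, r4, r5⟩ := mem_filter.1 hy
      exact mem_filter.2 ⟨mem_univ _, a1, a2, r1, by omega, r3,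
        by simp [show a1 < t by omega, r4], by simp [r2, r5]⟩
  cases hz : z' u
  · left
    refine fin j (Or.inl rfl) fun m hm => ?_
    by_cases e : m = (u, true)
    · subst e; exact ⟨g4, by simp [hz]⟩
    · exact g3 m (hP ▸ mem_union_left _ (mem_erase.2 ⟨e, hm⟩))
  · right
    refine fin l (Or.inr rfl) fun m hm => ?_
    by_cases e : m = (u, false)
    · subst e; exact ⟨g4, by simp [hz]⟩
    · exact g3 m (hP ▸ mem_union_right _ (mem_erase.2 ⟨e, hm⟩))

lemma rwalk (hS : LSp c s b x z1) (hx : 2 * s * (R + 1) + 4 * s ≤ x) (hs : 1 ≤ s)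
    (hpath : ∀ t p v, IsPath J t p v → ∃ g : ℕ → ℕ, Monotone g ∧ g t ≤ R ∧
      ∀ j, (Rep t v g j).card ≤ e) (hQ : n ≤ Q.card + d) (hw : w + d + e ≤ b) (hb1 : 1 ≤ b)
    (hax : ∀ i, J i = none → ∃ k, P i = c k)
    (hres : ∀ i j l x, J i = some (j, l, x) → j < i ∧ l < i ∧
      P i = (P j).erase (x, true) ∪ (P l).erase (x, false)) (i : Fin S)
    (h : Mid c P J s e w z1 Q i b ∨ Fin1 c P J s e z1 Q i) :
    ∃ i', Fin1 c P J s e z1 Q i' ∧ w ≤ ((P i').image Prod.fst).card := by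
  induction' hi : i.val using Nat.strong_induction_on with m ih generalizing i
  have h2 : Mid c P J s e w z1 Q i (b - 1) ∨ Fin1 c P J s e z1 Q i := by
    rcases h with h | h
    · exact mid_cases hQ hw h
    · exact Or.inr h
  have h3 : Mid c P J s e w z1 Q i (b - 1) ∨
      (Fin1 c P J s e z1 Q i ∧ w ≤ ((P i).image Prod.fst).card) := by
    rcases h2 with h | h
    · exact Or.inl h
    · by_cases hw' : w ≤ ((P i).image Prod.fst).card
      · exact Or.inr ⟨h, hw'⟩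
      · exact Or.inl (fin1_restart hS hx hs hpath (by omega) h (by omega))
  rcases h3 with h' | h'
  swap
  · exact ⟨i, h'⟩
  rcases hJ : J i with _ | ⟨j, l, u⟩
  · obtain ⟨k, hk⟩ := hax i hJ
    obtain ⟨z, B, U, N, Fl, K, ph, τ, t, p, v, -, a2, a3, -⟩ := h'
    exact (not_leaf hs a2 (hk ▸ a3)).elim
  · obtain ⟨e1, e2, e3⟩ := hres i j l u hJ
    rcases mid_advance hS hx hpath hb1 h' hJ e3 with g | g
    · exact ih j.val (hi ▸ e1) j (Or.inl g) rfl
    · exact ih l.val (hi ▸ e2) l (Or.inl g) rfl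

end Pool.Agent.P.MP_0f6e60_lc
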