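import Mathlib

/-! Tree-like lower bound: basic definitions (cubes, bad cubes, value of decision trees,
query systems). -/

namespace Pool.Agent.P.MP_0f6e60_lc.T

open Finset Classical

variable {P H ι : Type} [Fintype P] [Fintype H] [Fintype ι]
  [DecidableEq P] [DecidableEq H] [DecidableEq ι]

/-- `b` lies in the cube with free coordinates `S` through `a`. -/
def Cube (S : Finset ι) (a b : ι → Bool) : Prop := ∀ i, i ∉ S → b i = a i

/-- Some facet of the cube `(S, a)` has no label in `T`. -/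
def Bd (g : (ι → Bool) → H) (T : Finset H) (S : Finset ι) (a : ι → Bool) : Prop :=
  ∃ i ∈ S, ∃ c : Bool, ∀ b, Cube S a b → b i = c → g b ∉ T

/-- The cube `(S, a)` has a point with label `j`. -/
def Sees (g : (ι → Bool) → H) (S : Finset ι) (a : ι → Bool) (j : H) : Prop :=
  ∃ b, Cube S a b ∧ g b = j

/-- Largest number of bad leaves of a complete decision tree of depth `j` on the cube `(S, a)`. -/
noncomputable def Val (g : (ι → Bool) → H) (T : Finset H) : ℕ → Finset ι → (ι → Bool) → ℕ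
  | 0, S, a => if Bd g T S a then 1 else 0
  | j + 1, S, a => S.sup fun i => Val g T j (S.erase i) (Function.update a i false) +
      Val g T j (S.erase i) (Function.update a i true)

/-- Points of odd weight. -/
def OddPt (a : ι → Bool) : Prop := Odd (univ.filter fun i => a i = true).card

/-- Labelling: `γ` on the odd points, `f` on the even points. -/
noncomputable def mixLab (f γ : (ι → Bool) → H) (a : ι → Bool) : H :=
  if OddPt a then γ a else f a

noncomputable def wN (μ : ℕ) : ℕ := ⌈((4 : ℝ) / 3) ^ μ⌉₊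

noncomputable def mN (r μ : ℕ) : ℕ := ⌈(r : ℝ) * ((3 : ℝ) / 4) ^ μ⌉₊

/-- The labelling `g` is robust for `T` at level `μ`. -/
def Rob (g : (ι → Bool) → H) (T : Finset H) (μ : ℕ) : Prop :=
  Val g T (Fintype.card ι - μ) univ (fun _ => false) * 2 ^ (10 * μ * wN μ) ≤
    2 ^ (Fintype.card ι - μ)

/-- Free coordinates of block `u` at time `τ` on the run of `x`, frozen at level `μ`. -/
noncomputable def Fz (q : (P → ι → Bool) → ℕ → Option (P × ι)) (μ : ℕ) (x : P → ι → Bool)
    (u : P) : ℕ → Finset ι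
  | 0 => univ
  | τ + 1 => if (Fz q μ x u τ).card ≤ μ then Fz q μ x u τ
      else (Fz q μ x u τ).filter fun i => q x τ ≠ some (u, i)

/-- The query at time `τ` depends only on the answers given before. -/
def Adapt (q : (P → ι → Bool) → ℕ → Option (P × ι)) : Prop :=
  ∀ x x' τ, (∀ u, Cube (Fz q 0 x u τ) (x u) (x' u)) → q x' τ = q x τ

/-- The key property fails at `x`. -/
def BadX (lab : P → (ι → Bool) → H) (q : (P → ι → Bool) → ℕ → Option (P × ι)) (Tm : ℕ)
    (m : ℕ → ℕ) (L : ℕ) (x : P → ι → Bool) : Prop :=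
  ∃ μ, L ≤ μ ∧ μ ≤ Fintype.card ι ∧ ∃ (A : Finset P) (T : Finset H), m μ ≤ A.card ∧
    m μ ≤ T.card ∧ ∀ u ∈ A, Bd (lab u) T (Fz q μ x u Tm) (x u)

/-- Two fully queried blocks have the same label. -/
def Coll (lab : P → (ι → Bool) → H) (q : (P → ι → Bool) → ℕ → Option (P × ι))
    (x : P → ι → Bool) (τ : ℕ) : Prop :=
  ∃ u w, u ≠ w ∧ Fz q 0 x u τ = ∅ ∧ Fz q 0 x w τ = ∅ ∧ lab u (x u) = lab w (x w)

/-- At some time without collision at most `B` bits are free. -/
def DeepX (lab : P → (ι → Bool) → H) (q : (P → ι → Bool) → ℕ → Option (P × ι)) (B : ℕ)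
    (x : P → ι → Bool) : Prop :=
  ∃ τ, ¬ Coll lab q x τ ∧ ∑ u, (Fz q 0 x u τ).card ≤ B

/-- `x0` is close to `x`: it differs only on frozen free sets of total size at most `B`. -/
def Near (q : (P → ι → Bool) → ℕ → Option (P × ι)) (Tm B : ℕ) (x x0 : P → ι → Bool) : Prop :=
  ∃ z : P → ℕ, (∀ u, z u ≤ Fintype.card ι) ∧ ∑ u, z u ≤ B ∧
    ∀ u, Cube (Fz q (z u) x u Tm) (x u) (x0 u)

/-- Block `u` can move to the hole of block `w`; `v` is the homeless block. -/
def Arc (lab : P → (ι → Bool) → H) (Fr : P → Finset ι) (x : P → ι → Bool) (v u w : P) : Prop :=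
  w ≠ v ∧ Sees (lab u) (Fr u) (x u) (lab w (x w))

/-- The recursion for the moment generating function of `Val`. -/
noncomputable def zs (p : ℝ) (μ : ℕ) : ℕ → ℝ
  | 0 => p
  | j + 1 => ((μ : ℝ) + j + 1) * (zs p μ j ^ 2 + 2 * zs p μ j)

/-- Bound for the probability that a cube of dimension `μ` is bad. -/
noncomputable def pB (μ : ℕ) : ℝ := 2 * μ * Real.exp (-(((3 : ℝ) / 4) ^ μ * 2 ^ (μ - 2)))

theorem Cube.refl (S : Finset ι) (a : ι → Bool) : Cube S a a := fun _ _ => rfl

theorem Cube.symm {S : Finset ι} {a b : ι → Bool} (h : Cube S a b) : Cube S b a :=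
  fun i hi => (h i hi).symm

theorem Cube.trans {S : Finset ι} {a b c : ι → Bool} (h : Cube S a b) (h' : Cube S b c) :
    Cube S a c := fun i hi => (h' i hi).trans (h i hi)

theorem Cube.mono {S S' : Finset ι} {a b : ι → Bool} (h : Cube S a b) (hs : S ⊆ S') :
    Cube S' a b := fun i hi => h i fun h' => hi (hs h')

theorem Bd.congr {g : (ι → Bool) → H} {T : Finset H} {S : Finset ι} {a a' : ι → Bool}
    (h : Bd g T S a) (hc : Cube S a a') : Bd g T S a' := by
  obtain ⟨i, hi, c, hb⟩ := h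
  exact ⟨i, hi, c, fun b h1 h2 => hb b (hc.trans h1) h2⟩

theorem Sees.mono {g : (ι → Bool) → H} {S S' : Finset ι} {a : ι → Bool} {j : H}
    (h : Sees g S a j) (hs : S ⊆ S') : Sees g S' a j := by
  obtain ⟨b, h1, h2⟩ := h
  exact ⟨b, h1.mono hs, h2⟩

theorem Sees.congr {g : (ι → Bool) → H} {S : Finset ι} {a a' : ι → Bool} {j : H}
    (h : Sees g S a j) (hc : Cube S a a') : Sees g S a' j := by
  obtain ⟨b, h1, h2⟩ := h
  exact ⟨b, hc.symm.trans h1, h2⟩

theorem sees_of_not_bd {g : (ι → Bool) → H} {T : Finset H} {S : Finset ι} {a : ι → Bool}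
    (h : ¬ Bd g T S a) {i : ι} (hi : i ∈ S) : ∃ j ∈ T, Sees g (S.erase i) a j := by
  by_contra hn
  refine h ⟨i, hi, a i, fun b h1 h2 h3 => hn ⟨g b, h3, b, fun k hk => ?_, rfl⟩⟩
  by_cases hki : k = i
  · rw [hki, h2]
  · exact h1 k fun hk' => hk (mem_erase.2 ⟨hki, hk'⟩)

theorem Val_congr (g : (ι → Bool) → H) (T : Finset H) :
    ∀ (j : ℕ) (S : Finset ι) (a a' : ι → Bool), Cube S a a' → Val g T j S a = Val g T j S a'
  | 0, S, a, a', h => by
      have : Bd g T S a ↔ Bd g T S a' := ⟨fun hb => hb.congr h, fun hb => hb.congr h.symm⟩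
      simp only [Val, this]
  | j + 1, S, a, a', h => by
      simp only [Val]
      refine Finset.sup_congr rfl fun i _ => ?_
      have hc : ∀ c : Bool, Cube (S.erase i) (Function.update a i c) (Function.update a' i c) := by
        intro c k hk
        by_cases hki : k = i
        · subst hki; simp
        · rw [Function.update_of_ne hki, Function.update_of_ne hki]
          exact h k fun hk' => hk (mem_erase.2 ⟨hki, hk'⟩)
      rw [Val_congr g T j _ _ _ (hc false), Val_congr g T j _ _ _ (hc true)]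

section Fz

variable (q : (P → ι → Bool) → ℕ → Option (P × ι)) (μ : ℕ) (x : P → ι → Bool) (u : P)

theorem Fz_succ_subset (τ : ℕ) : Fz q μ x u (τ + 1) ⊆ Fz q μ x u τ := by
  simp only [Fz]
  split_ifs
  · exact Subset.refl _
  · exact filter_subset _ _

theorem Fz_anti {σ τ : ℕ} (h : σ ≤ τ) : Fz q μ x u τ ⊆ Fz q μ x u σ := by
  induction h with
  | refl => exact Subset.refl _
  | step _ ih => exact (Fz_succ_subset q μ x u _).trans ih

theorem Fz_zero_succ (τ : ℕ) :
    Fz q 0 x u (τ + 1) = (Fz q 0 x u τ).filter fun i => q x τ ≠ some (u, i) := by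
  simp only [Fz]
  split_ifs with h
  · rw [card_eq_zero.1 (Nat.le_zero.1 h)]; simp
  · rfl

theorem mem_Fz_zero (τ : ℕ) (i : ι) :
    i ∈ Fz q 0 x u τ ↔ ∀ σ < τ, q x σ ≠ some (u, i) := by
  induction τ with
  | zero => simp [Fz]
  | succ τ ih =>
    rw [Fz_zero_succ, mem_filter, ih]
    constructor
    · rintro ⟨h1, h2⟩ σ hσ
      rcases Nat.lt_succ_iff_lt_or_eq.1 hσ with h | h
      · exact h1 σ h
      · rw [h]; exact h2
    · exact fun h => ⟨fun σ hσ => h σ (by omega), h τ (by omega)⟩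

theorem card_filter_ne (S : Finset ι) (o : Option (P × ι)) :
    S.card ≤ (S.filter fun i => o ≠ some (u, i)).card + 1 := by
  have h1 : (S.filter fun i => ¬ o ≠ some (u, i)).card ≤ 1 := by
    refine card_le_one.2 fun a ha b hb => ?_
    have h2 := (mem_filter.1 ha).2
    have h3 := (mem_filter.1 hb).2
    push Not at h2 h3
    rw [h2] at h3
    simpa using h3
  have := card_filter_add_card_filter_not (s := S) (fun i => o ≠ some (u, i))
  omega

theorem Fz_frozen {σ τ : ℕ} (h : σ ≤ τ) (hc : (Fz q μ x u σ).card ≤ μ) :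
    Fz q μ x u τ = Fz q μ x u σ := by
  induction h with
  | refl => rfl
  | step _ ih => simp only [Fz]; rw [ih, if_pos hc]

theorem le_card_Fz (h : μ ≤ Fintype.card ι) (τ : ℕ) : μ ≤ (Fz q μ x u τ).card := by
  induction τ with
  | zero => simpa [Fz] using h
  | succ τ ih =>
    simp only [Fz]
    split_ifs with h1
    · exact ih
    · have := card_filter_ne u (Fz q μ x u τ) (q x τ)
      omega

/-- Before freezing the frozen set is the free set. -/
theorem Fz_eq_or (τ : ℕ) : Fz q μ x u τ = Fz q 0 x u τ ∨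
    ((Fz q μ x u τ).card ≤ μ ∧ Fz q 0 x u τ ⊆ Fz q μ x u τ) := by
  induction τ with
  | zero => left; rfl
  | succ τ ih =>
    by_cases h1 : (Fz q μ x u τ).card ≤ μ
    · right
      have h2 : Fz q μ x u (τ + 1) = Fz q μ x u τ := by simp only [Fz]; rw [if_pos h1]
      rw [h2]
      refine ⟨h1, (Fz_succ_subset q 0 x u τ).trans ?_⟩
      rcases ih with h | h
      · rw [h]
      · exact h.2
    · left
      rcases ih with h | h
      · rw [Fz_zero_succ, ← h]; simp only [Fz]; rw [if_neg h1]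
      · exact absurd h.1 h1

theorem Fz_eq_of_le (τ : ℕ) (h : μ ≤ (Fz q 0 x u τ).card) : Fz q μ x u τ = Fz q 0 x u τ := by
  rcases Fz_eq_or q μ x u τ with h1 | h1
  · exact h1
  · exact (eq_of_subset_of_card_le h1.2 (h1.1.trans h)).symm

theorem card_Fz_end {Tm : ℕ} (hT : Fz q 0 x u Tm = ∅) (h : μ ≤ Fintype.card ι) :
    (Fz q μ x u Tm).card = μ := by
  have h0 := le_card_Fz q μ x u h Tm
  rcases Fz_eq_or q μ x u Tm with h1 | h1
  · rw [h1, hT] at h0 ⊢; simp at h0 ⊢; omega
  · omega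

theorem Fz_end_subset {Tm τ : ℕ} (hτ : τ ≤ Tm) (h : μ ≤ (Fz q 0 x u τ).card) :
    Fz q μ x u Tm ⊆ Fz q 0 x u τ := by
  rw [← Fz_eq_of_le q μ x u τ h]; exact Fz_anti q μ x u hτ

theorem Fz_end_eq {Tm τ : ℕ} (hτ : τ ≤ Tm) :
    Fz q (Fz q 0 x u τ).card x u Tm = Fz q 0 x u τ := by
  have h1 := Fz_eq_of_le q (Fz q 0 x u τ).card x u τ le_rfl
  rw [Fz_frozen q _ x u hτ (by rw [h1]), h1]

variable {q} in
theorem Adapt.q_eq (hq : Adapt q) {x x' : P → ι → Bool} {τ : ℕ}
    (h : ∀ u, Cube (Fz q 0 x u τ) (x u) (x' u)) {σ : ℕ} (hσ : σ ≤ τ) : q x' σ = q x σ :=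
  hq x x' σ fun u => (h u).mono (Fz_anti q 0 x u hσ)

variable {q} in
theorem Adapt.Fz_eq (hq : Adapt q) {x x' : P → ι → Bool} {τ : ℕ}
    (h : ∀ u, Cube (Fz q 0 x u τ) (x u) (x' u)) (μ : ℕ) (u : P) {σ : ℕ} (hσ : σ ≤ τ + 1) :
    Fz q μ x' u σ = Fz q μ x u σ := by
  induction σ with
  | zero => rfl
  | succ σ ih => simp only [Fz]; rw [ih (by omega), hq.q_eq h (by omega : σ ≤ τ)]

end Fz

end Pool.Agent.P.MP_0f6e60_lc.T
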