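import Mathlib

/-! Tree-like lower bound: graph lemmas (bounded walks, cores, shortest paths). -/

namespace Pool.Agent.P.MP_0f6e60_lc.T

open Finset Classical

variable {P : Type} [DecidableEq P]

/-- A walk of at most `n` steps. -/
def Wk (E : P → P → Prop) : ℕ → P → P → Prop
  | 0, a, b => a = b
  | n + 1, a, b => Wk E n a b ∨ ∃ c, Wk E n a c ∧ E c b

theorem Wk.refl (E : P → P → Prop) (a : P) : ∀ n, Wk E n a a
  | 0 => rfl
  | n + 1 => Or.inl (Wk.refl E a n)

theorem Wk.mono_n {E : P → P → Prop} {a b : P} {n k : ℕ} (h : Wk E n a b) (hk : n ≤ k) :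
    Wk E k a b := by
  induction hk with
  | refl => exact h
  | step _ ih => exact Or.inl ih

theorem Wk.mono {E E' : P → P → Prop} (hE : ∀ a b, E a b → E' a b) {a : P} :
    ∀ {n : ℕ} {b : P}, Wk E n a b → Wk E' n a b
  | 0, _, h => h
  | _ + 1, _, h => h.elim (fun h => Or.inl (Wk.mono hE h))
      fun ⟨c, h1, h2⟩ => Or.inr ⟨c, Wk.mono hE h1, hE _ _ h2⟩

theorem Wk.single {E : P → P → Prop} {a b : P} (h : E a b) : Wk E 1 a b :=
  Or.inr ⟨a, rfl, h⟩

theorem Wk.trans {E : P → P → Prop} {a b : P} {n : ℕ} (h : Wk E n a b) :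
    ∀ {k : ℕ} {c : P}, Wk E k b c → Wk E (n + k) a c
  | 0, _, h' => by cases h'; exact h
  | _ + 1, _, h' => h'.elim (fun h' => Or.inl (h.trans h'))
      fun ⟨c, h1, h2⟩ => Or.inr ⟨c, h.trans h1, h2⟩

theorem Wk.flip {E : P → P → Prop} {a : P} :
    ∀ {n : ℕ} {b : P}, Wk (fun s t => E t s) n a b → Wk E n b a
  | 0, _, h => h.symm
  | n + 1, _, h => h.elim (fun h => Or.inl (Wk.flip h))
      fun ⟨_, h1, h2⟩ => by
        have := (Wk.single (E := E) h2).trans (Wk.flip h1)
        rwa [Nat.add_comm] at this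

theorem Wk.reach {E : P → P → Prop} {a : P} :
    ∀ {n : ℕ} {b : P}, Wk E n a b → Relation.ReflTransGen E a b
  | 0, _, h => by cases h; exact .refl
  | _ + 1, _, h => h.elim Wk.reach fun ⟨_, h1, h2⟩ => (Wk.reach h1).tail h2

theorem wk_of_reach {E : P → P → Prop} {a b : P} (h : Relation.ReflTransGen E a b) :
    ∃ n, Wk E n a b := by
  induction h with
  | refl => exact ⟨0, rfl⟩
  | tail _ h2 ih => obtain ⟨n, hn⟩ := ih; exact ⟨n + 1, Or.inr ⟨_, hn, h2⟩⟩

/-- Balls double as long as they are small. -/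
theorem ball_big (E : P → P → Prop) (K : Finset P) (m : ℕ)
    (hexp : ∀ X ⊆ K, X.Nonempty → X.card ≤ m →
      X.card < ((K \ X).filter fun b => ∃ a ∈ X, E a b).card) (a : P) (ha : a ∈ K) (j : ℕ) :
    min (2 ^ j) m ≤ (K.filter fun b => Wk (fun s t => s ∈ K ∧ t ∈ K ∧ E s t) j a b).card := by
  induction j with
  | zero =>
    refine (min_le_left _ _).trans (card_pos.2 ⟨a, mem_filter.2 ⟨ha, rfl⟩⟩)
  | succ j ih =>
    set X := K.filter fun b => Wk (fun s t => s ∈ K ∧ t ∈ K ∧ E s t) j a b with hX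
    have hsub : X ∪ ((K \ X).filter fun b => ∃ a ∈ X, E a b) ⊆
        K.filter fun b => Wk (fun s t => s ∈ K ∧ t ∈ K ∧ E s t) (j + 1) a b := by
      intro b hb
      rcases mem_union.1 hb with hb | hb
      · exact mem_filter.2 ⟨(mem_filter.1 hb).1, Or.inl (mem_filter.1 hb).2⟩
      · obtain ⟨h1, c, hc, h2⟩ := mem_filter.1 hb
        exact mem_filter.2 ⟨(mem_sdiff.1 h1).1, Or.inr ⟨c, (mem_filter.1 hc).2,
          (mem_filter.1 hc).1, (mem_sdiff.1 h1).1, h2⟩⟩
    have hdis : Disjoint X ((K \ X).filter fun b => ∃ a ∈ X, E a b) :=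
      disjoint_left.2 fun b hb hb' => (mem_sdiff.1 (mem_filter.1 hb').1).2 hb
    have h1 := card_le_card hsub
    rw [card_union_of_disjoint hdis] at h1
    by_cases hm : X.card ≤ m
    · have h2 := hexp X (filter_subset _ _) ⟨a, mem_filter.2 ⟨ha, Wk.refl _ _ _⟩⟩ hm
      rw [pow_succ]
      omega
    · omega

/-- A set in which any two large subsets are joined by an arc has a large core of small
diameter. -/
theorem exists_core (E : P → P → Prop) (V : Finset P) (m j : ℕ) (hm : 1 ≤ m) (hj : m ≤ 2 ^ j)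
    (hV : 7 * m ≤ V.card)
    (harc : ∀ A ⊆ V, ∀ B ⊆ V, m ≤ A.card → m ≤ B.card → ∃ a ∈ A, ∃ b ∈ B, E a b) :
    ∃ K ⊆ V, m ≤ K.card ∧ ∀ a ∈ K, ∀ b ∈ K,
      Wk (fun s t => s ∈ K ∧ t ∈ K ∧ E s t) (2 * j + 1) a b := by
  let G : Finset P × Finset P → Prop := fun p => p.1 ⊆ V ∧ p.2 ⊆ V ∧ p.1.card < 2 * m ∧
    p.2.card < 2 * m ∧
    ((V \ (p.1 ∪ p.2)).filter fun b => ∃ a ∈ p.1, E a b).card ≤ p.1.card ∧
    ((V \ (p.1 ∪ p.2)).filter fun b => ∃ a ∈ p.2, E b a).card ≤ p.2.card
  have hne : ((V.powerset ×ˢ V.powerset).filter G).Nonempty :=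
    ⟨(∅, ∅), mem_filter.2 ⟨by simp, by simp [G]; omega⟩⟩
  obtain ⟨⟨O, I⟩, hp, hmax⟩ := exists_max_image _ (fun p => p.1.card + p.2.card) hne
  obtain ⟨-, hO, hI, hO2, hI2, hO3, hI3⟩ := mem_filter.1 hp
  dsimp only at hO hI hO2 hI2 hO3 hI3 hmax
  set K := V \ (O ∪ I) with hK
  have hKc : V.card ≤ K.card + (O.card + I.card) := by
    have := card_union_le O I
    have : V.card - (O ∪ I).card ≤ K.card := le_card_sdiff (O ∪ I) V
    omega
  have hOm : O.card < m := by
    by_contra hn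
    have h1 := le_card_sdiff (K.filter fun b => ∃ a ∈ O, E a b) K
    obtain ⟨a, ha, b, hb, hab⟩ := harc O hO (K \ K.filter fun b => ∃ a ∈ O, E a b)
      (sdiff_subset.trans sdiff_subset) (by omega) (by omega)
    exact (mem_sdiff.1 hb).2 (mem_filter.2 ⟨(mem_sdiff.1 hb).1, a, ha, hab⟩)
  have hIm : I.card < m := by
    by_contra hn
    have h1 := le_card_sdiff (K.filter fun b => ∃ a ∈ I, E b a) K
    obtain ⟨a, ha, b, hb, hab⟩ := harc (K \ K.filter fun b => ∃ a ∈ I, E b a)
      (sdiff_subset.trans sdiff_subset) I hI (by omega) (by omega)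
    exact (mem_sdiff.1 ha).2 (mem_filter.2 ⟨(mem_sdiff.1 ha).1, b, hb, hab⟩)
  have hXO : ∀ X ⊆ K, Disjoint O X := fun X hX => disjoint_left.2 fun a ha ha' =>
    (mem_sdiff.1 (hX ha')).2 (mem_union_left _ ha)
  have hXI : ∀ X ⊆ K, Disjoint I X := fun X hX => disjoint_left.2 fun a ha ha' =>
    (mem_sdiff.1 (hX ha')).2 (mem_union_right _ ha)
  have hout : ∀ X ⊆ K, X.Nonempty → X.card ≤ m →
      X.card < ((K \ X).filter fun b => ∃ a ∈ X, E a b).card := by
    intro X hX hX0 hXm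
    by_contra hn
    have hc := card_union_of_disjoint (hXO X hX)
    have hsub : O ∪ X ⊆ V := union_subset hO (hX.trans sdiff_subset)
    have h1 : ((V \ (O ∪ X ∪ I)).filter fun b => ∃ a ∈ O ∪ X, E a b) ⊆
        (K.filter fun b => ∃ a ∈ O, E a b) ∪ ((K \ X).filter fun b => ∃ a ∈ X, E a b) := by
      intro b hb
      simp only [hK, mem_filter, mem_sdiff, mem_union] at hb ⊢
      obtain ⟨⟨h1, h2⟩, a, ha | ha, hab⟩ := hb
      · exact Or.inl ⟨⟨h1, by tauto⟩, a, ha, hab⟩
      · exact Or.inr ⟨⟨⟨h1, by tauto⟩, by tauto⟩, a, ha, hab⟩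
    have h2 : ((V \ (O ∪ X ∪ I)).filter fun b => ∃ a ∈ I, E b a) ⊆
        K.filter fun b => ∃ a ∈ I, E b a := by
      intro b hb
      simp only [hK, mem_filter, mem_sdiff, mem_union] at hb ⊢
      exact ⟨⟨hb.1.1, by tauto⟩, hb.2⟩
    have h3 := (card_le_card h1).trans (card_union_le _ _)
    have h4 := card_le_card h2
    have h5 := hmax (O ∪ X, I) (mem_filter.2 ⟨by simp [hsub, hI],
      hsub, hI, by dsimp only; omega, hI2, by dsimp only; omega, by dsimp only; omega⟩)
    have := card_pos.2 hX0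
    dsimp only at h5
    omega
  have hin : ∀ X ⊆ K, X.Nonempty → X.card ≤ m →
      X.card < ((K \ X).filter fun b => ∃ a ∈ X, E b a).card := by
    intro X hX hX0 hXm
    by_contra hn
    have hc := card_union_of_disjoint (hXI X hX)
    have hsub : I ∪ X ⊆ V := union_subset hI (hX.trans sdiff_subset)
    have h1 : ((V \ (O ∪ (I ∪ X))).filter fun b => ∃ a ∈ I ∪ X, E b a) ⊆
        (K.filter fun b => ∃ a ∈ I, E b a) ∪ ((K \ X).filter fun b => ∃ a ∈ X, E b a) := by
      intro b hb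
      simp only [hK, mem_filter, mem_sdiff, mem_union] at hb ⊢
      obtain ⟨⟨h1, h2⟩, a, ha | ha, hab⟩ := hb
      · exact Or.inl ⟨⟨h1, by tauto⟩, a, ha, hab⟩
      · exact Or.inr ⟨⟨⟨h1, by tauto⟩, by tauto⟩, a, ha, hab⟩
    have h2 : ((V \ (O ∪ (I ∪ X))).filter fun b => ∃ a ∈ O, E a b) ⊆
        K.filter fun b => ∃ a ∈ O, E a b := by
      intro b hb
      simp only [hK, mem_filter, mem_sdiff, mem_union] at hb ⊢
      exact ⟨⟨hb.1.1, by tauto⟩, hb.2⟩
    have h3 := (card_le_card h1).trans (card_union_le _ _)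
    have h4 := card_le_card h2
    have h5 := hmax (O, I ∪ X) (mem_filter.2 ⟨by simp [hsub, hO],
      hO, hsub, hO2, by dsimp only; omega, by dsimp only; omega, by dsimp only; omega⟩)
    have := card_pos.2 hX0
    dsimp only at h5
    omega
  refine ⟨K, sdiff_subset, by omega, fun a ha b hb => ?_⟩
  have h1 := ball_big E K m hout a ha j
  have h2 := ball_big (fun s t => E t s) K m hin b hb j
  rw [min_eq_right hj] at h1 h2
  obtain ⟨c, hc, d, hd, hcd⟩ := harc _ ((filter_subset _ _).trans sdiff_subset) _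
    ((filter_subset _ _).trans sdiff_subset) h1 h2
  have h3 : Wk (fun s t => s ∈ K ∧ t ∈ K ∧ E s t) j d b :=
    Wk.flip (Wk.mono (fun s t h => ⟨h.2.1, h.1, h.2.2⟩) (mem_filter.1 hd).2)
  have h4 := ((mem_filter.1 hc).2.trans
    (Wk.single ⟨(mem_filter.1 hc).1, (mem_filter.1 hd).1, hcd⟩)).trans h3
  exact h4.mono_n (by omega)

/-- Small sets with a large union have a subfamily with a union of medium size. -/
theorem accumulate {α : Type} (G : α → Finset P) (m : ℕ) (hm : 1 ≤ m) (U : Finset α)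
    (hG : ∀ u ∈ U, (G u).card < m) (hU : m ≤ (U.biUnion G).card) :
    ∃ U' ⊆ U, m ≤ (U'.biUnion G).card ∧ (U'.biUnion G).card < 2 * m := by
  induction U using Finset.induction_on with
  | empty => simp at hU; omega
  | insert a U ha ih =>
    by_cases h : m ≤ (U.biUnion G).card
    · obtain ⟨U', h1, h2⟩ := ih (fun u hu => hG u (mem_insert_of_mem hu)) h
      exact ⟨U', h1.trans (subset_insert _ _), h2⟩
    · refine ⟨insert a U, Subset.refl _, hU, ?_⟩
      rw [biUnion_insert]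
      have := card_union_le (G a) (U.biUnion G)
      have := hG a (mem_insert_self _ _)
      omega

/-- A large set with distinct heights has a low part and a high part with a gap. -/
theorem exists_gap (W : Finset P) (δ : P → ℕ) (hδ : Set.InjOn δ W) (m : ℕ) (hm : 1 ≤ m)
    (hW : 2 * m + 1 ≤ W.card) :
    ∃ A ⊆ W, ∃ B ⊆ W, m ≤ A.card ∧ m ≤ B.card ∧ ∀ a ∈ A, ∀ b ∈ B, δ a + 2 ≤ δ b := by
  have hex : ∃ c, m ≤ (W.filter fun a => δ a < c).card :=
    ⟨W.sup δ + 1, by
      rw [filter_true_of_mem fun a ha => Nat.lt_succ_of_le (le_sup (f := δ) ha)]; omega⟩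
  have h1 : ∀ c, (W.filter fun a => δ a = c).card ≤ 1 := fun c =>
    card_le_one.2 fun a ha b hb => hδ (mem_coe.2 (mem_filter.1 ha).1)
      (mem_coe.2 (mem_filter.1 hb).1) ((mem_filter.1 ha).2.trans (mem_filter.1 hb).2.symm)
  have hc := Nat.find_spec hex
  obtain ⟨c, hc0⟩ : ∃ c, Nat.find hex = c + 1 := by
    refine Nat.exists_eq_succ_of_ne_zero fun h0 => ?_
    rw [h0] at hc; simp at hc; omega
  have h2 := Nat.find_min hex (show c < Nat.find hex by omega)
  rw [hc0] at hc
  refine ⟨_, filter_subset _ _, W.filter fun a => c + 2 ≤ δ a, filter_subset _ _, hc, ?_,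
    fun a ha b hb => ?_⟩
  · have h3 : W ⊆ (((W.filter fun a => δ a < c) ∪ W.filter fun a => δ a = c) ∪
        W.filter fun a => δ a = c + 1) ∪ W.filter fun a => c + 2 ≤ δ a := by
      intro a ha
      simp only [mem_union, mem_filter, ha, true_and]
      omega
    have h4 := (card_le_card h3).trans (card_union_le _ _)
    have h5 := card_union_le ((W.filter fun a => δ a < c) ∪ W.filter fun a => δ a = c)
      (W.filter fun a => δ a = c + 1)
    have h6 := card_union_le (W.filter fun a => δ a < c) (W.filter fun a => δ a = c)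
    have := h1 c
    have := h1 (c + 1)
    omega
  · have := (mem_filter.1 ha).2
    have := (mem_filter.1 hb).2
    omega

/-- A shortest path from `v` to `y`, as a set with a height function and a successor map. -/
theorem exists_path (E : P → P → Prop) (v y : P) (h : Relation.ReflTransGen E v y) :
    ∃ (Pa : Finset P) (δ : P → ℕ) (σ : P → P), v ∈ Pa ∧ y ∈ Pa ∧ δ v = 0 ∧
      (∀ a ∈ Pa, Relation.ReflTransGen E v a) ∧ Set.InjOn δ Pa ∧
      (∀ a ∈ Pa, ∀ b n, Wk E n a b → δ b ≤ δ a + n) ∧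
      (∀ a ∈ Pa, a ≠ y → σ a ∈ Pa ∧ E a (σ a) ∧ δ (σ a) = δ a + 1) ∧
      (∀ a ∈ Pa, Relation.ReflTransGen E a y) := by
  let δ : P → ℕ := fun b => if h : ∃ n, Wk E n v b then Nat.find h else 0
  have hδ1 : ∀ b n, Wk E n v b → δ b ≤ n := fun b n hb => by
    simp only [δ]; rw [dif_pos ⟨n, hb⟩]; exact Nat.find_min' _ hb
  have hδ2 : ∀ b, Relation.ReflTransGen E v b → Wk E (δ b) v b := fun b hb => by
    simp only [δ]; rw [dif_pos (wk_of_reach hb)]; exact Nat.find_spec (wk_of_reach hb)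
  have key : ∀ t y, Relation.ReflTransGen E v y → δ y = t →
      ∃ (Pa : Finset P) (σ : P → P), v ∈ Pa ∧ y ∈ Pa ∧
      (∀ a ∈ Pa, Relation.ReflTransGen E v a) ∧ Set.InjOn δ Pa ∧ (∀ a ∈ Pa, δ a ≤ t) ∧
      (∀ a ∈ Pa, a ≠ y → σ a ∈ Pa ∧ E a (σ a) ∧ δ (σ a) = δ a + 1) ∧
      (∀ a ∈ Pa, Relation.ReflTransGen E a y) := by
    intro t
    induction t with
    | zero =>
      intro y hy h0
      have h1 := hδ2 y hy
      rw [h0] at h1
      cases h1
      exact ⟨{v}, id, by simp, by simp, by simpa using hy, by simp, by simpa using h0,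
        by simp, by simpa using hy⟩
    | succ t ih =>
      intro y hy h0
      have h1 := hδ2 y hy
      rw [h0] at h1
      rcases h1 with h1 | ⟨c, h1, h2⟩
      · have := hδ1 y t h1; omega
      have h3 : δ c = t := by
        have h4 := hδ1 c t h1
        have h5 := hδ1 y (δ c + 1) (Or.inr ⟨c, hδ2 c h1.reach, h2⟩)
        omega
      obtain ⟨Pa, σ, p1, p2, p3, p4, p5, p6, p7⟩ := ih c h1.reach h3
      refine ⟨insert y Pa, Function.update σ c y, mem_insert_of_mem p1, mem_insert_self _ _,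
        fun a ha => ?_, fun a ha b hb hab => ?_, fun a ha => ?_, fun a ha hay => ?_,
        fun a ha => ?_⟩
      · rcases mem_insert.1 ha with rfl | ha
        exacts [hy, p3 a ha]
      · rcases mem_insert.1 (mem_coe.1 ha) with ha | ha <;>
          rcases mem_insert.1 (mem_coe.1 hb) with hb | hb
        · rw [ha, hb]
        · have := p5 b hb; rw [ha] at hab; omega
        · have := p5 a ha; rw [hb] at hab; omega
        · exact p4 (mem_coe.2 ha) (mem_coe.2 hb) hab
      · rcases mem_insert.1 ha with rfl | ha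
        · omega
        · have := p5 a ha; omega
      · have ha' : a ∈ Pa := (mem_insert.1 ha).resolve_left hay
        by_cases hac : a = c
        · subst hac
          rw [Function.update_self]
          exact ⟨mem_insert_self _ _, h2, by omega⟩
        · rw [Function.update_of_ne hac]
          exact ⟨mem_insert_of_mem (p6 a ha' hac).1, (p6 a ha' hac).2⟩
      · rcases mem_insert.1 ha with rfl | ha
        exacts [.refl, (p7 a ha).tail h2]
  obtain ⟨Pa, σ, p1, p2, p3, p4, -, p6, p7⟩ := key _ y h rfl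
  refine ⟨Pa, δ, σ, p1, p2, Nat.le_zero.1 (hδ1 v 0 rfl), p3, p4, fun a ha b n hw => ?_, p6, p7⟩
  exact hδ1 b _ ((hδ2 a (p3 a ha)).trans hw)

end Pool.Agent.P.MP_0f6e60_lc.T
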