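import Mathlib
import Pool.Agent.P.MP_0f6e60_lc.TDefs
import Pool.Agent.P.MP_0f6e60_lc.TGraph

/-! Tree-like lower bound: states of the adversary, the invariant, and the counting lemma. -/

namespace Pool.Agent.P.MP_0f6e60_lc.T

open Finset Classical

variable {P H ι : Type} [Fintype P] [Fintype H] [Fintype ι]
  [DecidableEq P] [DecidableEq H] [DecidableEq ι]

structure St (P ι : Type) where
  Fr : P → Finset ι
  x : P → ι → Bool
  v : P
  Ch : Finset P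
  Z : P → Finset ι

noncomputable def lev (G : P → Finset ι) (l : ℕ) : Finset P :=
  univ.filter fun u => l ≤ (G u).card

noncomputable def Rch (lab : P → (ι → Bool) → H) (G : P → Finset ι) (x : P → ι → Bool) (v : P) :
    Finset P := univ.filter fun w => Relation.ReflTransGen (Arc lab G x v) v w

def InjOff (lab : P → (ι → Bool) → H) (x : P → ι → Bool) (v : P) : Prop :=
  ∀ u w, u ≠ v → w ≠ v → lab u (x u) = lab w (x w) → u = w

def KS (lab : P → (ι → Bool) → H) (m : ℕ → ℕ) (L : ℕ) (G : P → Finset ι) (x : P → ι → Bool) :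
    Prop :=
  ∀ μ, L ≤ μ → μ ≤ Fintype.card ι → ∀ A ⊆ lev G μ, ∀ T : Finset H, m μ ≤ A.card →
    m μ ≤ T.card → ∃ u ∈ A, ∃ j ∈ T, Sees (lab u) (G u) (x u) j

def KZ (lab : P → (ι → Bool) → H) (m : ℕ → ℕ) (L : ℕ) (Z : P → Finset ι) (x : P → ι → Bool) :
    Prop :=
  ∀ μ, L ≤ μ → μ ≤ Fintype.card ι → ∀ (A : Finset P) (T : Finset H), m μ ≤ A.card →
    m μ ≤ T.card → (∀ u ∈ A, (Z u).card = μ) → ∃ u ∈ A, ¬ Bd (lab u) T (Z u) (x u)

structure Par (lab : P → (ι → Bool) → H) (m : ℕ → ℕ) (L j₀ : ℕ) (x0 : P → ι → Bool) (v0 : P) :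
    Prop where
  hcard : Fintype.card P = Fintype.card H + 1
  hL : 1 ≤ L
  hLl : L ≤ Fintype.card ι
  hanti : Antitone m
  hj : Fintype.card P < 2 ^ j₀
  hbig : (2 * j₀ + 4) * (Fintype.card ι + 1) ≤ m (Fintype.card ι)
  hsum : ∀ μ ≤ Fintype.card ι, ∑ l ∈ Icc μ (Fintype.card ι), m l ≤ 5 * m μ
  hmL : m L + 2 ≤ Fintype.card P
  hinj : InjOff lab x0 v0

def Good (lab : P → (ι → Bool) → H) (j₀ : ℕ) (x0 : P → ι → Bool) (s : St P ι) (K : Finset P) :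
    Prop :=
  (∀ k ∈ K, k ∉ s.Ch ∧ k ≠ s.v) ∧ ∀ a ∈ K, ∀ b ∈ K,
    Wk (fun a b => a ∈ K ∧ b ∈ K ∧ Sees (lab a) (s.Fr a) (x0 a) (lab b (x0 b))) (2 * j₀ + 1) a b

noncomputable def Cen (lab : P → (ι → Bool) → H) (x0 : P → ι → Bool) (s : St P ι)
    (K : Finset P) : Finset P :=
  s.Ch.filter fun u => (s.Z u).Nonempty ∧
    ¬ Bd (lab u) (K.image fun k => lab k (x0 k)) (s.Z u) (x0 u) ∧
    ∃ k ∈ K, Sees (lab k) (s.Fr k) (x0 k) (lab u (x0 u))

def Shut (lab : P → (ι → Bool) → H) (m : ℕ → ℕ) (s : St P ι) (K : Finset P) (e : ℕ) : Prop :=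
  ∃ (D : Finset P) (Hs : Finset H), K ⊆ D ∧
    (∀ a ∈ D, ∀ j, Sees (lab a) (s.Fr a) (s.x a) j → j ∈ Hs) ∧
    (∀ w, lab w (s.x w) ∈ Hs → w ∈ D) ∧ m e ≤ Hsᶜ.card

structure Inv (lab : P → (ι → Bool) → H) (m : ℕ → ℕ) (L j₀ : ℕ) (x0 : P → ι → Bool)
    (s : St P ι) (d : ℕ) : Prop where
  dl : d ≤ Fintype.card ι
  inj : InjOff lab s.x s.v
  unch : ∀ u, u ∉ s.Ch → s.x u = x0 u ∧ s.Z u = s.Fr u
  zc : ∀ u, s.Fr u ⊆ s.Z u ∧ Cube (s.Z u) (s.x u) (x0 u)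
  lv : ∀ l, d < l → l ≤ Fintype.card ι → (lev s.Fr l).card < 5 * m l
  rc : ∃ d', d ≤ d' ∧ L ≤ d' ∧ d' ≤ Fintype.card ι ∧
    m d' ≤ (Rch lab s.Fr s.x s.v ∩ lev s.Fr d').card
  jj : ∀ μ, L ≤ μ → μ ≤ Fintype.card ι →
    (s.Ch ∩ lev s.Z μ).card ≤ 13 * m μ ∨ (lev s.Z μ).card ≤ 21 * m μ
  cen : ∀ K, Good lab j₀ x0 s K → ∃ e ≤ Fintype.card ι + 1,
    (Cen lab x0 s K).card ≤ (2 * j₀ + 4) * (Fintype.card ι + 1 - e) ∧
      (d < e ∨ Shut lab m s K e)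

variable {lab : P → (ι → Bool) → H} {m : ℕ → ℕ} {L j₀ : ℕ} {x0 : P → ι → Bool} {v0 : P}

theorem mem_lev {G : P → Finset ι} {l : ℕ} {u : P} : u ∈ lev G l ↔ l ≤ (G u).card := by
  simp [lev]

theorem mem_Rch {G : P → Finset ι} {x : P → ι → Bool} {v w : P} :
    w ∈ Rch lab G x v ↔ Relation.ReflTransGen (Arc lab G x v) v w := by
  simp [Rch]

theorem lev_mono {G G' : P → Finset ι} (h : ∀ u, G' u ⊆ G u) (l : ℕ) : lev G' l ⊆ lev G l :=
  fun u hu => mem_lev.2 ((mem_lev.1 hu).trans (card_le_card (h u)))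

theorem Par.one_le (p : Par lab m L j₀ x0 v0) {μ : ℕ} (h : μ ≤ Fintype.card ι) : 4 ≤ m μ := by
  have h1 := p.hanti h
  have h2 := p.hbig
  nlinarith

theorem InjOff.card_image {x : P → ι → Bool} {v : P} (h : InjOff lab x v) {B : Finset P}
    (hv : v ∉ B) : (B.image fun w => lab w (x w)).card = B.card :=
  card_image_of_injOn fun a ha b hb hab =>
    h a b (fun e => hv (e ▸ mem_coe.1 ha)) (fun e => hv (e ▸ mem_coe.1 hb)) hab

theorem InjOff.surj {x : P → ι → Bool} {v : P} (h : InjOff lab x v)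
    (hc : Fintype.card P = Fintype.card H + 1) (j : H) : ∃ w, w ≠ v ∧ lab w (x w) = j := by
  have h1 := h.card_image (B := univ.erase v) (notMem_erase _ _)
  rw [card_erase_of_mem (mem_univ _), card_univ, hc, Nat.add_sub_cancel] at h1
  have h2 : j ∈ (univ.erase v).image fun w => lab w (x w) := by
    rw [eq_univ_of_card _ h1]; exact mem_univ _
  obtain ⟨w, hw, rfl⟩ := mem_image.1 h2
  exact ⟨w, (mem_erase.1 hw).1, rfl⟩

/-- Two large sets are joined by an arc. -/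
theorem KS.arc {G : P → Finset ι} {x : P → ι → Bool} {v : P} (hk : KS lab m L G x)
    (hi : InjOff lab x v) {μ : ℕ} (h1 : L ≤ μ) (h2 : μ ≤ Fintype.card ι) {A B : Finset P}
    (hA : A ⊆ lev G μ) (hv : v ∉ B) (hAc : m μ ≤ A.card) (hBc : m μ ≤ B.card) :
    ∃ a ∈ A, ∃ b ∈ B, Arc lab G x v a b := by
  obtain ⟨u, hu, j, hj, hs⟩ := hk μ h1 h2 A hA (B.image fun w => lab w (x w)) hAc
    (by rw [hi.card_image hv]; exact hBc)
  obtain ⟨w, hw, rfl⟩ := mem_image.1 hj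
  exact ⟨u, hu, w, hw, fun e => hv (e ▸ hw), hs⟩

theorem KS.compl_lt {G : P → Finset ι} {x : P → ι → Bool} {v : P} (hk : KS lab m L G x)
    (hi : InjOff lab x v) {μ : ℕ} (h1 : L ≤ μ) (h2 : μ ≤ Fintype.card ι) {A S : Finset P}
    (hA : A ⊆ lev G μ) (hv : v ∈ S) (hAc : m μ ≤ A.card)
    (hcl : ∀ a ∈ A, ∀ b, Arc lab G x v a b → b ∈ S) : Sᶜ.card < m μ := by
  by_contra hn
  obtain ⟨a, ha, b, hb, hab⟩ := hk.arc hi h1 h2 hA (B := Sᶜ) (by simpa using hv) hAc (by omega)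
  exact (mem_compl.1 hb) (hcl a ha b hab)

theorem Inv.reach_big {s : St P ι} {d : ℕ} (p : Par lab m L j₀ x0 v0)
    (h : Inv lab m L j₀ x0 s d) (hk : KS lab m L s.Fr s.x) :
    (Rch lab s.Fr s.x s.v)ᶜ.card < m d ∧ (Rch lab s.Fr s.x s.v)ᶜ.card < m L := by
  obtain ⟨d', h1, h2, h3, h4⟩ := h.rc
  have h5 := hk.compl_lt h.inj h2 h3 (S := Rch lab s.Fr s.x s.v) inter_subset_right
    (mem_Rch.2 .refl) h4 fun a ha b hab => mem_Rch.2 ((mem_Rch.1 (mem_inter.1 ha).1).tail hab)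
  exact ⟨h5.trans_le (p.hanti h1), h5.trans_le (p.hanti h2)⟩

/-- While many unchanged blocks have a high level, few blocks were changed at a high level. -/
theorem Inv.cnt {s : St P ι} {d : ℕ} (p : Par lab m L j₀ x0 v0) (h : Inv lab m L j₀ x0 s d)
    (hk : KS lab m L s.Fr s.x) (hz : KZ lab m L s.Z s.x) {μ : ℕ} (h1 : L ≤ μ)
    (h2 : μ ≤ Fintype.card ι) (hb : 8 * m μ ≤ (lev s.Fr μ \ s.Ch).card) :
    (s.Ch ∩ lev s.Z μ).card ≤ 8 * m μ := by
  have hm := p.one_le h2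
  set V := (lev s.Fr μ \ s.Ch).erase s.v with hV
  have hVc : 7 * m μ ≤ V.card := by
    have := pred_card_le_card_erase (s := lev s.Fr μ \ s.Ch) (a := s.v)
    rw [← hV] at this
    omega
  have hVm : ∀ a ∈ V, a ≠ s.v ∧ a ∈ lev s.Fr μ ∧ a ∉ s.Ch := fun a ha =>
    ⟨(mem_erase.1 ha).1, mem_sdiff.1 (mem_erase.1 ha).2⟩
  obtain ⟨K, hKV, hKc, hK⟩ := exists_core
    (fun a b => Sees (lab a) (s.Fr a) (x0 a) (lab b (x0 b))) V (m μ) j₀ (by omega)
    (by have := card_le_univ V; have := p.hj; omega) hVc fun A hA B hB hAc hBc => by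
      obtain ⟨a, ha, b, hb, hab⟩ := hk.arc h.inj h1 h2 (fun a ha => (hVm a (hA ha)).2.1)
        (fun hv => (hVm _ (hB hv)).1 rfl) hAc hBc
      refine ⟨a, ha, b, hb, ?_⟩
      rw [← (h.unch a (hVm a (hA ha)).2.2).1, ← (h.unch b (hVm b (hB hb)).2.2).1]
      exact hab.2
  obtain ⟨e, -, hcen, -⟩ := h.cen K ⟨fun k hk => ⟨(hVm k (hKV hk)).2.2, (hVm k (hKV hk)).1⟩, hK⟩
  have hcen' : (Cen lab x0 s K).card ≤ m μ :=
    hcen.trans ((Nat.mul_le_mul_left _ (Nat.sub_le _ _)).trans (p.hbig.trans (p.hanti h2)))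
  set T := K.image fun k => lab k (x0 k) with hT
  have hTc : m μ ≤ T.card := by
    have h3 : T = K.image fun k => lab k (s.x k) :=
      image_congr fun k hk => by rw [(h.unch k (hVm k (hKV (mem_coe.1 hk))).2.2).1]
    rw [h3, h.inj.card_image fun hv => (hVm _ (hKV hv)).1 rfl]
    exact hKc
  set Poor := (Icc μ (Fintype.card ι)).biUnion fun l =>
    univ.filter fun u => (s.Z u).card = l ∧ Bd (lab u) T (s.Z u) (x0 u) with hPoor
  have hP : Poor.card ≤ 5 * m μ := by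
    refine card_biUnion_le.trans (le_trans (sum_le_sum fun l hl => ?_) (p.hsum μ h2))
    by_contra hn
    obtain ⟨l1, l2⟩ := mem_Icc.1 hl
    obtain ⟨u, hu, hu'⟩ := hz l (h1.trans l1) l2 _ T (not_le.1 hn).le
      ((p.hanti l1).trans hTc) fun u hu => (mem_filter.1 hu).2.1
    exact hu' ((mem_filter.1 hu).2.2.congr (h.zc u).2.symm)
  set Rare := univ.filter fun u => u ≠ v0 ∧
    ¬ ∃ k ∈ K, Sees (lab k) (s.Fr k) (x0 k) (lab u (x0 u)) with hRare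
  have hR : Rare.card < m μ := by
    by_contra hn
    obtain ⟨k, hk1, j, hj, hs⟩ := hk μ h1 h2 K (fun a ha => (hVm a (hKV ha)).2.1)
      (Rare.image fun w => lab w (x0 w)) hKc
      (by rw [p.hinj.card_image (by simp [hRare])]; omega)
    obtain ⟨w, hw, rfl⟩ := mem_image.1 hj
    rw [(h.unch k (hVm k (hKV hk1)).2.2).1] at hs
    exact (mem_filter.1 hw).2.2 ⟨k, hk1, hs⟩
  have hsub : s.Ch ∩ lev s.Z μ ⊆ insert v0 ((Poor ∪ Rare) ∪ Cen lab x0 s K) := by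
    intro u hu
    obtain ⟨u1, u2⟩ := mem_inter.1 hu
    rw [mem_lev] at u2
    by_contra hn
    simp only [mem_insert, mem_union, not_or] at hn
    obtain ⟨n1, ⟨n2, n3⟩, n4⟩ := hn
    refine n4 (mem_filter.2 ⟨u1, card_pos.1 (by have := p.hL; omega), fun hb => n2 ?_, ?_⟩)
    · exact mem_biUnion.2 ⟨_, mem_Icc.2 ⟨u2, card_le_univ _⟩, mem_filter.2 ⟨mem_univ _, rfl, hb⟩⟩
    · by_contra hc
      exact n3 (mem_filter.2 ⟨mem_univ _, n1, hc⟩)
  have h3 := (card_le_card hsub).trans (card_insert_le _ _)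
  have h4 := card_union_le (Poor ∪ Rare) (Cen lab x0 s K)
  have h5 := card_union_le Poor Rare
  omega

/-- Lowering the level. -/
theorem Inv.lower {s : St P ι} (hL : 1 ≤ L) : ∀ {d : ℕ}, Inv lab m L j₀ x0 s d →
    ∃ d', Inv lab m L j₀ x0 s d' ∧ (d' < L ∨ (L ≤ d' ∧ 5 * m d' ≤ (lev s.Fr d').card)) := by
  intro d
  induction d with
  | zero => exact fun h => ⟨0, h, Or.inl hL⟩
  | succ d ih =>
    intro h
    by_cases h1 : d + 1 < L
    · exact ⟨_, h, Or.inl h1⟩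
    by_cases h2 : 5 * m (d + 1) ≤ (lev s.Fr (d + 1)).card
    · exact ⟨_, h, Or.inr ⟨by omega, h2⟩⟩
    refine ih ⟨by have := h.dl; omega, h.inj, h.unch, h.zc, fun l l1 l2 => ?_, ?_, h.jj,
      fun K hK => ?_⟩
    · by_cases hl : l = d + 1
      · rw [hl]; omega
      · exact h.lv l (by omega) l2
    · obtain ⟨d', r1, r2⟩ := h.rc
      exact ⟨d', by omega, r2⟩
    · obtain ⟨e, e1, e2, e3⟩ := h.cen K hK
      exact ⟨e, e1, e2, e3.imp (by omega) id⟩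

theorem sum_le_levels (f : P → ℕ) (l L : ℕ) (hf : ∀ u, f u ≤ l) :
    ∑ u, f u ≤ L * Fintype.card P +
      ∑ μ ∈ Icc L l, (univ.filter fun u => μ ≤ f u).card := by
  have h1 : ∀ u, f u ≤ L + ∑ μ ∈ Icc L l, if μ ≤ f u then 1 else 0 := by
    intro u
    rw [← card_filter]
    have h2 : Icc L (f u) ⊆ (Icc L l).filter fun μ => μ ≤ f u := fun μ hμ =>
      mem_filter.2 ⟨mem_Icc.2 ⟨(mem_Icc.1 hμ).1, (mem_Icc.1 hμ).2.trans (hf u)⟩,
        (mem_Icc.1 hμ).2⟩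
    have h3 := card_le_card h2
    rw [Nat.card_Icc] at h3
    omega
  refine (sum_le_sum fun u _ => h1 u).trans ?_
  rw [sum_add_distrib, sum_const, card_univ, smul_eq_mul, mul_comm, sum_comm]
  simp only [card_filter]
  exact le_rfl

end Pool.Agent.P.MP_0f6e60_lc.T
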