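import Mathlib
import Pool.Agent.P.MP_0f6e60_lc.TInv

/-! Tree-like lower bound: one step of the adversary (common part, default step, choice of the
new homeless block). -/

namespace Pool.Agent.P.MP_0f6e60_lc.T

open Finset Classical

variable {P H ι : Type} [Fintype P] [Fintype H] [Fintype ι]
  [DecidableEq P] [DecidableEq H] [DecidableEq ι]
variable {lab : P → (ι → Bool) → H} {m : ℕ → ℕ} {L j₀ : ℕ} {x0 : P → ι → Bool} {v0 : P}

/-- The next state: new free sets `G`, new point `x'`, new homeless block `v'`, moved blocks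
`Pa`. -/
noncomputable def nxt (s : St P ι) (G : P → Finset ι) (x' : P → ι → Bool) (v' : P)
    (Pa : Finset P) : St P ι :=
  ⟨G, x', v', s.Ch ∪ Pa, fun u => if u ∈ s.Ch ∪ Pa then s.Z u else G u⟩

/-- `G` arises from `Fr` by a query to bit `i` of block `y`. -/
structure Qry (Fr G : P → Finset ι) (y : P) (i : ι) : Prop where
  sub : ∀ u, G u ⊆ Fr u
  ne : ∀ u, u ≠ y → G u = Fr u
  er : (Fr y).erase i ⊆ G y

theorem Qry.lev_sub {Fr G : P → Finset ι} {y : P} {i : ι} (h : Qry Fr G y i) (l : ℕ) :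
    lev Fr l ⊆ insert y (lev G l) := by
  intro u hu
  by_cases hy : u = y
  · rw [hy]; exact mem_insert_self _ _
  · exact mem_insert_of_mem (mem_lev.2 (by rw [h.ne u hy]; exact mem_lev.1 hu))

theorem Qry.sees {Fr G : P → Finset ι} {y : P} {i : ι} (h : Qry Fr G y i) {u : P}
    {g : (ι → Bool) → H} {T : Finset H} {a : ι → Bool} (hb : ¬ Bd g T (Fr u) a)
    (hne : (Fr u).Nonempty) : ∃ j ∈ T, Sees g (G u) a j := by
  obtain ⟨i0, hi0⟩ := hne
  by_cases hy : u = y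
  · subst hy
    by_cases hi : i ∈ Fr u
    · obtain ⟨j, hj, hs⟩ := sees_of_not_bd hb hi
      exact ⟨j, hj, hs.mono h.er⟩
    · obtain ⟨j, hj, hs⟩ := sees_of_not_bd hb hi0
      refine ⟨j, hj, hs.mono ((erase_subset _ _).trans ?_)⟩
      have := h.er
      rwa [erase_eq_of_notMem hi] at this
  · obtain ⟨j, hj, hs⟩ := sees_of_not_bd hb hi0
    exact ⟨j, hj, hs.mono (by rw [h.ne u hy]; exact erase_subset _ _)⟩

theorem Good.back {s : St P ι} {G : P → Finset ι} {x' : P → ι → Bool} {v' : P} {Pa K : Finset P}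
    (hs : ∀ u, G u ⊆ s.Fr u) (hv : s.v ∈ Pa ∨ v' = s.v)
    (h : Good lab j₀ x0 (nxt s G x' v' Pa) K) : Good lab j₀ x0 s K := by
  refine ⟨fun k hk => ⟨fun hc => (h.1 k hk).1 (mem_union_left _ hc), fun e => ?_⟩,
    fun a ha b hb => Wk.mono (fun a b hab => ⟨hab.1, hab.2.1, hab.2.2.mono (hs a)⟩)
      (h.2 a ha b hb)⟩
  rcases hv with hv | hv
  · exact (h.1 k hk).1 (mem_union_right _ (e ▸ hv))
  · exact (h.1 k hk).2 (e.trans hv.symm)

theorem cen_nxt {s : St P ι} {G : P → Finset ι} {x' : P → ι → Bool} {v' : P} {Pa K : Finset P}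
    (hs : ∀ u, G u ⊆ s.Fr u) :
    (Cen lab x0 (nxt s G x' v' Pa) K).card ≤
      (Cen lab x0 s K).card + (Cen lab x0 (nxt s G x' v' Pa) K \ s.Ch).card := by
  refine le_trans (card_le_card fun u hu => ?_) (card_union_le _ _)
  by_cases hc : u ∈ s.Ch
  · obtain ⟨-, h1, h2, k, hk, h3⟩ := mem_filter.1 hu
    simp only [nxt, mem_union, hc, true_or, if_true] at h1 h2
    exact mem_union_left _ (mem_filter.2 ⟨hc, h1, h2, k, hk, Sees.mono h3 (hs k)⟩)
  · exact mem_union_right _ (mem_sdiff.2 ⟨hu, hc⟩)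

theorem Inv.step {s : St P ι} {d : ℕ} (p : Par lab m L j₀ x0 v0) (h : Inv lab m L j₀ x0 s d)
    (hk : KS lab m L s.Fr s.x) (hz : KZ lab m L s.Z s.x) {G : P → Finset ι}
    {x' : P → ι → Bool} {v' : P} {Pa : Finset P} (hs : ∀ u, G u ⊆ s.Fr u)
    (hx : ∀ u, Cube (s.Fr u) (s.x u) (x' u)) (hx' : ∀ u, u ∉ Pa → x' u = s.x u)
    (hPa : ∀ μ, L ≤ μ → μ ≤ Fintype.card ι → (Pa ∩ lev s.Fr μ).card ≤ 5 * m μ)
    (hd : L ≤ d) (hinj : InjOff lab x' v') (hrc : m d ≤ (Rch lab G x' v' ∩ lev G d).card)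
    (hcen : ∀ K, Good lab j₀ x0 (nxt s G x' v' Pa) K → ∃ e ≤ Fintype.card ι + 1,
      (Cen lab x0 (nxt s G x' v' Pa) K).card ≤ (2 * j₀ + 4) * (Fintype.card ι + 1 - e) ∧
      (d < e ∨ Shut lab m (nxt s G x' v' Pa) K e)) :
    Inv lab m L j₀ x0 (nxt s G x' v' Pa) d := by
  have hZ : ∀ u, (nxt s G x' v' Pa).Z u ⊆ s.Z u := fun u => by
    simp only [nxt]
    split_ifs
    · exact Subset.refl _
    · exact (hs u).trans (h.zc u).1
  refine ⟨h.dl, hinj, fun u hu => ?_, fun u => ?_, fun l l1 l2 => ?_,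
    ⟨d, le_rfl, hd, h.dl, hrc⟩, fun μ h1 h2 => ?_, hcen⟩
  · have hu' : u ∉ s.Ch ∪ Pa := hu
    refine ⟨?_, by simp only [nxt]; rw [if_neg hu']⟩
    rw [mem_union, not_or] at hu'
    exact (hx' u hu'.2).trans (h.unch u hu'.1).1
  · by_cases hu : u ∈ s.Ch ∪ Pa
    · simp only [nxt]
      rw [if_pos hu]
      exact ⟨(hs u).trans (h.zc u).1, ((hx u).mono (h.zc u).1).symm.trans (h.zc u).2⟩
    · simp only [nxt]
      rw [if_neg hu]
      rw [mem_union, not_or] at hu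
      rw [hx' u hu.2, (h.unch u hu.1).1]
      exact ⟨Subset.refl _, Cube.refl _ _⟩
  · exact (card_le_card (lev_mono hs l)).trans_lt (h.lv l l1 l2)
  · by_cases hb : 8 * m μ ≤ (lev s.Fr μ \ s.Ch).card
    · left
      have h3 := h.cnt p hk hz h1 h2 hb
      have h4 := hPa μ h1 h2
      have h5 : (nxt s G x' v' Pa).Ch ∩ lev (nxt s G x' v' Pa).Z μ ⊆
          (s.Ch ∩ lev s.Z μ) ∪ (Pa ∩ lev s.Fr μ) := by
        intro u hu
        obtain ⟨u1, u2⟩ := mem_inter.1 hu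
        have u3 := lev_mono hZ μ u2
        by_cases hc : u ∈ s.Ch
        · exact mem_union_left _ (mem_inter.2 ⟨hc, u3⟩)
        · refine mem_union_right _ (mem_inter.2 ⟨(mem_union.1 u1).resolve_left hc, ?_⟩)
          rw [mem_lev, ← (h.unch u hc).2]
          exact mem_lev.1 u3
      have h6 := (card_le_card h5).trans (card_union_le _ _)
      omega
    · right
      refine (card_le_card (lev_mono hZ μ)).trans ?_
      rcases h.jj μ h1 h2 with h3 | h3
      · have h5 : lev s.Z μ ⊆ (s.Ch ∩ lev s.Z μ) ∪ (lev s.Fr μ \ s.Ch) := by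
          intro u hu
          by_cases hc : u ∈ s.Ch
          · exact mem_union_left _ (mem_inter.2 ⟨hc, hu⟩)
          · refine mem_union_right _ (mem_sdiff.2 ⟨?_, hc⟩)
            rw [mem_lev, ← (h.unch u hc).2]
            exact mem_lev.1 hu
        have h6 := (card_le_card h5).trans (card_union_le _ _)
        omega
      · exact h3

theorem Inv.step_keep {s : St P ι} {d : ℕ} (p : Par lab m L j₀ x0 v0)
    (h : Inv lab m L j₀ x0 s d) (hk : KS lab m L s.Fr s.x) (hz : KZ lab m L s.Z s.x)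
    {G : P → Finset ι} (hs : ∀ u, G u ⊆ s.Fr u) (hd : L ≤ d)
    (hrc : m d ≤ (Rch lab G s.x s.v ∩ lev G d).card) :
    Inv lab m L j₀ x0 (nxt s G s.x s.v ∅) d := by
  refine h.step p hk hz hs (fun u => Cube.refl _ _) (fun _ _ => rfl) (fun μ _ _ => by simp) hd
    h.inj hrc fun K hK => ?_
  obtain ⟨e, e1, e2, e3⟩ := h.cen K (hK.back hs (Or.inr rfl))
  refine ⟨e, e1, ?_, e3.imp id fun ⟨D, Hs, d1, d2, d3, d4⟩ =>
    ⟨D, Hs, d1, fun a ha j hj => d2 a ha j (Sees.mono hj (hs a)), d3, d4⟩⟩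
  have h1 := cen_nxt (lab := lab) (x0 := x0) (x' := s.x) (v' := s.v) (Pa := ∅) (K := K) hs
  have h2 : Cen lab x0 (nxt s G s.x s.v ∅) K \ s.Ch = ∅ :=
    sdiff_eq_empty_iff_subset.2 fun u hu => by simpa [nxt] using (mem_filter.1 hu).1
  rw [h2] at h1
  exact h1.trans e2

/-- Reach outside `S`. -/
noncomputable def Cs (lab : P → (ι → Bool) → H) (G : P → Finset ι) (x : P → ι → Bool) (v : P)
    (S : Finset P) (u : P) : Finset P :=
  univ.filter fun w => Relation.ReflTransGen (fun a b => b ∉ S ∧ Arc lab G x v a b) u w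

theorem Inv.exists_new {s : St P ι} {d : ℕ} (p : Par lab m L j₀ x0 v0)
    (h : Inv lab m L j₀ x0 s d) (hk : KS lab m L s.Fr s.x) {G : P → Finset ι} {y : P} {i : ι}
    (hq : Qry s.Fr G y i) (hk' : KS lab m L G s.x) (hd : L ≤ d)
    (hF : 5 * m d ≤ (lev s.Fr d).card) (hS : (Rch lab G s.x s.v ∩ lev G d).card < m d) :
    y ∈ Rch lab G s.x s.v ∧ ∃ u', u' ∉ Rch lab G s.x s.v ∧ Arc lab s.Fr s.x s.v y u' ∧
      m d ≤ (Cs lab G s.x s.v (Rch lab G s.x s.v) u' ∩ lev G d).card := by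
  set S := Rch lab G s.x s.v with hSd
  have hm := p.one_le h.dl
  have hR := (h.reach_big p hk).1
  have hG : 5 * m d ≤ (lev G d).card + 1 :=
    hF.trans ((card_le_card (hq.lev_sub d)).trans (card_insert_le _ _))
  have harc : ∀ a b, a ≠ y → Arc lab s.Fr s.x s.v a b → Arc lab G s.x s.v a b :=
    fun a b ha hab => ⟨hab.1, by rw [hq.ne a ha]; exact hab.2⟩
  have hScl : ∀ a ∈ S, ∀ b, Arc lab G s.x s.v a b → b ∈ S := fun a ha b hab =>
    mem_Rch.2 ((mem_Rch.1 ha).tail hab)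
  constructor
  · by_contra hy
    have h1 : Rch lab s.Fr s.x s.v ⊆ S := fun w hw => by
      have hw' := mem_Rch.1 hw
      clear hw
      induction hw' with
      | refl => exact mem_Rch.2 .refl
      | tail _ h2 ih => exact hScl _ ih _ (harc _ _ (fun e => hy (e ▸ ih)) h2)
    have h2 : lev G d ⊆ (S ∩ lev G d) ∪ (Rch lab s.Fr s.x s.v)ᶜ := fun w hw => by
      by_cases h3 : w ∈ Rch lab s.Fr s.x s.v
      · exact mem_union_left _ (mem_inter.2 ⟨h1 h3, hw⟩)
      · exact mem_union_right _ (mem_compl.2 h3)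
    have h3 := (card_le_card h2).trans (card_union_le _ _)
    omega
  by_contra hn
  push Not at hn
  set U := univ.filter fun u' => u' ∉ S ∧ Arc lab s.Fr s.x s.v y u' with hU
  have h1 : ∀ w, Relation.ReflTransGen (Arc lab s.Fr s.x s.v) s.v w →
      w ∈ S ∨ ∃ u' ∈ U, w ∈ Cs lab G s.x s.v S u' := by
    intro w hw
    induction hw with
    | refl => exact Or.inl (mem_Rch.2 .refl)
    | @tail a b _ h2 ih =>
      by_cases hb : b ∈ S
      · exact Or.inl hb
      right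
      by_cases ha : a = y
      · exact ⟨b, mem_filter.2 ⟨mem_univ _, hb, ha ▸ h2⟩, mem_filter.2 ⟨mem_univ _, .refl⟩⟩
      rcases ih with ih | ⟨u', hu', ih⟩
      · exact absurd (hScl a ih b (harc a b ha h2)) hb
      · exact ⟨u', hu', mem_filter.2 ⟨mem_univ _, (mem_filter.1 ih).2.tail ⟨hb, harc a b ha h2⟩⟩⟩
  have h2 : lev G d ⊆ ((S ∩ lev G d) ∪ (Rch lab s.Fr s.x s.v)ᶜ) ∪
      U.biUnion fun u' => Cs lab G s.x s.v S u' ∩ lev G d := fun w hw => by
    by_cases h3 : w ∈ Rch lab s.Fr s.x s.v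
    · rcases h1 w (mem_Rch.1 h3) with h4 | ⟨u', hu', h4⟩
      · exact mem_union_left _ (mem_union_left _ (mem_inter.2 ⟨h4, hw⟩))
      · exact mem_union_right _ (mem_biUnion.2 ⟨u', hu', mem_inter.2 ⟨h4, hw⟩⟩)
    · exact mem_union_left _ (mem_union_right _ (mem_compl.2 h3))
  have h3 := (card_le_card h2).trans (card_union_le _ _)
  have h4 := card_union_le (S ∩ lev G d) (Rch lab s.Fr s.x s.v)ᶜ
  obtain ⟨U', u1, u2, u3⟩ := accumulate (fun u' => Cs lab G s.x s.v S u' ∩ lev G d) (m d)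
    (by omega) U (fun u hu => hn u (mem_filter.1 hu).2.1 (mem_filter.1 hu).2.2) (by omega)
  have h5 := hk'.compl_lt h.inj hd h.dl (S := S ∪ U'.biUnion (Cs lab G s.x s.v S))
    (A := U'.biUnion fun u' => Cs lab G s.x s.v S u' ∩ lev G d)
    (biUnion_subset.2 fun _ _ => inter_subset_right) (mem_union_left _ (mem_Rch.2 .refl)) u2
    fun a ha b hab => by
      obtain ⟨u', hu', ha'⟩ := mem_biUnion.1 ha
      by_cases hb : b ∈ S
      · exact mem_union_left _ hb
      · exact mem_union_right _ (mem_biUnion.2 ⟨u', hu', mem_filter.2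
          ⟨mem_univ _, (mem_filter.1 (mem_inter.1 ha').1).2.tail ⟨hb, hab⟩⟩⟩)
  have h6 : lev G d ⊆ ((S ∩ lev G d) ∪ (S ∪ U'.biUnion (Cs lab G s.x s.v S))ᶜ) ∪
      U'.biUnion fun u' => Cs lab G s.x s.v S u' ∩ lev G d := fun w hw => by
    by_cases h7 : w ∈ S ∪ U'.biUnion (Cs lab G s.x s.v S)
    · rcases mem_union.1 h7 with h8 | h8
      · exact mem_union_left _ (mem_union_left _ (mem_inter.2 ⟨h8, hw⟩))
      · obtain ⟨u', hu', h9⟩ := mem_biUnion.1 h8
        exact mem_union_right _ (mem_biUnion.2 ⟨u', hu', mem_inter.2 ⟨h9, hw⟩⟩)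
    · exact mem_union_left _ (mem_union_right _ (mem_compl.2 h7))
  have h7 := (card_le_card h6).trans (card_union_le _ _)
  have h8 := card_union_le (S ∩ lev G d) (S ∪ U'.biUnion (Cs lab G s.x s.v S))ᶜ
  omega

end Pool.Agent.P.MP_0f6e60_lc.T
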