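import Mathlib
import Pool.Agent.P.MP_0f6e60_lc.TStep

/-! Tree-like lower bound: the deviation step of the adversary. -/

namespace Pool.Agent.P.MP_0f6e60_lc.T

open Finset Classical

variable {P H ι : Type} [Fintype P] [Fintype H] [Fintype ι]
  [DecidableEq P] [DecidableEq H] [DecidableEq ι]
variable {lab : P → (ι → Bool) → H} {m : ℕ → ℕ} {L j₀ : ℕ} {x0 : P → ι → Bool} {v0 : P}

/-- Data of a shift along a shortest path `Pa` from the homeless block to `y`. -/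
structure Shift (lab : P → (ι → Bool) → H) (s : St P ι) (G : P → Finset ι) (y u' : P)
    (Pa : Finset P) (δ : P → ℕ) (σ : P → P) (x' : P → ι → Bool) : Prop where
  hv : s.v ∈ Pa
  hy : y ∈ Pa
  d0 : δ s.v = 0
  sub : Pa ⊆ Rch lab G s.x s.v
  dinj : Set.InjOn δ Pa
  dw : ∀ a ∈ Pa, ∀ b n, Wk (Arc lab G s.x s.v) n a b → δ b ≤ δ a + n
  toy : ∀ a ∈ Pa, Relation.ReflTransGen (Arc lab G s.x s.v) a y
  sv : ∀ a ∈ Pa, σ a ≠ s.v
  sm : ∀ a ∈ Pa, a ≠ y → σ a ∈ Pa
  sy : σ y = u'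
  sinj : Set.InjOn σ Pa
  cube : ∀ u, Cube (s.Fr u) (s.x u) (x' u)
  off : ∀ u, u ∉ Pa → x' u = s.x u
  lb : ∀ a ∈ Pa, lab a (x' a) = lab (σ a) (s.x (σ a))

theorem exists_shift {s : St P ι} {G : P → Finset ι} {y u' : P} (hs : ∀ u, G u ⊆ s.Fr u)
    (hy : y ∈ Rch lab G s.x s.v) (hu : u' ∉ Rch lab G s.x s.v)
    (ha : Arc lab s.Fr s.x s.v y u') : ∃ Pa δ σ x', Shift lab s G y u' Pa δ σ x' := by
  obtain ⟨Pa, δ, σ0, p1, p2, p3, p4, p5, p6, p7, p8⟩ := exists_path _ _ _ (mem_Rch.1 hy)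
  have hsub : Pa ⊆ Rch lab G s.x s.v := fun a ha => mem_Rch.2 (p4 a ha)
  have harc : ∀ a ∈ Pa, Arc lab s.Fr s.x s.v a (Function.update σ0 y u' a) := by
    intro a ha'
    by_cases h : a = y
    · rw [h, Function.update_self]; exact ha
    · rw [Function.update_of_ne h]
      exact ⟨(p7 a ha' h).2.1.1, (p7 a ha' h).2.1.2.mono (hs a)⟩
  choose c hc using fun a ha => (harc a ha).2
  refine ⟨Pa, δ, Function.update σ0 y u', fun a => if h : a ∈ Pa then c a h else s.x a,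
    p1, p2, p3, hsub, p5, p6, p8, fun a ha => (harc a ha).1, fun a ha h => ?_,
    Function.update_self _ _ _, fun a ha b hb hab => ?_, fun u => ?_, fun u hu => dif_neg hu,
    fun a ha => ?_⟩
  · rw [Function.update_of_ne h]; exact (p7 a ha h).1
  · by_cases h1 : a = y <;> by_cases h2 : b = y
    · rw [h1, h2]
    · rw [h1, Function.update_self, Function.update_of_ne h2] at hab
      exact absurd (hsub (hab ▸ (p7 b hb h2).1)) hu
    · rw [h2, Function.update_self, Function.update_of_ne h1] at hab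
      exact absurd (hsub (hab ▸ (p7 a ha h1).1)) hu
    · rw [Function.update_of_ne h1, Function.update_of_ne h2] at hab
      have h3 := (p7 a ha h1).2.2
      have h4 := (p7 b hb h2).2.2
      rw [hab] at h3
      exact p5 ha hb (by omega)
  · by_cases h : u ∈ Pa
    · simp only [dif_pos h]; exact (hc u h).1
    · simp only [dif_neg h]; exact Cube.refl _ _
  · simp only [dif_pos ha]; exact (hc a ha).2

section Shift

variable {s : St P ι} {G : P → Finset ι} {y u' : P} {Pa : Finset P} {δ : P → ℕ} {σ : P → P}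
  {x' : P → ι → Bool}

theorem Shift.sm' (t : Shift lab s G y u' Pa δ σ x') {a : P} (ha : a ∈ Pa) :
    σ a ∈ Pa ∨ σ a = u' := by
  by_cases h : a = y
  · exact Or.inr (h ▸ t.sy)
  · exact Or.inl (t.sm a ha h)

theorem Shift.inj (t : Shift lab s G y u' Pa δ σ x') (hi : InjOff lab s.x s.v) :
    InjOff lab x' u' := by
  have key : ∀ a b, a ∈ Pa → b ∉ Pa → b ≠ u' → lab a (x' a) ≠ lab b (x' b) := by
    intro a b ha hb hb' h
    rw [t.lb a ha, t.off b hb] at h
    have h1 := hi _ b (t.sv a ha) (fun e => hb (e ▸ t.hv)) h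
    rcases t.sm' ha with h2 | h2
    · exact hb (h1 ▸ h2)
    · exact hb' (h1 ▸ h2)
  intro a b ha hb h
  by_cases h1 : a ∈ Pa <;> by_cases h2 : b ∈ Pa
  · rw [t.lb a h1, t.lb b h2] at h
    exact t.sinj h1 h2 (hi _ _ (t.sv a h1) (t.sv b h2) h)
  · exact absurd h (key a b h1 h2 hb)
  · exact absurd h.symm (key b a h2 h1 ha)
  · rw [t.off a h1, t.off b h2] at h
    exact hi _ _ (fun e => h1 (e ▸ t.hv)) (fun e => h2 (e ▸ t.hv)) h

theorem Shift.reach (t : Shift lab s G y u' Pa δ σ x') (hu : u' ∉ Rch lab G s.x s.v) :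
    Cs lab G s.x s.v (Rch lab G s.x s.v) u' ⊆ Rch lab G x' u' := by
  intro w hw
  have hw' := (mem_filter.1 hw).2
  clear hw
  suffices h : w ∉ Rch lab G s.x s.v ∧ w ∈ Rch lab G x' u' from h.2
  induction hw' with
  | refl => exact ⟨hu, mem_Rch.2 .refl⟩
  | @tail a b _ h2 ih =>
    refine ⟨h2.1, ?_⟩
    by_cases hb : b = u'
    · rw [hb]; exact mem_Rch.2 .refl
    refine mem_Rch.2 ((mem_Rch.1 ih.2).tail ⟨hb, ?_⟩)
    rw [t.off a fun h => ih.1 (t.sub h), t.off b fun h => h2.1 (t.sub h)]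
    exact h2.2.2

theorem Shift.few (t : Shift lab s G y u' Pa δ σ x') (p : Par lab m L j₀ x0 v0)
    (hi : InjOff lab s.x s.v) {i : ι} (hq : Qry s.Fr G y i) (hk' : KS lab m L G s.x)
    (μ : ℕ) (h1 : L ≤ μ) (h2 : μ ≤ Fintype.card ι) : (Pa ∩ lev s.Fr μ).card ≤ 5 * m μ := by
  have hm := p.one_le h2
  have h3 : Pa ∩ lev s.Fr μ ⊆ insert y (Pa ∩ lev G μ) := fun a ha => by
    rcases mem_insert.1 (hq.lev_sub μ (mem_inter.1 ha).2) with h | h
    · exact mem_insert.2 (Or.inl h)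
    · exact mem_insert_of_mem (mem_inter.2 ⟨(mem_inter.1 ha).1, h⟩)
  have h4 := (card_le_card h3).trans (card_insert_le _ _)
  by_contra hn
  obtain ⟨A, hA, B, hB, a1, a2, a3⟩ := exists_gap (Pa ∩ lev G μ) δ
    (t.dinj.mono (coe_subset.2 inter_subset_left)) (m μ) (by omega) (by omega)
  obtain ⟨a0, ha0⟩ : A.Nonempty := card_pos.1 (by omega)
  obtain ⟨a, ha, b, hb, hab⟩ := hk'.arc hi h1 h2 (hA.trans inter_subset_right) (B := B)
    (fun hv => by have := a3 a0 ha0 _ hv; have := t.d0; omega) a1 a2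
  have h5 := t.dw a (mem_inter.1 (hA ha)).1 b 1 (Wk.single hab)
  have := a3 a ha b hb
  omega

end Shift

theorem Inv.step_dev {s : St P ι} {d : ℕ} (p : Par lab m L j₀ x0 v0)
    (h : Inv lab m L j₀ x0 s d) (hk : KS lab m L s.Fr s.x) (hz : KZ lab m L s.Z s.x)
    {G : P → Finset ι} {y : P} {i : ι}
    (hq : Qry s.Fr G y i) (hk' : KS lab m L G s.x) (hd : L ≤ d)
    (hF : 5 * m d ≤ (lev s.Fr d).card) (hS : (Rch lab G s.x s.v ∩ lev G d).card < m d) :
    ∃ x' v' Pa, (∀ u, Cube (s.Fr u) (s.x u) (x' u)) ∧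
      Inv lab m L j₀ x0 (nxt s G x' v' Pa) d := by
  obtain ⟨hy, u', hu, ha, hC⟩ := h.exists_new p hk hq hk' hd hF hS
  obtain ⟨Pa, δ, σ, x', t⟩ := exists_shift hq.sub hy hu ha
  set S := Rch lab G s.x s.v with hSd
  have hm := p.one_le h.dl
  refine ⟨x', u', Pa, t.cube, h.step p hk hz hq.sub t.cube t.off (t.few p h.inj hq hk') hd
    (t.inj h.inj) (hC.trans (card_le_card (inter_subset_inter_right (t.reach hu))))
    fun K hK => ?_⟩
  obtain ⟨e, e1, e2, e3⟩ := h.cen K (hK.back hq.sub (Or.inl t.hv))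
  have hc := cen_nxt (lab := lab) (x0 := x0) (x' := x') (v' := u') (Pa := Pa) (K := K) hq.sub
  have hKP : ∀ k ∈ K, k ∉ s.Ch ∧ k ∉ Pa := fun k hk => by
    have := (hK.1 k hk).1
    simpa [nxt] using this
  have hKx : ∀ k ∈ K, s.x k = x0 k := fun k hk => (h.unch k (hKP k hk).1).1
  have hKv : ∀ k ∈ K, k ≠ s.v := fun k hk e => (hKP k hk).2 (e ▸ t.hv)
  have hKw : ∀ a ∈ K, ∀ b ∈ K, Wk (Arc lab G s.x s.v) (2 * j₀ + 1) a b := fun a ha b hb =>
    Wk.mono (fun a b hab => ⟨hKv b hab.2.1, by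
      rw [hKx a hab.1, hKx b hab.2.1]; exact hab.2.2⟩) (hK.2 a ha b hb)
  have hfr : ∀ b ∈ Cen lab x0 (nxt s G x' u' Pa) K \ s.Ch, b ∈ Pa ∧
      (∃ k ∈ K, Arc lab G s.x s.v b k) ∧
      ∃ k ∈ K, Sees (lab k) (G k) (s.x k) (lab b (s.x b)) := by
    intro b hb
    obtain ⟨b1, b2⟩ := mem_sdiff.1 hb
    obtain ⟨b3, b4, b5, k, hk1, b6⟩ := mem_filter.1 b1
    have b3' : b ∈ s.Ch ∪ Pa := b3
    simp only [nxt] at b4 b5 b6
    rw [if_pos b3', (h.unch b b2).2] at b4 b5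
    rw [← (h.unch b b2).1] at b5 b6
    obtain ⟨j, hj, hs⟩ := hq.sees b5 b4
    obtain ⟨k', hk2, rfl⟩ := mem_image.1 hj
    refine ⟨(mem_union.1 b3').resolve_left b2, ⟨k', hk2, hKv k' hk2, ?_⟩, k, hk1, ?_⟩
    · rw [hKx k' hk2]; exact hs
    · rw [hKx k hk1]; exact b6
  have hold : d < e ∨ (Shut lab m (nxt s G x' u' Pa) K e ∧
      Cen lab x0 (nxt s G x' u' Pa) K \ s.Ch = ∅) := by
    rcases e3 with e3 | ⟨D, Hs, d1, d2, d3, d4⟩
    · exact Or.inl e3
    have hcl : ∀ a ∈ D, ∀ b, Arc lab G s.x s.v a b → b ∈ D := fun a ha b hab =>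
      d3 b (d2 a ha _ (hab.2.mono (hq.sub a)))
    by_cases hD : u' ∈ D
    · left
      by_contra hn
      obtain ⟨a, ha', j, hj, hs⟩ := hk' d hd h.dl _ inter_subset_right Hsᶜ hC
        ((p.hanti (not_lt.1 hn)).trans d4)
      have haD : a ∈ D := by
        have h1 := (mem_filter.1 (mem_inter.1 ha').1).2
        clear ha' hs
        induction h1 with
        | refl => exact hD
        | tail _ h2 ih => exact hcl _ ih _ h2.2
      exact mem_compl.1 hj (d2 a haD j (hs.mono (hq.sub a)))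
    · right
      have hPD : ∀ a ∈ Pa, a ∉ D := fun a ha' haD => by
        have h1 : ∀ b, Relation.ReflTransGen (Arc lab G s.x s.v) a b → b ∈ D := fun b hb => by
          induction hb with
          | refl => exact haD
          | tail _ h2 ih => exact hcl _ ih _ h2
        exact hD (d3 u' (d2 y (h1 y (t.toy a ha')) _ ha.2))
      refine ⟨⟨D, Hs, d1, fun a ha' j hj => ?_, fun w hw => ?_, d4⟩,
        eq_empty_of_forall_notMem fun b hb => ?_⟩
      · simp only [nxt] at hj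
        rw [t.off a fun h => hPD a h ha'] at hj
        exact d2 a ha' j (hj.mono (hq.sub a))
      · simp only [nxt] at hw
        by_cases hwP : w ∈ Pa
        · rw [t.lb w hwP] at hw
          rcases t.sm' hwP with h1 | h1
          · exact absurd (d3 _ hw) (hPD _ h1)
          · exact absurd (h1 ▸ d3 _ hw) hD
        · rw [t.off w hwP] at hw; exact d3 w hw
      · obtain ⟨b1, -, k, hk1, b2⟩ := hfr b hb
        exact hPD b b1 (d3 b (d2 k (d1 hk1) _ (b2.mono (hq.sub k))))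
  by_cases hemp : Cen lab x0 (nxt s G x' u' Pa) K \ s.Ch = ∅
  · rw [hemp, card_empty] at hc
    exact ⟨e, e1, hc.trans e2, hold.imp id And.left⟩
  have hde : d < e := hold.resolve_right fun h => hemp h.2
  obtain ⟨a0, ha0, hmin⟩ := exists_min_image _ δ (nonempty_iff_ne_empty.2 hemp)
  obtain ⟨a1, ⟨k0, hk0, a2⟩, -⟩ := hfr a0 ha0
  have hcnt : (Cen lab x0 (nxt s G x' u' Pa) K \ s.Ch).card ≤ 2 * j₀ + 4 := by
    have h1 := card_le_card_of_injOn (t := Icc (δ a0) (δ a0 + (2 * j₀ + 3))) δ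
      (s := Cen lab x0 (nxt s G x' u' Pa) K \ s.Ch) (fun b hb => ?_)
      (t.dinj.mono fun b hb => mem_coe.2 (hfr b (mem_coe.1 hb)).1)
    · rw [Nat.card_Icc] at h1; omega
    · have hb' := mem_coe.1 hb
      refine mem_coe.2 (mem_Icc.2 ⟨hmin b hb', ?_⟩)
      by_cases hbv : b = s.v
      · rw [hbv, t.d0]; omega
      · obtain ⟨-, -, k, hk1, b2⟩ := hfr b hb'
        have h2 := ((Wk.single a2).trans (hKw k0 hk0 k hk1)).trans
          (Wk.single (E := Arc lab G s.x s.v) ⟨hbv, b2⟩)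
        have := t.dw a0 a1 b _ h2
        omega
  refine ⟨d, by omega, ?_, Or.inr ⟨S.erase y, (S.erase s.v).image fun w => lab w (s.x w),
    fun k hk1 => ?_, fun a ha' j hj => ?_, fun w hw => ?_, ?_⟩⟩
  · have h1 : Fintype.card ι + 1 - e + 1 ≤ Fintype.card ι + 1 - d := by omega
    have h2 := Nat.mul_le_mul_left (2 * j₀ + 4) h1
    rw [Nat.mul_succ] at h2
    omega
  · refine mem_erase.2 ⟨fun e => (hKP k hk1).2 (e ▸ t.hy), mem_Rch.2 ?_⟩
    exact ((mem_Rch.1 (t.sub a1)).tail a2).trans (hKw k0 hk0 k hk1).reach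
  · simp only [nxt] at hj
    obtain ⟨h1, h2⟩ := mem_erase.1 ha'
    obtain ⟨w, w1, rfl⟩ := h.inj.surj p.hcard j
    have h3 : Sees (lab a) (G a) (s.x a) (lab w (s.x w)) :=
      hj.congr (by rw [hq.ne a h1]; exact (t.cube a).symm)
    exact mem_image_of_mem _ (mem_erase.2 ⟨w1, mem_Rch.2 ((mem_Rch.1 h2).tail ⟨w1, h3⟩)⟩)
  · simp only [nxt] at hw
    obtain ⟨z, hz1, hz2⟩ := mem_image.1 hw
    obtain ⟨z1, z2⟩ := mem_erase.1 hz1
    by_cases hwP : w ∈ Pa
    · rw [t.lb w hwP] at hz2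
      have h1 := h.inj _ _ z1 (t.sv w hwP) hz2
      refine mem_erase.2 ⟨fun e => hu ?_, t.sub hwP⟩
      rw [← t.sy, ← e, ← h1]; exact z2
    · rw [t.off w hwP] at hz2
      have h1 := h.inj _ w z1 (fun e => hwP (e ▸ t.hv)) hz2
      exact mem_erase.2 ⟨fun e => hwP (e ▸ t.hy), h1 ▸ z2⟩
  · have h1 : s.v ∈ S := mem_Rch.2 .refl
    rw [card_compl, h.inj.card_image (notMem_erase _ _), card_erase_of_mem h1]
    have h2 : lev G d ⊆ (S ∩ lev G d) ∪ Sᶜ := fun w hw => by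
      by_cases h3 : w ∈ S
      · exact mem_union_left _ (mem_inter.2 ⟨h3, hw⟩)
      · exact mem_union_right _ (mem_compl.2 h3)
    have h3 := (card_le_card h2).trans (card_union_le _ _)
    have h4 := hF.trans ((card_le_card (hq.lev_sub d)).trans (card_insert_le _ _))
    have h5 := card_compl S
    have h6 := p.hcard
    have h7 := card_pos.2 ⟨_, h1⟩
    omega

end Pool.Agent.P.MP_0f6e60_lc.T
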