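import Mathlib
import Pool.Agent.P.MP_0f6e60_lc.TDev

namespace Pool.Agent.P.MP_0f6e60_lc.T

open Finset Classical

variable {P H ι : Type} [Fintype P] [Fintype H] [Fintype ι]
  [DecidableEq P] [DecidableEq H] [DecidableEq ι]

section

variable {lab : P → (ι → Bool) → H} {m : ℕ → ℕ} {L j₀ : ℕ} {x0 : P → ι → Bool} {v0 : P}
  {q : (P → ι → Bool) → ℕ → Option (P × ι)} {Tm : ℕ}

theorem ks_of_not_bad (hT : ∀ x u, Fz q 0 x u Tm = ∅) (hL : 1 ≤ L) {x : P → ι → Bool}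
    (hb : ¬ BadX lab q Tm m L x) {τ : ℕ} (hτ : τ ≤ Tm) :
    KS lab m L (fun u => Fz q 0 x u τ) x := by
  intro μ h1 h2 A hA T hAc hTc
  by_contra hn
  refine hb ⟨μ, h1, h2, A, T, hAc, hTc, fun u hu => ?_⟩
  by_contra hbd
  obtain ⟨i, hi⟩ : (Fz q μ x u Tm).Nonempty :=
    card_pos.1 (by rw [card_Fz_end q μ x u (hT x u) h2]; omega)
  obtain ⟨j, hj, hs⟩ := sees_of_not_bd hbd hi
  exact hn ⟨u, hu, j, hj, hs.mono ((erase_subset _ _).trans
    (Fz_end_subset q μ x u hτ (mem_filter.1 (hA hu)).2))⟩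

theorem kz_of_not_bad {x : P → ι → Bool} (hb : ¬ BadX lab q Tm m L x) {Z : P → Finset ι}
    (hZ : ∀ u, ∃ σ ≤ Tm, Z u = Fz q 0 x u σ) : KZ lab m L Z x := by
  intro μ h1 h2 A T hAc hTc hA
  by_contra hn
  refine hb ⟨μ, h1, h2, A, T, hAc, hTc, fun u hu => ?_⟩
  obtain ⟨σ, s1, s2⟩ := hZ u
  have h3 : Fz q μ x u Tm = Z u := by rw [← hA u hu, s2]; exact Fz_end_eq q x u s1
  rw [h3]
  by_contra hbd
  exact hn ⟨u, hu, hbd⟩

theorem Inv.near {s : St P ι} {d : ℕ} (p : Par lab m L j₀ x0 v0) (h : Inv lab m L j₀ x0 s d)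
    (hZ : ∀ u, ∃ σ ≤ Tm, s.Z u = Fz q 0 s.x u σ) :
    Near q Tm ((L + 105) * Fintype.card P) s.x x0 := by
  have hz : ∀ u, (if u ∈ s.Ch then (s.Z u).card else 0) ≤ Fintype.card ι := fun u => by
    split_ifs
    · exact card_le_univ _
    · exact Nat.zero_le _
  refine ⟨fun u => if u ∈ s.Ch then (s.Z u).card else 0, hz, ?_, fun u => ?_⟩
  · refine (sum_le_levels _ _ L hz).trans ?_
    have h1 : ∑ μ ∈ Icc L (Fintype.card ι),
        (univ.filter fun u => μ ≤ if u ∈ s.Ch then (s.Z u).card else 0).card ≤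
        ∑ μ ∈ Icc L (Fintype.card ι), 21 * m μ := by
      refine sum_le_sum fun μ hμ => ?_
      obtain ⟨m1, m2⟩ := mem_Icc.1 hμ
      have h2 : (univ.filter fun u => μ ≤ if u ∈ s.Ch then (s.Z u).card else 0) ⊆
          s.Ch ∩ lev s.Z μ := fun u hu => by
        have h3 := (mem_filter.1 hu).2
        have := p.hL
        split_ifs at h3 with hc
        · exact mem_inter.2 ⟨hc, mem_lev.2 h3⟩
        · omega
      have h3 := card_le_card h2
      have h4 := card_le_card (inter_subset_right (s₁ := s.Ch) (s₂ := lev s.Z μ))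
      rcases h.jj μ m1 m2 with h5 | h5 <;> omega
    rw [← mul_sum] at h1
    have h2 := p.hsum L p.hLl
    have h3 := p.hmL
    rw [add_mul]
    omega
  · by_cases hc : u ∈ s.Ch
    · obtain ⟨σ, s1, s2⟩ := hZ u
      simp only [if_pos hc]
      rw [s2, Fz_end_eq q s.x u s1, ← s2]
      exact (h.zc u).2
    · rw [(h.unch u hc).1]; exact Cube.refl _ _

theorem Inv.no_coll {s : St P ι} {d : ℕ} (p : Par lab m L j₀ x0 v0) (h : Inv lab m L j₀ x0 s d)
    (hk : KS lab m L s.Fr s.x) {w : P} (hw : w ≠ s.v) (h1 : s.Fr s.v = ∅) (h2 : s.Fr w = ∅)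
    (h3 : lab s.v (s.x s.v) = lab w (s.x w)) : False := by
  have h4 : Rch lab s.Fr s.x s.v ⊆ {s.v, w} := fun b hb => by
    have hb' := mem_Rch.1 hb
    clear hb
    induction hb' with
    | refl => simp
    | @tail a b _ h5 ih =>
      obtain ⟨b1, c, c1, c2⟩ := h5
      have h6 : lab w (s.x w) = lab b (s.x b) := by
        rcases mem_insert.1 ih with e | e
        · subst e
          rw [h1] at c1
          rw [← h3, ← c2, show c = s.x s.v from funext fun i => c1 i (notMem_empty _)]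
        · rw [mem_singleton] at e
          subst e
          rw [h2] at c1
          rw [← c2, show c = s.x a from funext fun i => c1 i (notMem_empty _)]
      rw [← h.inj _ _ hw b1 h6]
      simp
  have h5 := (card_le_card h4).trans (card_le_two)
  have h6 := (h.reach_big p hk).2
  have h7 := p.hmL
  rw [card_compl] at h6
  omega

theorem Inv.stop {s : St P ι} {d τ : ℕ} (p : Par lab m L j₀ x0 v0)
    (hT : ∀ x u, Fz q 0 x u Tm = ∅) (h : Inv lab m L j₀ x0 s d) (hτ : τ ≤ Tm)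
    (hF : s.Fr = fun u => Fz q 0 s.x u τ) (hZ : ∀ u, ∃ σ ≤ τ, s.Z u = Fz q 0 s.x u σ) :
    (∃ x, Near q Tm ((L + 105) * Fintype.card P) x x0 ∧
      (BadX lab q Tm m L x ∨ DeepX lab q ((L + 25) * Fintype.card P) x)) ∨
    (¬ BadX lab q Tm m L s.x ∧ ∃ d', Inv lab m L j₀ x0 s d' ∧ L ≤ d' ∧
      5 * m d' ≤ (lev s.Fr d').card) := by
  have hN := h.near (q := q) (Tm := Tm) p fun u =>
    (hZ u).imp fun σ hσ => ⟨hσ.1.trans hτ, hσ.2⟩
  by_cases hb : BadX lab q Tm m L s.x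
  · exact Or.inl ⟨_, hN, Or.inl hb⟩
  obtain ⟨d', h', hd | hd⟩ := h.lower p.hL
  swap
  · exact Or.inr ⟨hb, d', h', hd⟩
  have hk : KS lab m L s.Fr s.x := by rw [hF]; exact ks_of_not_bad hT p.hL hb hτ
  have hF' : ∀ u, Fz q 0 s.x u τ = s.Fr u := fun u => by rw [hF]
  refine Or.inl ⟨_, hN, Or.inr ⟨τ, fun ⟨u, w, c1, c2, c3, c4⟩ => ?_, ?_⟩⟩
  · rw [hF'] at c2 c3
    by_cases hu : u = s.v
    · subst hu; exact h.no_coll p hk c1.symm c2 c3 c4
    by_cases hw : w = s.v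
    · subst hw; exact h.no_coll p hk c1 c3 c2 c4.symm
    exact c1 (h.inj u w hu hw c4)
  · simp only [hF']
    refine (sum_le_levels _ _ L fun u => card_le_univ (s.Fr u)).trans ?_
    have h1 : ∑ μ ∈ Icc L (Fintype.card ι), (univ.filter fun u => μ ≤ (s.Fr u).card).card ≤
        ∑ μ ∈ Icc L (Fintype.card ι), 5 * m μ := sum_le_sum fun μ hμ =>
      (h'.lv μ (hd.trans_le (mem_Icc.1 hμ).1) (mem_Icc.1 hμ).2).le
    rw [← mul_sum] at h1
    have h2 := p.hsum L p.hLl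
    have h3 := p.hmL
    rw [add_mul]
    omega

theorem exists_qry (x : P → ι → Bool) (τ : ℕ) (v : P) (i0 : ι) :
    ∃ y i, Qry (fun u => Fz q 0 x u τ) (fun u => Fz q 0 x u (τ + 1)) y i := by
  rcases hq : q x τ with _ | ⟨y, i⟩
  · refine ⟨v, i0, fun u => Fz_succ_subset q 0 x u τ, fun u _ => ?_, ?_⟩
    · simp [Fz_zero_succ, hq]
    · simp [Fz_zero_succ, hq, erase_subset]
  · refine ⟨y, i, fun u => Fz_succ_subset q 0 x u τ, fun u hu => ?_, fun k hk => ?_⟩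
    · simp only [Fz_zero_succ, hq]
      exact filter_true_of_mem fun k _ e => hu (by simp at e; exact e.1.symm)
    · simp only [Fz_zero_succ, hq]
      exact mem_filter.2 ⟨(mem_erase.1 hk).2, fun e => (mem_erase.1 hk).1
        (by simp at e; exact e.symm)⟩

end

theorem dyn (lab : P → (ι → Bool) → H) (q : (P → ι → Bool) → ℕ → Option (P × ι)) (Tm : ℕ)
    (hq : Adapt q) (hT : ∀ x u, Fz q 0 x u Tm = ∅)
    (hcard : Fintype.card P = Fintype.card H + 1) (m : ℕ → ℕ) (L j₀ : ℕ) (hL : 1 ≤ L)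
    (hLl : L ≤ Fintype.card ι) (hanti : Antitone m) (hj : Fintype.card P < 2 ^ j₀)
    (hbig : (2 * j₀ + 4) * (Fintype.card ι + 1) ≤ m (Fintype.card ι))
    (hsum : ∀ μ ≤ Fintype.card ι, ∑ l ∈ Icc μ (Fintype.card ι), m l ≤ 5 * m μ)
    (hmL : m L + 2 ≤ Fintype.card P) (x0 : P → ι → Bool) (v0 : P)
    (hinj : ∀ u w, u ≠ v0 → w ≠ v0 → lab u (x0 u) = lab w (x0 w) → u = w)
    (hreach : ∀ w, Relation.ReflTransGen (Arc lab (fun _ => univ) x0 v0) v0 w) :
    ∃ x, Near q Tm ((L + 105) * Fintype.card P) x x0 ∧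
      (BadX lab q Tm m L x ∨ DeepX lab q ((L + 25) * Fintype.card P) x) := by
  have p : Par lab m L j₀ x0 v0 := ⟨hcard, hL, hLl, hanti, hj, hbig, hsum, hmL, hinj⟩
  obtain ⟨i0⟩ : Nonempty ι := Fintype.card_pos_iff.1 (by omega)
  by_contra hn
  have key : ∀ τ ≤ Tm, ∃ (s : St P ι) (d : ℕ), Inv lab m L j₀ x0 s d ∧
      (s.Fr = fun u => Fz q 0 s.x u τ) ∧ ∀ u, ∃ σ ≤ τ, s.Z u = Fz q 0 s.x u σ := by
    intro τ
    induction τ with
    | zero =>
      refine fun _ => ⟨⟨fun _ => univ, x0, v0, ∅, fun _ => univ⟩, Fintype.card ι,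
        ⟨le_rfl, hinj, fun _ _ => ⟨rfl, rfl⟩, fun _ => ⟨Subset.refl _, Cube.refl _ _⟩,
          fun l l1 l2 => by omega, ⟨_, le_rfl, hLl, le_rfl, ?_⟩, fun μ _ _ => Or.inl (by simp),
          fun K _ => ⟨_, le_rfl, by simp [Cen], Or.inl (Nat.lt_succ_self _)⟩⟩,
        rfl, fun u => ⟨0, le_rfl, rfl⟩⟩
      have h1 : Rch lab (fun _ => univ) x0 v0 ∩ lev (fun _ : P => (univ : Finset ι))
          (Fintype.card ι) = univ :=
        eq_univ_of_forall fun w => mem_inter.2 ⟨mem_Rch.2 (hreach w), mem_lev.2 le_rfl⟩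
      have h2 := hanti hLl
      dsimp only
      rw [h1, card_univ]
      omega
    | succ τ ih =>
      intro hτ
      obtain ⟨s, d, h, hF, hZ⟩ := ih (by omega)
      obtain ⟨hb, d', h', hd, h5⟩ := (h.stop p hT (by omega) hF hZ).resolve_left hn
      have hk : KS lab m L s.Fr s.x := by rw [hF]; exact ks_of_not_bad hT hL hb (by omega)
      have hk' := ks_of_not_bad hT hL hb hτ
      have hz : KZ lab m L s.Z s.x := kz_of_not_bad hb fun u =>
        (hZ u).imp fun σ hσ => ⟨by omega, hσ.2⟩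
      obtain ⟨y, i, hy⟩ := exists_qry (q := q) s.x τ s.v i0
      rw [← hF] at hy
      obtain ⟨x', v', Pa, c, hi⟩ : ∃ x' v' Pa, (∀ u, Cube (s.Fr u) (s.x u) (x' u)) ∧
          Inv lab m L j₀ x0 (nxt s (fun u => Fz q 0 s.x u (τ + 1)) x' v' Pa) d' := by
        by_cases hrc : m d' ≤ (Rch lab (fun u => Fz q 0 s.x u (τ + 1)) s.x s.v ∩
            lev (fun u => Fz q 0 s.x u (τ + 1)) d').card
        · exact ⟨_, _, _, fun u => Cube.refl _ _, h'.step_keep p hk hz hy.sub hd hrc⟩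
        · exact h'.step_dev p hk hz hy hk' hd h5 (not_le.1 hrc)
      rw [hF] at c
      refine ⟨_, d', hi, funext fun u => (hq.Fz_eq c 0 u le_rfl).symm, fun u => ?_⟩
      simp only [nxt]
      split_ifs
      · obtain ⟨σ, s1, s2⟩ := hZ u
        exact ⟨σ, by omega, s2.trans (hq.Fz_eq c 0 u (by omega)).symm⟩
      · exact ⟨τ + 1, le_rfl, (hq.Fz_eq c 0 u le_rfl).symm⟩
  obtain ⟨s, d, h, hF, hZ⟩ := key Tm le_rfl
  obtain ⟨-, d', h', hd, h5⟩ := (h.stop p hT le_rfl hF hZ).resolve_left hn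
  have h1 : lev s.Fr d' = ∅ := eq_empty_of_forall_notMem fun u hu => by
    have h2 := mem_lev.1 hu
    rw [hF] at h2
    simp only [hT, card_empty] at h2
    omega
  have h2 := p.one_le h'.dl
  rw [h1, card_empty] at h5
  omega

end Pool.Agent.P.MP_0f6e60_lc.T
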