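import Mathlib
import Pool.Agent.P.MP_0f6e60_lc.TDefs

namespace Pool.Agent.P.MP_0f6e60_lc.T

open Finset Classical

variable {P H ι : Type} [Fintype P] [Fintype H] [Fintype ι]
  [DecidableEq P] [DecidableEq H] [DecidableEq ι]

theorem tnum_zs_nonneg {p : ℝ} (hp : 0 ≤ p) (μ j : ℕ) : 0 ≤ zs p μ j := by
  induction j with
  | zero => exact hp
  | succ j ih =>
    simp only [zs]
    positivity

theorem tnum_pB_nonneg (μ : ℕ) : 0 ≤ pB μ := by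
  unfold pB
  positivity

theorem tnum_wN_pos (μ : ℕ) : 1 ≤ wN μ := by
  unfold wN
  exact Nat.one_le_ceil_iff.2 (by positivity)

theorem tnum_wN_le (μ : ℕ) : (wN μ : ℝ) ≤ 2 * ((4 : ℝ) / 3) ^ μ := by
  have h1 : (1 : ℝ) ≤ ((4 : ℝ) / 3) ^ μ := one_le_pow₀ (by norm_num)
  have h2 := Nat.ceil_lt_add_one (show (0 : ℝ) ≤ ((4 : ℝ) / 3) ^ μ by positivity)
  unfold wN
  linarith

theorem tnum_zs_le {p : ℝ} (hp : 0 ≤ p) (μ N : ℕ) (hN : 1 ≤ N)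
    (hB : p * (3 * ((μ : ℝ) + N)) ^ N ≤ 1) :
    ∀ j, j ≤ N → zs p μ j ≤ p * (3 * ((μ : ℝ) + N)) ^ j := by
  have hN' : (1 : ℝ) ≤ N := by exact_mod_cast hN
  have hμ : (0 : ℝ) ≤ μ := Nat.cast_nonneg μ
  have hD : (1 : ℝ) ≤ 3 * ((μ : ℝ) + N) := by linarith
  intro j
  induction j with
  | zero => intro _; simp [zs]
  | succ j ih =>
    intro hj
    have h1 := ih (by omega)
    have h0 := tnum_zs_nonneg hp μ j
    have h2 : zs p μ j ≤ 1 :=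
      h1.trans ((mul_le_mul_of_nonneg_left (pow_le_pow_right₀ hD (by omega)) hp).trans hB)
    have h3 : (μ : ℝ) + j + 1 ≤ μ + N := by
      have : (j : ℝ) + 1 ≤ N := by exact_mod_cast hj
      linarith
    have h4 : zs p μ j ^ 2 + 2 * zs p μ j ≤ 3 * zs p μ j := by nlinarith
    simp only [zs]
    calc ((μ : ℝ) + j + 1) * (zs p μ j ^ 2 + 2 * zs p μ j)
        ≤ ((μ : ℝ) + N) * (3 * zs p μ j) :=
          mul_le_mul h3 h4 (by positivity) (by positivity)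
      _ ≤ ((μ : ℝ) + N) * (3 * (p * (3 * ((μ : ℝ) + N)) ^ j)) := by gcongr
      _ = p * (3 * ((μ : ℝ) + N)) ^ (j + 1) := by ring

theorem tnum_two_pow_le_exp (n : ℕ) : (2 : ℝ) ^ n ≤ Real.exp n := by
  have h : (2 : ℝ) ≤ Real.exp 1 := by
    have := Real.add_one_le_exp (1 : ℝ)
    linarith
  calc (2 : ℝ) ^ n ≤ Real.exp 1 ^ n := pow_le_pow_left₀ (by norm_num) h n
    _ = Real.exp n := by rw [← Real.exp_nat_mul, mul_one]

theorem tnum_big (μ : ℕ) (h7 : 7 ≤ μ) (h9 : 532 * (μ : ℝ) ^ 2 ≤ ((9 : ℝ) / 8) ^ μ) :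
    pB μ * (3 * ((μ : ℝ) + (20 * μ * wN μ : ℕ))) ^ (20 * μ * wN μ) * 2 ^ (6 * wN μ) ≤ 1 := by
  obtain ⟨W, hW⟩ : ∃ W : ℝ, W = ((4 : ℝ) / 3) ^ μ := ⟨_, rfl⟩
  have hW1 : 1 ≤ W := hW ▸ one_le_pow₀ (by norm_num)
  have hw2 : (wN μ : ℝ) ≤ 2 * W := hW ▸ tnum_wN_le μ
  have hw1 : (1 : ℝ) ≤ wN μ := by exact_mod_cast tnum_wN_pos μ
  have hμ : (7 : ℝ) ≤ μ := by exact_mod_cast h7
  have he := tnum_two_pow_le_exp μ
  have hepos : 0 < Real.exp μ := Real.exp_pos _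
  have h128 : (128 : ℝ) ≤ Real.exp μ := by
    refine le_trans ?_ he
    calc (128 : ℝ) = 2 ^ 7 := by norm_num
      _ ≤ 2 ^ μ := pow_le_pow_right₀ (by norm_num) h7
  have hWe : W ≤ Real.exp μ := by
    refine le_trans ?_ he
    rw [hW]
    exact pow_le_pow_left₀ (by norm_num) (by norm_num) μ
  have hμe : (μ : ℝ) ≤ Real.exp μ := by
    have := Real.add_one_le_exp (μ : ℝ)
    linarith
  have h2μ : 2 * (μ : ℝ) ≤ Real.exp (2 * μ) := by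
    rw [two_mul (μ : ℝ) , Real.exp_add]
    nlinarith
  have hD : 3 * ((μ : ℝ) + (20 * μ * wN μ : ℕ)) ≤ Real.exp (3 * μ) := by
    have e3 : Real.exp (3 * μ) = Real.exp μ * (Real.exp μ * Real.exp μ) := by
      rw [← Real.exp_add, ← Real.exp_add]
      congr 1
      ring
    have a1 : (μ : ℝ) * W ≤ Real.exp μ * Real.exp μ :=
      mul_le_mul hμe hWe (by linarith) hepos.le
    have a2 : (μ : ℝ) * wN μ ≤ μ * (2 * W) := mul_le_mul_of_nonneg_left hw2 (by linarith)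
    have a3 : (μ : ℝ) ≤ μ * W := by nlinarith
    have a4 : 128 * (Real.exp μ * Real.exp μ) ≤ Real.exp μ * (Real.exp μ * Real.exp μ) :=
      mul_le_mul_of_nonneg_right h128 (by positivity)
    have a5 : 0 ≤ Real.exp μ * Real.exp μ := by positivity
    push_cast
    rw [e3]
    nlinarith
  have hpow : (3 * ((μ : ℝ) + (20 * μ * wN μ : ℕ))) ^ (20 * μ * wN μ) ≤
      Real.exp ((20 * μ * wN μ : ℕ) * (3 * μ)) := by
    rw [Real.exp_nat_mul]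
    exact pow_le_pow_left₀ (by positivity) hD _
  have h6 := tnum_two_pow_le_exp (6 * wN μ)
  have hexp : ((3 : ℝ) / 4) ^ μ * 2 ^ (μ - 2) = W * ((9 : ℝ) / 8) ^ μ / 4 := by
    obtain ⟨k, rfl⟩ : ∃ k, μ = k + 2 := ⟨μ - 2, by omega⟩
    rw [hW, ← mul_pow, Nat.add_sub_cancel]
    have : ((4 : ℝ) / 3 * (9 / 8)) = 3 / 4 * 2 := by norm_num
    rw [this, mul_pow, pow_add (2 : ℝ)]
    ring
  have hfin : 2 * (μ : ℝ) + -(W * ((9 : ℝ) / 8) ^ μ / 4) + (20 * μ * wN μ : ℕ) * (3 * μ) +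
      (6 * wN μ : ℕ) ≤ 0 := by
    have b1 : W * (532 * (μ : ℝ) ^ 2) ≤ W * ((9 : ℝ) / 8) ^ μ :=
      mul_le_mul_of_nonneg_left h9 (by linarith)
    have b2 : (μ : ℝ) ^ 2 * wN μ ≤ (μ : ℝ) ^ 2 * (2 * W) :=
      mul_le_mul_of_nonneg_left hw2 (by positivity)
    have b3 : (49 : ℝ) ≤ (μ : ℝ) ^ 2 := by nlinarith
    have b4 : 49 * W ≤ (μ : ℝ) ^ 2 * W := mul_le_mul_of_nonneg_right b3 (by linarith)
    have b5 : (μ : ℝ) ≤ (μ : ℝ) ^ 2 := by nlinarith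
    have b6 : (μ : ℝ) ^ 2 ≤ (μ : ℝ) ^ 2 * W := by nlinarith
    push_cast
    nlinarith
  unfold pB
  rw [hexp]
  calc 2 * (μ : ℝ) * Real.exp (-(W * ((9 : ℝ) / 8) ^ μ / 4)) *
        (3 * ((μ : ℝ) + (20 * μ * wN μ : ℕ))) ^ (20 * μ * wN μ) * 2 ^ (6 * wN μ)
      ≤ Real.exp (2 * μ) * Real.exp (-(W * ((9 : ℝ) / 8) ^ μ / 4)) *
        Real.exp ((20 * μ * wN μ : ℕ) * (3 * μ)) * Real.exp (6 * wN μ : ℕ) := by gcongr
    _ = Real.exp (2 * (μ : ℝ) + -(W * ((9 : ℝ) / 8) ^ μ / 4) + (20 * μ * wN μ : ℕ) * (3 * μ) +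
        (6 * wN μ : ℕ)) := by simp only [Real.exp_add]
    _ ≤ 1 := Real.exp_le_one_iff.2 hfin

theorem tnum_sq {p : ℝ} (hp : 0 ≤ p) (μ N : ℕ) (h1 : zs p μ N ≤ 1) (t : ℕ) :
    ((μ : ℝ) + N + t + 2) * (1 + zs p μ (N + t)) ≤ (2 * ((μ : ℝ) + N + 2)) ^ 2 ^ t := by
  induction t with
  | zero =>
    have : (0 : ℝ) ≤ (μ : ℝ) + N + 2 := by positivity
    simp only [Nat.cast_zero, add_zero, pow_zero, pow_one]
    nlinarith
  | succ t ih =>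
    have h0 := tnum_zs_nonneg hp μ (N + t)
    obtain ⟨z, hz⟩ : ∃ z, z = zs p μ (N + t) := ⟨_, rfl⟩
    obtain ⟨D, hD⟩ : ∃ D : ℝ, D = (μ : ℝ) + N + t := ⟨_, rfl⟩
    have hD0 : 0 ≤ D := by rw [hD]; positivity
    have e : zs p μ (N + (t + 1)) = (D + 1) * (z ^ 2 + 2 * z) := by
      rw [← add_assoc, hz, hD]
      simp only [zs]
      push_cast
      ring
    have e2 : (μ : ℝ) + N + (t + 1 : ℕ) + 2 = D + 3 := by
      rw [hD]
      push_cast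
      ring
    rw [e, e2, pow_succ 2 t, pow_mul]
    rw [← hz] at ih h0
    rw [← hD] at ih
    refine le_trans ?_ (pow_le_pow_left₀ (by positivity) ih 2)
    have c1 : 1 + (D + 1) * (z ^ 2 + 2 * z) ≤ (D + 1) * (1 + z) ^ 2 := by nlinarith
    calc (D + 3) * (1 + (D + 1) * (z ^ 2 + 2 * z)) ≤ (D + 3) * ((D + 1) * (1 + z) ^ 2) :=
          mul_le_mul_of_nonneg_left c1 (by positivity)
      _ = ((D + 3) * (D + 1)) * (1 + z) ^ 2 := by ring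
      _ ≤ (D + 2) ^ 2 * (1 + z) ^ 2 := mul_le_mul_of_nonneg_right (by nlinarith) (by positivity)
      _ = ((D + 2) * (1 + z)) ^ 2 := by ring

theorem tnum_four_mul (J : ℕ) (h : 4 ≤ J) : 4 * J ≤ 2 ^ J := by
  induction J, h using Nat.le_induction with
  | base => norm_num
  | succ n hn ih =>
    rw [pow_succ]
    omega

theorem zs_tail : ∃ L : ℕ, 2 ≤ L ∧ ∀ μ, L ≤ μ →
    (∀ j, j ≤ 20 * μ * wN μ → zs (pB μ) μ j * 2 ^ (6 * wN μ) ≤ 1) ∧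
    ∀ t : ℕ, (1 + zs (pB μ) μ (20 * μ * wN μ + t)) * 2 ^ (6 * wN μ) ≤
      2 ^ 2 ^ (10 * μ * wN μ + t) := by
  have ht := tendsto_pow_const_div_const_pow_of_one_lt 2 (show (1 : ℝ) < 9 / 8 by norm_num)
  have hev := ht.eventually (ge_mem_nhds (show (0 : ℝ) < 1 / 532 by norm_num))
  obtain ⟨L, hL⟩ := Filter.eventually_atTop.1 hev
  refine ⟨max L 7, le_trans (by norm_num) (le_max_right _ _), fun μ hμ => ?_⟩
  have h7 : 7 ≤ μ := le_trans (le_max_right _ _) hμ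
  have h9 : 532 * (μ : ℝ) ^ 2 ≤ ((9 : ℝ) / 8) ^ μ := by
    have := hL μ (le_trans (le_max_left _ _) hμ)
    rw [div_le_iff₀ (by positivity)] at this
    linarith
  have hb := tnum_big μ h7 h9
  have hw := tnum_wN_pos μ
  have hp := tnum_pB_nonneg μ
  have hmw : μ ≤ μ * wN μ := Nat.le_mul_of_pos_right _ hw
  have hwm : wN μ ≤ μ * wN μ := Nat.le_mul_of_pos_left _ (by omega)
  have e20 : 20 * μ * wN μ = 20 * (μ * wN μ) := mul_assoc _ _ _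
  have e10 : 10 * μ * wN μ = 10 * (μ * wN μ) := mul_assoc _ _ _
  obtain ⟨N, hN⟩ : ∃ N, N = 20 * μ * wN μ := ⟨_, rfl⟩
  rw [← hN] at hb ⊢
  have hN1 : 1 ≤ N := by omega
  have h6 : (1 : ℝ) ≤ 2 ^ (6 * wN μ) := one_le_pow₀ (by norm_num)
  have hD : (1 : ℝ) ≤ 3 * ((μ : ℝ) + N) := by
    have : (1 : ℝ) ≤ N := by exact_mod_cast hN1
    have : (0 : ℝ) ≤ μ := Nat.cast_nonneg μ
    linarith
  have hB : pB μ * (3 * ((μ : ℝ) + N)) ^ N ≤ 1 :=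
    le_trans (le_mul_of_one_le_right (by positivity) h6) hb
  have h1 : ∀ j, j ≤ N → zs (pB μ) μ j ≤ pB μ * (3 * ((μ : ℝ) + N)) ^ N := fun j hj =>
    (tnum_zs_le hp μ N hN1 hB j hj).trans
      (mul_le_mul_of_nonneg_left (pow_le_pow_right₀ hD hj) hp)
  refine ⟨fun j hj => le_trans (mul_le_mul_of_nonneg_right (h1 j hj) (by positivity)) hb,
    fun t => ?_⟩
  have h2 := tnum_sq hp μ N ((h1 N le_rfl).trans hB) t
  have h0 := tnum_zs_nonneg hp μ (N + t)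
  have h3 : 1 + zs (pB μ) μ (N + t) ≤ (2 * ((μ : ℝ) + N + 2)) ^ 2 ^ t := by
    refine le_trans (le_mul_of_one_le_left (by positivity) ?_) h2
    have : (0 : ℝ) ≤ (μ : ℝ) + N + t := by positivity
    linarith
  have h4 : 2 * ((μ : ℝ) + N + 2) ≤ 2 ^ (μ + N + 2) := by
    have := tnum_four_mul (μ + N + 2) (by omega)
    have h5 : 2 * (μ + N + 2) ≤ 2 ^ (μ + N + 2) := by omega
    exact_mod_cast h5
  have h5 : (μ + N + 2) * 2 ^ t + 6 * wN μ ≤ 2 ^ (10 * μ * wN μ + t) := by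
    have a1 := tnum_four_mul (10 * μ * wN μ) (by omega)
    have a2 : μ + N + 2 + 6 * wN μ ≤ 2 ^ (10 * μ * wN μ) := by omega
    have a3 : 6 * wN μ ≤ 6 * wN μ * 2 ^ t := Nat.le_mul_of_pos_right _ (by positivity)
    calc (μ + N + 2) * 2 ^ t + 6 * wN μ ≤ (μ + N + 2 + 6 * wN μ) * 2 ^ t := by
          rw [add_mul (μ + N + 2)]
          omega
      _ ≤ 2 ^ (10 * μ * wN μ) * 2 ^ t := Nat.mul_le_mul_right _ a2
      _ = 2 ^ (10 * μ * wN μ + t) := (pow_add _ _ _).symm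
  calc (1 + zs (pB μ) μ (N + t)) * 2 ^ (6 * wN μ)
      ≤ ((2 : ℝ) ^ (μ + N + 2)) ^ 2 ^ t * 2 ^ (6 * wN μ) :=
        mul_le_mul_of_nonneg_right (h3.trans (pow_le_pow_left₀ (by positivity) h4 _))
          (by positivity)
    _ = 2 ^ ((μ + N + 2) * 2 ^ t + 6 * wN μ) := by rw [← pow_mul, ← pow_add]
    _ ≤ 2 ^ 2 ^ (10 * μ * wN μ + t) := pow_le_pow_right₀ (by norm_num) h5

theorem mN_anti (r : ℕ) : Antitone (mN r) := by
  intro a b hab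
  unfold mN
  exact Nat.ceil_mono (mul_le_mul_of_nonneg_left
    (pow_le_pow_of_le_one (by norm_num) (by norm_num) hab) (Nat.cast_nonneg r))

theorem le_wN_mul_mN (r μ : ℕ) : r ≤ wN μ * mN r μ := by
  have h1 : ((4 : ℝ) / 3) ^ μ ≤ wN μ := Nat.le_ceil _
  have h2 : (r : ℝ) * ((3 : ℝ) / 4) ^ μ ≤ mN r μ := Nat.le_ceil _
  have h3 : (r : ℝ) = ((4 : ℝ) / 3) ^ μ * ((r : ℝ) * ((3 : ℝ) / 4) ^ μ) := by
    rw [mul_left_comm, ← mul_pow]
    norm_num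
  have h4 : (r : ℝ) ≤ (wN μ : ℝ) * mN r μ := by
    rw [h3]
    exact mul_le_mul h1 (h3 ▸ h2) (by positivity) (by positivity)
  exact_mod_cast h4

theorem tnum_geom (μ n : ℕ) :
    ∑ i ∈ Ico μ (μ + n), ((3 : ℝ) / 4) ^ i = 4 * (3 / 4) ^ μ - 4 * (3 / 4) ^ (μ + n) := by
  induction n with
  | zero => simp
  | succ n ih =>
    rw [← add_assoc, Finset.sum_Ico_succ_top (by omega), ih, pow_succ]
    ring

theorem tnum_sum (r l μ : ℕ) (hμ : μ ≤ l) (hl : l + 1 ≤ mN r l) :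
    ∑ i ∈ Icc μ l, mN r i ≤ 5 * mN r μ := by
  have e : Icc μ l = Ico μ (μ + (l + 1 - μ)) := by
    ext i
    simp only [mem_Icc, mem_Ico]
    omega
  have h1 : ∀ i, (mN r i : ℝ) ≤ r * ((3 : ℝ) / 4) ^ i + 1 := fun i =>
    (Nat.ceil_lt_add_one (by positivity)).le
  have h2 : (r : ℝ) * ((3 : ℝ) / 4) ^ μ ≤ mN r μ := Nat.le_ceil _
  have h3 : ((l + 1 - μ : ℕ) : ℝ) ≤ mN r μ := by
    have := mN_anti r hμ
    exact_mod_cast (show l + 1 - μ ≤ mN r μ by omega)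
  have h4 : ((∑ i ∈ Icc μ l, mN r i : ℕ) : ℝ) ≤ 5 * (mN r μ : ℝ) := by
    rw [e]
    push_cast
    refine le_trans (Finset.sum_le_sum fun i _ => h1 i) ?_
    rw [Finset.sum_add_distrib, ← Finset.mul_sum, tnum_geom, Finset.sum_const, Nat.card_Ico,
      Nat.add_sub_cancel_left, nsmul_eq_mul, mul_one]
    have : 0 ≤ (r : ℝ) * ((3 : ℝ) / 4) ^ (μ + (l + 1 - μ)) := by positivity
    nlinarith
  exact_mod_cast h4

theorem mN_props (l L : ℕ) (hL : 1 ≤ L) : ∃ r₀ : ℕ, ∀ r, r₀ ≤ r → ∃ j₀ : ℕ, r < 2 ^ j₀ ∧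
    (2 * j₀ + 4) * (l + 1) ≤ mN r l ∧ (∀ μ ≤ l, ∑ i ∈ Icc μ l, mN r i ≤ 5 * mN r μ) ∧
    mN r L + 2 ≤ r ∧ l + 1 < 2 ^ r := by
  obtain ⟨c, hc⟩ : ∃ c : ℝ, c = ((3 : ℝ) / 4) ^ l := ⟨_, rfl⟩
  have hc0 : 0 < c := by rw [hc]; positivity
  obtain ⟨K, hK⟩ := exists_nat_ge (12 * ((l : ℝ) + 1) / c)
  rw [div_le_iff₀ hc0] at hK
  refine ⟨(K + 1) * (K + 1) + 8 + (l + 1), fun r hr => ?_⟩
  obtain ⟨a, ha⟩ : ∃ a, a = Nat.sqrt r := ⟨_, rfl⟩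
  have ha1 : K + 1 ≤ a := ha ▸ Nat.le_sqrt.2 (by omega)
  have ha2 : a * a ≤ r := ha ▸ Nat.sqrt_le r
  have ha3 : r < (a + 1) * (a + 1) := ha ▸ Nat.lt_succ_sqrt r
  have hmain : (2 * (2 * (a + 1)) + 4) * (l + 1) ≤ mN r l := by
    have h2 : (r : ℝ) * c ≤ mN r l := hc ▸ Nat.le_ceil _
    have b1 : (K : ℝ) + 1 ≤ a := by exact_mod_cast ha1
    have b2 : (a : ℝ) * a ≤ r := by exact_mod_cast ha2
    have b3 : (0 : ℝ) ≤ K := Nat.cast_nonneg K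
    have b4 : (0 : ℝ) ≤ l := Nat.cast_nonneg l
    have b5 : 12 * ((l : ℝ) + 1) ≤ a * c := hK.trans (by nlinarith)
    have b6 : (a : ℝ) * (12 * ((l : ℝ) + 1)) ≤ a * (a * c) :=
      mul_le_mul_of_nonneg_left b5 (by linarith)
    have b7 : (a : ℝ) * a * c ≤ r * c := mul_le_mul_of_nonneg_right b2 hc0.le
    have b8 : (4 * (a : ℝ) + 8) * (l + 1) ≤ 12 * a * (l + 1) :=
      mul_le_mul_of_nonneg_right (by linarith) (by linarith)
    have h4 : (((2 * (2 * (a + 1)) + 4) * (l + 1) : ℕ) : ℝ) ≤ mN r l := by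
      push_cast
      nlinarith
    exact_mod_cast h4
  refine ⟨2 * (a + 1), ?_, hmain, fun μ hμ => tnum_sum r l μ hμ ?_, ?_, ?_⟩
  · have h1 : a + 1 ≤ 2 ^ (a + 1) := Nat.lt_two_pow_self.le
    calc r < (a + 1) * (a + 1) := ha3
      _ ≤ 2 ^ (a + 1) * 2 ^ (a + 1) := Nat.mul_le_mul h1 h1
      _ = 2 ^ (2 * (a + 1)) := by rw [← pow_add, two_mul]
  · exact le_trans (Nat.le_mul_of_pos_left _ (by omega)) hmain
  · have h1 := mN_anti r hL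
    have h8 : 8 ≤ r := by omega
    have h2 : mN r 1 ≤ r - 2 := by
      unfold mN
      refine Nat.ceil_le.2 ?_
      have : (8 : ℝ) ≤ r := by exact_mod_cast h8
      rw [Nat.cast_sub (by omega)]
      push_cast
      linarith
    omega
  · exact lt_of_le_of_lt (by omega) Nat.lt_two_pow_self

end Pool.Agent.P.MP_0f6e60_lc.T
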