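import Mathlib
import Pool.Agent.P.MP_0f6e60_lc.TNum

namespace Pool.Agent.P.MP_0f6e60_lc.T

open Finset Classical

variable {P H ι : Type} [Fintype P] [Fintype H] [Fintype ι]
  [DecidableEq P] [DecidableEq H] [DecidableEq ι]

/-- Normalised value of the cube `(Z, a)`. -/
noncomputable def tmartPhi (g : (ι → Bool) → H) (T : Finset H) (μ : ℕ) (Z : Finset ι)
    (a : ι → Bool) : ℝ :=
  (Val g T (Z.card - μ) Z a : ℝ) / 2 ^ (Z.card - μ)

/-- Flip the bit that is queried at time `τ`, if it is still free. -/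
noncomputable def tmartFl (q : (P → ι → Bool) → ℕ → Option (P × ι)) (τ : ℕ)
    (x : P → ι → Bool) : P → ι → Bool :=
  fun u i => if q x τ = some (u, i) ∧ i ∈ Fz q 0 x u τ then !(x u i) else x u i

theorem tmart_phi_nonneg (g : (ι → Bool) → H) (T : Finset H) (μ : ℕ) (Z : Finset ι)
    (a : ι → Bool) : 0 ≤ tmartPhi g T μ Z a := by
  unfold tmartPhi; positivity

theorem tmart_phi_congr (g : (ι → Bool) → H) (T : Finset H) (μ : ℕ) {Z : Finset ι}
    {a a' : ι → Bool} (h : Cube Z a a') : tmartPhi g T μ Z a' = tmartPhi g T μ Z a := by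
  unfold tmartPhi; rw [Val_congr g T _ _ _ _ h]

theorem tmart_phi_step (g : (ι → Bool) → H) (T : Finset H) (μ : ℕ) {Z : Finset ι} {i : ι}
    (hi : i ∈ Z) (hμ : μ < Z.card) (a a' : ι → Bool) (h1 : a' i = !(a i))
    (h2 : ∀ k, k ≠ i → a' k = a k) :
    tmartPhi g T μ (Z.erase i) a + tmartPhi g T μ (Z.erase i) a' ≤ 2 * tmartPhi g T μ Z a := by
  obtain ⟨j, hj⟩ : ∃ j, Z.card - μ = j + 1 := ⟨Z.card - μ - 1, by omega⟩
  have hj' : (Z.erase i).card - μ = j := by rw [card_erase_of_mem hi]; omega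
  have ha : a = Function.update a i (a i) := by simp
  have ha' : a' = Function.update a i (!(a i)) := by
    funext k
    by_cases hk : k = i
    · subst hk; simp [h1]
    · rw [Function.update_of_ne hk, h2 k hk]
  have hle : Val g T j (Z.erase i) (Function.update a i false) +
      Val g T j (Z.erase i) (Function.update a i true) ≤ Val g T (j + 1) Z a := by
    simp only [Val]
    exact Finset.le_sup (f := fun i => Val g T j (Z.erase i) (Function.update a i false) +
      Val g T j (Z.erase i) (Function.update a i true)) hi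
  have hle2 : Val g T j (Z.erase i) a + Val g T j (Z.erase i) a' ≤ Val g T (j + 1) Z a := by
    cases hc : a i
    · rw [hc] at ha ha'
      rw [← ha] at hle
      simp only [Bool.not_false] at ha'
      rw [ha']; exact hle
    · rw [hc] at ha ha'
      rw [← ha] at hle
      simp only [Bool.not_true] at ha'
      rw [ha', add_comm]; exact hle
  unfold tmartPhi
  rw [hj, hj', ← add_div, pow_succ]
  have h3 : ((Val g T j (Z.erase i) a : ℝ) + Val g T j (Z.erase i) a') ≤ Val g T (j + 1) Z a := by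
    exact_mod_cast hle2
  have h4 : (0 : ℝ) < 2 ^ j := by positivity
  calc _ ≤ (Val g T (j + 1) Z a : ℝ) / 2 ^ j := by gcongr
    _ = _ := by field_simp

theorem tmart_fl_cube (q : (P → ι → Bool) → ℕ → Option (P × ι)) (τ : ℕ) (x : P → ι → Bool)
    (u : P) : Cube (Fz q 0 x u τ) (x u) (tmartFl q τ x u) := by
  intro i hi
  simp [tmartFl, hi]

theorem tmart_fl_fl {q : (P → ι → Bool) → ℕ → Option (P × ι)} (hq : Adapt q) (τ : ℕ) :
    Function.Involutive (tmartFl q τ) := by
  intro x
  funext u i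
  have h1 : q (tmartFl q τ x) τ = q x τ := hq.q_eq (tmart_fl_cube q τ x) le_rfl
  have h2 : Fz q 0 (tmartFl q τ x) u τ = Fz q 0 x u τ :=
    hq.Fz_eq (tmart_fl_cube q τ x) 0 u (by omega)
  have h3 : tmartFl q τ (tmartFl q τ x) u i =
      if q x τ = some (u, i) ∧ i ∈ Fz q 0 x u τ then !(tmartFl q τ x u i)
        else tmartFl q τ x u i := by
    rw [← h1, ← h2]; rfl
  rw [h3]
  by_cases h : q x τ = some (u, i) ∧ i ∈ Fz q 0 x u τ
  · rw [if_pos h]; unfold tmartFl; rw [if_pos h]; simp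
  · rw [if_neg h]; unfold tmartFl; rw [if_neg h]

theorem tmart_zero_subset (q : (P → ι → Bool) → ℕ → Option (P × ι)) (μ : ℕ)
    (x : P → ι → Bool) (u : P) (τ : ℕ) : Fz q 0 x u τ ⊆ Fz q μ x u τ := by
  rcases Fz_eq_or q μ x u τ with h | h
  · rw [h]
  · exact h.2

theorem tmart_pair (lab : P → (ι → Bool) → H) {q : (P → ι → Bool) → ℕ → Option (P × ι)}
    (hq : Adapt q) (μ : ℕ) (T : Finset H) (A : Finset P) (τ : ℕ) (x : P → ι → Bool) :
    ∏ u ∈ A, tmartPhi (lab u) T μ (Fz q μ x u (τ + 1)) (x u) +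
      ∏ u ∈ A, tmartPhi (lab u) T μ (Fz q μ (tmartFl q τ x) u (τ + 1)) (tmartFl q τ x u) ≤
      2 * ∏ u ∈ A, tmartPhi (lab u) T μ (Fz q μ x u τ) (x u) := by
  have hF : ∀ u, Fz q μ (tmartFl q τ x) u (τ + 1) = Fz q μ x u (τ + 1) :=
    fun u => hq.Fz_eq (tmart_fl_cube q τ x) μ u le_rfl
  simp only [hF]
  have hsame : ∀ u, Fz q μ x u (τ + 1) = Fz q μ x u τ →
      tmartPhi (lab u) T μ (Fz q μ x u (τ + 1)) (x u) =
        tmartPhi (lab u) T μ (Fz q μ x u τ) (x u) ∧
      tmartPhi (lab u) T μ (Fz q μ x u (τ + 1)) (tmartFl q τ x u) =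
        tmartPhi (lab u) T μ (Fz q μ x u τ) (x u) := by
    intro u hu
    rw [hu]
    exact ⟨rfl, tmart_phi_congr _ _ _
      ((tmart_fl_cube q τ x u).mono (tmart_zero_subset q μ x u τ))⟩
  by_cases h : ∃ v ∈ A, Fz q μ x v (τ + 1) ≠ Fz q μ x v τ
  · obtain ⟨v, hvA, hv⟩ := h
    have hc : ¬ (Fz q μ x v τ).card ≤ μ := by
      intro hc; apply hv; simp only [Fz]; rw [if_pos hc]
    have hv1 : Fz q μ x v (τ + 1) = (Fz q μ x v τ).filter fun i => q x τ ≠ some (v, i) := by
      simp only [Fz]; rw [if_neg hc]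
    obtain ⟨i, hi, hqi⟩ : ∃ i ∈ Fz q μ x v τ, q x τ = some (v, i) := by
      by_contra hn
      push Not at hn
      exact hv (hv1.trans (filter_true_of_mem hn))
    have hi0 : i ∈ Fz q 0 x v τ := by
      rcases Fz_eq_or q μ x v τ with h' | h'
      · rw [← h']; exact hi
      · exact absurd h'.1 hc
    have hv2 : Fz q μ x v (τ + 1) = (Fz q μ x v τ).erase i := by
      rw [hv1, hqi]
      ext k
      simp only [mem_filter, mem_erase, ne_eq, Option.some.injEq, Prod.mk.injEq, true_and]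
      exact ⟨fun h => ⟨fun h' => h.2 h'.symm, h.1⟩, fun h => ⟨h.2, fun h' => h.1 h'.symm⟩⟩
    have hoth : ∀ u ∈ A.erase v, Fz q μ x u (τ + 1) = Fz q μ x u τ := by
      intro u hu
      simp only [Fz]
      split_ifs
      · rfl
      · refine filter_true_of_mem fun k _ => ?_
        rw [hqi]
        intro h'
        simp only [Option.some.injEq, Prod.mk.injEq] at h'
        exact (mem_erase.1 hu).1 h'.1.symm
    rw [← mul_prod_erase A _ hvA, ← mul_prod_erase A _ hvA,
      ← mul_prod_erase A (fun u => tmartPhi (lab u) T μ (Fz q μ x u τ) (x u)) hvA,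
      prod_congr rfl fun u hu => (hsame u (hoth u hu)).1,
      prod_congr rfl fun u hu => (hsame u (hoth u hu)).2, ← add_mul, ← mul_assoc, hv2]
    refine mul_le_mul_of_nonneg_right ?_ (prod_nonneg fun u _ => tmart_phi_nonneg _ _ _ _ _)
    refine tmart_phi_step _ _ _ hi (by omega) _ _ ?_ ?_
    · unfold tmartFl; rw [if_pos ⟨hqi, hi0⟩]
    · intro k hk
      unfold tmartFl
      rw [if_neg]
      rintro ⟨h', -⟩
      rw [hqi] at h'
      simp only [Option.some.injEq, Prod.mk.injEq, true_and] at h'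
      exact hk h'.symm
  · push Not at h
    rw [prod_congr rfl fun u hu => (hsame u (h u hu)).1,
      prod_congr rfl fun u hu => (hsame u (h u hu)).2]
    linarith

theorem tmart_sum_anti (lab : P → (ι → Bool) → H) {q : (P → ι → Bool) → ℕ → Option (P × ι)}
    (hq : Adapt q) (μ : ℕ) (T : Finset H) (A : Finset P) (τ : ℕ) :
    ∑ x : P → ι → Bool, ∏ u ∈ A, tmartPhi (lab u) T μ (Fz q μ x u τ) (x u) ≤
      ∑ x : P → ι → Bool, ∏ u ∈ A, tmartPhi (lab u) T μ (Fz q μ x u 0) (x u) := by
  induction τ with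
  | zero => exact le_rfl
  | succ τ ih =>
    refine le_trans ?_ ih
    have h1 := Equiv.sum_comp (tmart_fl_fl hq τ).toPerm
      (fun x => ∏ u ∈ A, tmartPhi (lab u) T μ (Fz q μ x u (τ + 1)) (x u))
    have h2 := Finset.sum_le_sum (s := (univ : Finset (P → ι → Bool)))
      fun x _ => tmart_pair lab hq μ T A τ x
    rw [sum_add_distrib, ← mul_sum] at h2
    simp only [Function.Involutive.coe_toPerm] at h1
    rw [h1] at h2
    linarith

theorem mart (lab : P → (ι → Bool) → H) (q : (P → ι → Bool) → ℕ → Option (P × ι)) (Tm : ℕ)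
    (hq : Adapt q) (hT : ∀ x u, Fz q 0 x u Tm = ∅) (μ : ℕ) (hμ : μ ≤ Fintype.card ι)
    (T : Finset H) (A : Finset P) (J : ℕ)
    (hA : ∀ u ∈ A, Val (lab u) T (Fintype.card ι - μ) univ (fun _ => false) * 2 ^ J ≤
      2 ^ (Fintype.card ι - μ)) :
    (univ.filter fun x : P → ι → Bool => ∀ u ∈ A, Bd (lab u) T (Fz q μ x u Tm) (x u)).card *
      2 ^ (J * A.card) ≤ 2 ^ (Fintype.card ι * Fintype.card P) := by
  have h1 := tmart_sum_anti lab hq μ T A Tm
  have h2 : ∀ x : P → ι → Bool,
      ∏ u ∈ A, tmartPhi (lab u) T μ (Fz q μ x u 0) (x u) ≤ 1 / 2 ^ (J * A.card) := by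
    intro x
    have : ∀ u ∈ A, tmartPhi (lab u) T μ (Fz q μ x u 0) (x u) ≤ 1 / 2 ^ J := by
      intro u hu
      have h3 : Val (lab u) T (Fintype.card ι - μ) univ (x u) =
          Val (lab u) T (Fintype.card ι - μ) univ (fun _ => false) :=
        Val_congr _ _ _ _ _ _ fun i hi => absurd (mem_univ i) hi
      have h4 : (Val (lab u) T (Fintype.card ι - μ) univ (fun _ => false) : ℝ) * 2 ^ J ≤
          2 ^ (Fintype.card ι - μ) := by exact_mod_cast hA u hu
      simp only [tmartPhi, Fz, card_univ, h3]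
      rw [div_le_div_iff₀ (by positivity) (by positivity)]
      linarith
    calc _ ≤ ∏ _u ∈ A, (1 / 2 ^ J : ℝ) :=
          prod_le_prod (fun u _ => tmart_phi_nonneg _ _ _ _ _) this
      _ = _ := by rw [prod_const, one_div_pow, ← pow_mul]
  have h3 : ∑ x : P → ι → Bool, ∏ u ∈ A, tmartPhi (lab u) T μ (Fz q μ x u 0) (x u) ≤
      2 ^ (Fintype.card ι * Fintype.card P) * (1 / 2 ^ (J * A.card)) := by
    refine (sum_le_card_nsmul _ _ _ fun x _ => h2 x).trans ?_
    simp [pow_mul]
  have h4 : ((univ.filter fun x : P → ι → Bool =>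
      ∀ u ∈ A, Bd (lab u) T (Fz q μ x u Tm) (x u)).card : ℝ) ≤
      ∑ x : P → ι → Bool, ∏ u ∈ A, tmartPhi (lab u) T μ (Fz q μ x u Tm) (x u) := by
    rw [card_eq_sum_ones, Nat.cast_sum, sum_filter]
    refine sum_le_sum fun x _ => ?_
    split_ifs with hx
    · refine le_of_eq ?_
      rw [Nat.cast_one]
      refine (prod_eq_one fun u hu => ?_).symm
      simp [tmartPhi, card_Fz_end q μ x u (hT x u) hμ, Val, hx u hu]
    · exact prod_nonneg fun u _ => tmart_phi_nonneg _ _ _ _ _
  have h5 := (h4.trans h1).trans h3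
  rw [mul_one_div, le_div_iff₀ (by positivity)] at h5
  exact_mod_cast h5

theorem card_badX (lab : P → (ι → Bool) → H) (q : (P → ι → Bool) → ℕ → Option (P × ι)) (Tm : ℕ)
    (hq : Adapt q) (hT : ∀ x u, Fz q 0 x u Tm = ∅) (L : ℕ)
    (hH : Fintype.card H ≤ Fintype.card P)
    (hrob : ∀ μ, L ≤ μ → μ ≤ Fintype.card ι → ∀ T : Finset H, mN (Fintype.card P) μ ≤ T.card →
      2 * (univ.filter fun u => ¬ Rob (lab u) T μ).card < mN (Fintype.card P) μ) :
    (univ.filter fun x => BadX lab q Tm (mN (Fintype.card P)) L x).card *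
      2 ^ (5 * L * Fintype.card P) ≤
      (Fintype.card ι + 1) * 4 ^ Fintype.card P * 2 ^ (Fintype.card ι * Fintype.card P) := by
  set I0 : Finset (ℕ × Finset H × Finset P) := range (Fintype.card ι + 1) ×ˢ univ ×ˢ univ
    with hI0
  set I := I0.filter fun t => L ≤ t.1 ∧ mN (Fintype.card P) t.1 ≤ 2 * t.2.2.card ∧
    ∀ u ∈ t.2.2, Rob (lab u) t.2.1 t.1 with hI
  set S : ℕ × Finset H × Finset P → Finset (P → ι → Bool) := fun t =>
    univ.filter fun x => ∀ u ∈ t.2.2, Bd (lab u) t.2.1 (Fz q t.1 x u Tm) (x u) with hS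
  have hsub : (univ.filter fun x => BadX lab q Tm (mN (Fintype.card P)) L x) ⊆
      I.biUnion S := by
    intro x hx
    obtain ⟨μ, h1, h2, A, T, h3, h4, h5⟩ := (mem_filter.1 hx).2
    refine mem_biUnion.2 ⟨(μ, T, A.filter fun u => Rob (lab u) T μ), ?_, ?_⟩
    · refine mem_filter.2 ⟨?_, h1, ?_, fun u hu => (mem_filter.1 hu).2⟩
      · simp only [hI0, mem_product, mem_range, mem_univ, and_true]; omega
      · have h6 := hrob μ h1 h2 T h4
        have h7 := card_filter_add_card_filter_not (s := A) (fun u => Rob (lab u) T μ)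
        have h8 : (A.filter fun u => ¬ Rob (lab u) T μ).card ≤
            (univ.filter fun u => ¬ Rob (lab u) T μ).card :=
          card_le_card (filter_subset_filter _ (subset_univ A))
        simp only
        omega
    · exact mem_filter.2 ⟨mem_univ _, fun u hu => h5 u (mem_filter.1 hu).1⟩
  have hone : ∀ t ∈ I, (S t).card * 2 ^ (5 * L * Fintype.card P) ≤
      2 ^ (Fintype.card ι * Fintype.card P) := by
    intro t ht
    obtain ⟨h0, h1, h2, h3⟩ := mem_filter.1 ht
    have hμ : t.1 ≤ Fintype.card ι := by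
      have := (mem_product.1 h0).1
      rw [mem_range] at this; omega
    refine le_trans ?_ (mart lab q Tm hq hT t.1 hμ t.2.1 t.2.2 (10 * t.1 * wN t.1) h3)
    refine Nat.mul_le_mul_left _ (Nat.pow_le_pow_right (by norm_num) ?_)
    calc 5 * L * Fintype.card P ≤ 5 * t.1 * (wN t.1 * mN (Fintype.card P) t.1) :=
          Nat.mul_le_mul (by omega) (le_wN_mul_mN _ _)
      _ ≤ 5 * t.1 * (wN t.1 * (2 * t.2.2.card)) := by gcongr
      _ = _ := by ring
  have hIc : I.card ≤ (Fintype.card ι + 1) * 4 ^ Fintype.card P := by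
    refine (card_filter_le _ _).trans ?_
    simp only [hI0, card_product, card_range, card_univ, Fintype.card_finset]
    refine Nat.mul_le_mul_left _ ?_
    calc 2 ^ Fintype.card H * 2 ^ Fintype.card P ≤ 2 ^ Fintype.card P * 2 ^ Fintype.card P :=
          Nat.mul_le_mul_right _ (Nat.pow_le_pow_right (by norm_num) hH)
      _ = _ := by rw [← mul_pow]; norm_num
  calc _ ≤ (∑ t ∈ I, (S t).card) * 2 ^ (5 * L * Fintype.card P) :=
        Nat.mul_le_mul_right _ ((card_le_card hsub).trans card_biUnion_le)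
    _ = ∑ t ∈ I, (S t).card * 2 ^ (5 * L * Fintype.card P) := sum_mul _ _ _
    _ ≤ I.card • 2 ^ (Fintype.card ι * Fintype.card P) := sum_le_card_nsmul _ _ _ hone
    _ ≤ _ := by rw [smul_eq_mul]; exact Nat.mul_le_mul_right _ hIc

theorem tmart_card_cube (S : Finset ι) (a : ι → Bool) :
    (univ.filter fun b => Cube S a b).card ≤ 2 ^ S.card := by
  rw [← card_powerset]
  refine card_le_card_of_injOn (fun b => S.filter fun i => b i = true) ?_ ?_
  · intro b _
    exact mem_coe.2 (mem_powerset.2 (filter_subset _ _))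
  · intro b hb b' hb' h
    have h1 : Cube S a b := (mem_filter.1 (mem_coe.1 hb)).2
    have h2 : Cube S a b' := (mem_filter.1 (mem_coe.1 hb')).2
    funext i
    by_cases hi : i ∈ S
    · have h3 : i ∈ (S.filter fun i => b i = true) ↔ i ∈ (S.filter fun i => b' i = true) := by
        simp only at h
        rw [h]
      simp only [mem_filter, hi, true_and] at h3
      exact Bool.eq_iff_iff.2 h3
    · rw [h1 i hi, h2 i hi]

theorem card_near (q : (P → ι → Bool) → ℕ → Option (P × ι)) (Tm B : ℕ)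
    (hT : ∀ x u, Fz q 0 x u Tm = ∅) (x : P → ι → Bool) :
    (univ.filter fun x0 => Near q Tm B x x0).card ≤ 4 ^ B * 2 ^ Fintype.card P := by
  set g : P → (ι → Bool) → ℝ := fun u a => ∑ z ∈ range (Fintype.card ι + 1),
    if Cube (Fz q z x u Tm) (x u) a then (1 / 4 : ℝ) ^ z else 0 with hg
  have hg0 : ∀ u a, 0 ≤ g u a := fun u a => sum_nonneg fun z _ => by
    split_ifs <;> positivity
  have h1 : ∀ x0, Near q Tm B x x0 → (1 / 4 : ℝ) ^ B ≤ ∏ u, g u (x0 u) := by
    rintro x0 ⟨z, hz1, hz2, hz3⟩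
    calc (1 / 4 : ℝ) ^ B ≤ (1 / 4 : ℝ) ^ (∑ u, z u) :=
          pow_le_pow_of_le_one (by norm_num) (by norm_num) hz2
      _ = ∏ u, (1 / 4 : ℝ) ^ z u := (prod_pow_eq_pow_sum _ _ _).symm
      _ ≤ _ := by
          refine prod_le_prod (fun u _ => by positivity) fun u _ => ?_
          have h2 := single_le_sum (s := range (Fintype.card ι + 1))
            (f := fun z => if Cube (Fz q z x u Tm) (x u) (x0 u) then (1 / 4 : ℝ) ^ z else 0)
            (fun z _ => by split_ifs <;> positivity)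
            (mem_range.2 (Nat.lt_succ_of_le (hz1 u)))
          simp only [if_pos (hz3 u)] at h2
          exact h2
  have h2 : ∀ u, ∑ a, g u a ≤ 2 := by
    intro u
    simp only [hg]
    rw [sum_comm]
    calc _ ≤ ∑ z ∈ range (Fintype.card ι + 1), (1 / 2 : ℝ) ^ z := by
          refine sum_le_sum fun z hz => ?_
          have hz' : z ≤ Fintype.card ι := by rw [mem_range] at hz; omega
          have h3 := tmart_card_cube (Fz q z x u Tm) (x u)
          rw [card_Fz_end q z x u (hT x u) hz'] at h3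
          have h4 : ((univ.filter fun b => Cube (Fz q z x u Tm) (x u) b).card : ℝ) ≤ 2 ^ z := by
            exact_mod_cast h3
          rw [← sum_filter, sum_const, nsmul_eq_mul]
          calc _ ≤ (2 : ℝ) ^ z * (1 / 4) ^ z := by gcongr
            _ = _ := by rw [← mul_pow]; norm_num
      _ ≤ 2 := sum_geometric_two_le _
  have h3 : ∑ x0 : P → ι → Bool, ∏ u, g u (x0 u) ≤ 2 ^ Fintype.card P := by
    rw [← Fintype.piFinset_univ, ← prod_univ_sum]
    calc _ ≤ ∏ _u : P, (2 : ℝ) :=
          prod_le_prod (fun u _ => sum_nonneg fun a _ => hg0 u a) fun u _ => h2 u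
      _ = _ := by simp
  have h4 : ((univ.filter fun x0 => Near q Tm B x x0).card : ℝ) * (1 / 4) ^ B ≤
      ∑ x0 : P → ι → Bool, ∏ u, g u (x0 u) := by
    rw [← nsmul_eq_mul, ← sum_const, sum_filter]
    refine sum_le_sum fun x0 _ => ?_
    split_ifs with hx
    · exact h1 x0 hx
    · exact prod_nonneg fun u _ => hg0 u _
  have h5 := h4.trans h3
  rw [one_div_pow, mul_one_div, div_le_iff₀ (by positivity), mul_comm] at h5
  exact_mod_cast h5

end Pool.Agent.P.MP_0f6e60_lc.T
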