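import Mathlib
import Pool.Agent.P.MP_0f6e60_lc.TDefs

namespace Pool.Agent.P.MP_0f6e60_lc.T

open Finset Classical

variable {P H ι : Type} [Fintype P] [Fintype H] [Fintype ι]
  [DecidableEq P] [DecidableEq H] [DecidableEq ι]

omit [Fintype ι] in
theorem tval_cube {S : Finset ι} {a b : ι → Bool} {i : ι} {c : Bool} (hi : i ∈ S)
    (h : Cube (S.erase i) (Function.update a i c) b) : Cube S a b ∧ b i = c := by
  refine ⟨fun k hk => ?_, ?_⟩
  · have hki : k ≠ i := fun e => hk (e ▸ hi)
    rw [h k fun hk' => hk (mem_of_mem_erase hk'), Function.update_of_ne hki]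
  · rw [h i (notMem_erase i S), Function.update_self]

omit [Fintype H] [Fintype ι] [DecidableEq H] in
theorem tval_loc (g g' : (ι → Bool) → H) (T : Finset H) :
    ∀ (j : ℕ) (S : Finset ι) (a : ι → Bool), (∀ b, Cube S a b → g b = g' b) →
      Val g T j S a = Val g' T j S a
  | 0, S, a, h => by
      have : Bd g T S a ↔ Bd g' T S a := by
        constructor
        · rintro ⟨i, hi, c, hb⟩
          exact ⟨i, hi, c, fun b h1 h2 => h b h1 ▸ hb b h1 h2⟩
        · rintro ⟨i, hi, c, hb⟩
          exact ⟨i, hi, c, fun b h1 h2 => (h b h1).symm ▸ hb b h1 h2⟩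
      simp only [Val, this]
  | j + 1, S, a, h => by
      simp only [Val]
      refine Finset.sup_congr rfl fun i hi => ?_
      rw [tval_loc g g' T j _ _ fun b hb => h b (tval_cube hi hb).1,
        tval_loc g g' T j _ (Function.update a i true) fun b hb => h b (tval_cube hi hb).1]

omit [DecidableEq H] in
theorem tval_indep (i : ι) (F G : ((ι → Bool) → H) → ℝ)
    (hF : ∀ γ γ', (∀ b, b i = false → γ b = γ' b) → F γ = F γ')
    (hG : ∀ γ γ', (∀ b, b i = true → γ b = γ' b) → G γ = G γ') :
    (∑ γ, F γ) * (∑ γ, G γ) = Fintype.card ((ι → Bool) → H) * ∑ γ, F γ * G γ := by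
  let mx : ((ι → Bool) → H) → ((ι → Bool) → H) → (ι → Bool) → H :=
    fun γ γ' b => if b i = true then γ' b else γ b
  let e : ((ι → Bool) → H) × ((ι → Bool) → H) → ((ι → Bool) → H) × ((ι → Bool) → H) :=
    fun p => (mx p.1 p.2, mx p.2 p.1)
  have he : Function.Involutive e := by
    rintro ⟨γ, γ'⟩
    refine Prod.ext (funext fun b => ?_) (funext fun b => ?_) <;>
      by_cases hb : b i = true <;> simp [e, mx, hb]
  have h1 : (∑ γ, F γ) * (∑ γ, G γ) =
      ∑ p : ((ι → Bool) → H) × ((ι → Bool) → H), F (e p).1 * G (e p).1 := by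
    rw [sum_mul_sum, Fintype.sum_prod_type]
    refine sum_congr rfl fun γ _ => sum_congr rfl fun γ' _ => ?_
    rw [hF γ (e (γ, γ')).1 fun b hb => by simp [e, mx, hb],
      hG γ' (e (γ, γ')).1 fun b hb => by simp [e, mx, hb]]
  rw [h1, he.bijective.sum_comp fun p => F p.1 * G p.1, Fintype.sum_prod_type, mul_sum]
  refine sum_congr rfl fun γ _ => ?_
  simp only [sum_const, card_univ, nsmul_eq_mul]

omit [Fintype ι] [DecidableEq ι] in
theorem tval_sup (S : Finset ι) (n : ι → ℕ) :
    (2 : ℝ) ^ S.sup n ≤ 1 + ∑ i ∈ S, ((2 : ℝ) ^ n i - 1) := by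
  have h0 : ∀ i ∈ S, (0 : ℝ) ≤ (2 : ℝ) ^ n i - 1 := fun i _ =>
    sub_nonneg.2 (one_le_pow₀ (by norm_num))
  rcases S.eq_empty_or_nonempty with h | h
  · simp [h]
  · obtain ⟨i, hi, e⟩ := exists_mem_eq_sup S h n
    have := single_le_sum h0 hi
    rw [e]; linarith

theorem val_mgf (f : (ι → Bool) → H) (T : Finset H) (μ : ℕ) (p : ℝ) (hp0 : 0 ≤ p)
    (hp : ∀ (S : Finset ι) (a : ι → Bool), S.card = μ →
      ((univ.filter fun γ : (ι → Bool) → H => Bd (mixLab f γ) T S a).card : ℝ) ≤
        p * Fintype.card ((ι → Bool) → H)) :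
    ∀ (j : ℕ) (S : Finset ι) (a : ι → Bool), S.card = μ + j →
      ∑ γ : (ι → Bool) → H, (2 : ℝ) ^ Val (mixLab f γ) T j S a ≤
        (1 + zs p μ j) * Fintype.card ((ι → Bool) → H) := by
  have _ := hp0
  intro j
  induction j with
  | zero =>
    intro S a hS
    have h1 : ∀ γ : (ι → Bool) → H, (2 : ℝ) ^ Val (mixLab f γ) T 0 S a =
        1 + if Bd (mixLab f γ) T S a then 1 else 0 := by
      intro γ
      simp only [Val]
      split_ifs <;> norm_num
    have h2 := hp S a (by simpa using hS)
    simp only [h1, sum_add_distrib, sum_const, card_univ, nsmul_eq_mul, mul_one, sum_boole, zs]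
    linarith
  | succ j ih =>
    intro S a hS
    set N : ℝ := ((Fintype.card ((ι → Bool) → H) : ℕ) : ℝ) with hN
    set z := zs p μ j with hz
    have key : ∀ i ∈ S, ∑ γ : (ι → Bool) → H,
        (2 : ℝ) ^ (Val (mixLab f γ) T j (S.erase i) (Function.update a i false) +
          Val (mixLab f γ) T j (S.erase i) (Function.update a i true)) ≤ (1 + z) ^ 2 * N := by
      intro i hi
      have hc : (S.erase i).card = μ + j := by rw [card_erase_of_mem hi]; omega
      have hl : ∀ (c : Bool) (γ γ' : (ι → Bool) → H), (∀ b, b i = c → γ b = γ' b) →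
          (2 : ℝ) ^ Val (mixLab f γ) T j (S.erase i) (Function.update a i c) =
            (2 : ℝ) ^ Val (mixLab f γ') T j (S.erase i) (Function.update a i c) := by
        intro c γ γ' h
        rw [tval_loc (mixLab f γ) (mixLab f γ') T j _ _ fun b hb => by
          simp only [mixLab, h b (tval_cube hi hb).2]]
      have hi1 := tval_indep i _ _ (hl false) (hl true)
      have a0 := ih _ (Function.update a i false) hc
      have a1 := ih _ (Function.update a i true) hc
      have n0 : (0 : ℝ) ≤ ∑ γ : (ι → Bool) → H,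
          (2 : ℝ) ^ Val (mixLab f γ) T j (S.erase i) (Function.update a i false) :=
        sum_nonneg fun _ _ => by positivity
      have n1 : (0 : ℝ) ≤ ∑ γ : (ι → Bool) → H,
          (2 : ℝ) ^ Val (mixLab f γ) T j (S.erase i) (Function.update a i true) :=
        sum_nonneg fun _ _ => by positivity
      have hm := mul_le_mul a0 a1 n1 (n0.trans a0)
      rw [hi1, ← hN] at hm
      simp only [pow_add]
      rcases isEmpty_or_nonempty ((ι → Bool) → H) with he | he
      · rw [univ_eq_empty, sum_empty]
        exact mul_nonneg (sq_nonneg _) (Nat.cast_nonneg _)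
      · have hpos : 0 < N := by rw [hN]; exact_mod_cast Fintype.card_pos
        refine le_of_mul_le_mul_left (hm.trans (le_of_eq ?_)) hpos
        ring
    calc ∑ γ : (ι → Bool) → H, (2 : ℝ) ^ Val (mixLab f γ) T (j + 1) S a
        ≤ ∑ γ : (ι → Bool) → H, (1 + ∑ i ∈ S,
          ((2 : ℝ) ^ (Val (mixLab f γ) T j (S.erase i) (Function.update a i false) +
            Val (mixLab f γ) T j (S.erase i) (Function.update a i true)) - 1)) :=
          sum_le_sum fun γ _ => by simp only [Val]; exact tval_sup S _
      _ = N + ∑ i ∈ S, (∑ γ : (ι → Bool) → H,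
          (2 : ℝ) ^ (Val (mixLab f γ) T j (S.erase i) (Function.update a i false) +
            Val (mixLab f γ) T j (S.erase i) (Function.update a i true)) - N) := by
          rw [sum_add_distrib, sum_comm]
          simp only [sum_sub_distrib, sum_const, card_univ, nsmul_eq_mul, mul_one, hN]
      _ ≤ N + ∑ _i ∈ S, ((1 + z) ^ 2 * N - N) := by
          have := sum_le_sum fun i hi => sub_le_sub_right (key i hi) N
          linarith
      _ = (1 + zs p μ (j + 1)) * N := by
          rw [sum_const, nsmul_eq_mul, hS]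
          simp only [zs, ← hz]
          push_cast
          ring

theorem tval_flip (b : ι → Bool) (i : ι) (h : ¬ OddPt b) :
    OddPt (Function.update b i (!b i)) := by
  unfold OddPt at h ⊢
  cases hb : b i with
  | false =>
    have e : (univ.filter fun k => Function.update b i (!false) k = true) =
        insert i (univ.filter fun k => b k = true) := by
      ext k
      by_cases hk : k = i
      · subst hk; simp
      · simp [hk]
    rw [e, card_insert_of_notMem (by simp [hb])]
    exact (Nat.not_odd_iff_even.1 h).add_one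
  | true =>
    have e : (univ.filter fun k => b k = true) =
        insert i (univ.filter fun k => Function.update b i (!true) k = true) := by
      ext k
      by_cases hk : k = i
      · subst hk; simp [hb]
      · simp [hk]
    rw [e, card_insert_of_notMem (by simp)] at h
    by_contra h'
    exact h (Nat.not_odd_iff_even.1 h').add_one

theorem tval_card (S : Finset ι) (a : ι → Bool) (hS : 2 ≤ S.card) {i : ι} (hi : i ∈ S)
    (c : Bool) : 2 ^ (S.card - 2) ≤
      (univ.filter fun b : ι → Bool => OddPt b ∧ Cube S a b ∧ b i = c).card := by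
  have h1 : (S.erase i).card = S.card - 1 := card_erase_of_mem hi
  obtain ⟨i0, h0⟩ : (S.erase i).Nonempty := card_pos.1 (by omega)
  have hne : i0 ≠ i := (mem_erase.1 h0).1
  have h0S : i0 ∈ S := mem_of_mem_erase h0
  have h2 : ((S.erase i).erase i0).card = S.card - 2 := by rw [card_erase_of_mem h0]; omega
  let b0 : Finset ι → ι → Bool := fun U k =>
    if k ∈ (S.erase i).erase i0 then decide (k ∈ U) else Function.update a i c k
  let b1 : Finset ι → ι → Bool := fun U =>
    if OddPt (b0 U) then b0 U else Function.update (b0 U) i0 (!b0 U i0)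
  have hb : ∀ U k, k ≠ i0 → b1 U k = b0 U k := by
    intro U k hk
    simp only [b1]
    split_ifs
    · rfl
    · exact Function.update_of_ne hk _ _
  rw [← h2, ← card_powerset]
  refine card_le_card_of_injOn b1 (fun U _ => ?_) (fun U hU V hV e => ?_)
  · refine mem_coe.2 (mem_filter.2 ⟨mem_univ _, ?_, fun k hk => ?_, ?_⟩)
    · simp only [b1]
      split_ifs with h
      · exact h
      · exact tval_flip _ _ h
    · have k0 : k ≠ i0 := fun e => hk (e ▸ h0S)
      have k1 : k ≠ i := fun e => hk (e ▸ hi)
      rw [hb U k k0]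
      simp only [b0]
      rw [if_neg fun h => hk (mem_of_mem_erase (mem_of_mem_erase h)), Function.update_of_ne k1]
    · rw [hb U i hne.symm]
      simp only [b0]
      rw [if_neg fun h => notMem_erase i S (mem_of_mem_erase h), Function.update_self]
  · have hU' := mem_powerset.1 (mem_coe.1 hU)
    have hV' := mem_powerset.1 (mem_coe.1 hV)
    ext k
    by_cases hk : k ∈ (S.erase i).erase i0
    · have e1 := congrFun e k
      rw [hb U k (mem_erase.1 hk).1, hb V k (mem_erase.1 hk).1] at e1
      simp only [b0, if_pos hk] at e1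
      exact decide_eq_decide.1 e1
    · exact ⟨fun h => absurd (hU' h) hk, fun h => absurd (hV' h) hk⟩

theorem tval_pi (T : Finset H) (η : ℝ) (hT : η * Fintype.card H ≤ T.card)
    (Q : Finset (ι → Bool)) :
    ((Fintype.piFinset fun b : ι → Bool => if b ∈ Q then Tᶜ else univ).card : ℝ) ≤
      Real.exp (-(η * Q.card)) * Fintype.card ((ι → Bool) → H) := by
  have hc : ((Tᶜ).card : ℝ) ≤ Real.exp (-η) * Fintype.card H := by
    have h1 : ((Tᶜ).card : ℝ) + T.card = Fintype.card H := by
      exact_mod_cast card_compl_add_card T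
    have h2 : -η + 1 ≤ Real.exp (-η) := Real.add_one_le_exp _
    have h3 := mul_le_mul_of_nonneg_right h2 (Nat.cast_nonneg (α := ℝ) (Fintype.card H))
    linarith
  rw [Fintype.card_piFinset, Nat.cast_prod]
  calc ∏ b : ι → Bool, (((if b ∈ Q then Tᶜ else univ : Finset H).card : ℕ) : ℝ)
      ≤ ∏ b : ι → Bool, ((if b ∈ Q then Real.exp (-η) else 1) * Fintype.card H) := by
        refine prod_le_prod (fun _ _ => Nat.cast_nonneg _) fun b _ => ?_
        split_ifs
        · exact hc
        · simp
    _ = Real.exp (-(η * Q.card)) * Fintype.card ((ι → Bool) → H) := by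
        rw [prod_mul_distrib, prod_ite_mem, univ_inter, prod_const, prod_const, card_univ,
          Fintype.card_fun (α := ι → Bool), ← Real.exp_nat_mul]
        push_cast
        rw [show (Q.card : ℝ) * -η = -(η * Q.card) by ring]

theorem bd_prob (f : (ι → Bool) → H) (T : Finset H) (η : ℝ) (hη : 0 ≤ η)
    (hT : η * Fintype.card H ≤ T.card) (S : Finset ι) (a : ι → Bool) (hS : 2 ≤ S.card) :
    ((univ.filter fun γ : (ι → Bool) → H => Bd (mixLab f γ) T S a).card : ℝ) ≤
      2 * S.card * Real.exp (-(η * 2 ^ (S.card - 2))) * Fintype.card ((ι → Bool) → H) := by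
  let Q : ι × Bool → Finset (ι → Bool) := fun e =>
    univ.filter fun b : ι → Bool => OddPt b ∧ Cube S a b ∧ b e.1 = e.2
  let E : ι × Bool → Finset ((ι → Bool) → H) := fun e =>
    Fintype.piFinset fun b : ι → Bool => if b ∈ Q e then Tᶜ else univ
  have hsub : (univ.filter fun γ : (ι → Bool) → H => Bd (mixLab f γ) T S a) ⊆
      (S ×ˢ (univ : Finset Bool)).biUnion E := by
    intro γ hγ
    obtain ⟨i, hi, c, hb⟩ := (mem_filter.1 hγ).2
    refine mem_biUnion.2 ⟨(i, c), mem_product.2 ⟨hi, mem_univ _⟩, Fintype.mem_piFinset.2 fun b => ?_⟩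
    split_ifs with h
    · obtain ⟨h1, h2, h3⟩ := (mem_filter.1 h).2
      have := hb b h2 h3
      rw [mixLab, if_pos h1] at this
      exact mem_compl.2 this
    · exact mem_univ _
  have hE : ∀ e ∈ S ×ˢ (univ : Finset Bool), ((E e).card : ℝ) ≤
      Real.exp (-(η * 2 ^ (S.card - 2))) * Fintype.card ((ι → Bool) → H) := by
    intro e he
    refine (tval_pi T η hT (Q e)).trans (mul_le_mul_of_nonneg_right ?_ (Nat.cast_nonneg _))
    refine Real.exp_le_exp.2 (neg_le_neg (mul_le_mul_of_nonneg_left ?_ hη))
    exact_mod_cast tval_card S a hS (mem_product.1 he).1 e.2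
  calc ((univ.filter fun γ : (ι → Bool) → H => Bd (mixLab f γ) T S a).card : ℝ)
      ≤ ∑ e ∈ S ×ˢ (univ : Finset Bool), ((E e).card : ℝ) := by
        exact_mod_cast (card_le_card hsub).trans card_biUnion_le
    _ ≤ ∑ _e ∈ S ×ˢ (univ : Finset Bool),
        Real.exp (-(η * 2 ^ (S.card - 2))) * Fintype.card ((ι → Bool) → H) := sum_le_sum hE
    _ = _ := by
        rw [sum_const, nsmul_eq_mul, card_product, card_univ, Fintype.card_bool]
        push_cast
        ring

end Pool.Agent.P.MP_0f6e60_lc.T
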