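import Mathlib
import Pool.Agent.P.MP_0f6e60_lc.TVal
import Pool.Agent.P.MP_0f6e60_lc.TNum

namespace Pool.Agent.P.MP_0f6e60_lc.T

open Finset Classical

variable {P H ι : Type} [Fintype P] [Fintype H] [Fintype ι]
  [DecidableEq P] [DecidableEq H] [DecidableEq ι]

theorem ttail_markov {Om : Type} [Fintype Om] (B : Finset Om) (F : Om → ℝ) (c d : ℝ)
    (hd : ∀ x, d ≤ F x) (hc : ∀ x ∈ B, c + d ≤ F x) :
    (B.card : ℝ) * c + d * Fintype.card Om ≤ ∑ x, F x := by
  have h1 : ∑ x : Om, ((if x ∈ B then c else 0) + d) ≤ ∑ x, F x := by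
    refine sum_le_sum fun x _ => ?_
    split_ifs with h
    · exact hc x h
    · simpa using hd x
  rw [sum_add_distrib, sum_ite_mem, univ_inter, sum_const, sum_const, card_univ, nsmul_eq_mul,
    nsmul_eq_mul] at h1
  linarith

theorem val_tail : ∃ L : ℕ, 2 ≤ L ∧ ∀ μ, L ≤ μ → ∀ (H ι : Type) [Fintype H] [Fintype ι]
    [DecidableEq H] [DecidableEq ι] (f : (ι → Bool) → H) (T : Finset H), μ ≤ Fintype.card ι →
    ((3 : ℝ) / 4) ^ μ * Fintype.card H ≤ T.card →
    (univ.filter fun γ : (ι → Bool) → H => ¬ Rob (mixLab f γ) T μ).card * 2 ^ (6 * wN μ) ≤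
      Fintype.card ((ι → Bool) → H) := by
  obtain ⟨L, hL2, hL⟩ := zs_tail
  refine ⟨L, hL2, fun μ hμ H ι _ _ _ _ f T hμι hT => ?_⟩
  obtain ⟨h1, h2⟩ := hL μ hμ
  have hp0 : 0 ≤ pB μ := by unfold pB; positivity
  have hm := val_mgf f T μ (pB μ) hp0 (fun S a hS => by
    have h := bd_prob f T (((3 : ℝ) / 4) ^ μ) (by positivity) hT S a (by omega)
    rw [hS] at h
    exact h) (Fintype.card ι - μ) univ (fun _ => false) (by rw [card_univ]; omega)
  set B := univ.filter fun γ : (ι → Bool) → H => ¬ Rob (mixLab f γ) T μ with hB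
  set N : ℝ := (Fintype.card ((ι → Bool) → H) : ℝ) with hN
  have hN0 : 0 ≤ N := Nat.cast_nonneg _
  have hW : (0 : ℝ) < 2 ^ (6 * wN μ) := by positivity
  have hmem : ∀ γ ∈ B, 2 ^ (Fintype.card ι - μ) <
      Val (mixLab f γ) T (Fintype.card ι - μ) univ (fun _ => false) * 2 ^ (10 * μ * wN μ) :=
    fun γ hγ => not_le.1 (mem_filter.1 hγ).2
  have goal : (B.card : ℝ) * 2 ^ (6 * wN μ) ≤ N := by
    rcases le_total (Fintype.card ι - μ) (20 * μ * wN μ) with hj | hj
    · have h3 := ttail_markov B (fun γ => (2 : ℝ) ^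
          Val (mixLab f γ) T (Fintype.card ι - μ) univ (fun _ => false)) 1 1
        (fun γ => one_le_pow₀ (by norm_num)) (fun γ hγ => by
          have h4 := hmem γ hγ
          have h5 : Val (mixLab f γ) T (Fintype.card ι - μ) univ (fun _ => false) ≠ 0 := by
            intro h0
            rw [h0] at h4
            simp at h4
          have h6 := le_self_pow₀ (by norm_num : (1 : ℝ) ≤ 2) h5
          linarith)
      have h4 : (B.card : ℝ) ≤ zs (pB μ) μ (Fintype.card ι - μ) * N := by linarith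
      have h5 := h1 _ hj
      calc (B.card : ℝ) * 2 ^ (6 * wN μ)
          ≤ zs (pB μ) μ (Fintype.card ι - μ) * N * 2 ^ (6 * wN μ) :=
            mul_le_mul_of_nonneg_right h4 hW.le
        _ = zs (pB μ) μ (Fintype.card ι - μ) * 2 ^ (6 * wN μ) * N := by ring
        _ ≤ 1 * N := mul_le_mul_of_nonneg_right h5 hN0
        _ = N := one_mul N
    · obtain ⟨t, ht⟩ := Nat.exists_eq_add_of_le hj
      have h3 := ttail_markov B (fun γ => (2 : ℝ) ^
          Val (mixLab f γ) T (Fintype.card ι - μ) univ (fun _ => false))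
        (2 ^ 2 ^ (10 * μ * wN μ + t)) 0 (fun γ => by positivity) (fun γ hγ => by
          have h4 := hmem γ hγ
          have h5 : 2 ^ (Fintype.card ι - μ) =
              2 ^ (10 * μ * wN μ + t) * 2 ^ (10 * μ * wN μ) := by
            rw [← pow_add, ht]; congr 1; ring
          rw [h5] at h4
          have h6 := lt_of_mul_lt_mul_right h4 (Nat.zero_le _)
          rw [add_zero]
          exact pow_le_pow_right₀ (by norm_num) h6.le)
      have h5 := h2 t
      rw [← ht] at h5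
      have hX : (0 : ℝ) < 2 ^ 2 ^ (10 * μ * wN μ + t) := by positivity
      have h4 : (B.card : ℝ) * 2 ^ 2 ^ (10 * μ * wN μ + t) ≤
          (1 + zs (pB μ) μ (Fintype.card ι - μ)) * N := by linarith
      refine le_of_mul_le_mul_right ?_ hX
      calc (B.card : ℝ) * 2 ^ (6 * wN μ) * 2 ^ 2 ^ (10 * μ * wN μ + t)
          = (B.card : ℝ) * 2 ^ 2 ^ (10 * μ * wN μ + t) * 2 ^ (6 * wN μ) := by ring
        _ ≤ (1 + zs (pB μ) μ (Fintype.card ι - μ)) * N * 2 ^ (6 * wN μ) :=
            mul_le_mul_of_nonneg_right h4 hW.le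
        _ = (1 + zs (pB μ) μ (Fintype.card ι - μ)) * 2 ^ (6 * wN μ) * N := by ring
        _ ≤ 2 ^ 2 ^ (10 * μ * wN μ + t) * N := mul_le_mul_of_nonneg_right h5 hN0
        _ = N * 2 ^ 2 ^ (10 * μ * wN μ + t) := mul_comm _ _
  rw [hN] at goal
  exact_mod_cast goal

theorem ttail_pi {P Om : Type} [Fintype P] [DecidableEq P] [Fintype Om] (E : P → Finset Om)
    (A : Finset P) (W : ℕ) (hE : ∀ u, (E u).card * W ≤ Fintype.card Om) :
    (Fintype.piFinset fun u => if u ∈ A then E u else univ).card * W ^ A.card ≤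
      Fintype.card Om ^ Fintype.card P := by
  have h1 : W ^ A.card = ∏ u : P, if u ∈ A then W else 1 := by
    rw [prod_ite_mem, univ_inter, prod_const]
  rw [Fintype.card_piFinset, h1, ← prod_mul_distrib, ← card_univ (α := P), ← prod_const]
  refine prod_le_prod' fun u _ => ?_
  split_ifs
  · exact hE u
  · simp

theorem ttail_frac {r h μ t : ℕ} (hh : h ≤ r) (ht : mN r μ ≤ t) :
    ((3 : ℝ) / 4) ^ μ * h ≤ t := by
  have h1 : (r : ℝ) * ((3 : ℝ) / 4) ^ μ ≤ mN r μ := Nat.le_ceil _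
  have h2 : (mN r μ : ℝ) ≤ t := by exact_mod_cast ht
  have h3 : (h : ℝ) ≤ r := by exact_mod_cast hh
  have h4 : (0 : ℝ) ≤ ((3 : ℝ) / 4) ^ μ := by positivity
  nlinarith

theorem exists_lab : ∃ L : ℕ, 2 ≤ L ∧ ∀ (P H ι : Type) [Fintype P] [Fintype H] [Fintype ι]
    [DecidableEq P] [DecidableEq H] [DecidableEq ι] [Nonempty H] (f : P → (ι → Bool) → H),
    Fintype.card H ≤ Fintype.card P → Fintype.card ι + 1 < 2 ^ Fintype.card P →
    ∃ Γ : P → (ι → Bool) → H, ∀ μ, L ≤ μ → μ ≤ Fintype.card ι → ∀ T : Finset H,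
      mN (Fintype.card P) μ ≤ T.card →
      2 * (univ.filter fun u => ¬ Rob (mixLab (f u) (Γ u)) T μ).card < mN (Fintype.card P) μ := by
  obtain ⟨L, hL2, hL⟩ := val_tail
  refine ⟨L, hL2, fun P H ι _ _ _ _ _ _ _ f hHP hι => ?_⟩
  by_contra hcon
  push Not at hcon
  set r := Fintype.card P with hr
  set N := Fintype.card ((ι → Bool) → H) with hN
  have hN0 : 0 < N := Fintype.card_pos
  let B : ℕ × Finset H × Finset P → Finset (P → (ι → Bool) → H) := fun z =>
    if L ≤ z.1 ∧ z.1 ≤ Fintype.card ι ∧ mN r z.1 ≤ z.2.1.card ∧ mN r z.1 ≤ 2 * z.2.2.card then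
      Fintype.piFinset fun u => if u ∈ z.2.2 then
        univ.filter fun γ : (ι → Bool) → H => ¬ Rob (mixLab (f u) γ) z.2.1 z.1 else univ
    else ∅
  have hB : ∀ z, (B z).card * 2 ^ (3 * r) ≤ N ^ r := by
    rintro ⟨μ, T, A⟩
    simp only [B]
    split_ifs with h
    · obtain ⟨h1, h2, h3, h4⟩ := h
      have h5 := ttail_pi (fun u => univ.filter fun γ : (ι → Bool) → H =>
        ¬ Rob (mixLab (f u) γ) T μ) A (2 ^ (6 * wN μ))
        (fun u => hL μ h1 H ι (f u) T h2 (ttail_frac hHP h3))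
      refine le_trans (Nat.mul_le_mul_left _ ?_) h5
      rw [← pow_mul]
      refine Nat.pow_le_pow_right (by norm_num) ?_
      have h6 := le_wN_mul_mN r μ
      have h7 : wN μ * mN r μ ≤ wN μ * (2 * A.card) := Nat.mul_le_mul_left _ h4
      nlinarith
    · simp
  let I : Finset (ℕ × Finset H × Finset P) := range (Fintype.card ι + 1) ×ˢ univ
  have hsub : (univ : Finset (P → (ι → Bool) → H)) ⊆ I.biUnion B := by
    intro Γ _
    obtain ⟨μ, h1, h2, T, h3, h4⟩ := hcon Γ
    refine mem_biUnion.2 ⟨(μ, T, univ.filter fun u => ¬ Rob (mixLab (f u) (Γ u)) T μ), ?_, ?_⟩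
    · exact mem_product.2 ⟨mem_range.2 (by omega), mem_univ _⟩
    · simp only [B]
      rw [if_pos ⟨h1, h2, h3, h4⟩]
      refine Fintype.mem_piFinset.2 fun u => ?_
      split_ifs with hu
      · exact mem_filter.2 ⟨mem_univ _, (mem_filter.1 hu).2⟩
      · exact mem_univ _
  have h1 : N ^ r ≤ ∑ z ∈ I, (B z).card := by
    have := (card_le_card hsub).trans card_biUnion_le
    rwa [card_univ, Fintype.card_fun] at this
  have h2 : N ^ r * 2 ^ (3 * r) ≤ I.card * N ^ r := by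
    calc N ^ r * 2 ^ (3 * r) ≤ (∑ z ∈ I, (B z).card) * 2 ^ (3 * r) := Nat.mul_le_mul_right _ h1
      _ = ∑ z ∈ I, (B z).card * 2 ^ (3 * r) := sum_mul _ _ _
      _ ≤ ∑ _z ∈ I, N ^ r := sum_le_sum fun z _ => hB z
      _ = I.card * N ^ r := by rw [sum_const, smul_eq_mul]
  have h3 : I.card = (Fintype.card ι + 1) * (2 ^ Fintype.card H * 2 ^ r) := by
    simp only [I]
    rw [card_product, card_range, card_univ, Fintype.card_prod, Fintype.card_finset,
      Fintype.card_finset]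
  have h4 : I.card < 2 ^ (3 * r) := by
    have h5 : 2 ^ Fintype.card H ≤ 2 ^ r := Nat.pow_le_pow_right (by norm_num) hHP
    have h6 : 0 < 2 ^ r := by positivity
    calc I.card ≤ (Fintype.card ι + 1) * (2 ^ r * 2 ^ r) := by
          rw [h3]; exact Nat.mul_le_mul_left _ (Nat.mul_le_mul_right _ h5)
      _ < 2 ^ r * (2 ^ r * 2 ^ r) := Nat.mul_lt_mul_of_pos_right hι (by positivity)
      _ = 2 ^ (3 * r) := by rw [← pow_add, ← pow_add]; congr 1; ring
  have h5 : 0 < N ^ r := by positivity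
  have h6 : I.card * N ^ r < 2 ^ (3 * r) * N ^ r := Nat.mul_lt_mul_of_pos_right h4 h5
  rw [mul_comm (2 ^ (3 * r))] at h6
  omega

end Pool.Agent.P.MP_0f6e60_lc.T
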