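import Mathlib
import Pool.Agent.P.MP_0f6e60_lc.TDefs

namespace Pool.Agent.P.MP_0f6e60_lc.T

open Finset Classical

variable {P H ι : Type} [Fintype P] [Fintype H] [Fintype ι]
  [DecidableEq P] [DecidableEq H] [DecidableEq ι]

section aux

variable {n s : ℕ} (enc : P × ι → Fin n) (J : Fin s → Option (Fin s × Fin s × Fin n)) (i0 : Fin s)

/-- Decoding of a variable. -/
noncomputable def ttree_dec (v : Fin n) : Option (P × ι) :=
  if h : ∃ p, enc p = v then some h.choose else none

/-- The assignment given by a point. -/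
noncomputable def ttree_al (x : P → ι → Bool) (v : Fin n) : Bool :=
  (ttree_dec enc v).elim false fun p => x p.1 p.2

/-- The walk from the root to a falsified leaf. -/
noncomputable def ttree_nd (x : P → ι → Bool) : ℕ → Fin s
  | 0 => i0
  | τ + 1 => (J (ttree_nd x τ)).elim (ttree_nd x τ)
      fun e => if ttree_al enc x e.2.2 = true then e.2.1 else e.1

/-- The queries. -/
noncomputable def ttree_q (x : P → ι → Bool) (τ : ℕ) : Option (P × ι) :=
  if τ < s then (J (ttree_nd enc J i0 x τ)).bind fun e => ttree_dec enc e.2.2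
  else if h : τ - s < Fintype.card (P × ι) then some ((Fintype.equivFin (P × ι)).symm ⟨τ - s, h⟩)
  else none

variable {enc}

theorem ttree_dec_enc (henc : Function.Injective enc) (p : P × ι) :
    ttree_dec enc (enc p) = some p := by
  have h : ∃ p', enc p' = enc p := ⟨p, rfl⟩
  unfold ttree_dec
  rw [dif_pos h, henc h.choose_spec]

theorem ttree_al_some {v : Fin n} {p : P × ι} (h : ttree_dec enc v = some p)
    (x : P → ι → Bool) : ttree_al enc x v = x p.1 p.2 := by
  unfold ttree_al
  rw [h]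
  rfl

theorem ttree_al_none {v : Fin n} (h : ttree_dec enc v = none) (x : P → ι → Bool) :
    ttree_al enc x v = false := by
  unfold ttree_al
  rw [h]
  rfl

variable {J i0}

theorem ttree_nd_none {x : P → ι → Bool} {τ : ℕ} (h : J (ttree_nd enc J i0 x τ) = none) :
    ttree_nd enc J i0 x (τ + 1) = ttree_nd enc J i0 x τ := by
  simp only [ttree_nd]
  rw [h]
  rfl

theorem ttree_nd_some {x : P → ι → Bool} {τ : ℕ} {j l : Fin s} {v : Fin n}
    (h : J (ttree_nd enc J i0 x τ) = some (j, l, v)) :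
    ttree_nd enc J i0 x (τ + 1) = if ttree_al enc x v = true then l else j := by
  simp only [ttree_nd]
  rw [h]
  rfl

theorem ttree_q_some {x : P → ι → Bool} {τ : ℕ} (hτ : τ < s) {j l : Fin s} {v : Fin n}
    (h : J (ttree_nd enc J i0 x τ) = some (j, l, v)) :
    ttree_q enc J i0 x τ = ttree_dec enc v := by
  unfold ttree_q
  rw [if_pos hτ, h]
  rfl

theorem ttree_q_none {x : P → ι → Bool} {τ : ℕ} (hτ : τ < s)
    (h : J (ttree_nd enc J i0 x τ) = none) : ttree_q enc J i0 x τ = none := by
  unfold ttree_q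
  rw [if_pos hτ, h]
  rfl

theorem ttree_adapt : Adapt (ttree_q enc J i0) := by
  intro x x' τ hC
  have key : ∀ σ, σ ≤ τ → σ ≤ s → ttree_nd enc J i0 x' σ = ttree_nd enc J i0 x σ := by
    intro σ
    induction σ with
    | zero => intro _ _; rfl
    | succ σ ih =>
      intro h1 h2
      have h3 := ih (by omega) (by omega)
      rcases h4 : J (ttree_nd enc J i0 x σ) with _ | ⟨j, l, v⟩
      · rw [ttree_nd_none h4, ttree_nd_none (h3 ▸ h4), h3]
      · rw [ttree_nd_some h4, ttree_nd_some (h3 ▸ h4)]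
        have h5 : ttree_al enc x' v = ttree_al enc x v := by
          rcases h6 : ttree_dec enc v with _ | p
          · rw [ttree_al_none h6, ttree_al_none h6]
          · rw [ttree_al_some h6, ttree_al_some h6]
            refine hC p.1 p.2 fun h7 => ?_
            exact (mem_Fz_zero _ x p.1 τ p.2).1 h7 σ (by omega)
              ((ttree_q_some (by omega) h4).trans h6)
        rw [h5]
  unfold ttree_q
  by_cases h : τ < s
  · rw [if_pos h, if_pos h, key τ le_rfl h.le]
  · rw [if_neg h, if_neg h]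

theorem ttree_end (x : P → ι → Bool) (u : P) :
    Fz (ttree_q enc J i0) 0 x u (s + Fintype.card (P × ι)) = ∅ := by
  refine eq_empty_of_forall_notMem fun i hi => ?_
  have h1 := (Fintype.equivFin (P × ι) (u, i)).2
  refine (mem_Fz_zero _ x u _ i).1 hi (s + (Fintype.equivFin (P × ι) (u, i) : ℕ)) (by omega) ?_
  unfold ttree_q
  rw [if_neg (by omega), dif_pos (by omega)]
  congr 1
  rw [Equiv.symm_apply_eq]
  exact Fin.ext (by simp)

theorem ttree_inv {Pc : Fin s → Finset (Fin n × Bool)} (h0 : Pc i0 = ∅)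
    (hres : ∀ i j l x, J i = some (j, l, x) → j < i ∧ l < i ∧
      Pc i = (Pc j).erase (x, true) ∪ (Pc l).erase (x, false)) (x : P → ι → Bool) :
    ∀ τ, τ ≤ s → ∀ e ∈ Pc (ttree_nd enc J i0 x τ), ttree_al enc x e.1 ≠ e.2 ∧
      ∀ p, ttree_dec enc e.1 = some p → ∃ σ < τ, ttree_q enc J i0 x σ = some p := by
  intro τ
  induction τ with
  | zero =>
    intro _ e he
    have : e ∈ Pc i0 := he
    rw [h0] at this
    exact absurd this (notMem_empty e)
  | succ τ ih =>
    intro h1 e he
    have old : e ∈ Pc (ttree_nd enc J i0 x τ) → ttree_al enc x e.1 ≠ e.2 ∧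
        ∀ p, ttree_dec enc e.1 = some p → ∃ σ < τ + 1, ttree_q enc J i0 x σ = some p := by
      intro h2
      obtain ⟨h3, h4⟩ := ih (by omega) e h2
      refine ⟨h3, fun p hp => ?_⟩
      obtain ⟨σ, h5, h6⟩ := h4 p hp
      exact ⟨σ, by omega, h6⟩
    rcases h4 : J (ttree_nd enc J i0 x τ) with _ | ⟨j, l, v⟩
    · rw [ttree_nd_none h4] at he
      exact old he
    · rw [ttree_nd_some h4] at he
      have h5 := (hres _ _ _ _ h4).2.2
      have new : ∀ c, e = (v, c) → ttree_al enc x v ≠ c → ttree_al enc x e.1 ≠ e.2 ∧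
          ∀ p, ttree_dec enc e.1 = some p → ∃ σ < τ + 1, ttree_q enc J i0 x σ = some p := by
        rintro c rfl h6
        exact ⟨h6, fun p hp => ⟨τ, by omega, (ttree_q_some (by omega) h4).trans hp⟩⟩
      by_cases h6 : ttree_al enc x v = true
      · rw [if_pos h6] at he
        by_cases h7 : e = (v, false)
        · exact new false h7 (by rw [h6]; decide)
        · exact old (h5 ▸ mem_union_right _ (mem_erase.2 ⟨h7, he⟩))
      · rw [if_neg h6] at he
        by_cases h7 : e = (v, true)
        · exact new true h7 h6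
        · exact old (h5 ▸ mem_union_left _ (mem_erase.2 ⟨h7, he⟩))

theorem ttree_drop (hlt : ∀ i j l x, J i = some (j, l, x) → j < i ∧ l < i) (x : P → ι → Bool) :
    ∀ τ, (∀ σ < τ, J (ttree_nd enc J i0 x σ) ≠ none) →
      (ttree_nd enc J i0 x τ : ℕ) + τ ≤ i0 := by
  intro τ
  induction τ with
  | zero => intro _; exact le_rfl
  | succ τ ih =>
    intro h
    have h1 := ih fun σ hσ => h σ (by omega)
    rcases h4 : J (ttree_nd enc J i0 x τ) with _ | ⟨j, l, v⟩
    · exact absurd h4 (h τ (by omega))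
    · rw [ttree_nd_some h4]
      obtain ⟨h2, h3⟩ := hlt _ _ _ _ h4
      rw [Fin.lt_def] at h2 h3
      split_ifs <;> omega

theorem ttree_uniq (hlt : ∀ i j l x, J i = some (j, l, x) → j < i ∧ l < i)
    (hne : ∀ i j l x, J i = some (j, l, x) → j ≠ l)
    (htree : ∀ i i' j l x j' l' x' c, J i = some (j, l, x) → J i' = some (j', l', x') →
      (c = j ∨ c = l) → (c = j' ∨ c = l') → i = i') (x x' : P → ι → Bool) :
    ∀ τ τ', (∀ σ < τ, J (ttree_nd enc J i0 x σ) ≠ none) →
      (∀ σ < τ', J (ttree_nd enc J i0 x' σ) ≠ none) →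
      ttree_nd enc J i0 x τ = ttree_nd enc J i0 x' τ' →
      τ = τ' ∧ ∀ σ < τ, ∀ j l v, J (ttree_nd enc J i0 x σ) = some (j, l, v) →
        ttree_al enc x' v = ttree_al enc x v := by
  intro τ
  induction τ with
  | zero =>
    intro τ' _ h2 h3
    have h4 := ttree_drop hlt x' τ' h2
    have h5 : (ttree_nd enc J i0 x' τ' : ℕ) = i0 := by rw [← h3]; rfl
    exact ⟨by omega, fun σ hσ => absurd hσ (by omega)⟩
  | succ τ ih =>
    intro τ' h1 h2 h3
    rcases τ' with _ | τ'
    · have h4 := ttree_drop hlt x (τ + 1) h1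
      have h5 : (ttree_nd enc J i0 x (τ + 1) : ℕ) = i0 := by rw [h3]; rfl
      omega
    rcases h4 : J (ttree_nd enc J i0 x τ) with _ | ⟨j, l, v⟩
    · exact absurd h4 (h1 τ (by omega))
    rcases h5 : J (ttree_nd enc J i0 x' τ') with _ | ⟨j', l', v'⟩
    · exact absurd h5 (h2 τ' (by omega))
    rw [ttree_nd_some h4, ttree_nd_some h5] at h3
    have h6 : ttree_nd enc J i0 x τ = ttree_nd enc J i0 x' τ' := by
      refine htree _ _ _ _ _ _ _ _ (if ttree_al enc x v = true then l else j) h4 h5 ?_ ?_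
      · split_ifs
        · exact Or.inr rfl
        · exact Or.inl rfl
      · rw [h3]
        split_ifs
        · exact Or.inr rfl
        · exact Or.inl rfl
    obtain ⟨h7, h8⟩ := ih τ' (fun σ hσ => h1 σ (by omega)) (fun σ hσ => h2 σ (by omega)) h6
    refine ⟨by omega, fun σ hσ j1 l1 v1 h9 => ?_⟩
    rcases Nat.lt_succ_iff_lt_or_eq.1 hσ with h10 | h10
    · exact h8 σ h10 j1 l1 v1 h9
    · subst h10
      rw [h4] at h9
      rw [← h6, h4] at h5
      cases h9
      cases h5
      have h11 := hne _ _ _ _ h4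
      rcases h12 : ttree_al enc x v with _ | _ <;> rcases h13 : ttree_al enc x' v with _ | _ <;>
        simp only [h12, h13] at h3 ⊢
      · exact absurd (by simpa using h3) h11
      · exact absurd (by simpa using h3.symm) h11

theorem ttree_cubes (S : P → Finset ι) (x : P → ι → Bool) (D : Finset (P → ι → Bool))
    (h : ∀ x' ∈ D, ∀ u, Cube (S u) (x u) (x' u)) : D.card ≤ 2 ^ ∑ u, (S u).card := by
  have h1 : D.card ≤ (Fintype.piFinset fun u => (S u).powerset).card := by
    refine card_le_card_of_injOn (fun x' u => (S u).filter fun i => x' u i = true) ?_ ?_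
    · intro x' _
      exact mem_coe.2 (Fintype.mem_piFinset.2 fun u => mem_powerset.2 (filter_subset _ _))
    · intro a ha b hb hab
      funext u i
      by_cases hi : i ∈ S u
      · have h2 := Finset.ext_iff.1 (congrFun hab u) i
        simp only [mem_filter, hi, true_and] at h2
        exact Bool.eq_iff_iff.2 h2
      · exact (h a ha u i hi).trans (h b hb u i hi).symm
  rw [Fintype.card_piFinset] at h1
  simp only [card_powerset] at h1
  rwa [prod_pow_eq_pow_sum] at h1

end aux

theorem tree_system {n s : ℕ} (lab : P → (ι → Bool) → H) (enc : P × ι → Fin n)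
    (henc : Function.Injective enc) (F : Finset (Finset (Fin n × Bool)))
    (hF : ∀ D ∈ F, ∃ (u w : P) (a b : ι → Bool), u ≠ w ∧ lab u a = lab w b ∧
      (∀ i, (enc (u, i), !a i) ∈ D) ∧ ∀ i, (enc (w, i), !b i) ∈ D)
    (Pc : Fin s → Finset (Fin n × Bool)) (J : Fin s → Option (Fin s × Fin s × Fin n))
    (h0 : ∃ i, Pc i = ∅) (hax : ∀ i, J i = none → Pc i ∈ F)
    (hres : ∀ i j l x, J i = some (j, l, x) → j < i ∧ l < i ∧
      Pc i = (Pc j).erase (x, true) ∪ (Pc l).erase (x, false))
    (hne : ∀ i j l x, J i = some (j, l, x) → j ≠ l)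
    (htree : ∀ i i' j l x j' l' x' c, J i = some (j, l, x) → J i' = some (j', l', x') →
      (c = j ∨ c = l) → (c = j' ∨ c = l') → i = i') :
    ∃ (q : (P → ι → Bool) → ℕ → Option (P × ι)) (Tm : ℕ), Adapt q ∧
      (∀ x u, Fz q 0 x u Tm = ∅) ∧
      ∀ B : ℕ, (univ.filter fun x => DeepX lab q B x).card ≤ s * 2 ^ B := by
  obtain ⟨i0, h0⟩ := h0
  have hlt : ∀ i j l x, J i = some (j, l, x) → j < i ∧ l < i := fun i j l x h =>
    ⟨(hres i j l x h).1, (hres i j l x h).2.1⟩
  refine ⟨ttree_q enc J i0, s + Fintype.card (P × ι), ttree_adapt, ttree_end, fun B => ?_⟩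
  have coll : ∀ x σ τ, σ ≤ s → σ ≤ τ → J (ttree_nd enc J i0 x σ) = none →
      Coll lab (ttree_q enc J i0) x τ := by
    intro x σ τ h1 h2 h3
    obtain ⟨u, w, a, b, h4, h5, h6, h7⟩ := hF _ (hax _ h3)
    have key : ∀ (u : P) (a : ι → Bool),
        (∀ i, (enc (u, i), !a i) ∈ Pc (ttree_nd enc J i0 x σ)) →
        x u = a ∧ Fz (ttree_q enc J i0) 0 x u τ = ∅ := by
      intro u a h8
      have h9 := fun i => ttree_inv h0 hres x σ h1 _ (h8 i)
      constructor
      · funext i
        have h10 := (h9 i).1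
        rw [ttree_al_some (ttree_dec_enc henc (u, i))] at h10
        revert h10
        cases x u i <;> cases a i <;> simp
      · refine eq_empty_of_forall_notMem fun i hi => ?_
        obtain ⟨ρ, h10, h11⟩ := (h9 i).2 _ (ttree_dec_enc henc (u, i))
        exact (mem_Fz_zero _ x u τ i).1 hi ρ (by omega) h11
    exact ⟨u, w, h4, (key u a h6).2, (key w b h7).2, by rw [(key u a h6).1, (key w b h7).1, h5]⟩
  have alive : ∀ x τ, ¬ Coll lab (ttree_q enc J i0) x τ →
      τ < s ∧ ∀ σ < τ, J (ttree_nd enc J i0 x σ) ≠ none := by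
    intro x τ h
    have h1 : τ < s := by
      by_contra h2
      have h3 := ttree_drop (enc := enc) (i0 := i0) hlt x s
        fun σ hσ h4 => h (coll x σ τ hσ.le (by omega) h4)
      have := i0.2
      omega
    exact ⟨h1, fun σ hσ h4 => h (coll x σ τ (by omega) hσ.le h4)⟩
  let D : Fin s → Finset (P → ι → Bool) := fun c => univ.filter fun x => ∃ τ,
    ¬ Coll lab (ttree_q enc J i0) x τ ∧ ∑ u, (Fz (ttree_q enc J i0) 0 x u τ).card ≤ B ∧
      ttree_nd enc J i0 x τ = c
  have hD : ∀ c, (D c).card ≤ 2 ^ B := by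
    intro c
    rcases (D c).eq_empty_or_nonempty with h | ⟨x, hx⟩
    · rw [h, card_empty]
      exact Nat.zero_le _
    obtain ⟨τ, h1, h2, h3⟩ := (mem_filter.1 hx).2
    refine (ttree_cubes (fun u => Fz (ttree_q enc J i0) 0 x u τ) x (D c) ?_).trans
      (Nat.pow_le_pow_right (by omega) h2)
    intro x' hx' u i hi
    obtain ⟨τ', h4, -, h5⟩ := (mem_filter.1 hx').2
    obtain ⟨-, h6⟩ := ttree_uniq hlt hne htree x x' τ τ' (alive x τ h1).2 (alive x' τ' h4).2
      (h3.trans h5.symm)
    rw [mem_Fz_zero] at hi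
    push Not at hi
    obtain ⟨σ, h7, h8⟩ := hi
    have h9 : σ < s := h7.trans (alive x τ h1).1
    rcases h10 : J (ttree_nd enc J i0 x σ) with _ | ⟨j, l, v⟩
    · exact absurd h10 ((alive x τ h1).2 σ h7)
    · rw [ttree_q_some h9 h10] at h8
      have h11 := h6 σ h7 j l v h10
      rwa [ttree_al_some h8, ttree_al_some h8] at h11
  calc (univ.filter fun x => DeepX lab (ttree_q enc J i0) B x).card
      ≤ ((univ : Finset (Fin s)).biUnion D).card := by
        refine card_le_card fun x hx => ?_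
        obtain ⟨τ, h1, h2⟩ := (mem_filter.1 hx).2
        exact mem_biUnion.2 ⟨_, mem_univ _, mem_filter.2 ⟨mem_univ _, τ, h1, h2, rfl⟩⟩
    _ ≤ (univ : Finset (Fin s)).card * 2 ^ B := card_biUnion_le_card_mul _ _ _ fun c _ => hD c
    _ = s * 2 ^ B := by rw [card_univ, Fintype.card_fin]

end Pool.Agent.P.MP_0f6e60_lc.T
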