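import Mathlib
import Pool.Agent.P.MP_0f6e60_lc.TTail
import Pool.Agent.P.MP_0f6e60_lc.TMart
import Pool.Agent.P.MP_0f6e60_lc.TTree
import Pool.Agent.P.MP_0f6e60_lc.TDyn

namespace Pool.Agent.P.MP_0f6e60_lc.T

open Finset Classical

variable {P H ι : Type} [Fintype P] [Fintype H] [Fintype ι]
  [DecidableEq P] [DecidableEq H] [DecidableEq ι]

omit [Fintype P] [Fintype H] [DecidableEq P] [DecidableEq H] in
theorem tmain_flip (b : ι → Bool) (i : ι) :
    OddPt (Function.update b i (!b i)) ↔ ¬ OddPt b := by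
  unfold OddPt
  cases hb : b i
  · have : (univ.filter fun j => Function.update b i (!false) j = true) =
        insert i (univ.filter fun j => b j = true) := by
      ext j
      by_cases hj : j = i
      · subst hj; simp
      · simp [hj]
    rw [this, card_insert_of_notMem (by simp [hb]), Nat.odd_add_one]
  · have : (univ.filter fun j => b j = true) =
        insert i (univ.filter fun j => Function.update b i (!true) j = true) := by
      ext j
      by_cases hj : j = i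
      · subst hj; simp [hb]
      · simp [hj]
    rw [this, card_insert_of_notMem (by simp), Nat.odd_add_one, not_not]

omit [Fintype P] [Fintype H] [DecidableEq P] [DecidableEq H] in
theorem tmain_even (i0 i1 : ι) (h01 : i0 ≠ i1) :
    2 ^ Fintype.card ι ≤
      4 * (univ.filter fun a : ι → Bool => ¬ OddPt a ∧ a i0 = false).card := by
  let fx : (ι → Bool) → ι → Bool := fun b =>
    if OddPt b then Function.update b i1 (!b i1) else b
  have hfx : ∀ b j, j ≠ i1 → fx b j = b j := by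
    intro b j hj
    simp only [fx]
    split_ifs
    · rw [Function.update_of_ne hj]
    · rfl
  have hev : ∀ b, ¬ OddPt (fx b) := by
    intro b
    simp only [fx]
    split_ifs with h
    · rw [tmain_flip]; exact not_not.2 h
    · exact h
  have h1 : (univ : Finset (ι → Bool)).card ≤
      ((univ.filter fun a : ι → Bool => ¬ OddPt a ∧ a i0 = false) ×ˢ
        (univ : Finset (Bool × Bool))).card := by
    refine card_le_card_of_injOn
      (fun a => (fx (Function.update a i0 false), a i0, a i1)) (fun a _ => ?_) ?_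
    · simp only [coe_product, Set.mem_prod, mem_coe, mem_filter, mem_univ, true_and, and_true]
      exact ⟨hev _, by rw [hfx _ _ h01]; simp⟩
    · intro a _ a' _ h
      simp only [Prod.mk.injEq] at h
      funext j
      by_cases hj0 : j = i0
      · rw [hj0]; exact h.2.1
      by_cases hj1 : j = i1
      · rw [hj1]; exact h.2.2
      have := congrFun h.1 j
      rwa [hfx _ _ hj1, hfx _ _ hj1, Function.update_of_ne hj0, Function.update_of_ne hj0] at this
  rw [card_product] at h1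
  simp only [card_univ, Fintype.card_pi, Fintype.card_bool, prod_const, Fintype.card_prod] at h1
  omega

omit [DecidableEq P] [DecidableEq H] [DecidableEq ι] in
theorem tmain_form {n : ℕ} (lab : P → (ι → Bool) → H) (enc : P × ι → Fin n)
    (hc : Fintype.card H < Fintype.card P) :
    ∃ F : Finset (Finset (Fin n × Bool)), (∀ D ∈ F, D.card ≤ 2 * Fintype.card ι) ∧
      (∀ a : Fin n → Bool, ∃ D ∈ F, ∀ l ∈ D, a l.1 ≠ l.2) ∧
      ∀ D ∈ F, ∃ (u w : P) (a b : ι → Bool), u ≠ w ∧ lab u a = lab w b ∧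
        (∀ i, (enc (u, i), !a i) ∈ D) ∧ ∀ i, (enc (w, i), !b i) ∈ D := by
  refine ⟨univ.filter fun D => ∃ (u w : P) (a b : ι → Bool), u ≠ w ∧ lab u a = lab w b ∧
    D = univ.image (fun i => (enc (u, i), !a i)) ∪ univ.image (fun i => (enc (w, i), !b i)),
    ?_, ?_, ?_⟩
  · intro D hD
    obtain ⟨u, w, a, b, -, -, rfl⟩ := (mem_filter.1 hD).2
    refine (card_union_le _ _).trans ?_
    have h1 := card_image_le (s := (univ : Finset ι)) (f := fun i => (enc (u, i), !a i))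
    have h2 := card_image_le (s := (univ : Finset ι)) (f := fun i => (enc (w, i), !b i))
    rw [card_univ] at h1 h2
    omega
  · intro a
    obtain ⟨u, w, huw, h⟩ := Fintype.exists_ne_map_eq_of_card_lt
      (fun u => lab u fun i => a (enc (u, i))) hc
    refine ⟨_, mem_filter.2 ⟨mem_univ _, u, w, _, _, huw, h, rfl⟩, fun l hl => ?_⟩
    rcases mem_union.1 hl with hl | hl <;> obtain ⟨i, -, rfl⟩ := mem_image.1 hl <;> simp
  · intro D hD
    obtain ⟨u, w, a, b, h1, h2, rfl⟩ := (mem_filter.1 hD).2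
    exact ⟨u, w, a, b, h1, h2, fun i => mem_union_left _ (mem_image.2 ⟨i, mem_univ _, rfl⟩),
      fun i => mem_union_right _ (mem_image.2 ⟨i, mem_univ _, rfl⟩)⟩

omit [Fintype H] [DecidableEq H] in
theorem tmain_count (q : (P → ι → Bool) → ℕ → Option (P × ι)) (Tm B : ℕ)
    (hT : ∀ x u, Fz q 0 x u Tm = ∅) (A0 X Y : Finset (P → ι → Bool))
    (h : ∀ x0 ∈ A0, ∃ x, Near q Tm B x x0 ∧ (x ∈ X ∨ x ∈ Y)) :
    A0.card ≤ (X.card + Y.card) * (4 ^ B * 2 ^ Fintype.card P) := by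
  have h1 : A0 ⊆ (X ∪ Y).biUnion fun x => univ.filter fun x0 => Near q Tm B x x0 := by
    intro x0 hx0
    obtain ⟨x, h2, h3⟩ := h x0 hx0
    exact mem_biUnion.2 ⟨x, mem_union.2 h3, mem_filter.2 ⟨mem_univ _, h2⟩⟩
  refine (card_le_card h1).trans ((card_biUnion_le_card_mul _ _ _
    fun x _ => card_near q Tm B hT x).trans ?_)
  exact Nat.mul_le_mul_right _ (card_union_le _ _)

theorem tmain_num (a b d s l r L : ℕ) (hL : 105 ≤ L) (hr : 1 ≤ r)
    (h1 : 2 ^ (l * r) ≤ 4 ^ r * a) (h2 : a ≤ (b + d) * (4 ^ ((L + 105) * r) * 2 ^ r))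
    (h3 : b * 2 ^ (5 * L * r) ≤ (l + 1) * 4 ^ r * 2 ^ (l * r)) (h4 : l + 1 < 2 ^ r)
    (h5 : d ≤ s * 2 ^ ((L + 25) * r)) : 2 ^ (l * r) ≤ s * 2 ^ ((5 * L + 29) * r) := by
  have e4 : ∀ t : ℕ, 4 ^ t = 2 ^ (2 * t) := fun t => by rw [pow_mul]; norm_num
  have hLr : 105 * r ≤ L * r := Nat.mul_le_mul_right _ hL
  have k1 : 4 ^ r * (4 ^ ((L + 105) * r) * 2 ^ r) ≤ 2 ^ ((4 * L + 3) * r) := by
    rw [e4, e4, ← pow_add, ← pow_add]
    exact Nat.pow_le_pow_right (by norm_num) (by nlinarith)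
  have k2 : 2 * 2 ^ ((4 * L + 3) * r) * 2 ^ (3 * r) ≤ 2 ^ (5 * L * r) := by
    rw [← pow_succ', ← pow_add]
    exact Nat.pow_le_pow_right (by norm_num) (by nlinarith)
  have k3 : (l + 1) * 4 ^ r ≤ 2 ^ (3 * r) := by
    calc (l + 1) * 4 ^ r ≤ 2 ^ r * 4 ^ r := Nat.mul_le_mul_right _ h4.le
      _ = 2 ^ (3 * r) := by rw [e4, ← pow_add]; congr 1; ring
  have k4 : 2 * 2 ^ ((L + 25) * r) * 2 ^ ((4 * L + 3) * r) ≤ 2 ^ ((5 * L + 29) * r) := by
    rw [← pow_succ', ← pow_add]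
    exact Nat.pow_le_pow_right (by norm_num) (by nlinarith)
  generalize 2 ^ (l * r) = X at *
  generalize 2 ^ ((4 * L + 3) * r) = M at *
  have k5 : X ≤ (b + d) * M := by
    calc X ≤ 4 ^ r * a := h1
      _ ≤ 4 ^ r * ((b + d) * (4 ^ ((L + 105) * r) * 2 ^ r)) := Nat.mul_le_mul_left _ h2
      _ = (b + d) * (4 ^ r * (4 ^ ((L + 105) * r) * 2 ^ r)) := by ring
      _ ≤ (b + d) * M := Nat.mul_le_mul_left _ k1
  have k6 : 2 * (b * M) ≤ X := by
    refine Nat.le_of_mul_le_mul_right (c := 2 ^ (3 * r)) ?_ (by positivity)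
    calc 2 * (b * M) * 2 ^ (3 * r) = b * (2 * M * 2 ^ (3 * r)) := by ring
      _ ≤ b * 2 ^ (5 * L * r) := Nat.mul_le_mul_left _ k2
      _ ≤ (l + 1) * 4 ^ r * X := h3
      _ ≤ 2 ^ (3 * r) * X := Nat.mul_le_mul_right _ k3
      _ = X * 2 ^ (3 * r) := mul_comm _ _
  have k7 : X ≤ 2 * (d * M) := by
    rw [add_mul] at k5
    omega
  calc X ≤ 2 * (d * M) := k7
    _ ≤ 2 * (s * 2 ^ ((L + 25) * r) * M) := Nat.mul_le_mul_left _ (Nat.mul_le_mul_right _ h5)
    _ = s * (2 * 2 ^ ((L + 25) * r) * M) := by ring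
    _ ≤ s * 2 ^ ((5 * L + 29) * r) := Nat.mul_le_mul_left _ k4

theorem tmain_real (s k n l r c : ℕ) (hk : 0 < k) (h1 : 2 ^ (l * r) ≤ s * 2 ^ (c * r))
    (h2 : k * n + k * (c * r) ≤ k * (l * r) + (3 * c + 1) * n) :
    (2 : ℝ) ^ ((1 - ((3 * c + 1 : ℕ) : ℝ) / (k : ℝ)) * (n : ℝ)) ≤ (s : ℝ) := by
  have hk' : (0 : ℝ) < k := by exact_mod_cast hk
  have h3 : (1 - ((3 * c + 1 : ℕ) : ℝ) / (k : ℝ)) * (n : ℝ) ≤
      ((l * r : ℕ) : ℝ) - ((c * r : ℕ) : ℝ) := by
    have h4 : (k : ℝ) * n + k * ((c * r : ℕ) : ℝ) ≤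
        k * ((l * r : ℕ) : ℝ) + ((3 * c + 1 : ℕ) : ℝ) * n := by exact_mod_cast h2
    refine le_of_mul_le_mul_left ?_ hk'
    have : (k : ℝ) * ((1 - ((3 * c + 1 : ℕ) : ℝ) / (k : ℝ)) * (n : ℝ)) =
        k * n - ((3 * c + 1 : ℕ) : ℝ) * n := by field_simp
    rw [this]
    linarith
  refine (Real.rpow_le_rpow_of_exponent_le (by norm_num) h3).trans ?_
  rw [Real.rpow_sub (by norm_num), Real.rpow_natCast, Real.rpow_natCast,
    div_le_iff₀ (by positivity)]
  exact_mod_cast h1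

/-- Labels of the even points: the own hole or the previous hole. -/
def tmainF {h : ℕ} (hh : 1 ≤ h) (i0 : ι) (u : Fin (h + 1)) (a : ι → Bool) : Fin h :=
  if a i0 = false then ⟨min u (h - 1), by omega⟩ else ⟨u - 1, by omega⟩

omit [Fintype P] [Fintype H] [DecidableEq P] [DecidableEq H] in
theorem tmain_start {h : ℕ} (hh : 1 ≤ h) (i0 i1 : ι) (h01 : i0 ≠ i1)
    (Γ : Fin (h + 1) → (ι → Bool) → Fin h) (x0 : Fin (h + 1) → ι → Bool)
    (hx : ∀ u, ¬ OddPt (x0 u) ∧ x0 u i0 = false) :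
    (∀ u w, u ≠ Fin.last h → w ≠ Fin.last h →
      mixLab (tmainF hh i0 u) (Γ u) (x0 u) = mixLab (tmainF hh i0 w) (Γ w) (x0 w) → u = w) ∧
    ∀ w, Relation.ReflTransGen (Arc (fun u => mixLab (tmainF hh i0 u) (Γ u)) (fun _ => univ) x0
      (Fin.last h)) (Fin.last h) w := by
  have hv : ∀ u, (mixLab (tmainF hh i0 u) (Γ u) (x0 u)).val = min u.val (h - 1) := by
    intro u
    simp only [mixLab, if_neg (hx u).1, tmainF, if_pos (hx u).2]
  constructor
  · intro u w hu hw e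
    have h1 := hv u
    have h2 := hv w
    have h3 := Fin.val_lt_last hu
    have h4 := Fin.val_lt_last hw
    rw [e] at h1
    exact Fin.ext (by omega)
  · intro w
    induction w using Fin.reverseInduction with
    | last => exact Relation.ReflTransGen.refl
    | cast i ih =>
      refine ih.tail ⟨(Fin.castSucc_lt_last i).ne, ?_⟩
      set a := x0 i.succ with ha
      set b := Function.update a i0 (!a i0) with hb
      refine ⟨Function.update b i1 (!b i1), fun j hj => absurd (mem_univ j) hj, Fin.ext ?_⟩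
      have h1 : ¬ OddPt (Function.update b i1 (!b i1)) := by
        rw [tmain_flip, not_not, hb, tmain_flip]; exact (hx _).1
      have h2 : ¬ Function.update b i1 (!b i1) i0 = false := by
        rw [Function.update_of_ne h01, hb, Function.update_self, ha, (hx _).2]; simp
      rw [hv]
      simp only [mixLab, if_neg h1, tmainF, if_neg h2, Fin.val_succ, Fin.val_castSucc]
      omega

theorem tree_main : ∃ C : ℝ, ∃ k₀ : ℕ, ∀ k : ℕ, k₀ ≤ k → ∃ n₀ : ℕ, ∀ n : ℕ, n₀ ≤ n →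
    ∃ F : Finset (Finset (Fin n × Bool)),
      (∀ D ∈ F, D.card ≤ k) ∧
      (∀ a : Fin n → Bool, ∃ D ∈ F, ∀ l ∈ D, a l.1 ≠ l.2) ∧
      ∀ (s : ℕ) (Pc : Fin s → Finset (Fin n × Bool))
        (J : Fin s → Option (Fin s × Fin s × Fin n)),
        (∃ i : Fin s, Pc i = ∅) →
        (∀ i : Fin s, J i = none → Pc i ∈ F) →
        (∀ (i j l : Fin s) (x : Fin n), J i = some (j, l, x) → j < i ∧ l < i ∧
          Pc i = (Pc j).erase (x, true) ∪ (Pc l).erase (x, false)) →
        (∀ (i j l : Fin s) (x : Fin n), J i = some (j, l, x) → j ≠ l) →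
        (∀ (i i' j l : Fin s) (x : Fin n) (j' l' : Fin s) (x' : Fin n) (c : Fin s),
          J i = some (j, l, x) → J i' = some (j', l', x') →
          (c = j ∨ c = l) → (c = j' ∨ c = l') → i = i') →
        (2 : ℝ) ^ ((1 - C / (k : ℝ)) * (n : ℝ)) ≤ (s : ℝ) := by
  obtain ⟨L0, -, hlab⟩ := exists_lab
  obtain ⟨L, hL0, hL⟩ : ∃ L, L0 ≤ L ∧ 105 ≤ L := ⟨max L0 105, le_max_left _ _, le_max_right _ _⟩
  refine ⟨((3 * (5 * L + 29) + 1 : ℕ) : ℝ), 2 * L, fun k hk => ?_⟩
  obtain ⟨l, hl1, hl2⟩ : ∃ l, 2 * l ≤ k ∧ k ≤ 2 * l + 1 := ⟨k / 2, by omega, by omega⟩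
  obtain ⟨r0, hr0⟩ := mN_props l L (by omega)
  refine ⟨max (k * k) (l * (r0 + 2)), fun n hn => ?_⟩
  have hn1 : k * k ≤ n := (le_max_left _ _).trans hn
  have hn2 : l * (r0 + 2) ≤ n := (le_max_right _ _).trans hn
  have hl0 : 0 < l := by omega
  have hr : r0 + 2 ≤ n / l := (Nat.le_div_iff_mul_le hl0).2 (by rwa [mul_comm])
  obtain ⟨h, hh⟩ : ∃ h, n / l = h + 1 := ⟨n / l - 1, by omega⟩
  have hh1 : 1 ≤ h := by omega
  have hle : (h + 1) * l ≤ n := hh ▸ Nat.div_mul_le_self n l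
  have hlt : n < (h + 1) * l + l := hh ▸ Nat.lt_div_mul_add hl0
  obtain ⟨j0, hj, hbig, hsum, hmL, hlr⟩ := hr0 (h + 1) (by omega)
  let i0 : Fin l := ⟨0, hl0⟩
  let i1 : Fin l := ⟨1, by omega⟩
  have h01 : i0 ≠ i1 := by simp [i0, i1]
  have : Nonempty (Fin h) := ⟨⟨0, hh1⟩⟩
  obtain ⟨Γ, hΓ⟩ := hlab (Fin (h + 1)) (Fin h) (Fin l) (tmainF hh1 i0) (by simp)
    (by simpa using hlr)
  let lab : Fin (h + 1) → (Fin l → Bool) → Fin h := fun u => mixLab (tmainF hh1 i0 u) (Γ u)
  let enc : Fin (h + 1) × Fin l → Fin n := fun p => Fin.castLE hle (finProdFinEquiv p)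
  have henc : Function.Injective enc :=
    (Fin.castLE_injective hle).comp finProdFinEquiv.injective
  obtain ⟨F, hF1, hF2, hF3⟩ := tmain_form lab enc (by simp)
  refine ⟨F, fun D hD => (hF1 D hD).trans (by simpa using hl1), hF2,
    fun s Pc J h0 hax hres hne htree => ?_⟩
  obtain ⟨q, Tm, hq, hT, hdeep⟩ := tree_system lab enc henc F hF3 Pc J h0 hax hres hne htree
  have hbad := card_badX lab q Tm hq hT L (by simp)
    fun μ h1 h2 T h3 => hΓ μ (hL0.trans h1) h2 T h3
  have hcnt := tmain_count q Tm ((L + 105) * Fintype.card (Fin (h + 1))) hT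
    (Fintype.piFinset fun _ => univ.filter fun a : Fin l → Bool => ¬ OddPt a ∧ a i0 = false)
    (univ.filter fun x => BadX lab q Tm (mN (Fintype.card (Fin (h + 1)))) L x)
    (univ.filter fun x => DeepX lab q ((L + 25) * Fintype.card (Fin (h + 1))) x) (by
      intro x0 hx0
      have hx : ∀ u, ¬ OddPt (x0 u) ∧ x0 u i0 = false := fun u =>
        (mem_filter.1 (Fintype.mem_piFinset.1 hx0 u)).2
      obtain ⟨h1, h2⟩ := tmain_start hh1 i0 i1 h01 Γ x0 hx
      obtain ⟨x, h3, h4⟩ := dyn lab q Tm hq hT (by simp) (mN (Fintype.card (Fin (h + 1)))) L j0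
        (by omega) (by simp only [Fintype.card_fin]; omega) (mN_anti _) (by simpa using hj)
        (by simpa only [Fintype.card_fin] using hbig) (by simpa only [Fintype.card_fin] using hsum)
        (by simpa only [Fintype.card_fin] using hmL) x0 (Fin.last h) h1 h2
      exact ⟨x, h3, by simpa only [mem_filter, mem_univ, true_and] using h4⟩)
  have hE := tmain_even i0 i1 h01
  have hd := hdeep ((L + 25) * Fintype.card (Fin (h + 1)))
  rw [Fintype.card_piFinset, prod_const, card_univ] at hcnt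
  simp only [Fintype.card_fin] at hcnt hbad hE hd
  have hmain := tmain_num _ _ _ s l (h + 1) L hL (by omega)
    (by rw [pow_mul, ← mul_pow]; exact Nat.pow_le_pow_left hE _) hcnt hbad hlr hd
  refine tmain_real s k n l (h + 1) _ (by omega) hmain ?_
  have e1 : k * n ≤ k * (l * (h + 1)) + n := by
    calc k * n ≤ k * (l * (h + 1) + l) := Nat.mul_le_mul_left _ (by rw [mul_comm l]; omega)
      _ = k * (l * (h + 1)) + k * l := by ring
      _ ≤ k * (l * (h + 1)) + k * k := Nat.add_le_add_left (Nat.mul_le_mul_left _ (by omega)) _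
      _ ≤ _ := Nat.add_le_add_left hn1 _
  have e2 : k * (h + 1) ≤ 3 * n := by
    calc k * (h + 1) ≤ (3 * l) * (h + 1) := Nat.mul_le_mul_right _ (by omega)
      _ = 3 * ((h + 1) * l) := by ring
      _ ≤ 3 * n := Nat.mul_le_mul_left _ hle
  have e3 : k * ((5 * L + 29) * (h + 1)) ≤ 3 * (5 * L + 29) * n := by
    calc k * ((5 * L + 29) * (h + 1)) = (5 * L + 29) * (k * (h + 1)) := by ring
      _ ≤ (5 * L + 29) * (3 * n) := Nat.mul_le_mul_left _ e2
      _ = _ := by ring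
  rw [add_mul (3 * (5 * L + 29)), one_mul]
  omega

end Pool.Agent.P.MP_0f6e60_lc.T
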