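import Pool.Agent.P.MP_0f6e60_lc.Game

set_option autoImplicit false

namespace Pool.Agent.P.MP_0f6e60_lc

open Finset

variable {n S : ℕ} {ι : Type} [Fintype ι] [DecidableEq ι]

/-- `p 0, ..., p t` is a path of the proof graph with pivots `v 0, ..., v (t-1)`. -/
def IsPath (J : Fin S → Option (Fin S × Fin S × Fin n)) (t : ℕ) (p : ℕ → Fin S)
    (v : ℕ → Fin n) : Prop :=
  ∀ r < t, ∃ j l, J (p r) = some (j, l, v r) ∧ (p (r + 1) = j ∨ p (r + 1) = l)

/-- The state of the adversary at node `i`. -/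
def Good (c : ι → Finset (Fin n × Bool)) (P : Fin S → Finset (Fin n × Bool))
    (J : Fin S → Option (Fin S × Fin S × Fin n)) (s w d : ℕ) (z0 : Fin n → Bool)
    (i : Fin S) (lim : ℕ) : Prop :=
  ∃ (z : Fin n → Bool) (B U N Fl : Finset (Fin n)) (K : Finset ι) (ph τ t : ℕ) (p : ℕ → Fin S)
    (v : ℕ → Fin n), St c s z B U K ∧ Expands c s 2 z (B ∪ U) ∧
    (∀ l ∈ P i, l.1 ∈ B ∪ U ∧ z l.1 ≠ l.2) ∧ N ⊆ B ∧ B.card ≤ w + N.card ∧ N.card ≤ lim ∧
    Fl.card ≤ 2 * s * ph ∧ (∀ x, x ∉ Fl ∪ U → z x = z0 x) ∧ IsPath J t p v ∧ p t = i ∧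
    τ ≤ t ∧ N ⊆ (Ico τ t).image v ∧ ∀ g : ℕ → ℕ, Monotone g →
      (∀ j, (((range t).filter fun r => g r = j).image v).card ≤ d) → ph ≤ g τ

omit [Fintype ι] [DecidableEq ι] in
lemma Expands.one {c : ι → Finset (Fin n × Bool)} {s : ℕ} {z : Fin n → Bool}
    {T : Finset (Fin n)} (h : Expands c s 2 z T) : Expands c s 1 z T := by
  intro K hK hu
  have := h K hK hu
  omega

omit [Fintype ι] [DecidableEq ι] in
lemma Expands.insert {c : ι → Finset (Fin n × Bool)} {s : ℕ} {z : Fin n → Bool}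
    {T : Finset (Fin n)} (h : Expands c s 2 z T) (x : Fin n) : Expands c s 1 z (insert x T) := by
  intro K hK hu
  have h1 := h K hK fun i hi l hl hT => hu i hi l hl (mem_insert_of_mem hT)
  rcases K.eq_empty_or_nonempty with rfl | hne
  · simp
  have h2 := hne.card_pos
  have h3 : vars c K \ T ⊆ Insert.insert x (vars c K \ Insert.insert x T) := by
    intro y hy
    simp only [mem_insert, mem_sdiff] at hy ⊢
    tauto
  have h4 := (card_le_card h3).trans (card_insert_le _ _)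
  omega

omit [Fintype ι] in
lemma St.empty {c : ι → Finset (Fin n × Bool)} {s : ℕ} (hs : 1 ≤ s) (z : Fin n → Bool)
    (B : Finset (Fin n)) : St c s z B ∅ ∅ :=
  ⟨by simp, by simp, by simp, by rw [card_empty]; omega⟩

variable {c : ι → Finset (Fin n × Bool)} {P : Fin S → Finset (Fin n × Bool)}
  {J : Fin S → Option (Fin S × Fin S × Fin n)} {s w q d a : ℕ} {z0 : Fin n → Bool}

lemma good_root (hS : Sparse c s a) (ha : w + q + 8 * s ≤ a) (hs : 1 ≤ s) (v0 : Fin n)
    (h0 : ∀ K : Finset ι, K.card ≤ s → K.card ≤ (vars c K).card) {i : Fin S} (hi : P i = ∅) :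
    Good c P J s w d z0 i q := by
  obtain ⟨z, U, K, h1, -, h3, h4⟩ := closure (T := ∅) hS (St.empty hs z0 ∅) (by simp)
    (fun K hK _ => by simpa using h0 K hK) (by simp; omega)
  exact ⟨z, ∅, U, ∅, ∅, K, 0, 0, 0, fun _ => i, fun _ => v0, h1, h4, by simp [hi], by simp,
    by simp, by simp, by simp, fun x hx => h3 x (Or.inr (by simpa using hx)),
    fun r hr => absurd hr (by omega), rfl, le_rfl, by simp, by simp⟩

lemma good_prepare (hS : Sparse c s a) (ha : w + q + 8 * s ≤ a) (hs : 1 ≤ s) (hq : d < q)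
    {i : Fin S} (h : Good c P J s w d z0 i q) (hw : ((P i).image Prod.fst).card < w) :
    Good c P J s w d z0 i (q - 1) := by
  obtain ⟨z, B, U, N, Fl, K, ph, τ, t, p, v, h1, h2, h3, h4, h5, h6, h7, h8, h9, h10, h11, h12,
    h13⟩ := h
  by_cases hN : N.card ≤ q - 1
  · exact ⟨z, B, U, N, Fl, K, ph, τ, t, p, v, h1, h2, h3, h4, h5, hN, h7, h8, h9, h10, h11, h12,
      h13⟩
  have hT : (P i).image Prod.fst ∪ ∅ ⊆ B ∪ U := by
    intro x hx
    rw [union_empty] at hx
    obtain ⟨l, hl, rfl⟩ := mem_image.1 hx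
    exact (h3 l hl).1
  obtain ⟨z', U', K', g1, -, g3, g4⟩ := closure (T := B ∪ U) hS
    (St.empty hs z ((P i).image Prod.fst)) hT h2.one (by omega)
  refine ⟨z', _, U', ∅, Fl ∪ U, K', ph + 1, t, t, p, v, g1, g4, ?_, by simp, by simp; omega,
    by simp, ?_, ?_, h9, h10, le_rfl, by simp, ?_⟩
  · intro l hl
    refine ⟨mem_union_left _ (mem_image_of_mem _ hl), ?_⟩
    rw [g3 _ (Or.inl (h3 l hl).1)]
    exact (h3 l hl).2
  · have := card_union_le Fl U
    have := h1.hU
    have := h1.hs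
    rw [Nat.mul_succ]; omega
  · intro x hx
    rw [mem_union, not_or] at hx
    rw [g3 x (Or.inr hx.2), h8 x hx.1]
  · intro g hg hb
    have e1 := h13 g hg hb
    by_contra hlt
    have e2 : N ⊆ ((range t).filter fun r => g r = g τ).image v := by
      refine h12.trans (image_subset_image fun r hr => ?_)
      obtain ⟨r1, r2⟩ := mem_Ico.1 hr
      have := hg r1
      have := hg r2.le
      exact mem_filter.2 ⟨mem_range.2 r2, by omega⟩
    have := (card_le_card e2).trans (hb _)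
    omega

omit [Fintype ι] [DecidableEq ι] in
lemma path_extend {t : ℕ} {p : ℕ → Fin S} {v : ℕ → Fin n} (h : IsPath J t p v) {j l k : Fin S}
    {x : Fin n} (hJ : J (p t) = some (j, l, x)) (hk : k = j ∨ k = l) :
    IsPath J (t + 1) (fun r => if r ≤ t then p r else k) (fun r => if r < t then v r else x) := by
  intro r hr
  by_cases h1 : r < t
  · obtain ⟨j', l', e1, e2⟩ := h r h1
    refine ⟨j', l', ?_, ?_⟩
    · simp only [if_pos h1.le, if_pos h1, e1]
    · simp only [if_pos (show r + 1 ≤ t by omega), e2]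
  · obtain rfl : r = t := by omega
    refine ⟨j, l, ?_, ?_⟩
    · simp only [le_refl, if_true, lt_irrefl, if_false, hJ]
    · simp only [if_neg (show ¬ r + 1 ≤ r by omega), hk]

lemma good_advance (hS : Sparse c s a) (ha : w + q + 8 * s ≤ a) (hq : d < q) {i j l : Fin S}
    {x : Fin n} (h : Good c P J s w d z0 i (q - 1)) (hJ : J i = some (j, l, x))
    (hP : P i = (P j).erase (x, true) ∪ (P l).erase (x, false)) :
    Good c P J s w d z0 j q ∨ Good c P J s w d z0 l q := by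
  obtain ⟨z, B, U, N, Fl, K, ph, τ, t, p, v, h1, h2, h3, h4, h5, h6, h7, h8, h9, h10, h11, h12,
    h13⟩ := h
  have key : ∃ (z' : Fin n → Bool) (B' U' N' : Finset (Fin n)) (K' : Finset ι),
      St c s z' B' U' K' ∧ Expands c s 2 z' (B' ∪ U') ∧
      (∀ l ∈ P i, l.1 ∈ B' ∪ U' ∧ z' l.1 ≠ l.2) ∧ x ∈ B' ∪ U' ∧ N' ⊆ B' ∧
      B'.card ≤ w + N'.card ∧ N'.card ≤ q ∧ (∀ y, y ∉ Fl ∪ U' → z' y = z0 y) ∧
      N' ⊆ insert x N := by
    by_cases hx : x ∈ B ∪ U
    · exact ⟨z, B, U, N, K, h1, h2, h3, hx, h4, h5, by omega, h8, subset_insert _ _⟩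
    have hxB : x ∉ B := fun h => hx (mem_union_left _ h)
    have hxN : x ∉ N := fun h => hxB (h4 h)
    have hst : St c s z (insert x B) U K := by
      refine ⟨h1.hU, fun i hi l hl => ?_, fun i hi => ?_, h1.hs⟩
      · rcases h1.hK i hi l hl with e | e
        · exact Or.inl e
        · exact Or.inr ⟨mem_insert_of_mem e.1, e.2⟩
      · obtain ⟨l, hl, e1, e2⟩ := h1.hsat i hi
        refine ⟨l, hl, ?_, e2⟩
        rw [insert_union]; exact mem_insert_of_mem e1
    obtain ⟨z', U', K', g1, g2, g3, g4⟩ := closure (T := insert x (B ∪ U)) hS hst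
      (by rw [insert_union]) (h2.insert x) (by rw [card_insert_of_notMem hxB]; omega)
    refine ⟨z', insert x B, U', insert x N, K', g1, g4, ?_, by simp, insert_subset_insert _ h4,
      by rw [card_insert_of_notMem hxB, card_insert_of_notMem hxN]; omega,
      by rw [card_insert_of_notMem hxN]; omega, ?_, subset_rfl⟩
    · intro l hl
      refine ⟨?_, ?_⟩
      · rcases mem_union.1 (h3 l hl).1 with e | e
        · exact mem_union_left _ (mem_insert_of_mem e)
        · exact mem_union_right _ (g2 e)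
      · rw [g3 _ (Or.inl (mem_insert_of_mem (h3 l hl).1))]
        exact (h3 l hl).2
    · intro y hy
      rw [mem_union, not_or] at hy
      rw [g3 y (Or.inr hy.2), h8 y (by
        rw [mem_union, not_or]; exact ⟨hy.1, fun e => hy.2 (g2 e)⟩)]
  obtain ⟨z', B', U', N', K', g1, g2, g3, g4, g5, g6, g7, g8, g9⟩ := key
  have fin : ∀ k : Fin S, (k = j ∨ k = l) → (∀ m ∈ P k, m.1 ∈ B' ∪ U' ∧ z' m.1 ≠ m.2) →
      Good c P J s w d z0 k q := by
    intro k hk hm
    refine ⟨z', B', U', N', Fl, K', ph, τ, t + 1, _, _, g1, g2, hm, g5, g6, g7, h7, g8,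
      path_extend h9 (h10 ▸ hJ) hk, by simp, by omega, fun y hy => ?_, fun g hg hb => ?_⟩
    · rcases mem_insert.1 (g9 hy) with rfl | hy'
      · exact mem_image.2 ⟨t, mem_Ico.2 ⟨h11, by omega⟩, by simp⟩
      · obtain ⟨r, hr, rfl⟩ := mem_image.1 (h12 hy')
        obtain ⟨r1, r2⟩ := mem_Ico.1 hr
        exact mem_image.2 ⟨r, mem_Ico.2 ⟨r1, by omega⟩, by simp [r2]⟩
    · refine h13 g hg fun u => (card_le_card fun y hy => ?_).trans (hb u)
      obtain ⟨r, hr, rfl⟩ := mem_image.1 hy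
      obtain ⟨r1, r2⟩ := mem_filter.1 hr
      have r3 := mem_range.1 r1
      exact mem_image.2 ⟨r, mem_filter.2 ⟨mem_range.2 (by omega), r2⟩, by simp [r3]⟩
  cases hz : z' x
  · left
    refine fin j (Or.inl rfl) fun m hm => ?_
    by_cases e : m = (x, true)
    · subst e; exact ⟨g4, by simp [hz]⟩
    · exact g3 m (hP ▸ mem_union_left _ (mem_erase.2 ⟨e, hm⟩))
  · right
    refine fin l (Or.inr rfl) fun m hm => ?_
    by_cases e : m = (x, false)
    · subst e; exact ⟨g4, by simp [hz]⟩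
    · exact g3 m (hP ▸ mem_union_right _ (mem_erase.2 ⟨e, hm⟩))

lemma walk (hS : Sparse c s a) (ha : w + q + 8 * s ≤ a) (hs : 1 ≤ s) (hq : d < q)
    (hax : ∀ i, J i = none → ∃ k, P i = c k)
    (hres : ∀ i j l x, J i = some (j, l, x) → j < i ∧ l < i ∧
      P i = (P j).erase (x, true) ∪ (P l).erase (x, false)) (i : Fin S)
    (h : Good c P J s w d z0 i q) :
    ∃ i', Good c P J s w d z0 i' q ∧ w ≤ ((P i').image Prod.fst).card := by
  induction' hi : i.val using Nat.strong_induction_on with m ih generalizing i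
  by_cases hw : w ≤ ((P i).image Prod.fst).card
  · exact ⟨i, h, hw⟩
  have h' := good_prepare hS ha hs hq h (by omega)
  rcases hJ : J i with _ | ⟨j, l, x⟩
  · exfalso
    obtain ⟨k, hk⟩ := hax i hJ
    obtain ⟨z, B, U, N, Fl, K, ph, τ, t, p, v, -, h2, h3, -⟩ := h
    have e := h2 {k} (by simpa using hs) (by
      intro k' hk' l hl _
      rw [mem_singleton.1 hk', ← hk] at hl
      exact (h3 l hl).2)
    have e2 : vars c {k} \ (B ∪ U) = ∅ := by
      rw [sdiff_eq_empty_iff_subset]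
      intro y hy
      obtain ⟨k', hk', l, hl, rfl⟩ := mem_vars.1 hy
      rw [mem_singleton.1 hk', ← hk] at hl
      exact (h3 l hl).1
    simp [e2] at e
  · obtain ⟨e1, e2, e3⟩ := hres i j l x hJ
    rcases good_advance hS ha hq h' hJ e3 with g | g
    · exact ih j.val (hi ▸ e1) j g rfl
    · exact ih l.val (hi ▸ e2) l g rfl

omit [Fintype ι] [DecidableEq ι] in
lemma card_agree (V : Finset (Fin n)) (Z : Finset (Fin n → Bool))
    (h : ∀ y ∈ Z, ∀ z ∈ Z, ∀ x ∈ V, y x = z x) : Z.card ≤ 2 ^ (n - V.card) := by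
  classical
  have e : Fintype.card ({x // x ∈ Vᶜ} → Bool) = 2 ^ (n - V.card) := by
    rw [Fintype.card_fun, Fintype.card_coe, card_compl, Fintype.card_bool, Fintype.card_fin]
  rw [← e, ← card_univ]
  refine card_le_card_of_injOn (fun z (x : {x // x ∈ Vᶜ}) => z x.1) (fun _ _ => mem_univ _) ?_
  intro y hy z hz hyz
  funext x
  by_cases hx : x ∈ V
  · exact h y hy z hz x hx
  · exact congrFun hyz ⟨x, mem_compl.2 hx⟩

theorem count (hS : Sparse c s a) (ha : w + q + 8 * s ≤ a) (hs : 1 ≤ s) (hq : d < q)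
    (v0 : Fin n) (h0 : ∀ K : Finset ι, K.card ≤ s → K.card ≤ (vars c K).card)
    (hroot : ∃ i, P i = ∅) (hax : ∀ i, J i = none → ∃ k, P i = c k)
    (hres : ∀ i j l x, J i = some (j, l, x) → j < i ∧ l < i ∧
      P i = (P j).erase (x, true) ∪ (P l).erase (x, false)) {R f : ℕ}
    (hpath : ∀ t p v, IsPath J t p v → ∃ g : ℕ → ℕ, Monotone g ∧ g t ≤ R ∧
      ∀ j, (((range t).filter fun r => g r = j).image v).card ≤ d)
    (hf : 2 * s * (R + 1) ≤ f) :
    2 ^ n ≤ S * ((univ.filter fun Fl : Finset (Fin n) => Fl.card ≤ f).card * 2 ^ (n - (w - f))) := by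
  classical
  obtain ⟨i0, hi0⟩ := hroot
  let Z : Fin S → Finset (Fin n) → Finset (Fin n → Bool) := fun i Fl =>
    univ.filter fun z => w ≤ ((P i).image Prod.fst).card ∧ ∀ l ∈ P i, l.1 ∉ Fl → z l.1 ≠ l.2
  have hcov : (univ : Finset (Fin n → Bool)) ⊆ univ.biUnion fun i =>
      (univ.filter fun Fl : Finset (Fin n) => Fl.card ≤ f).biUnion fun Fl => Z i Fl := by
    intro z0 _
    obtain ⟨i, hg, hw⟩ := walk (z0 := z0) hS ha hs hq hax hres i0
      (good_root hS ha hs v0 h0 hi0)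
    obtain ⟨z, B, U, N, Fl, K, ph, τ, t, p, v, h1, h2, h3, h4, h5, h6, h7, h8, h9, h10, h11, h12,
    h13⟩ := hg
    obtain ⟨g, hg, hR, hb⟩ := hpath t p v h9
    have e1 := (h13 g hg hb).trans ((hg h11).trans hR)
    have e2 : 2 * s * (ph + 1) ≤ f := (Nat.mul_le_mul_left _ (by omega)).trans hf
    refine mem_biUnion.2 ⟨i, mem_univ _, mem_biUnion.2 ⟨Fl ∪ U, mem_filter.2 ⟨mem_univ _, ?_⟩,
      mem_filter.2 ⟨mem_univ _, hw, fun l hl hl' => ?_⟩⟩⟩
    · have := card_union_le Fl U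
      have := h1.hU
      have := h1.hs
      rw [Nat.mul_succ] at e2; omega
    · rw [← h8 _ hl']; exact (h3 l hl).2
  have hZ : ∀ i, ∀ Fl ∈ univ.filter fun Fl : Finset (Fin n) => Fl.card ≤ f,
      (Z i Fl).card ≤ 2 ^ (n - (w - f)) := by
    intro i Fl hFl
    rcases (Z i Fl).eq_empty_or_nonempty with e | ⟨z1, hz1⟩
    · simp [e]
    have hw := (mem_filter.1 hz1).2.1
    refine (card_agree ((P i).image Prod.fst \ Fl) _ ?_).trans (Nat.pow_le_pow_right two_pos ?_)
    · intro y hy z hz x hx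
      obtain ⟨hx1, hx2⟩ := mem_sdiff.1 hx
      obtain ⟨l, hl, rfl⟩ := mem_image.1 hx1
      have a1 := (mem_filter.1 hy).2.2 l hl hx2
      have a2 := (mem_filter.1 hz).2.2 l hl hx2
      cases e1 : y l.1 <;> cases e2 : z l.1 <;> cases e3 : l.2 <;> simp_all
    · have := le_card_sdiff Fl ((P i).image Prod.fst)
      have := (mem_filter.1 hFl).2
      omega
  calc 2 ^ n = (univ : Finset (Fin n → Bool)).card := by simp
    _ ≤ _ := card_le_card hcov
    _ ≤ _ := by
      refine (card_biUnion_le_card_mul _ _ _ fun i _ => card_biUnion_le_card_mul _ _ _ (hZ i)).trans ?_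
      simp

end Pool.Agent.P.MP_0f6e60_lc
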